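import Pool.Agent.H646.EC.Stm

set_option autoImplicit false

/-! # Assembly of the rigidity statement -/

namespace Pool.Agent.H646.EC
noncomputable section

theorem coprime_of_small (d : Dat) (a : Fin d.m) (m : ℕ) (h : ∀ q : ℕ, q.Prime → q ∣ m → q < 13) :
    Nat.Coprime m (d.r a) := by
  rw [Nat.coprime_comm, Nat.Prime.coprime_iff_not_dvd (d.rp a)]
  intro hd
  have h1 := h _ (d.rp a) hd
  have h2 := d.big a
  have h3 := d.big' a
  omega

theorem isUnit_natK (d : Dat) (m : ℕ) (h : ∀ q : ℕ, q.Prime → q ∣ m → q < 13) :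
    IsUnit ((m : ℕ) : d.K) := by
  rw [Pi.isUnit_iff]
  intro a
  have : ((m : d.K) a) = ((m : ℕ) : ZMod (d.r a)) := by simp
  rw [this, ZMod.isUnit_iff_coprime]
  exact coprime_of_small d a m h

theorem isUnit_two (d : Dat) : IsUnit (2 : d.K) := by
  have := isUnit_natK d 2 (fun q hq hd => by
    have := Nat.le_of_dvd (by norm_num) hd
    omega)
  simpa using this

theorem isUnit_175 (d : Dat) : IsUnit (175 : d.K) := by
  have := isUnit_natK d 175 (fun q hq hd => by
    have h : q ∣ 5 * 5 * 7 := by simpa using hd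
    rcases (Nat.Prime.dvd_mul hq).1 h with h | h
    · rcases (Nat.Prime.dvd_mul hq).1 h with h | h
      · have := Nat.le_of_dvd (by norm_num) h; omega
      · have := Nat.le_of_dvd (by norm_num) h; omega
    · have := Nat.le_of_dvd (by norm_num) h; omega)
  simpa using this

theorem nontrivialK (d : Dat) : Nontrivial d.K := by
  refine ⟨0, 1, fun h => ?_⟩
  have h1 := congrFun h ⟨0, d.mpos⟩
  have : Fact (1 < d.r ⟨0, d.mpos⟩) := ⟨(d.rp _).one_lt⟩
  exact zero_ne_one h1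

/-- A word in the lifts. -/
theorem lift_comp {G : Type} [Group G] (f : F7 →* G) (v : Fin 7 → F7) (w : F7) :
    FreeGroup.lift (fun j => f (v j)) w = f (FreeGroup.lift v w) := by
  have : FreeGroup.lift (fun j => f (v j)) = f.comp (FreeGroup.lift v) := by
    refine FreeGroup.ext_hom _ _ fun i => ?_
    simp
  exact DFunLike.congr_fun this w

theorem rig_block (hnorm : S_norm) (hpos : S_pos) (hgen : S_gen) (hwt : S_wt) (halg : S_alg)
    (hlam : S_lam) (d : Dat) (cc : Fin d.m → Bool) (n : ℕ) [NeZero n]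
    (c : Fin 7 → Blk n d.K (gam d cc) (gam d cc)) (hn : 5 ≤ n)
    (hlab : Lab (fun j => (c j).right)) (hrel : Rel c) (hg : Gen c) :
    ∃ (h : NN n d.K (gam d cc) (gam d cc)) (x0 : ZMod n)
      (ε : ZMod 6) (m1 m2 : O × O) (w : (ZMod 6 → d.K) × (ZMod 6 → d.K))
      (Λ : U d.K (gam d cc) (gam d cc) ≃* U d.K (gam d cc) (gam d cc)),
      NF2 c h x0 ε m1 m2 w ∧
      (∀ (s : ZMod 6) (e : ZMod 2) u, Λ (uact (s, e) u) = uact (ε * s, e) (Λ u)) ∧
      Λ (xg _ _, 1) = um m1 ∧ Λ (1, xg _ _) = um m2 ∧ Λ (wg _ _, wg _ _) = uw w := by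
  have := nontrivialK d
  obtain ⟨h, m1, m2, w, H1⟩ := hnorm n d.K _ _ c (isUnit_two d) hlab hrel hg
  obtain ⟨x0, ε, m1', m2', w', H2⟩ := hpos n d.K _ _ c h m1 m2 w hn (isUnit_two d) (isUnit_175 d)
    hlab hrel hg H1
  obtain ⟨G1, G2, G3⟩ := hgen d cc n c h x0 ε m1' m2' w' hg H2
  obtain ⟨W1, W2⟩ := hwt d cc n c h x0 ε m1' m2' w' hrel H2
  have A := halg d cc ε m1' m2' w' H2.hε G1 G2 G3 W1 W2
  obtain ⟨Λ, L1, L2, L3, L4⟩ := hlam d cc ε m1' m2' w' H2.hε G1 A
  exact ⟨h, x0, ε, m1', m2', w', Λ, H2, L1, L2, L3, L4⟩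

theorem hol_eq_one_iff (n : ℕ) (K : Type) [CommRing K] (γ₁ γ₂ : Kˣ) (g : Blk n K γ₁ γ₂) :
    hol n K γ₁ γ₂ g = 1 ↔ g.left = 1 ∧ nact n K γ₁ γ₂ g.right = 1 := by
  rw [SemidirectProduct.ext_iff]
  simp [hol, SemidirectProduct.map_left, SemidirectProduct.map_right]

theorem rig (hnn : S_nn) (hphi : S_phi) (hL : S_L) (hlab0 : S_lab0) (hmono : S_mono)
    (hnorm : S_norm) (hpos : S_pos) (hgen : S_gen) (hwt : S_wt) (halg : S_alg)
    (hlam : S_lam) (htt : S_tt) (hcoc : S_coc) (hodd : S_odd) (hfaith : S_faith) : S_rig := by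
  obtain ⟨n1, n2, n3, n4, n5, n6⟩ := hnn
  intro d cc ψ hψ hS
  have hnz : ∀ i, NeZero (nn i) := fun i => ⟨(n1 i).ne_zero⟩
  -- lifts
  have hl : ∀ j : Fin 7, ∃ v : F7, QuotientGroup.mk v = ψ (FreeGroup.of j) := fun j =>
    QuotientGroup.mk_surjective _
  choose v hv using hl
  have hV : ∀ w : F7, (QuotientGroup.mk (FreeGroup.lift v w) : BG (base d) (gams d cc) (gams d cc)) =
      ψ w := by
    intro w
    have : ψ = (QuotientGroup.mk' (BN (base d) (gams d cc) (gams d cc))).comp (FreeGroup.lift v) := by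
      refine FreeGroup.ext_hom _ _ fun j => ?_
      simp [hv]
    rw [this]
    rfl
  have hBN : ∀ a b : F7, (QuotientGroup.mk a : BG (base d) (gams d cc) (gams d cc)) =
      QuotientGroup.mk b ↔ ∀ i, Bpi (base d) (gams d cc) (gams d cc) i a =
        Bpi (base d) (gams d cc) (gams d cc) i b := by
    intro a b
    rw [QuotientGroup.eq, mem_BN]
    refine forall_congr' fun i => ?_
    rw [map_mul, map_inv, inv_mul_eq_one]
  -- the tuples in the blocks
  set c : ∀ i, Fin 7 → Blk (nn i) (d i).K (gam (d i) (cc i)) (gam (d i) (cc i)) :=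
    fun i j => pi (nn i) (d i).K (gam (d i) (cc i)) (gam (d i) (cc i)) (v j) with hc
  have hlift : ∀ i w, FreeGroup.lift (c i) w =
      pi (nn i) (d i).K (gam (d i) (cc i)) (gam (d i) (cc i)) (FreeGroup.lift v w) := by
    intro i w
    exact lift_comp (pi (nn i) (d i).K (gam (d i) (cc i)) (gam (d i) (cc i))) v w
  have hrel : ∀ i, Rel (c i) := by
    intro i w hw
    rw [hlift]
    have h1 := hV w
    rw [hS w hw] at h1
    have h2 := (hBN (FreeGroup.lift v w) 1).1 h1 i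
    rw [map_one] at h2
    exact h2
  have hgn : ∀ i, Gen (c i) := by
    intro i u
    obtain ⟨w, hw, _⟩ := hL d cc cc i u
    obtain ⟨w', hw'⟩ := hψ (QuotientGroup.mk w)
    rw [← hV w'] at hw'
    refine ⟨w', ?_⟩
    rw [hlift]
    exact ((hBN _ _).1 hw' i).trans hw
  set q : Fin 7 → Q0 := fun j => Phi (v j) with hq
  have hqr : ∀ i j, (c i j).right = q j := fun i j => pi_right _ _ _ _ _
  have hlq : ∀ w, FreeGroup.lift q w = Phi (FreeGroup.lift v w) := fun w => lift_comp Phi v w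
  have hqS : ∀ w ∈ Sig, FreeGroup.lift q w = 1 := by
    intro w hw
    rw [hlq]
    have h1 := hrel 0 w hw
    rw [hlift] at h1
    rw [← pi_right (nn 0) (d 0).K (gam (d 0) (cc 0)) (gam (d 0) (cc 0)), h1]
    rfl
  have hqtop : Subgroup.closure (Set.range q) = ⊤ := by
    rw [eq_top_iff]
    intro x _
    obtain ⟨w, rfl⟩ := hphi x
    obtain ⟨w', hw'⟩ := hψ (QuotientGroup.mk w)
    rw [← hV w'] at hw'
    have h1 := (hBN _ _).1 hw' 0
    have h2 : Phi (FreeGroup.lift v w') = Phi w := by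
      rw [← pi_right (nn 0) (d 0).K (gam (d 0) (cc 0)) (gam (d 0) (cc 0)),
        ← pi_right (nn 0) (d 0).K (gam (d 0) (cc 0)) (gam (d 0) (cc 0))]
      exact congrArg SemidirectProduct.right h1
    rw [← h2, ← hlq]
    have h3 : FreeGroup.lift q w' ∈ (FreeGroup.lift q).range := ⟨w', rfl⟩
    rwa [FreeGroup.range_lift_eq_closure] at h3
  have hlab : Lab q := hmono q hqtop (hlab0 q hqS hqtop)
  have hlabi : ∀ i, Lab (fun j => (c i j).right) := by
    intro i
    have : (fun j => (c i j).right) = q := funext fun j => hqr i j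
    rw [this]
    exact hlab
  -- normal forms
  have hNF : ∀ i, ∃ (h : NN (nn i) (d i).K (gam (d i) (cc i)) (gam (d i) (cc i))) (x0 : ZMod (nn i))
      (ε : ZMod 6) (m1 m2 : O × O) (w : (ZMod 6 → (d i).K) × (ZMod 6 → (d i).K))
      (Λ : U (d i).K (gam (d i) (cc i)) (gam (d i) (cc i)) ≃*
        U (d i).K (gam (d i) (cc i)) (gam (d i) (cc i))),
      NF2 (c i) h x0 ε m1 m2 w ∧
      (∀ (s : ZMod 6) (e : ZMod 2) u, Λ (uact (s, e) u) = uact (ε * s, e) (Λ u)) ∧
      Λ (xg _ _, 1) = um m1 ∧ Λ (1, xg _ _) = um m2 ∧ Λ (wg _ _, wg _ _) = uw w := fun i =>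
    rig_block hnorm hpos hgen hwt halg hlam (d i) (cc i) (nn i) (c i) (n2 i) (hlabi i) (hrel i) (hgn i)
  -- the sums
  have hsum : ∀ i, ∑ x, dv (nn i) (q 6) x = 0 := by
    have key : ∀ i, FreeGroup.lift (c i) (br (Tt ^ nn i) (br X1 (cnj (Tt ^ nn i) Bt))) = 1 →
        FreeGroup.lift (c i) (br (Tt ^ nn i) (br Wd (cnj (Tt ^ nn i) Bt))) = 1 →
        ∑ x, dv (nn i) (q 6) x = 0 := by
      intro i h1 h2
      obtain ⟨h, x0, ε, m1, m2, w, Λ, H, L1, L2, L3, L4⟩ := hNF i
      have := htt (d i) (cc i) (nn i) (c i) h x0 ε m1 m2 w Λ H L1 L2 L3 L4 h1 h2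
      rw [hqr i 6] at this
      exact this
    have h5 := key 0 (hrel 0 _ (by rw [n4]; simp [Sig])) (hrel 0 _ (by rw [n4]; simp [Sig]))
    have h7 := key 1 (hrel 1 _ (by rw [n5]; simp [Sig])) (hrel 1 _ (by rw [n5]; simp [Sig]))
    have h5' : ∑ x, dv 5 (q 6) x = 0 := by
      have aux : ∀ (n : ℕ) [NeZero n], n = 5 → ∑ x, dv n (q 6) x = 0 → ∑ x, dv 5 (q 6) x = 0 := by
        intro n _ hn h
        subst hn
        exact h
      exact aux (nn 0) n4 h5
    have h7' : ∑ x, dv 7 (q 6) x = 0 := by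
      have aux : ∀ (n : ℕ) [NeZero n], n = 7 → ∑ x, dv n (q 6) x = 0 → ∑ x, dv 7 (q 6) x = 0 := by
        intro n _ hn h
        subst hn
        exact h
      exact aux (nn 1) n5 h7
    intro i
    exact hodd (q 6) h5' h7' (nn i) (n6 i)
  -- conjugation
  have hconj : ∀ i, ∃ k : Hol (nn i) (d i).K (gam (d i) (cc i)) (gam (d i) (cc i)), ∀ w,
      hol (nn i) (d i).K (gam (d i) (cc i)) (gam (d i) (cc i)) (FreeGroup.lift (c i) w) =
        k * hol (nn i) (d i).K (gam (d i) (cc i)) (gam (d i) (cc i))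
          (pi (nn i) (d i).K (gam (d i) (cc i)) (gam (d i) (cc i)) w) * k⁻¹ := by
    intro i
    obtain ⟨h, x0, ε, m1, m2, w, Λ, H, L1, L2, L3, L4⟩ := hNF i
    obtain ⟨k, hk⟩ := hcoc (nn i) (d i).K _ _ (c i) h x0 ε m1 m2 w Λ H L1 L2 L3 L4 (by
      rw [hqr i 6]; exact hsum i)
    refine ⟨k, fun w => ?_⟩
    have : (hol (nn i) (d i).K (gam (d i) (cc i)) (gam (d i) (cc i))).comp (FreeGroup.lift (c i)) =
        (MulAut.conj k).toMonoidHom.comp
          ((hol (nn i) (d i).K (gam (d i) (cc i)) (gam (d i) (cc i))).comp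
            (pi (nn i) (d i).K (gam (d i) (cc i)) (gam (d i) (cc i)))) := by
      refine FreeGroup.ext_hom _ _ fun j => ?_
      simp only [MonoidHom.comp_apply, FreeGroup.lift_apply_of, pi]
      exact hk j
    exact DFunLike.congr_fun this w
  have hker : ∀ w : F7, (∀ i, pi (nn i) (d i).K (gam (d i) (cc i)) (gam (d i) (cc i)) w = 1) ↔
      ∀ i, hol (nn i) (d i).K (gam (d i) (cc i)) (gam (d i) (cc i))
        (pi (nn i) (d i).K (gam (d i) (cc i)) (gam (d i) (cc i)) w) = 1 := by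
    intro w
    constructor
    · intro h i
      rw [h i, map_one]
    · intro h
      have h1 : Phi w = 1 := by
        apply hfaith d cc cc
        intro i
        have := ((hol_eq_one_iff _ _ _ _ _).1 (h i)).2
        rw [pi_right] at this
        exact this
      intro i
      refine SemidirectProduct.ext ?_ ?_
      · exact ((hol_eq_one_iff _ _ _ _ _).1 (h i)).1
      · rw [pi_right, h1]; rfl
  ext w
  rw [MonoidHom.mem_ker, ← hV w, mem_BN]
  rw [show (1 : BG (base d) (gams d cc) (gams d cc)) = QuotientGroup.mk 1 from rfl, hBN]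
  have e1 : (∀ i, Bpi (base d) (gams d cc) (gams d cc) i (FreeGroup.lift v w) =
      Bpi (base d) (gams d cc) (gams d cc) i 1) ↔
      ∀ i, pi (nn i) (d i).K (gam (d i) (cc i)) (gam (d i) (cc i)) (FreeGroup.lift v w) = 1 := by
    refine forall_congr' fun i => ?_
    rw [map_one]
    exact Iff.rfl
  rw [e1, hker]
  have e2 : (∀ i, Bpi (base d) (gams d cc) (gams d cc) i w = 1) ↔
      ∀ i, pi (nn i) (d i).K (gam (d i) (cc i)) (gam (d i) (cc i)) w = 1 := Iff.rfl
  rw [e2, hker]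
  refine forall_congr' fun i => ?_
  obtain ⟨k, hk⟩ := hconj i
  rw [← hlift, hk w]
  constructor
  · intro h
    have := congrArg (fun g => k⁻¹ * g * k) h
    simpa [mul_assoc] using this
  · intro h
    rw [h]; simp

end
end Pool.Agent.H646.EC
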