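import Pool.Agent.H646.EC.Asm1

set_option autoImplicit false

/-! # Assembly of the final statement -/

namespace Pool.Agent.H646.EC
noncomputable section

open Pool.Agent.H67R3.CondDefs Pool.Agent.H67R3.Cond

/-- The marked group `G` and its marking. -/
def mk7 (B : Base) (g1 g2 : ∀ i, (B.K i)ˣ) : F7 →* BG B g1 g2 := QuotientGroup.mk' (BN B g1 g2)

theorem sw1_same {B : Base} (g1 g2 : ∀ i, (B.K i)ˣ) (i : ℕ) : sw1 g1 g2 i i = g2 i := by
  unfold sw1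
  exact Function.update_self _ _ _

theorem sw1_ne {B : Base} (g1 g2 : ∀ i, (B.K i)ˣ) (i k : ℕ) (h : k ≠ i) :
    sw1 g1 g2 i k = g1 k := by
  unfold sw1
  exact Function.update_of_ne h _ _

theorem sw1_gams (d : ℕ → Dat) (c1 c2 : ∀ i, Fin (d i).m → Bool) (i : ℕ) :
    sw1 (B := base d) (gams d c1) (gams d c2) i = gams d (Function.update c1 i (c2 i)) := by
  funext k
  by_cases hk : k = i
  · subst hk
    rw [sw1_same]
    unfold gams
    rw [Function.update_self]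
  · rw [sw1_ne _ _ _ _ hk]
    unfold gams
    rw [Function.update_of_ne hk]

theorem mk7_surj (B : Base) (g1 g2 : ∀ i, (B.K i)ˣ) : Function.Surjective (mk7 B g1 g2) :=
  QuotientGroup.mk'_surjective _

theorem mk7_ker (B : Base) (g1 g2 : ∀ i, (B.K i)ˣ) : (mk7 B g1 g2).ker = BN B g1 g2 :=
  QuotientGroup.ker_mk' _

theorem fgBG (B : Base) (g1 g2 : ∀ i, (B.K i)ˣ) : Group.FG (BG B g1 g2) :=
  Group.fg_of_surjective (mk7_surj B g1 g2)

theorem Sig_finite : Sig.Finite := by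
  unfold Sig
  exact Set.toFinite _

/-- The relations hold in `G`. -/
theorem sig_BN (hnn : S_nn) (hstd : S_std) (d : ℕ → Dat) (c1 c2 : ∀ i, Fin (d i).m → Bool)
    (v : F7) (hv : v ∈ Sig) : v ∈ BN (base d) (gams d c1) (gams d c2) := by
  rw [mem_BN]
  intro i
  exact hstd (d i) (c1 i) (c2 i) (nn i) (hnn.1 i) (hnn.2.1 i) v hv

/-- The group with equal slots is not condensed. -/
theorem not_condensed (hnn : S_nn) (hstd : S_std) (hrig : S_rig) (d : ℕ → Dat)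
    (c : ∀ i, Fin (d i).m → Bool) : ¬ Condensed (BG (base d) (gams d c) (gams d c)) := by
  intro hC
  let N : Marked 7 := ⟨BN (base d) (gams d c) (gams d c), inferInstance⟩
  let x : isoClass (BG (base d) (gams d c) (gams d c)) :=
    ⟨⟨(⟨7, by norm_num⟩ : ℕ+), N⟩, ⟨mk7 _ _ _, mk7_surj _ _ _, mk7_ker _ _ _⟩⟩
  refine hC.2 x ?_
  refine isolated_of x Sig Sig_finite ?_
  rintro N' ⟨ψ, hψ, hk⟩ hW
  apply Subtype.ext
  rw [← hk]
  refine hrig d c ψ hψ ?_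
  intro v hv
  have h1 : v ∈ N'.1 := (hW v hv).2 (sig_BN hnn hstd d c c v hv)
  rw [← hk] at h1
  exact h1

/-- The marks of a block of `G` with interchanged units. -/
theorem marks_sub1 (n : ℕ) (K : Type) [CommRing K] (γ₁ γ₂ γ₁' γ₂' : Kˣ) :
    {p : Hgp K γ₁ × Hgp K γ₁' | ∃ q ∈ marks n K γ₁ γ₂ γ₁' γ₂', ∃ x, p = ((q.1 x).1, (q.2 x).1)} ⊆
      {(1, 1), (xg K γ₁, xg K γ₁'), (wg K γ₁, wg K γ₁')} := by
  classical
  rintro p ⟨q, ⟨j, rfl⟩, x, rfl⟩
  by_cases hx : x = 0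
  · subst hx
    fin_cases j <;> simp [gen, at0]
  · fin_cases j <;> simp [gen, at0, Pi.mulSingle_eq_of_ne hx]

theorem marks_sub2 (n : ℕ) (K : Type) [CommRing K] (γ₁ γ₂ γ₁' γ₂' : Kˣ) :
    {p : Hgp K γ₂ × Hgp K γ₂' | ∃ q ∈ marks n K γ₁ γ₂ γ₁' γ₂', ∃ x, p = ((q.1 x).2, (q.2 x).2)} ⊆
      {(1, 1), (xg K γ₂, xg K γ₂'), (wg K γ₂, wg K γ₂')} := by
  classical
  rintro p ⟨q, ⟨j, rfl⟩, x, rfl⟩
  by_cases hx : x = 0
  · subst hx
    fin_cases j <;> simp [gen, at0]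
  · fin_cases j <;> simp [gen, at0, Pi.mulSingle_eq_of_ne hx]

/-- Back-and-forth for the marks of a block. -/
theorem bf_marks (hbf : S_bf) (hblk : S_blk) (n : ℕ) [NeZero n] (K : Type) [CommRing K]
    (γ₁ γ₂ γ₁' γ₂' : Kˣ) (k : ℕ)
    (h1 : BF (RH K γ₁) (RH K γ₁') (n * k) {(1, 1), (xg K γ₁, xg K γ₁'), (wg K γ₁, wg K γ₁')})
    (h2 : BF (RH K γ₂) (RH K γ₂') (n * k) {(1, 1), (xg K γ₂, xg K γ₂'), (wg K γ₂, wg K γ₂')}) :
    BF (RN n K γ₁ γ₂) (RN n K γ₁' γ₂') k (marks n K γ₁ γ₂ γ₁' γ₂') :=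
  hblk n K γ₁ γ₂ γ₁' γ₂' k _
    (hbf.2.2 _ _ _ _ _ _ _ _ _ le_rfl (marks_sub1 n K γ₁ γ₂ γ₁' γ₂') h1)
    (hbf.2.2 _ _ _ _ _ _ _ _ _ le_rfl (marks_sub2 n K γ₁ γ₂ γ₁' γ₂') h2)

/-- The diagonal. -/
theorem bf_diag (hbf : S_bf) (K : Type) [CommRing K] (γ : Kˣ) (k : ℕ) :
    BF (RH K γ) (RH K γ) k {(1, 1), (xg K γ, xg K γ), (wg K γ, wg K γ)} := by
  refine hbf.1 _ _ _ _ _ ?_
  rintro p (rfl | rfl | rfl) <;> rfl

/-- Symmetry. -/
theorem bf_symm (hbf : S_bf) (K : Type) [CommRing K] (γ γ' : Kˣ) (k : ℕ)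
    (h : BF (RH K γ) (RH K γ') k {(1, 1), (xg K γ, xg K γ'), (wg K γ, wg K γ')}) :
    BF (RH K γ') (RH K γ) k {(1, 1), (xg K γ', xg K γ), (wg K γ', wg K γ)} := by
  refine hbf.2.2 _ _ _ _ _ _ _ _ _ le_rfl ?_ (hbf.2.1 _ _ _ _ _ _ _ h)
  rintro p (rfl | rfl | rfl)
  · left; rfl
  · right; left; rfl
  · right; right; rfl

/-- The group with different slots is condensed. -/
theorem condensed (hnn : S_nn) (hL : S_L) (hswap : S_swap) (hdiff : S_diff) (hmark : S_mark)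
    (hbf : S_bf) (hblk : S_blk) (hwd : S_wd)
    (d : ℕ → Dat) (c1 c2 : ∀ i, Fin (d i).m → Bool) (hne : ∀ i, c1 i ≠ c2 i)
    (hB : ∀ i, BF (RH (d i).K (gam (d i) (c1 i))) (RH (d i).K (gam (d i) (c2 i))) (nn i * i)
      {(1, 1), (xg _ (gam (d i) (c1 i)), xg _ (gam (d i) (c2 i))),
        (wg _ (gam (d i) (c1 i)), wg _ (gam (d i) (c2 i)))}) :
    Condensed (BG (base d) (gams d c1) (gams d c2)) := by
  classical
  obtain ⟨n1, n2, n3, n4, n5, n6⟩ := hnn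
  have hnz : ∀ i, NeZero (nn i) := fun i => ⟨(n1 i).ne_zero⟩
  refine hmark _ 7 (mk7 _ _ _) (mk7_surj _ _ _) ?_
  intro W
  obtain ⟨k0, hk0⟩ := hwd (insert 1 W) 0
  set i := k0 with hi
  have hL' : HasL (base d) (sw1 (gams d c1) (gams d c2) i) (sw1 (gams d c2) (gams d c1) i) := by
    rw [sw1_gams, sw1_gams]
    exact hL d _ _
  obtain ⟨ψ, hψ, hk⟩ := hswap (base d) (gams d c1) (gams d c2) i (hL d c1 c2) hL'
  refine ⟨ψ, hψ, ?_, ?_⟩
  · intro w hw
    rw [hk, mk7_ker, mem_BN, mem_BN]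
    refine forall_congr' fun k => ?_
    have key : ∀ (g1' g2' : ((base d).K k)ˣ) (g1 g2 : ((base d).K k)ˣ),
        ((pi (nn k) ((base d).K k) g1 g2 w).left = 1 ↔
          (pi (nn k) ((base d).K k) g1' g2' w).left = 1) →
        (pi (nn k) ((base d).K k) g1 g2 w = 1 ↔ pi (nn k) ((base d).K k) g1' g2' w = 1) := by
      intro g1' g2' g1 g2 h
      rw [SemidirectProduct.ext_iff, SemidirectProduct.ext_iff, pi_right, pi_right]
      simp only [SemidirectProduct.one_left, SemidirectProduct.one_right]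
      rw [h]
    by_cases hki : k = i
    · subst hki
      have e1 : sw1 (B := base d) (gams d c1) (gams d c2) k k = gams d c2 k := sw1_same _ _ _
      have e2 : sw1 (B := base d) (gams d c2) (gams d c1) k k = gams d c1 k := sw1_same _ _ _
      unfold Bpi
      rw [e1, e2]
      refine key _ _ _ _ ?_
      have h1 : BF (RN (nn k) (d k).K (gam (d k) (c2 k)) (gam (d k) (c1 k)))
          (RN (nn k) (d k).K (gam (d k) (c1 k)) (gam (d k) (c2 k))) k
          (marks (nn k) (d k).K (gam (d k) (c2 k)) (gam (d k) (c1 k)) (gam (d k) (c1 k))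
            (gam (d k) (c2 k))) :=
        bf_marks hbf hblk _ _ _ _ _ _ _ (bf_symm hbf _ _ _ _ (hB k)) (hB k)
      have h2 := (hk0 (nn k) (d k).K _ _ _ _ h1).1
      have h3 := h2 _ ⟨w, by simp [hw], rfl⟩ _ ⟨1, by simp, rfl⟩
      simp only [map_one, SemidirectProduct.one_left] at h3
      exact h3
    · have e1 : sw1 (B := base d) (gams d c1) (gams d c2) i k = gams d c1 k := sw1_ne _ _ _ _ hki
      have e2 : sw1 (B := base d) (gams d c2) (gams d c1) i k = gams d c2 k := sw1_ne _ _ _ _ hki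
      unfold Bpi
      rw [e1, e2]
  · rw [hk, mk7_ker]
    exact hdiff d c1 c2 i (hne i)

/-- Elementary equivalence. -/
theorem elemEquiv (hnn : S_nn) (hL : S_L) (hbf : S_bf) (hblk : S_blk)
    (hfo : S_fo) (hef : S_ef) (htw : S_tw) (hum : S_um)
    (d : ℕ → Dat) (c1 c2 : ∀ i, Fin (d i).m → Bool)
    (hB : ∀ i, BF (RH (d i).K (gam (d i) (c1 i))) (RH (d i).K (gam (d i) (c2 i))) (nn i * i)
      {(1, 1), (xg _ (gam (d i) (c1 i)), xg _ (gam (d i) (c2 i))),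
        (wg _ (gam (d i) (c1 i)), wg _ (gam (d i) (c2 i)))}) :
    ElemEquiv (BG (base d) (gams d c1) (gams d c2)) (BG (base d) (gams d c1) (gams d c1)) := by
  obtain ⟨n1, n2, n3, n4, n5, n6⟩ := hnn
  have hnz : ∀ i, NeZero (nn i) := fun i => ⟨(n1 i).ne_zero⟩
  refine hef _ _ (hfo (base d) _ _ _ _ (hL d c1 c2) (hL d c1 c1) ?_ ?_)
  · intro i k
    refine hblk (nn i) (d i).K (gam (d i) (c1 i)) (gam (d i) (c2 i)) (gam (d i) (c1 i))
      (gam (d i) (c1 i)) k ∅ ?_ ?_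
    · refine hbf.1 _ _ _ _ _ ?_
      rintro p ⟨q, hq, _⟩
      exact absurd hq (Set.notMem_empty _)
    · refine hbf.2.2 _ _ _ _ _ _ _ _ _ le_rfl ?_ (hum (d i).K _ _ (htw (d i) (c2 i) (c1 i)) (nn i * k))
      rintro p ⟨q, hq, _⟩
      exact absurd hq (Set.notMem_empty _)
  · intro i
    exact bf_marks hbf hblk (nn i) (d i).K (gam (d i) (c1 i)) (gam (d i) (c2 i)) (gam (d i) (c1 i))
      (gam (d i) (c1 i)) i (bf_diag hbf _ _ _) (bf_symm hbf _ _ _ _ (hB i))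

/-- The final statement from all the parts. -/
theorem final (hef : S_ef) (hch : S_ch) (htw : S_tw) (hum : S_um) (hblk : S_blk) (hbf : S_bf)
    (hwd : S_wd) (hfo : S_fo) (hnn : S_nn) (hphi : S_phi) (hodd : S_odd) (hL : S_L)
    (hstd : S_std) (hswap : S_swap) (hdiff : S_diff) (hmark : S_mark) (hlab0 : S_lab0)
    (hmono : S_mono) (hnorm : S_norm) (hpos : S_pos) (hgen : S_gen) (hwt : S_wt)
    (halg : S_alg) (hlam : S_lam) (htt : S_tt) (hcoc : S_coc) (hfaith : S_faith) :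
    ∃ (G H : Type) (_ : Group G) (_ : Group H), Group.FG G ∧ Group.FG H ∧ ElemEquiv G H ∧
      Condensed G ∧ ¬ Condensed H := by
  have h1 := fun i => hch (nn i * i)
  choose d c1 c2 hne hB using h1
  refine ⟨BG (base d) (gams d c1) (gams d c2), BG (base d) (gams d c1) (gams d c1),
    inferInstance, inferInstance, fgBG _ _ _, fgBG _ _ _, ?_, ?_, ?_⟩
  · exact elemEquiv hnn hL hbf hblk hfo hef htw hum d c1 c2 hB
  · exact condensed hnn hL hswap hdiff hmark hbf hblk hwd d c1 c2 hne hB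
  · exact not_condensed hnn hstd (rig hnn hphi hL hlab0 hmono hnorm hpos hgen hwt halg hlam htt hcoc
      hodd hfaith) d c1

end
end Pool.Agent.H646.EC
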