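import Mathlib
import Pool.Graph.R_seed8.H67R3.Cond3

set_option autoImplicit false

namespace Pool.Agent.H646.EC
noncomputable section

/-! # Definitions for project EC (MP_f5330b_al, Q1) -/

/-- The Eisenstein integers `c + d * sg`, `sg ^ 2 = sg - 1` (so `sg ^ 3 = -1`, `sg ^ 6 = 1`). -/
abbrev O := QuadraticAlgebra ℤ (-1) 1

/-- The unit `sg` of order six. -/
def sg : O := ⟨0, 1⟩

/-- Its powers. -/
def us (s : ZMod 6) : O := sg ^ s.val

/-- The functional `x ↦ re (sg ^ l * x)`. -/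
def ph (l : ZMod 6) (x : O) : ℤ := (us l * x).re

/-- Complex conjugation. -/
def cj (x : O) : O := ⟨x.re + x.im, -x.im⟩

theorem sg6 : sg ^ 6 = 1 := by decide

theorem us_add (s t : ZMod 6) : us (s + t) = us s * us t := by
  revert s t; decide

theorem us_zero : us 0 = 1 := by decide

theorem ph_add (l : ZMod 6) (x y : O) : ph l (x + y) = ph l x + ph l y := by
  simp [ph, mul_add]

theorem ph_neg (l : ZMod 6) (x : O) : ph l (-x) = -ph l x := by
  simp [ph]

@[simp] theorem ph_zero (l : ZMod 6) : ph l 0 = 0 := by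
  simp [ph]

theorem ph_us (l s : ZMod 6) (x : O) : ph l (us s * x) = ph (l + s) x := by
  rw [ph, ph, us_add, mul_assoc]

/-- The group `H(K, γ)`: pairs `(f, x)`, `f : ZMod 6 → K`, `x` an Eisenstein integer; `x` acts on the
`l`-th coordinate as multiplication by `γ ^ (ph l x)`. -/
@[ext] structure Hgp (K : Type) [CommRing K] (γ : Kˣ) where
  f : ZMod 6 → K
  x : O

namespace Hgp
variable {K : Type} [CommRing K] {γ : Kˣ}

instance : Mul (Hgp K γ) :=
  ⟨fun a b => ⟨fun l => a.f l + ((γ ^ (ph l a.x) : Kˣ) : K) * b.f l, a.x + b.x⟩⟩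
instance : One (Hgp K γ) := ⟨⟨0, 0⟩⟩
instance : Inv (Hgp K γ) :=
  ⟨fun a => ⟨fun l => -(((γ ^ (-ph l a.x) : Kˣ) : K) * a.f l), -a.x⟩⟩

@[simp] theorem mul_f (a b : Hgp K γ) (l : ZMod 6) :
    (a * b).f l = a.f l + ((γ ^ (ph l a.x) : Kˣ) : K) * b.f l := rfl
@[simp] theorem mul_x (a b : Hgp K γ) : (a * b).x = a.x + b.x := rfl
@[simp] theorem one_f (l : ZMod 6) : (1 : Hgp K γ).f l = 0 := rfl
@[simp] theorem one_x : (1 : Hgp K γ).x = 0 := rfl
@[simp] theorem inv_f (a : Hgp K γ) (l : ZMod 6) :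
    (a⁻¹).f l = -(((γ ^ (-ph l a.x) : Kˣ) : K) * a.f l) := rfl
@[simp] theorem inv_x (a : Hgp K γ) : (a⁻¹).x = -a.x := rfl

instance : Group (Hgp K γ) := Group.ofLeftAxioms
  (fun a b c => by
    refine Hgp.ext (funext fun l => ?_) (add_assoc _ _ _)
    simp only [mul_f, mul_x, ph_add, zpow_add, Units.val_mul]
    ring)
  (fun a => by
    refine Hgp.ext (funext fun l => ?_) (zero_add _)
    simp)
  (fun a => by
    refine Hgp.ext (funext fun l => ?_) (neg_add_cancel _)
    simp [ph_neg])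

end Hgp

/-- The group `D = ZMod 6 × ZMod 2` of automorphisms of `H(K, γ)`, written additively. -/
abbrev D := ZMod 6 × ZMod 2

/-- The sign of an element of `ZMod 2`. -/
def sn (K : Type) [CommRing K] (e : ZMod 2) : Kˣ := (-1) ^ e.val

theorem sn_add (K : Type) [CommRing K] (e e' : ZMod 2) : sn K (e + e') = sn K e * sn K e' := by
  obtain rfl | rfl : e = 0 ∨ e = 1 := by revert e; decide
  · obtain rfl | rfl : e' = 0 ∨ e' = 1 := by revert e'; decide
    · simp [sn]
    · simp [sn]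
  · obtain rfl | rfl : e' = 0 ∨ e' = 1 := by revert e'; decide
    · simp [sn]
    · have h : (1 + 1 : ZMod 2) = 0 := by decide
      have h1 : (1 : ZMod 2).val = 1 := by decide
      simp [sn, h, h1]

theorem sn_zero (K : Type) [CommRing K] : sn K 0 = 1 := by simp [sn]

section act
variable {K : Type} [CommRing K] {γ : Kˣ}

/-- The underlying function of the action of `D`. -/
def actF (d : D) (a : Hgp K γ) : Hgp K γ := ⟨fun l => (sn K d.2 : K) * a.f (l + d.1), us d.1 * a.x⟩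

@[simp] theorem actF_f (d : D) (a : Hgp K γ) (l : ZMod 6) :
    (actF d a).f l = (sn K d.2 : K) * a.f (l + d.1) := rfl
@[simp] theorem actF_x (d : D) (a : Hgp K γ) : (actF d a).x = us d.1 * a.x := rfl

theorem actF_zero (a : Hgp K γ) : actF 0 a = a := by
  refine Hgp.ext (funext fun l => ?_) ?_ <;> simp [sn_zero, us_zero]

theorem actF_add (d e : D) (a : Hgp K γ) : actF (d + e) a = actF d (actF e a) := by
  refine Hgp.ext (funext fun l => ?_) ?_
  · simp [sn_add, mul_assoc, add_assoc]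
  · simp [us_add, mul_assoc]

theorem actF_mul (d : D) (a b : Hgp K γ) : actF d (a * b) = actF d a * actF d b := by
  refine Hgp.ext (funext fun l => ?_) ?_
  · simp only [actF_f, Hgp.mul_f, actF_x, ph_us]
    ring
  · simp [mul_add]

/-- The action of `D` on `H(K, γ)`. -/
def act (d : D) : MulAut (Hgp K γ) where
  toFun := actF d
  invFun := actF (-d)
  left_inv a := by rw [← actF_add, neg_add_cancel, actF_zero]
  right_inv a := by rw [← actF_add, add_neg_cancel, actF_zero]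
  map_mul' := actF_mul d

@[simp] theorem act_apply (d : D) (a : Hgp K γ) : act d a = actF d a := rfl

end act

/-- The group `U = H(K, γ₁) × H(K, γ₂)`. -/
abbrev U (K : Type) [CommRing K] (γ₁ γ₂ : Kˣ) := Hgp K γ₁ × Hgp K γ₂

/-- The diagonal action of `D` on `U`. -/
def uact {K : Type} [CommRing K] {γ₁ γ₂ : Kˣ} (d : D) (u : U K γ₁ γ₂) : U K γ₁ γ₂ :=
  (actF d u.1, actF d u.2)

theorem uact_zero {K : Type} [CommRing K] {γ₁ γ₂ : Kˣ} (u : U K γ₁ γ₂) : uact 0 u = u := by
  simp [uact, actF_zero]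

theorem uact_add {K : Type} [CommRing K] {γ₁ γ₂ : Kˣ} (d e : D) (u : U K γ₁ γ₂) :
    uact (d + e) u = uact d (uact e u) := by
  simp [uact, actF_add]

theorem uact_mul {K : Type} [CommRing K] {γ₁ γ₂ : Kˣ} (d : D) (u v : U K γ₁ γ₂) :
    uact d (u * v) = uact d u * uact d v := by
  simp [uact, actF_mul]

/-- The common quotient `Q₀ = ((ZMod 6)[T, T⁻¹] × D) ⋊ ℤ`. -/
@[ext] structure Q0 where
  h : ℤ →₀ ZMod 6
  e : D
  d : ℤ

/-- The shift of finitely supported functions on `ℤ`: multiplication by `T ^ d`. -/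
def sh {A : Type} [AddCommMonoid A] (d : ℤ) (h : ℤ →₀ A) : ℤ →₀ A := h.mapDomain (· + d)

theorem sh_zero {A : Type} [AddCommMonoid A] (h : ℤ →₀ A) : sh 0 h = h := by
  simp only [sh, add_zero]
  exact Finsupp.mapDomain_id

theorem sh_add {A : Type} [AddCommMonoid A] (d : ℤ) (h h' : ℤ →₀ A) :
    sh d (h + h') = sh d h + sh d h' := Finsupp.mapDomain_add

theorem sh_sh {A : Type} [AddCommMonoid A] (d d' : ℤ) (h : ℤ →₀ A) :
    sh d (sh d' h) = sh (d + d') h := by
  rw [sh, sh, sh, ← Finsupp.mapDomain_comp]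
  congr 1
  funext k
  simp [add_comm, add_left_comm]

theorem sh_apply {A : Type} [AddCommMonoid A] (d : ℤ) (h : ℤ →₀ A) (k : ℤ) :
    sh d h k = h (k - d) := by
  have := Finsupp.mapDomain_apply (f := (· + d)) (add_left_injective d) h (k - d)
  simpa [sh] using this

namespace Q0

instance : Mul Q0 := ⟨fun a b => ⟨a.h + sh a.d b.h, a.e + b.e, a.d + b.d⟩⟩
instance : One Q0 := ⟨⟨0, 0, 0⟩⟩
instance : Inv Q0 := ⟨fun a => ⟨-sh (-a.d) a.h, -a.e, -a.d⟩⟩

@[simp] theorem mul_h (a b : Q0) : (a * b).h = a.h + sh a.d b.h := rfl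
@[simp] theorem mul_e (a b : Q0) : (a * b).e = a.e + b.e := rfl
@[simp] theorem mul_d (a b : Q0) : (a * b).d = a.d + b.d := rfl
@[simp] theorem one_h : (1 : Q0).h = 0 := rfl
@[simp] theorem one_e : (1 : Q0).e = 0 := rfl
@[simp] theorem one_d : (1 : Q0).d = 0 := rfl
@[simp] theorem inv_h (a : Q0) : (a⁻¹).h = -sh (-a.d) a.h := rfl
@[simp] theorem inv_e (a : Q0) : (a⁻¹).e = -a.e := rfl
@[simp] theorem inv_d (a : Q0) : (a⁻¹).d = -a.d := rfl

instance : Group Q0 := Group.ofLeftAxioms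
  (fun a b c => by
    refine Q0.ext ?_ (add_assoc _ _ _) (add_assoc _ _ _)
    simp only [mul_h, mul_d, sh_add, sh_sh, add_assoc])
  (fun a => by
    refine Q0.ext ?_ (zero_add _) (zero_add _)
    simp [sh_zero])
  (fun a => by
    refine Q0.ext ?_ (neg_add_cancel _) (neg_add_cancel _)
    simp)

end Q0

/-- The sum of the coefficients of `h` at the integers congruent to `x` modulo `n`. -/
def fold (n : ℕ) (h : ℤ →₀ ZMod 6) (x : ZMod n) : ZMod 6 :=
  h.sum fun k c => if (k : ZMod n) = x then c else 0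

theorem fold_zero (n : ℕ) (x : ZMod n) : fold n 0 x = 0 := by simp [fold]

theorem fold_add (n : ℕ) (h h' : ℤ →₀ ZMod 6) (x : ZMod n) :
    fold n (h + h') x = fold n h x + fold n h' x := by
  rw [fold, Finsupp.sum_add_index']
  · rfl
  · intro a; simp
  · intro a b c; split_ifs <;> simp

theorem fold_sh (n : ℕ) (d : ℤ) (h : ℤ →₀ ZMod 6) (x : ZMod n) :
    fold n (sh d h) x = fold n h (x - d) := by
  rw [fold, sh, Finsupp.sum_mapDomain_index]
  · refine Finsupp.sum_congr fun k _ => ?_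
    simp [eq_sub_iff_add_eq]
  · intro a; simp
  · intro a b c; split_ifs <;> simp

/-- The element of `D` by which `q` acts at the coordinate `x` of the block of size `n`. -/
def dv (n : ℕ) (q : Q0) (x : ZMod n) : D := q.e + (fold n q.h x, 0)

theorem dv_one (n : ℕ) (x : ZMod n) : dv n 1 x = 0 := by simp [dv, fold_zero]

theorem dv_mul (n : ℕ) (a b : Q0) (x : ZMod n) : dv n (a * b) x = dv n a x + dv n b (x - a.d) := by
  simp only [dv, Q0.mul_h, Q0.mul_e, fold_add, fold_sh]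
  ext <;> simp <;> ring

section block
variable (n : ℕ) (K : Type) [CommRing K] (γ₁ γ₂ : Kˣ)

/-- The normal part of the block: functions `ZMod n → U`. -/
abbrev NN := ZMod n → U K γ₁ γ₂

variable {n K γ₁ γ₂}

/-- The action of `Q₀` on the functions `ZMod n → U`. -/
def nactF (q : Q0) (u : NN n K γ₁ γ₂) : NN n K γ₁ γ₂ := fun x => uact (dv n q x) (u (x - q.d))

theorem nactF_one (u : NN n K γ₁ γ₂) : nactF 1 u = u := by
  funext x
  simp [nactF, dv_one, uact_zero]

theorem nactF_mul_left (a b : Q0) (u : NN n K γ₁ γ₂) : nactF (a * b) u = nactF a (nactF b u) := by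
  funext x
  simp only [nactF, dv_mul, uact_add, Q0.mul_d]
  congr 3
  push_cast
  ring

theorem nactF_mul (q : Q0) (u v : NN n K γ₁ γ₂) : nactF q (u * v) = nactF q u * nactF q v := by
  funext x
  simp [nactF, uact_mul]

variable (n K γ₁ γ₂)

/-- The action as a homomorphism. -/
def nact : Q0 →* MulAut (NN n K γ₁ γ₂) where
  toFun q :=
    { toFun := nactF q
      invFun := nactF q⁻¹
      left_inv := fun u => by rw [← nactF_mul_left, inv_mul_cancel, nactF_one]
      right_inv := fun u => by rw [← nactF_mul_left, mul_inv_cancel, nactF_one]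
      map_mul' := nactF_mul q }
  map_one' := by
    ext1 u
    exact nactF_one u
  map_mul' a b := by
    ext1 u
    exact nactF_mul_left a b u

@[simp] theorem nact_apply (q : Q0) (u : NN n K γ₁ γ₂) : nact n K γ₁ γ₂ q u = nactF q u := rfl

/-- The block group `(ZMod n → U) ⋊ Q₀`. -/
abbrev Blk := NN n K γ₁ γ₂ ⋊[nact n K γ₁ γ₂] Q0

/-- The element `(0, 1)` of `H(K, γ)` and the element `(δ₀, 0)`. -/
def xg (K : Type) [CommRing K] (γ : Kˣ) : Hgp K γ := ⟨0, 1⟩
def wg (K : Type) [CommRing K] (γ : Kˣ) : Hgp K γ := ⟨Pi.single 0 1, 0⟩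

/-- An element of `U` placed at the coordinate `0`. -/
def at0 (u : U K γ₁ γ₂) : NN n K γ₁ γ₂ := Pi.mulSingle 0 u

/-- The elements `x₁, x₂, w, β, z, y, t` of the block group. -/
def gen : Fin 7 → Blk n K γ₁ γ₂ :=
  ![SemidirectProduct.inl (at0 n K γ₁ γ₂ (xg K γ₁, 1)),
    SemidirectProduct.inl (at0 n K γ₁ γ₂ (1, xg K γ₂)),
    SemidirectProduct.inl (at0 n K γ₁ γ₂ (wg K γ₁, wg K γ₂)),
    SemidirectProduct.inr ⟨Finsupp.single 0 1, 0, 0⟩,
    SemidirectProduct.inr ⟨0, (1, 0), 0⟩,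
    SemidirectProduct.inr ⟨0, (0, 1), 0⟩,
    SemidirectProduct.inr ⟨0, 0, 1⟩]

/-- The homomorphism from the free group to the block group. -/
def pi : FreeGroup (Fin 7) →* Blk n K γ₁ γ₂ := FreeGroup.lift (gen n K γ₁ γ₂)

end block

/-- The homomorphism from the free group to `Q₀`. -/
def Phi : FreeGroup (Fin 7) →* Q0 :=
  FreeGroup.lift ![1, 1, 1, ⟨Finsupp.single 0 1, 0, 0⟩, ⟨0, (1, 0), 0⟩, ⟨0, (0, 1), 0⟩, ⟨0, 0, 1⟩]

theorem pi_right (n : ℕ) (K : Type) [CommRing K] (γ₁ γ₂ : Kˣ) (v : FreeGroup (Fin 7)) :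
    (pi n K γ₁ γ₂ v).right = Phi v := by
  have : (SemidirectProduct.rightHom).comp (pi n K γ₁ γ₂) = Phi := by
    refine FreeGroup.ext_hom _ _ fun i => ?_
    fin_cases i <;> simp [pi, Phi, gen]
  exact DFunLike.congr_fun this v

/-- Base parameters: the block sizes and the rings. -/
structure Base where
  n : ℕ → ℕ
  K : ℕ → Type
  ring : ∀ i, CommRing (K i)

attribute [instance] Base.ring

section base
variable (B : Base) (g1 g2 : ∀ i, (B.K i)ˣ)

/-- The homomorphism to the `i`-th block group. -/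
def Bpi (i : ℕ) : FreeGroup (Fin 7) →* Blk (B.n i) (B.K i) (g1 i) (g2 i) :=
  pi (B.n i) (B.K i) (g1 i) (g2 i)

/-- The common kernel. -/
def BN : Subgroup (FreeGroup (Fin 7)) := ⨅ i, (Bpi B g1 g2 i).ker

instance : (BN B g1 g2).Normal := by
  unfold BN
  exact Subgroup.normal_iInf_normal fun i => MonoidHom.normal_ker _

theorem mem_BN (v : FreeGroup (Fin 7)) : v ∈ BN B g1 g2 ↔ ∀ i, Bpi B g1 g2 i v = 1 := by
  simp [BN, Subgroup.mem_iInf, MonoidHom.mem_ker]

/-- The group `G(B, g1, g2)`: the free group modulo the common kernel. -/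
abbrev BG : Type := FreeGroup (Fin 7) ⧸ BN B g1 g2

/-- Every element of the normal part of every block lies in the group `G`. -/
def HasL : Prop := ∀ i (u : NN (B.n i) (B.K i) (g1 i) (g2 i)),
  ∃ v, Bpi B g1 g2 i v = SemidirectProduct.inl u ∧ ∀ k, k ≠ i → Bpi B g1 g2 k v = 1

end base

/-! ## The arithmetic data -/

/-- Finite sets of pairs of primes `p a`, `r a` with `6` of order `p a` modulo `r a`. -/
structure Dat where
  m : ℕ
  mpos : 0 < m
  p : Fin m → ℕ
  r : Fin m → ℕ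
  pp : ∀ a, (p a).Prime
  rp : ∀ a, (r a).Prime
  big : ∀ a, 13 < p a
  big' : ∀ a, p a < r a
  co : ∀ a, Nat.Coprime 6 (r a)
  ord : ∀ a, orderOf (ZMod.unitOfCoprime 6 (co a)) = p a
  pinj : Function.Injective p
  rinj : Function.Injective r

/-- The ring `∏ ZMod (r a)`. -/
abbrev Dat.K (d : Dat) : Type := ∀ a : Fin d.m, ZMod (d.r a)

/-- The exponent `1` or `2`. -/
def ex (b : Bool) : ℕ := if b then 2 else 1

/-- The unit with the coordinates `6` (for `c a = false`) and `36` (for `c a = true`). -/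
def gam (d : Dat) (c : Fin d.m → Bool) : (d.K)ˣ :=
  MulEquiv.piUnits.symm fun a => ZMod.unitOfCoprime 6 (d.co a) ^ ex (c a)

/-- The block sizes `5, 7, 11, 13, ...`. -/
def nn (i : ℕ) : ℕ := Nat.nth Nat.Prime (i + 2)

/-- The base parameters of a sequence of data. -/
def base (d : ℕ → Dat) : Base := ⟨nn, fun i => (d i).K, fun _ => inferInstance⟩

/-- The sequence of units. -/
def gams (d : ℕ → Dat) (c : ∀ i, Fin (d i).m → Bool) : ∀ i, ((base d).K i)ˣ := fun i => gam (d i) (c i)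

/-! ## Back-and-forth -/

/-- Back-and-forth equivalence of rank `k` of two structures with ternary relations, where `P` is
the set of the pairs already chosen. -/
def BF {ι α β : Type} (R : ι → α → α → α → Prop) (S : ι → β → β → β → Prop) :
    ℕ → Set (α × β) → Prop
  | 0, P => (∀ p ∈ P, ∀ q ∈ P, (p.1 = q.1 ↔ p.2 = q.2)) ∧
      ∀ s, ∀ p ∈ P, ∀ q ∈ P, ∀ r ∈ P, (R s p.1 q.1 r.1 ↔ S s p.2 q.2 r.2)
  | k + 1, P => (∀ x, ∃ y, BF R S k (insert (x, y) P)) ∧ (∀ y, ∃ x, BF R S k (insert (x, y) P))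

/-- The relation of a group. -/
def RG (G : Type) [Group G] : Unit → G → G → G → Prop := fun _ a b c => a * b = c

/-- The relations of `H(K, γ)` with the action of `D`. -/
def RH (K : Type) [CommRing K] (γ : Kˣ) : D → Hgp K γ → Hgp K γ → Hgp K γ → Prop :=
  fun d a b c => a * actF d b = c

/-- The relations of the functions `ZMod n → U` with the action of `Q₀`. -/
def RN (n : ℕ) (K : Type) [CommRing K] (γ₁ γ₂ : Kˣ) :
    Q0 → NN n K γ₁ γ₂ → NN n K γ₁ γ₂ → NN n K γ₁ γ₂ → Prop :=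
  fun q a b c => a * nactF q b = c

/-- `γ'` is, modulo each number, obtained from `γ` by a twist of the exponents. -/
def Twist {K : Type} [CommRing K] (γ γ' : Kˣ) : Prop :=
  ∃ N : ℕ, 0 < N ∧ ∀ M : ℕ, 0 < M → ∃ μ μ' : ℤ, ((N * M : ℕ) : ℤ) ∣ μ * μ' - 1 ∧
    ∀ z z' : ℤ, (N : ℤ) ∣ z' - μ * z → γ' ^ z' = γ ^ z

/-! ## The language of groups -/

/-- The function symbols of the language of groups. -/
inductive GrpFn : ℕ → Type
  | one : GrpFn 0
  | inv : GrpFn 1
  | mul : GrpFn 2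

/-- The language of groups. -/
def Lgrp : FirstOrder.Language := ⟨GrpFn, fun _ => Empty⟩

instance (G : Type) [Group G] : Lgrp.Structure G where
  funMap {_} f v := match f with
    | .one => 1
    | .inv => (v 0)⁻¹
    | .mul => v 0 * v 1
  RelMap {_} r _ := nomatch r

/-- Elementary equivalence of groups: the same first-order sentences of the language of groups. -/
def ElemEquiv (G H : Type) [Group G] [Group H] : Prop := Lgrp.ElementarilyEquivalent G H

/-! ## The relations -/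

section words
/-- Abbreviations for the generators of the free group. -/
abbrev F7 := FreeGroup (Fin 7)
def X1 : F7 := FreeGroup.of 0
def X2 : F7 := FreeGroup.of 1
def Wd : F7 := FreeGroup.of 2
def Bt : F7 := FreeGroup.of 3
def Zt : F7 := FreeGroup.of 4
def Yt : F7 := FreeGroup.of 5
def Tt : F7 := FreeGroup.of 6
/-- Conjugate and commutator. -/
def cnj (a b : F7) : F7 := a * b * a⁻¹
def br (a b : F7) : F7 := a * b * a⁻¹ * b⁻¹

/-- The finite set of relations which characterizes the marking. -/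
def Sig : Set F7 :=
  {Zt ^ 6, br Zt Tt, br Zt Yt, br Zt Bt, Yt ^ 2, br Yt Tt, br Yt Bt, br Yt X1, br Yt X2,
    cnj Yt Wd * Wd, Bt ^ 6,
    cnj (Bt ^ 2) X1 * (cnj Bt X1)⁻¹ * X1, cnj (Bt ^ 2) X2 * (cnj Bt X2)⁻¹ * X2,
    br (Zt * Bt⁻¹) X1, br (Zt * Bt⁻¹) X2, br (Zt * Bt⁻¹) Wd,
    br X1 (cnj Tt Bt), br X2 (cnj Tt Bt), br Wd (cnj Tt Bt),
    br X1 (cnj (Tt ^ 2) Bt), br X2 (cnj (Tt ^ 2) Bt), br X1 X2,
    br Wd (cnj Bt X1), br Wd (cnj Bt X2),
    cnj (X1 * X2) Wd * (cnj X1 Wd)⁻¹ * (cnj X2 Wd)⁻¹ * Wd,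
    cnj (X1 ^ 2) Wd * cnj (X1 * X2) Wd ^ 2 * cnj (X2 ^ 2) Wd * (cnj X1 Wd ^ 44)⁻¹ *
      (cnj X2 Wd ^ 44)⁻¹ * Wd ^ 259,
    br (Tt ^ 5) (br X1 (cnj (Tt ^ 5) Bt)), br (Tt ^ 5) (br Wd (cnj (Tt ^ 5) Bt)),
    br (Tt ^ 7) (br X1 (cnj (Tt ^ 7) Bt)), br (Tt ^ 7) (br Wd (cnj (Tt ^ 7) Bt))}

end words

end
end Pool.Agent.H646.EC
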