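import Pool.Agent.H646.EC.Stm

set_option autoImplicit false

/-! # Project EC, statement S_L: each block of the group contains its normal part -/

namespace Pool.Agent.H111.EC_L

open Pool.Agent.H646.EC

noncomputable section

section H

variable {K : Type} [CommRing K] {γ : Kˣ}

/-- the lattice part -/
def hx (x : O) : Hgp K γ := ⟨0, x⟩

/-- the module part -/
def hf (f : ZMod 6 → K) : Hgp K γ := ⟨f, 0⟩

theorem hx_add (x y : O) : (hx (x + y) : Hgp K γ) = hx x * hx y := by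
  refine Hgp.ext (funext fun l => ?_) rfl
  simp [hx]

theorem hx_zero : (hx 0 : Hgp K γ) = 1 := rfl

theorem hx_neg (x : O) : (hx (-x) : Hgp K γ) = (hx x)⁻¹ := by
  refine Hgp.ext (funext fun l => ?_) rfl
  simp [hx]

theorem hf_add (x y : ZMod 6 → K) : (hf (x + y) : Hgp K γ) = hf x * hf y := by
  refine Hgp.ext (funext fun l => ?_) (by simp [hf])
  simp [hf]

theorem hf_zero : (hf 0 : Hgp K γ) = 1 := rfl

theorem hf_neg (x : ZMod 6 → K) : (hf (-x) : Hgp K γ) = (hf x)⁻¹ := by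
  refine Hgp.ext (funext fun l => ?_) (by simp [hf])
  simp [hf]

theorem split (a : Hgp K γ) : a = hf a.f * hx a.x := by
  refine Hgp.ext (funext fun l => ?_) (by simp [hf, hx])
  simp [hf, hx]

theorem act_hx (x : O) : actF (1, 0) (hx x : Hgp K γ) = hx (us 1 * x) := by
  refine Hgp.ext (funext fun l => ?_) rfl
  simp [hx]

theorem act_hf (f : ZMod 6 → K) : actF (1, 0) (hf f : Hgp K γ) = hf fun l => f (l + 1) := by
  refine Hgp.ext (funext fun l => ?_) (by simp [hf])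
  simp [hf, sn_zero]

/-- the lattice elements in a subgroup -/
def Sx (S : Subgroup (Hgp K γ)) : AddSubgroup O where
  carrier := {x | hx x ∈ S}
  add_mem' := by
    intro a b ha hb
    change hx (a + b) ∈ S
    rw [hx_add]
    exact S.mul_mem ha hb
  zero_mem' := by
    change hx 0 ∈ S
    rw [hx_zero]
    exact S.one_mem
  neg_mem' := by
    intro a ha
    change hx (-a) ∈ S
    rw [hx_neg]
    exact S.inv_mem ha

/-- the module elements in a subgroup -/
def Sf (S : Subgroup (Hgp K γ)) : AddSubgroup (ZMod 6 → K) where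
  carrier := {x | hf x ∈ S}
  add_mem' := by
    intro a b ha hb
    change hf (a + b) ∈ S
    rw [hf_add]
    exact S.mul_mem ha hb
  zero_mem' := by
    change hf 0 ∈ S
    rw [hf_zero]
    exact S.one_mem
  neg_mem' := by
    intro a ha
    change hf (-a) ∈ S
    rw [hf_neg]
    exact S.inv_mem ha

theorem mem_Sx {S : Subgroup (Hgp K γ)} {x : O} : x ∈ Sx S ↔ hx x ∈ S := Iff.rfl

theorem mem_Sf {S : Subgroup (Hgp K γ)} {x : ZMod 6 → K} : x ∈ Sf S ↔ hf x ∈ S := Iff.rfl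

theorem comm_hx (x : O) : (hx x : Hgp K γ) * wg K γ * (hx x)⁻¹ * (wg K γ)⁻¹ =
    hf (Pi.single 0 (((γ ^ ph 0 x : Kˣ) : K) - 1)) := by
  refine Hgp.ext (funext fun l => ?_) (by simp [hf, hx, wg])
  by_cases hl : l = 0
  · subst hl
    simp [hf, hx, wg]
    ring
  · simp [hf, hx, wg, hl]

theorem Hfull (S : Subgroup (Hgp K γ)) (h1 : ∀ a ∈ S, actF (1, 0) a ∈ S)
    (h2 : hx (1 - sg) ∈ S) (h3 : ∀ a ∈ S, a * wg K γ * a⁻¹ * (wg K γ)⁻¹ ∈ S)
    (hK : ∀ A : AddSubgroup K, (γ : K) - 1 ∈ A → A = ⊤) : S = ⊤ := by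
  have e1 : us 1 * (1 - sg) = 1 := by decide
  have e2 : us 1 * 1 = sg := by decide
  have a1 : (1 : O) ∈ Sx S := by
    rw [mem_Sx, ← e1, ← act_hx]
    exact h1 _ h2
  have a2 : sg ∈ Sx S := by
    rw [mem_Sx, ← e2, ← act_hx]
    exact h1 _ a1
  have a3 : ∀ x : O, x ∈ Sx S := by
    intro x
    have hx : x = x.re • (1 : O) + x.im • sg := by
      apply QuadraticAlgebra.ext <;> simp [sg]
    rw [hx]
    exact (Sx S).add_mem ((Sx S).zsmul_mem a1 _) ((Sx S).zsmul_mem a2 _)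
  have b0 : ∀ k : K, Pi.single (0 : ZMod 6) k ∈ Sf S := by
    have h4 := hK ((Sf S).comap (AddMonoidHom.single (fun _ : ZMod 6 => K) 0)) (by
      rw [AddSubgroup.mem_comap]
      have h5 := h3 _ a1
      rw [comm_hx] at h5
      have h6 : ph 0 1 = 1 := by decide
      rw [h6, zpow_one] at h5
      exact h5)
    intro k
    have h5 : k ∈ (Sf S).comap (AddMonoidHom.single (fun _ : ZMod 6 => K) 0) := by
      rw [h4]; trivial
    exact h5
  have bs : ∀ l : ZMod 6, (∀ k : K, Pi.single l k ∈ Sf S) →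
      ∀ k : K, Pi.single (l - 1) k ∈ Sf S := by
    intro l hl k
    have h5 := h1 _ (hl k)
    rw [act_hf] at h5
    rw [mem_Sf]
    have h6 : (Pi.single (l - 1) k : ZMod 6 → K) = fun l' => (Pi.single l k : ZMod 6 → K) (l' + 1) := by
      funext l'
      by_cases hh : l' = l - 1
      · subst hh
        simp
      · have : l' + 1 ≠ l := fun h => hh (by rw [← h]; ring)
        simp [hh, this]
    rw [h6]
    exact h5
  have b5 := bs 0 b0
  have b4 := bs _ b5
  have b3 := bs _ b4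
  have b2 := bs _ b3
  have b1 := bs _ b2
  have ball : ∀ l : ZMod 6, ∀ k : K, Pi.single l k ∈ Sf S := by
    intro l
    have hl : l = 0 ∨ l = 0 - 1 ∨ l = 0 - 1 - 1 ∨ l = 0 - 1 - 1 - 1 ∨ l = 0 - 1 - 1 - 1 - 1 ∨
      l = 0 - 1 - 1 - 1 - 1 - 1 := by
      revert l; decide
    rcases hl with rfl | rfl | rfl | rfl | rfl | rfl
    · exact b0
    · exact b5
    · exact b4
    · exact b3
    · exact b2
    · exact b1
  have c : ∀ f : ZMod 6 → K, f ∈ Sf S := by
    intro f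
    rw [← Finset.univ_sum_single f]
    exact (Sf S).sum_mem fun l _ => ball l _
  rw [eq_top_iff]
  intro a _
  rw [split a]
  exact S.mul_mem (c a.f) (a3 a.x)

end H

/-! ### The ring -/

theorem coord_ne (d : Dat) (c : Fin d.m → Bool) (a : Fin d.m) :
    ((gam d c : (d.K)ˣ) : d.K) a - 1 ≠ 0 := by
  have hr : (d.r a).Prime := d.rp a
  have h1 : 13 < d.r a := (d.big a).trans (d.big' a)
  have e : ((gam d c : (d.K)ˣ) : d.K) a = (6 : ZMod (d.r a)) ^ ex (c a) := by
    simp [gam]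
  rw [e]
  rcases hc : c a with _ | _
  · simp only [ex]
    have h5 : ((5 : ℕ) : ZMod (d.r a)) ≠ 0 := by
      rw [Ne, ZMod.natCast_eq_zero_iff]
      intro h
      have := Nat.le_of_dvd (by norm_num) h
      omega
    intro h
    apply h5
    rw [← h]
    norm_num
  · simp only [ex]
    have h5 : ((35 : ℕ) : ZMod (d.r a)) ≠ 0 := by
      rw [Ne, ZMod.natCast_eq_zero_iff]
      intro h
      have h7 : (35 : ℕ) = 5 * 7 := by norm_num
      rw [h7] at h
      rcases (hr.dvd_mul).1 h with h | h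
      · have := Nat.le_of_dvd (by norm_num) h
        omega
      · have := Nat.le_of_dvd (by norm_num) h
        omega
    intro h
    apply h5
    rw [← h]
    norm_num

theorem Kfull (d : Dat) (c : Fin d.m → Bool) (A : AddSubgroup d.K)
    (h : ((gam d c : (d.K)ˣ) : d.K) - 1 ∈ A) : A = ⊤ := by
  rw [eq_top_iff]
  intro k _
  have hco : Pairwise (Function.onFun Nat.Coprime d.r) := by
    intro a b hab
    exact (Nat.coprime_primes (d.rp a) (d.rp b)).2 fun h => hab (d.rinj h)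
  have hfl : ∀ a, Fact (d.r a).Prime := fun a => ⟨d.rp a⟩
  obtain ⟨z, hz⟩ := (ZMod.prodEquivPi d.r hco).surjective
    (fun a => k a / (((gam d c : (d.K)ˣ) : d.K) a - 1))
  obtain ⟨N, rfl⟩ := ZMod.intCast_surjective z
  have e : k = N • (((gam d c : (d.K)ˣ) : d.K) - 1) := by
    funext a
    have h1 := congrFun hz a
    rw [map_intCast] at h1
    have h2 : ((N : ℤ) : ZMod (d.r a)) = k a / (((gam d c : (d.K)ˣ) : d.K) a - 1) := h1
    rw [Pi.smul_apply, Pi.sub_apply, Pi.one_apply, zsmul_eq_mul, h2,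
      div_mul_cancel₀ _ (coord_ne d c a)]
  rw [e]
  exact A.zsmul_mem h N

/-! ### The action of the elements of `Q0` -/

/-- the translation by `m` -/
def ta (m : ℤ) : Q0 := ⟨0, 0, m⟩

/-- the letter `β` -/
def be : Q0 := ⟨Finsupp.single 0 1, 0, 0⟩

theorem sh_zero' (m : ℤ) : sh m (0 : ℤ →₀ ZMod 6) = 0 := by
  ext k
  rw [sh_apply]
  rfl

theorem ta_add (m m' : ℤ) : ta (m + m') = ta m * ta m' := by
  refine Q0.ext ?_ (by simp [ta]) (by simp [ta])
  simp [ta, sh_zero']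

theorem ta_neg (m : ℤ) : ta (-m) = (ta m)⁻¹ := by
  refine Q0.ext ?_ (by simp [ta]) (by simp [ta])
  simp [ta, sh_zero']

theorem ta_pow (m : ℕ) : (ta 1) ^ m = ta m := by
  induction m with
  | zero => rfl
  | succ m ih => rw [pow_succ, ih, ← ta_add]; push_cast; rfl

section blk

variable {n : ℕ} {K : Type} [CommRing K] {γ₁ γ₂ : Kˣ}

theorem dv_ta (m : ℤ) (x : ZMod n) : dv n (ta m) x = 0 := by
  simp [dv, ta, fold_zero]

theorem dv_be (x : ZMod n) : dv n be x = if x = 0 then (1, 0) else 0 := by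
  by_cases hx : x = 0
  · subst hx
    simp [dv, be, fold]
  · have : ¬ (0 : ZMod n) = x := fun h => hx h.symm
    simp [dv, be, fold, hx, this]

/-- the conjugate of `β` by a translation -/
def qq (m : ℕ) : Q0 := (ta 1) ^ m * be * ((ta 1) ^ m)⁻¹

theorem dv_qq (m : ℕ) (x : ZMod n) : dv n (qq m) x = if x = (m : ZMod n) then (1, 0) else 0 := by
  rw [qq, ta_pow, ← ta_neg, dv_mul, dv_mul, dv_ta, dv_ta, zero_add, add_zero, dv_be]
  have h : (x - (((ta m).d : ℤ) : ZMod n) = 0) ↔ x = (m : ZMod n) := by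
    rw [sub_eq_zero]
    simp [ta]
  simp only [h]

theorem qq_d (m : ℕ) : (qq m).d = 0 := by
  rw [qq, ta_pow, ← ta_neg]
  simp [ta, be]

theorem uact_one (d : D) : uact d (1 : U K γ₁ γ₂) = 1 := by
  have h := uact_mul d (1 : U K γ₁ γ₂) 1
  rw [mul_one] at h
  exact left_eq_mul.1 h

theorem nact_at0 [NeZero n] (q : Q0) (hq : q.d = 0) (u : U K γ₁ γ₂) :
    nactF q (at0 n K γ₁ γ₂ u) = at0 n K γ₁ γ₂ (uact (dv n q 0) u) := by
  funext x
  rw [nactF, hq, Int.cast_zero, sub_zero]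
  by_cases hx : x = 0
  · subst hx
    simp [at0]
  · simp only [at0, Pi.mulSingle_eq_of_ne hx]
    exact uact_one _

theorem at0_mul (u v : U K γ₁ γ₂) :
    at0 n K γ₁ γ₂ (u * v) = at0 n K γ₁ γ₂ u * at0 n K γ₁ γ₂ v := Pi.mulSingle_mul _ _ _

theorem at0_inv (u : U K γ₁ γ₂) : at0 n K γ₁ γ₂ u⁻¹ = (at0 n K γ₁ γ₂ u)⁻¹ := Pi.mulSingle_inv _ _

theorem at0_one : at0 n K γ₁ γ₂ 1 = 1 := Pi.mulSingle_one _

theorem pi_of (j : Fin 7) : pi n K γ₁ γ₂ (FreeGroup.of j) = gen n K γ₁ γ₂ j := by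
  rw [pi, FreeGroup.lift_apply_of]

theorem pi_X1 : pi n K γ₁ γ₂ X1 = SemidirectProduct.inl (at0 n K γ₁ γ₂ (xg K γ₁, 1)) :=
  pi_of 0

theorem pi_X2 : pi n K γ₁ γ₂ X2 = SemidirectProduct.inl (at0 n K γ₁ γ₂ (1, xg K γ₂)) :=
  pi_of 1

theorem pi_W : pi n K γ₁ γ₂ Wd = SemidirectProduct.inl (at0 n K γ₁ γ₂ (wg K γ₁, wg K γ₂)) :=
  pi_of 2

theorem pi_B : pi n K γ₁ γ₂ Bt = SemidirectProduct.inr be := pi_of 3

theorem pi_T : pi n K γ₁ γ₂ Tt = SemidirectProduct.inr (ta 1) := pi_of 6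

theorem pi_qq (m : ℕ) : pi n K γ₁ γ₂ (cnj (Tt ^ m) Bt) = SemidirectProduct.inr (qq m) := by
  rw [cnj, map_mul, map_mul, map_inv, map_pow, pi_B, pi_T, ← map_pow, ← map_inv, ← map_mul,
    ← map_mul, qq]

theorem conj_inr (q : Q0) (u : NN n K γ₁ γ₂) :
    (SemidirectProduct.inr q : Blk n K γ₁ γ₂) * SemidirectProduct.inl u *
      (SemidirectProduct.inr q)⁻¹ = SemidirectProduct.inl (nactF q u) := by
  rw [← nact_apply, ← map_inv, SemidirectProduct.inl_aut]

theorem comm_inr (q : Q0) (u : NN n K γ₁ γ₂) :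
    (SemidirectProduct.inl u : Blk n K γ₁ γ₂) * SemidirectProduct.inr q *
      (SemidirectProduct.inl u)⁻¹ * (SemidirectProduct.inr q)⁻¹ =
      SemidirectProduct.inl (u * nactF q u⁻¹) := by
  rw [map_mul, ← conj_inr, map_inv]
  group

/-- the value of the basic commutator, where `v` is the word for `u` at the coordinate `0` -/
theorem br_val [NeZero n] (v : F7) (u : U K γ₁ γ₂)
    (hv : pi n K γ₁ γ₂ v = SemidirectProduct.inl (at0 n K γ₁ γ₂ u)) (m : ℕ) :
    pi n K γ₁ γ₂ (br v (cnj (Tt ^ m) Bt)) = SemidirectProduct.inl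
      (at0 n K γ₁ γ₂ (u * uact (if (0 : ZMod n) = (m : ZMod n) then (1, 0) else 0) u⁻¹)) := by
  rw [br, map_mul, map_mul, map_mul, map_inv, map_inv, pi_qq, hv, comm_inr, ← at0_inv,
    nact_at0 _ (qq_d m), dv_qq, ← at0_mul]

end blk

/-! ### The words supported at one block -/

section words

variable (d : ℕ → Dat) (c1 c2 : ∀ i, Fin (d i).m → Bool) (i : ℕ)

/-- the map to the block -/
abbrev P (k : ℕ) : F7 →* Blk (nn k) (d k).K (gam (d k) (c1 k)) (gam (d k) (c2 k)) :=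
  pi (nn k) (d k).K (gam (d k) (c1 k)) (gam (d k) (c2 k))

/-- the elements of the block `i` in the group -/
def LL : Subgroup (NN (nn i) (d i).K (gam (d i) (c1 i)) (gam (d i) (c2 i))) where
  carrier := {u | ∃ v, P d c1 c2 i v = SemidirectProduct.inl u ∧ ∀ k, k ≠ i → P d c1 c2 k v = 1}
  mul_mem' := by
    rintro a b ⟨v, hv, hv'⟩ ⟨w, hw, hw'⟩
    refine ⟨v * w, ?_, fun k hk => ?_⟩
    · rw [map_mul, hv, hw, map_mul]
    · rw [map_mul, hv' k hk, hw' k hk, mul_one]
  one_mem' := ⟨1, by rw [map_one, map_one], fun k _ => map_one _⟩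
  inv_mem' := by
    rintro a ⟨v, hv, hv'⟩
    refine ⟨v⁻¹, ?_, fun k hk => ?_⟩
    · rw [map_inv, hv, map_inv]
    · rw [map_inv, hv' k hk, inv_one]

variable {d c1 c2 i}

theorem LL_conj {u u' : NN (nn i) (d i).K (gam (d i) (c1 i)) (gam (d i) (c2 i))}
    (hu : u ∈ LL d c1 c2 i) (w : F7)
    (h : P d c1 c2 i w * SemidirectProduct.inl u * (P d c1 c2 i w)⁻¹ = SemidirectProduct.inl u') :
    u' ∈ LL d c1 c2 i := by
  obtain ⟨v, hv, hv'⟩ := hu
  refine ⟨w * v * w⁻¹, ?_, fun k hk => ?_⟩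
  · rw [map_mul, map_mul, map_inv, hv, h]
  · rw [map_mul, map_mul, map_inv, hv' k hk, mul_one, mul_inv_cancel]

theorem LL_comm {u a : NN (nn i) (d i).K (gam (d i) (c1 i)) (gam (d i) (c2 i))}
    (hu : u ∈ LL d c1 c2 i) (w : F7) (hw : P d c1 c2 i w = SemidirectProduct.inl a) :
    u * a * u⁻¹ * a⁻¹ ∈ LL d c1 c2 i := by
  have h : a * u⁻¹ * a⁻¹ ∈ LL d c1 c2 i := by
    refine LL_conj (inv_mem hu) w ?_
    rw [hw, map_mul, map_mul, map_inv, map_inv]
  have h1 := mul_mem hu h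
  rwa [← mul_assoc, ← mul_assoc] at h1

theorem LL_act {u : NN (nn i) (d i).K (gam (d i) (c1 i)) (gam (d i) (c2 i))}
    (hu : u ∈ LL d c1 c2 i) (w : F7) (q : Q0) (hw : P d c1 c2 i w = SemidirectProduct.inr q) :
    nactF q u ∈ LL d c1 c2 i := by
  refine LL_conj hu w ?_
  rw [hw, conj_inr]

theorem nn_zero_iff (h : S_nn) (k : ℕ) (hk : (0 : ZMod (nn k)) = (nn i : ZMod (nn k))) : k = i := by
  have h1 : nn k ∣ nn i := (ZMod.natCast_eq_zero_iff _ _).1 hk.symm
  exact h.2.2.1 ((Nat.prime_dvd_prime_iff_eq (h.1 k) (h.1 i)).1 h1)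

theorem base_mem (h : S_nn) [NeZero (nn i)] (v : F7)
    (u : ∀ k, U (d k).K (gam (d k) (c1 k)) (gam (d k) (c2 k)))
    (hv : ∀ k, P d c1 c2 k v = SemidirectProduct.inl (at0 _ _ _ _ (u k))) :
    at0 (nn i) (d i).K (gam (d i) (c1 i)) (gam (d i) (c2 i))
      (u i * uact (1, 0) (u i)⁻¹) ∈ LL d c1 c2 i := by
  refine ⟨br v (cnj (Tt ^ nn i) Bt), ?_, fun k hk => ?_⟩
  · rw [P, br_val v (u i) (hv i), if_pos]
    simp
  · have : NeZero (nn k) := ⟨(h.1 k).ne_zero⟩
    rw [P, br_val v (u k) (hv k), if_neg fun h' => hk (nn_zero_iff h k h'), uact_zero,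
      mul_inv_cancel, at0_one, map_one]

variable (d c1 c2 i) in
/-- the embedding at the coordinate `0` -/
def ah : U (d i).K (gam (d i) (c1 i)) (gam (d i) (c2 i)) →*
    NN (nn i) (d i).K (gam (d i) (c1 i)) (gam (d i) (c2 i)) where
  toFun := at0 _ _ _ _
  map_one' := at0_one
  map_mul' := at0_mul

theorem ah_apply (u : U (d i).K (gam (d i) (c1 i)) (gam (d i) (c2 i))) :
    ah d c1 c2 i u = at0 _ _ _ _ u := rfl

theorem ah_act [NeZero (nn i)] (u : U (d i).K (gam (d i) (c1 i)) (gam (d i) (c2 i)))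
    (hu : ah d c1 c2 i u ∈ LL d c1 c2 i) : ah d c1 c2 i (uact (1, 0) u) ∈ LL d c1 c2 i := by
  have h1 := LL_act hu Bt be pi_B
  rw [ah_apply, nact_at0 _ rfl, dv_be, if_pos rfl] at h1
  exact h1

theorem ah_comm (u : U (d i).K (gam (d i) (c1 i)) (gam (d i) (c2 i)))
    (hu : ah d c1 c2 i u ∈ LL d c1 c2 i) :
    ah d c1 c2 i (u * (wg _ _, wg _ _) * u⁻¹ * (wg _ _, wg _ _)⁻¹) ∈ LL d c1 c2 i := by
  have h1 := LL_comm hu Wd pi_W
  rw [map_mul, map_mul, map_mul, map_inv, map_inv]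
  exact h1

theorem xg_val (K : Type) [CommRing K] (γ : Kˣ) :
    xg K γ * actF (1, 0) (xg K γ)⁻¹ = hx (1 - sg) := by
  refine Hgp.ext (funext fun l => ?_) ?_
  · simp [xg, hx]
  · simp only [Hgp.mul_x, actF_x, Hgp.inv_x, xg, hx]
    decide

theorem actF_one' (K : Type) [CommRing K] (γ : Kˣ) (e : D) : actF e (1 : Hgp K γ) = 1 := by
  refine Hgp.ext (funext fun l => ?_) ?_ <;> simp

theorem slot1 (h : S_nn) [NeZero (nn i)] :
    (LL d c1 c2 i).comap ((ah d c1 c2 i).comp (MonoidHom.inl _ _)) = ⊤ := by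
  refine Hfull _ (fun a ha => ?_) ?_ (fun a ha => ?_) (Kfull (d i) (c1 i))
  · have h1 := ah_act (a, 1) ha
    rw [uact] at h1
    simp only [actF_one'] at h1
    exact h1
  · have h1 := base_mem (d := d) (c1 := c1) (c2 := c2) (i := i) h X1 (fun k => (xg _ _, 1))
      (fun k => pi_X1)
    rw [uact, Prod.mk_mul_mk, Prod.inv_mk] at h1
    simp only [inv_one, actF_one', mul_one, xg_val] at h1
    exact h1
  · have h1 := ah_comm (a, 1) ha
    rw [Prod.mk_mul_mk, Prod.inv_mk, Prod.inv_mk, Prod.mk_mul_mk, Prod.mk_mul_mk, inv_one, one_mul,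
      mul_one, mul_inv_cancel] at h1
    exact h1

theorem slot2 (h : S_nn) [NeZero (nn i)] :
    (LL d c1 c2 i).comap ((ah d c1 c2 i).comp (MonoidHom.inr _ _)) = ⊤ := by
  refine Hfull _ (fun a ha => ?_) ?_ (fun a ha => ?_) (Kfull (d i) (c2 i))
  · have h1 := ah_act (1, a) ha
    rw [uact] at h1
    simp only [actF_one'] at h1
    exact h1
  · have h1 := base_mem (d := d) (c1 := c1) (c2 := c2) (i := i) h X2 (fun k => (1, xg _ _))
      (fun k => pi_X2)
    rw [uact, Prod.mk_mul_mk, Prod.inv_mk] at h1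
    simp only [inv_one, actF_one', mul_one, xg_val] at h1
    exact h1
  · have h1 := ah_comm (1, a) ha
    rw [Prod.mk_mul_mk, Prod.inv_mk, Prod.inv_mk, Prod.mk_mul_mk, Prod.mk_mul_mk, inv_one, one_mul,
      mul_one, mul_inv_cancel] at h1
    exact h1

theorem at0_mem (h : S_nn) [NeZero (nn i)] (u : U (d i).K (gam (d i) (c1 i)) (gam (d i) (c2 i))) :
    at0 (nn i) (d i).K (gam (d i) (c1 i)) (gam (d i) (c2 i)) u ∈ LL d c1 c2 i := by
  have h1 : u.1 ∈ (LL d c1 c2 i).comap ((ah d c1 c2 i).comp (MonoidHom.inl _ _)) := by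
    rw [slot1 h]; trivial
  have h2 : u.2 ∈ (LL d c1 c2 i).comap ((ah d c1 c2 i).comp (MonoidHom.inr _ _)) := by
    rw [slot2 h]; trivial
  have h3 := mul_mem (Subgroup.mem_comap.1 h1) (Subgroup.mem_comap.1 h2)
  rw [MonoidHom.comp_apply, MonoidHom.comp_apply, ← map_mul, MonoidHom.inl_apply,
    MonoidHom.inr_apply, Prod.mk_mul_mk, mul_one, one_mul] at h3
  exact h3

theorem single_mem (h : S_nn) [NeZero (nn i)] (x : ZMod (nn i))
    (u : U (d i).K (gam (d i) (c1 i)) (gam (d i) (c2 i))) :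
    (Pi.mulSingle x u : NN (nn i) (d i).K (gam (d i) (c1 i)) (gam (d i) (c2 i))) ∈
      LL d c1 c2 i := by
  have h1 := LL_act (at0_mem (d := d) (c1 := c1) (c2 := c2) h u) (Tt ^ x.val) ((ta 1) ^ x.val)
    (by rw [P, map_pow, pi_T, ← map_pow])
  have h2 : nactF ((ta 1) ^ x.val) (at0 (nn i) (d i).K (gam (d i) (c1 i)) (gam (d i) (c2 i)) u) =
      Pi.mulSingle x u := by
    funext y
    rw [nactF, ta_pow, dv_ta, uact_zero]
    have h3 : (((ta (x.val : ℤ)).d : ℤ) : ZMod (nn i)) = x := by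
      simp [ta]
    rw [h3]
    by_cases hy : y = x
    · subst hy
      simp [at0]
    · have h4 : y - x ≠ 0 := sub_ne_zero.2 hy
      rw [Pi.mulSingle_eq_of_ne hy, at0, Pi.mulSingle_eq_of_ne h4]
  rwa [h2] at h1

theorem all_mem (h : S_nn) [NeZero (nn i)]
    (u : NN (nn i) (d i).K (gam (d i) (c1 i)) (gam (d i) (c2 i))) : u ∈ LL d c1 c2 i := by
  classical
  have key : ∀ s : Finset (ZMod (nn i)), (fun x => if x ∈ s then u x else 1) ∈ LL d c1 c2 i := by
    intro s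
    induction s using Finset.induction_on with
    | empty =>
      have h0 : (fun x => if x ∈ (∅ : Finset (ZMod (nn i))) then u x else 1) = 1 := by
        funext x
        simp
      rw [h0]
      exact (LL d c1 c2 i).one_mem
    | insert a s ha ih =>
      have h1 := mul_mem (single_mem (d := d) (c1 := c1) (c2 := c2) h a (u a)) ih
      have h2 : (Pi.mulSingle a (u a) * fun x => if x ∈ s then u x else 1) =
          fun x => if x ∈ insert a s then u x else 1 := by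
        funext x
        rw [Pi.mul_apply]
        by_cases hx : x = a
        · subst hx
          simp [ha]
        · rw [Pi.mulSingle_eq_of_ne hx, one_mul]
          simp [hx]
      rwa [h2] at h1
  have h1 := key Finset.univ
  simpa using h1

end words

/-- S_L. -/
theorem holds (h : S_nn) : S_L := by
  intro d c1 c2 i u
  have : NeZero (nn i) := ⟨(h.1 i).ne_zero⟩
  exact all_mem (d := d) (c1 := c1) (c2 := c2) h u

end

end Pool.Agent.H111.EC_L
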