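import Pool.Agent.H646.EC.Stm

set_option autoImplicit false

namespace Pool.Agent.H389.EC_alg

open Pool.Agent.H646.EC

/-- Norm of an Eisenstein integer. -/
def nm (x : O) : ℤ := x.re ^ 2 + x.re * x.im + x.im ^ 2

theorem nm_mul (x y : O) : nm (x * y) = nm x * nm y := by
  simp only [nm, QuadraticAlgebra.re_mul, QuadraticAlgebra.im_mul]
  ring

theorem nm_int (k : ℤ) : nm (k : O) = k ^ 2 := by
  simp [nm]

theorem nm_one : nm 1 = 1 := by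
  decide

theorem nm_nonneg (x : O) : 0 ≤ nm x := by
  simp only [nm]
  nlinarith [sq_nonneg (x.re + x.im), sq_nonneg x.re, sq_nonneg x.im]

theorem nm_us (l : ZMod 6) : nm (us l) = 1 := by
  revert l; decide

theorem dvd_iff (n : ℤ) (z : O) : (n : O) ∣ z ↔ n ∣ z.re ∧ n ∣ z.im := by
  constructor
  · rintro ⟨t, rfl⟩
    constructor
    · exact ⟨t.re, by simp⟩
    · exact ⟨t.im, by simp⟩
  · rintro ⟨⟨s, hs⟩, ⟨t, ht⟩⟩
    refine ⟨⟨s, t⟩, ?_⟩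
    ext
    · simp [hs]
    · simp [ht]

theorem nm_congr (n : ℤ) (x y : O) (h : (n : O) ∣ x - y) : n ∣ nm x - nm y := by
  obtain ⟨h1, h2⟩ := (dvd_iff n _).1 h
  simp only [QuadraticAlgebra.re_sub, QuadraticAlgebra.im_sub] at h1 h2
  have e : nm x - nm y = (x.re - y.re) * (x.re + y.re + x.im) + (x.im - y.im) * (x.im + y.im + y.re) := by
    simp only [nm]; ring
  rw [e]
  exact dvd_add (Dvd.dvd.mul_right h1 _) (Dvd.dvd.mul_right h2 _)

theorem ph_congr (n : ℤ) (l : ZMod 6) (x y : O) (h : (n : O) ∣ x - y) : n ∣ ph l x - ph l y := by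
  have h1 : (n : O) ∣ us l * (x - y) := Dvd.dvd.mul_left h _
  have h2 := ((dvd_iff n _).1 h1).1
  rw [mul_sub, QuadraticAlgebra.re_sub] at h2
  exact h2

theorem ph_cj (l : ZMod 6) (x : O) : ph l (cj x) = ph (5 - l) x := by
  have h : ∀ l : ZMod 6, (us (5 - l)).re = (us l).re ∧ (us (5 - l)).im = - (us l).re - (us l).im := by
    decide
  obtain ⟨h1, h2⟩ := h l
  simp only [ph, cj, QuadraticAlgebra.re_mul, h1, h2]
  ring

/-- `ph` at the neighbours. -/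
theorem ph_succ (l : ZMod 6) (y : O) : ph (l + 1) y = - (us l * y).im := by
  rw [ph, add_comm, us_add, mul_assoc]
  have h : us 1 = ⟨0, 1⟩ := by decide
  rw [h]
  simp [QuadraticAlgebra.re_mul]

theorem ph_pred (l : ZMod 6) (y : O) : ph (l + -1) y = (us l * y).re + (us l * y).im := by
  rw [ph, add_comm, us_add, mul_assoc]
  have h : us (-1) = ⟨1, -1⟩ := by decide
  rw [h]
  simp [QuadraticAlgebra.re_mul]

/-- The shift of `l`. -/
def L (ε l : ZMod 6) : ZMod 6 := if ε = 1 then l else l + 1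

theorem cong_of (p k α : ℤ) (ε l : ZMod 6) (hε : ε = 1 ∨ ε = -1) (y : O)
    (h1 : p ∣ k * ph l y - α) (h2 : p ∣ k * ph (l + ε) y) :
    (p : O) ∣ (k : O) * (us (L ε l) * y) - (α : O) := by
  rcases hε with rfl | rfl
  · rw [ph_succ] at h2
    rw [dvd_iff]
    simp only [L, if_true, QuadraticAlgebra.re_sub, QuadraticAlgebra.im_sub]
    simp only [ph] at h1
    generalize us l * y = z at h1 h2
    constructor
    · simpa using h1
    · have h3 : p ∣ -(k * -z.im) := (dvd_neg).2 h2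
      have e : -(k * -z.im) = k * z.im := by ring
      rw [e] at h3
      simpa using h3
  · rw [ph_pred] at h2
    have hne : ¬ ((-1 : ZMod 6) = 1) := by decide
    rw [dvd_iff]
    simp only [L, hne, if_false]
    have e : us (l + 1) * y = ⟨0, 1⟩ * (us l * y) := by
      rw [add_comm, us_add, mul_assoc]
      rfl
    rw [e]
    simp only [ph] at h1
    generalize us l * y = z at h1 h2
    constructor
    · have : (QuadraticAlgebra.re ((k : O) * (⟨0, 1⟩ * z) - (α : O))) = (k * z.re - α) - k * (z.re + z.im) := by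
        simp [QuadraticAlgebra.re_mul]
        ring
      rw [this]
      exact dvd_sub h1 h2
    · have : (QuadraticAlgebra.im ((k : O) * (⟨0, 1⟩ * z) - (α : O))) = k * (z.re + z.im) := by
        simp [QuadraticAlgebra.im_mul]
      rw [this]
      exact h2

theorem unit_nm (m1 m2 : O × O)
    (h : ∀ v : O × O, ∃ a b : O, v = (a * m1.1 + b * m2.1, a * m1.2 + b * m2.2)) :
    nm (m1.1 * m2.2 - m2.1 * m1.2) = 1 := by
  obtain ⟨a, b, hab⟩ := h (1, 0)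
  obtain ⟨c, e, hce⟩ := h (0, 1)
  simp only [Prod.mk.injEq] at hab hce
  have h1 : (a * e - b * c) * (m1.1 * m2.2 - m2.1 * m1.2) = 1 := by
    have : (a * e - b * c) * (m1.1 * m2.2 - m2.1 * m1.2) =
      (a * m1.1 + b * m2.1) * (c * m1.2 + e * m2.2) - (a * m1.2 + b * m2.2) * (c * m1.1 + e * m2.1) := by
      ring
    rw [this, ← hab.1, ← hab.2, ← hce.1, ← hce.2]
    ring
  have h2 := congrArg nm h1
  rw [nm_mul, nm_one] at h2
  have h3 := nm_nonneg (m1.1 * m2.2 - m2.1 * m1.2)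
  rcases Int.eq_one_or_neg_one_of_mul_eq_one (by rw [mul_comm] at h2; exact h2) with h4 | h4
  · exact h4
  · omega

/-- The possible values. -/
def Val (α β : ℤ) : Prop := (α = 1 ∧ β = 0) ∨ (α = 2 ∧ β = 0) ∨ (α = 0 ∧ β = 1) ∨ (α = 0 ∧ β = 2)

theorem not_dvd (p : ℕ) (hp : p.Prime) (h13 : 13 < p) (n : ℤ) (hn : (p : ℤ) ∣ n)
    (h : n = 1 ∨ n = -3 ∨ n = -15 ∨ n = 16 ∨ n = 15 ∨ n = 12) : False := by
  have h2 : p ∣ n.natAbs := Int.natCast_dvd.1 hn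
  rcases h with rfl | rfl | rfl | rfl | rfl | rfl
  · have := Nat.le_of_dvd (by norm_num) h2
    norm_num at this; omega
  · have := Nat.le_of_dvd (by norm_num) h2
    norm_num at this; omega
  · have h3 : p ∣ 3 * 5 := by simpa using h2
    rcases (Nat.Prime.dvd_mul hp).1 h3 with h4 | h4
    · have := Nat.le_of_dvd (by norm_num) h4; omega
    · have := Nat.le_of_dvd (by norm_num) h4; omega
  · have h3 : p ∣ 2 ^ 4 := by simpa using h2
    have h4 := hp.dvd_of_dvd_pow h3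
    have := Nat.le_of_dvd (by norm_num) h4; omega
  · have h3 : p ∣ 3 * 5 := by simpa using h2
    rcases (Nat.Prime.dvd_mul hp).1 h3 with h4 | h4
    · have := Nat.le_of_dvd (by norm_num) h4; omega
    · have := Nat.le_of_dvd (by norm_num) h4; omega
  · have := Nat.le_of_dvd (by norm_num) h2
    norm_num at this; omega

theorem re_int_mul (n : ℤ) (z : O) : QuadraticAlgebra.re ((n : O) * z) = n * z.re := by
  simp

theorem im_int_mul (n : ℤ) (z : O) : QuadraticAlgebra.im ((n : O) * z) = n * z.im := by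
  simp

theorem cancel (p : ℕ) (hp : p.Prime) (h13 : 13 < p) (k : ℤ) (hk : k = 1 ∨ k = 2) (z : O)
    (h : ((p : ℤ) : O) ∣ (k : O) * z) : ((p : ℤ) : O) ∣ z := by
  rcases hk with rfl | rfl
  · simpa using h
  · rw [dvd_iff] at h ⊢
    rw [re_int_mul, im_int_mul] at h
    have hP : Prime (p : ℤ) := Nat.prime_iff_prime_int.1 hp
    have h2 : ¬ (p : ℤ) ∣ 2 := by
      intro h2
      have := Int.le_of_dvd (by norm_num) h2
      omega
    exact ⟨(hP.dvd_or_dvd h.1).resolve_left h2, (hP.dvd_or_dvd h.2).resolve_left h2⟩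

theorem core (p : ℕ) (hp : p.Prime) (h13 : 13 < p) (k : ℤ) (hk : k = 1 ∨ k = 2) (A B C E : O)
    (α₁ β₁ α₂ β₂ : ℤ) (hv1 : Val α₁ β₁) (hv2 : Val α₂ β₂) (hn : nm (A * E - B * C) = 1)
    (hA : ((p : ℤ) : O) ∣ (k : O) * A - (α₁ : O)) (hB : ((p : ℤ) : O) ∣ (k : O) * B - (β₁ : O))
    (hC : ((p : ℤ) : O) ∣ (k : O) * C - (α₂ : O)) (hE : ((p : ℤ) : O) ∣ (k : O) * E - (β₂ : O)) :
    (((p : ℤ) : O) ∣ A - 1 ∧ ((p : ℤ) : O) ∣ B ∧ ((p : ℤ) : O) ∣ C ∧ ((p : ℤ) : O) ∣ E - 1) ∨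
    (((p : ℤ) : O) ∣ A ∧ ((p : ℤ) : O) ∣ B - 1 ∧ ((p : ℤ) : O) ∣ C - 1 ∧ ((p : ℤ) : O) ∣ E) := by
  have h1 : ((p : ℤ) : O) ∣ ((k ^ 2 : ℤ) : O) * (A * E - B * C) - ((α₁ * β₂ - β₁ * α₂ : ℤ) : O) := by
    have e : ((k ^ 2 : ℤ) : O) * (A * E - B * C) - ((α₁ * β₂ - β₁ * α₂ : ℤ) : O) =
      ((k : O) * A - (α₁ : O)) * ((k : O) * E) + (α₁ : O) * ((k : O) * E - (β₂ : O))
      - (((k : O) * B - (β₁ : O)) * ((k : O) * C) + (β₁ : O) * ((k : O) * C - (α₂ : O))) := by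
      push_cast
      ring
    rw [e]
    exact dvd_sub (dvd_add (Dvd.dvd.mul_right hA _) (Dvd.dvd.mul_left hE _))
      (dvd_add (Dvd.dvd.mul_right hB _) (Dvd.dvd.mul_left hC _))
  have h2 := nm_congr _ _ _ h1
  rw [nm_mul, nm_int, nm_int, hn, mul_one] at h2
  have c1 : ∀ z : O, ((p : ℤ) : O) ∣ (k : O) * z - ((0 : ℤ) : O) → ((p : ℤ) : O) ∣ z := by
    intro z hz
    refine cancel p hp h13 k hk z ?_
    simpa using hz
  have c2 : ∀ z : O, ((p : ℤ) : O) ∣ (k : O) * z - (k : O) → ((p : ℤ) : O) ∣ z - 1 := by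
    intro z hz
    refine cancel p hp h13 k hk _ ?_
    rw [mul_sub, mul_one]
    exact hz
  rcases hk with rfl | rfl
  · rcases hv1 with ⟨rfl, rfl⟩ | ⟨rfl, rfl⟩ | ⟨rfl, rfl⟩ | ⟨rfl, rfl⟩ <;>
    rcases hv2 with ⟨rfl, rfl⟩ | ⟨rfl, rfl⟩ | ⟨rfl, rfl⟩ | ⟨rfl, rfl⟩ <;>
    first
    | exact Or.inl ⟨c2 _ hA, c1 _ hB, c1 _ hC, c2 _ hE⟩
    | exact Or.inr ⟨c1 _ hA, c2 _ hB, c2 _ hC, c1 _ hE⟩
    | exact (not_dvd p hp h13 _ h2 (by norm_num)).elim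
  · rcases hv1 with ⟨rfl, rfl⟩ | ⟨rfl, rfl⟩ | ⟨rfl, rfl⟩ | ⟨rfl, rfl⟩ <;>
    rcases hv2 with ⟨rfl, rfl⟩ | ⟨rfl, rfl⟩ | ⟨rfl, rfl⟩ | ⟨rfl, rfl⟩ <;>
    first
    | exact Or.inl ⟨c2 _ hA, c1 _ hB, c1 _ hC, c2 _ hE⟩
    | exact Or.inr ⟨c1 _ hA, c2 _ hB, c2 _ hC, c1 _ hE⟩
    | exact (not_dvd p hp h13 _ h2 (by norm_num)).elim

/-- A power of the unit `gam` at a coordinate. -/
theorem gam_zpow (d : Dat) (cc : Fin d.m → Bool) (z : ℤ) (a : Fin d.m) :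
    ((gam d cc ^ z : (d.K)ˣ) : d.K) a =
      ((ZMod.unitOfCoprime 6 (d.co a) ^ ((ex (cc a) : ℤ) * z) : (ZMod (d.r a))ˣ) : ZMod (d.r a)) := by
  have h1 : ((gam d cc ^ z : (d.K)ˣ) : d.K) a = (((MulEquiv.piUnits (gam d cc ^ z)) a : (ZMod (d.r a))ˣ) : ZMod (d.r a)) := rfl
  rw [h1, map_zpow, gam, MulEquiv.apply_symm_apply, Pi.pow_apply, zpow_mul, zpow_natCast]

theorem six_zpow_eq (d : Dat) (a : Fin d.m) (z : ℤ) (n : ℕ)
    (h : ((ZMod.unitOfCoprime 6 (d.co a) ^ z : (ZMod (d.r a))ˣ) : ZMod (d.r a)) = (6 : ZMod (d.r a)) ^ n) :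
    (d.p a : ℤ) ∣ z - n := by
  have h1 : (ZMod.unitOfCoprime 6 (d.co a)) ^ z = (ZMod.unitOfCoprime 6 (d.co a)) ^ (n : ℤ) := by
    apply Units.ext
    rw [h, zpow_natCast, Units.val_pow_eq_pow_val, ZMod.coe_unitOfCoprime]
    norm_num
  have h2 : (ZMod.unitOfCoprime 6 (d.co a)) ^ (z - n) = 1 := by
    rw [zpow_sub, h1, mul_inv_cancel]
  rw [← d.ord a]
  exact orderOf_dvd_iff_zpow_eq_one.2 h2

theorem slot (d : Dat) (cc : Fin d.m → Bool) (ε : ZMod 6) (hε : ε = 1 ∨ ε = -1) (y1 y2 : O)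
    (f : ZMod 6 → d.K) (hw : WtEq d cc ε y1 y2 f) (a : Fin d.m) (l : ZMod 6) (hl : f l a ≠ 0) :
    ∃ α β : ℤ, Val α β ∧
      (((d.p a : ℕ) : ℤ) : O) ∣ (((ex (cc a) : ℕ) : ℤ) : O) * (us (L ε l) * y1) - (α : O) ∧
      (((d.p a : ℕ) : ℤ) : O) ∣ (((ex (cc a) : ℕ) : ℤ) : O) * (us (L ε l) * y2) - (β : O) := by
  obtain ⟨h1, h2, h3, h4⟩ := hw a l hl
  have : Fact (d.r a).Prime := ⟨d.rp a⟩
  rw [gam_zpow] at h1 h2 h3 h4
  rw [gam_zpow] at h1 h2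
  have d3 : (d.p a : ℤ) ∣ (ex (cc a) : ℤ) * ph (l + ε) y1 := by
    have := six_zpow_eq d a _ 0 (by rw [h3, pow_zero])
    simpa using this
  have d4 : (d.p a : ℤ) ∣ (ex (cc a) : ℤ) * ph (l + ε) y2 := by
    have := six_zpow_eq d a _ 0 (by rw [h4, pow_zero])
    simpa using this
  rcases mul_eq_zero.1 h1 with h5 | h5
  · have h6 := sub_eq_zero.1 h5
    rw [h6] at h2
    have e1 := six_zpow_eq d a _ 0 (by rw [h6, pow_zero])
    rcases mul_eq_zero.1 h2 with h7 | h7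
    · have e2 := six_zpow_eq d a ((ex (cc a) : ℤ) * ph l y2) 1 (by rw [pow_one]; linear_combination h7)
      refine ⟨0, 1, Or.inr (Or.inr (Or.inl ⟨rfl, rfl⟩)), ?_, ?_⟩
      · exact cong_of _ _ _ ε l hε y1 (by simpa using e1) d3
      · exact cong_of _ _ _ ε l hε y2 (by simpa using e2) d4
    · have e2 := six_zpow_eq d a ((ex (cc a) : ℤ) * ph l y2) 2 (by linear_combination h7)
      refine ⟨0, 2, Or.inr (Or.inr (Or.inr ⟨rfl, rfl⟩)), ?_, ?_⟩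
      · exact cong_of _ _ _ ε l hε y1 (by simpa using e1) d3
      · exact cong_of _ _ _ ε l hε y2 (by simpa using e2) d4
  · have h6 := sub_eq_zero.1 h5
    rw [h6] at h2
    have e1 := six_zpow_eq d a _ 0 (by rw [h6, pow_zero])
    rcases mul_eq_zero.1 h2 with h7 | h7
    · have e2 := six_zpow_eq d a ((ex (cc a) : ℤ) * ph l y1) 1 (by rw [pow_one]; linear_combination h7)
      refine ⟨1, 0, Or.inl ⟨rfl, rfl⟩, ?_, ?_⟩
      · exact cong_of _ _ _ ε l hε y1 (by simpa using e2) d3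
      · exact cong_of _ _ _ ε l hε y2 (by simpa using e1) d4
    · have e2 := six_zpow_eq d a ((ex (cc a) : ℤ) * ph l y1) 2 (by linear_combination h7)
      refine ⟨2, 0, Or.inr (Or.inl ⟨rfl, rfl⟩), ?_, ?_⟩
      · exact cong_of _ _ _ ε l hε y1 (by simpa using e2) d3
      · exact cong_of _ _ _ ε l hε y2 (by simpa using e1) d4

/-- Uniqueness of the coordinate. -/
theorem uniq (p : ℕ) (h13 : 13 < p) (ε l l' : ZMod 6) (hε : ε = 1 ∨ ε = -1) (y : O)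
    (h1 : ((p : ℤ) : O) ∣ us (L ε l) * y - 1) (h2 : ((p : ℤ) : O) ∣ us (L ε l') * y - 1) :
    l = l' := by
  have h3 : ((p : ℤ) : O) ∣ us (L ε l - L ε l') - 1 := by
    have e : us (L ε l - L ε l') - 1 =
      (us (L ε l) * y - 1) - us (L ε l - L ε l') * (us (L ε l') * y - 1) := by
      rw [mul_sub, ← mul_assoc, ← us_add, sub_add_cancel]
      ring
    rw [e]
    exact dvd_sub h1 (Dvd.dvd.mul_left h2 _)
  have h4 := (dvd_iff _ _).1 h3
  have h5 : ∀ s : ZMod 6, s ≠ 0 → (us s - 1).re.natAbs ∈ ({1, 2} : Finset ℕ) ∨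
      (us s - 1).im.natAbs ∈ ({1, 2} : Finset ℕ) := by
    decide
  have h6 : L ε l - L ε l' = 0 := by
    by_contra h
    have h7 : p ∣ (us (L ε l - L ε l') - 1).re.natAbs := Int.natCast_dvd.1 h4.1
    have h8 : p ∣ (us (L ε l - L ε l') - 1).im.natAbs := Int.natCast_dvd.1 h4.2
    rcases h5 _ h with h9 | h9
    · have h10 : (us (L ε l - L ε l') - 1).re.natAbs = 1 ∨ (us (L ε l - L ε l') - 1).re.natAbs = 2 := by
        simpa using h9
      rcases h10 with h10 | h10 <;>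
      · rw [h10] at h7
        have := Nat.le_of_dvd (by norm_num) h7
        omega
    · have h10 : (us (L ε l - L ε l') - 1).im.natAbs = 1 ∨ (us (L ε l - L ε l') - 1).im.natAbs = 2 := by
        simpa using h9
      rcases h10 with h10 | h10 <;>
      · rw [h10] at h8
        have := Nat.le_of_dvd (by norm_num) h8
        omega
  have h7 := sub_eq_zero.1 h6
  rcases hε with rfl | rfl
  · simpa [L] using h7
  · have hne : ¬ ((-1 : ZMod 6) = 1) := by decide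
    simpa [L, hne] using h7

/-- The shift `j`. -/
def J (ε l : ZMod 6) : ZMod 6 := if ε = 1 then -l else l

theorem J_iff (ε l l' : ZMod 6) (hε : ε = 1 ∨ ε = -1) : ε * l' + J ε l = 0 ↔ l' = l := by
  revert l l'
  rcases hε with rfl | rfl
  · decide
  · decide

theorem ph_shift (ε l₀ l : ZMod 6) (hε : ε = 1 ∨ ε = -1) (x : O) :
    ph l (us (-(L ε l₀)) * cje ε x) = ph (ε * l + J ε l₀) x := by
  rw [ph_us]
  rcases hε with rfl | rfl
  · simp [L, J, cje, sub_eq_add_neg]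
  · have hne : ¬ ((-1 : ZMod 6) = 1) := by decide
    simp only [L, J, cje, hne, if_false]
    rw [ph_cj]
    congr 1
    revert l l₀
    decide

theorem fin_ph (p : ℤ) (ε l₀ l : ZMod 6) (hε : ε = 1 ∨ ε = -1) (y1 y2 x1 x2 : O)
    (h1 : (p : O) ∣ us (L ε l₀) * y1 - 1) (h2 : (p : O) ∣ us (L ε l₀) * y2) :
    p ∣ ph l (y1 * cje ε x1 + y2 * cje ε x2) - ph (ε * l + J ε l₀) x1 := by
  rw [← ph_shift ε l₀ l hε]
  apply ph_congr
  have e : y1 * cje ε x1 + y2 * cje ε x2 - us (-(L ε l₀)) * cje ε x1 =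
    us (-(L ε l₀)) * cje ε x1 * (us (L ε l₀) * y1 - 1) + us (-(L ε l₀)) * cje ε x2 * (us (L ε l₀) * y2) := by
    have e1 : us (-(L ε l₀)) * us (L ε l₀) = 1 := by
      rw [← us_add, neg_add_cancel, us_zero]
    linear_combination (- (cje ε x1 * y1) - cje ε x2 * y2) * e1
  rw [e]
  exact dvd_add (Dvd.dvd.mul_left h1 _) (Dvd.dvd.mul_left h2 _)

theorem not_dvd_one (p : ℕ) (h13 : 13 < p) (z : O) (h1 : ((p : ℤ) : O) ∣ z - 1)
    (h2 : ((p : ℤ) : O) ∣ z) : False := by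
  have h3 : ((p : ℤ) : O) ∣ 1 := by
    have e : (1 : O) = z - (z - 1) := by ring
    rw [e]
    exact dvd_sub h2 h1
  have h4 := ((dvd_iff _ _).1 h3).1
  have e : (QuadraticAlgebra.re (1 : O)) = 1 := rfl
  rw [e] at h4
  have := Int.le_of_dvd (by norm_num) h4
  omega

theorem pair (d : Dat) (cc : Fin d.m → Bool) (ε : ZMod 6) (m1 m2 : O × O)
    (w : (ZMod 6 → d.K) × (ZMod 6 → d.K)) (hε : ε = 1 ∨ ε = -1)
    (hg : ∀ v : O × O, ∃ a b : O, v = (a * m1.1 + b * m2.1, a * m1.2 + b * m2.2))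
    (hw1 : WtEq d cc ε m1.1 m2.1 w.1) (hw2 : WtEq d cc ε m1.2 m2.2 w.2)
    (a : Fin d.m) (l1 l2 : ZMod 6) (hl1 : w.1 l1 a ≠ 0) (hl2 : w.2 l2 a ≠ 0) :
    ((((d.p a : ℕ) : ℤ) : O) ∣ us (L ε l1) * m1.1 - 1 ∧ (((d.p a : ℕ) : ℤ) : O) ∣ us (L ε l1) * m2.1 ∧
      (((d.p a : ℕ) : ℤ) : O) ∣ us (L ε l2) * m1.2 ∧ (((d.p a : ℕ) : ℤ) : O) ∣ us (L ε l2) * m2.2 - 1) ∨
    ((((d.p a : ℕ) : ℤ) : O) ∣ us (L ε l1) * m1.1 ∧ (((d.p a : ℕ) : ℤ) : O) ∣ us (L ε l1) * m2.1 - 1 ∧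
      (((d.p a : ℕ) : ℤ) : O) ∣ us (L ε l2) * m1.2 - 1 ∧ (((d.p a : ℕ) : ℤ) : O) ∣ us (L ε l2) * m2.2) := by
  obtain ⟨α₁, β₁, hv1, hA, hB⟩ := slot d cc ε hε _ _ _ hw1 a l1 hl1
  obtain ⟨α₂, β₂, hv2, hC, hE⟩ := slot d cc ε hε _ _ _ hw2 a l2 hl2
  refine core (d.p a) (d.pp a) (d.big a) _ ?_ _ _ _ _ α₁ β₁ α₂ β₂ hv1 hv2 ?_ hA hB hC hE
  · cases cc a <;> simp [ex]
  · have e : us (L ε l1) * m1.1 * (us (L ε l2) * m2.2) - us (L ε l1) * m2.1 * (us (L ε l2) * m1.2) =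
      us (L ε l1) * us (L ε l2) * (m1.1 * m2.2 - m2.1 * m1.2) := by ring
    rw [e, nm_mul, nm_mul, nm_us, nm_us, unit_nm m1 m2 hg]
    norm_num

theorem holds : Pool.Agent.H646.EC.S_alg := by
  intro d cc ε m1 m2 w hε hg hs1 hs2 hw1 hw2
  choose l1 hl1 using hs1
  choose l2 hl2 using hs2
  have hp := pair d cc ε m1 m2 w hε hg hw1 hw2
  have hu1 : ∀ a l, w.1 l a ≠ 0 → l = l1 a := by
    intro a l hl
    rcases hp a l (l2 a) hl (hl2 a) with ⟨hA, hB, hC, hE⟩ | ⟨hA, hB, hC, hE⟩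
    · rcases hp a (l1 a) (l2 a) (hl1 a) (hl2 a) with ⟨hA', hB', hC', hE'⟩ | ⟨hA', hB', hC', hE'⟩
      · exact uniq (d.p a) (d.big a) ε l (l1 a) hε _ hA hA'
      · exact (not_dvd_one (d.p a) (d.big a) _ hC' hC).elim
    · rcases hp a (l1 a) (l2 a) (hl1 a) (hl2 a) with ⟨hA', hB', hC', hE'⟩ | ⟨hA', hB', hC', hE'⟩
      · exact (not_dvd_one (d.p a) (d.big a) _ hC hC').elim
      · exact uniq (d.p a) (d.big a) ε l (l1 a) hε _ hB hB'
  have hu2 : ∀ a l, w.2 l a ≠ 0 → l = l2 a := by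
    intro a l hl
    rcases hp a (l1 a) l (hl1 a) hl with ⟨hA, hB, hC, hE⟩ | ⟨hA, hB, hC, hE⟩
    · rcases hp a (l1 a) (l2 a) (hl1 a) (hl2 a) with ⟨hA', hB', hC', hE'⟩ | ⟨hA', hB', hC', hE'⟩
      · exact uniq (d.p a) (d.big a) ε l (l2 a) hε _ hE hE'
      · exact (not_dvd_one (d.p a) (d.big a) _ hA hA').elim
    · rcases hp a (l1 a) (l2 a) (hl1 a) (hl2 a) with ⟨hA', hB', hC', hE'⟩ | ⟨hA', hB', hC', hE'⟩
      · exact (not_dvd_one (d.p a) (d.big a) _ hA' hA).elim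
      · exact uniq (d.p a) (d.big a) ε l (l2 a) hε _ hC hC'
  have hb : ∀ a, ∃ b : Bool,
      (b = false ∧ (((d.p a : ℕ) : ℤ) : O) ∣ us (L ε (l1 a)) * m1.1 - 1 ∧
        (((d.p a : ℕ) : ℤ) : O) ∣ us (L ε (l1 a)) * m2.1 ∧
        (((d.p a : ℕ) : ℤ) : O) ∣ us (L ε (l2 a)) * m1.2 ∧
        (((d.p a : ℕ) : ℤ) : O) ∣ us (L ε (l2 a)) * m2.2 - 1) ∨
      (b = true ∧ (((d.p a : ℕ) : ℤ) : O) ∣ us (L ε (l1 a)) * m1.1 ∧
        (((d.p a : ℕ) : ℤ) : O) ∣ us (L ε (l1 a)) * m2.1 - 1 ∧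
        (((d.p a : ℕ) : ℤ) : O) ∣ us (L ε (l2 a)) * m1.2 - 1 ∧
        (((d.p a : ℕ) : ℤ) : O) ∣ us (L ε (l2 a)) * m2.2) := by
    intro a
    rcases hp a (l1 a) (l2 a) (hl1 a) (hl2 a) with h | h
    · exact ⟨false, Or.inl ⟨rfl, h⟩⟩
    · exact ⟨true, Or.inr ⟨rfl, h⟩⟩
  choose b hb using hb
  refine ⟨b, fun a => J ε (l1 a), fun a => J ε (l2 a), ?_, ?_, ?_, ?_⟩
  · intro a l
    rw [J_iff ε (l1 a) l hε]
    constructor
    · exact hu1 a l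
    · rintro rfl
      exact hl1 a
  · intro a l
    rw [J_iff ε (l2 a) l hε]
    constructor
    · exact hu2 a l
    · rintro rfl
      exact hl2 a
  · intro a l v
    rcases hb a with ⟨h0, hA, hB, hC, hE⟩ | ⟨h0, hA, hB, hC, hE⟩
    · rw [h0]
      exact fin_ph _ ε (l1 a) l hε _ _ _ _ hA hB
    · rw [h0, add_comm]
      exact fin_ph _ ε (l1 a) l hε _ _ _ _ hB hA
  · intro a l v
    rcases hb a with ⟨h0, hA, hB, hC, hE⟩ | ⟨h0, hA, hB, hC, hE⟩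
    · rw [h0, add_comm]
      exact fin_ph _ ε (l2 a) l hε _ _ _ _ hE hC
    · rw [h0]
      exact fin_ph _ ε (l2 a) l hε _ _ _ _ hC hE

end Pool.Agent.H389.EC_alg
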