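import Pool.Agent.H646.EC.Stm

/-! Elementary facts on back-and-forth. -/

set_option autoImplicit false

namespace Pool.Agent.H703.ECbf

open Pool.Agent.H646.EC

theorem bf_diag {ι α : Type} (R : ι → α → α → α → Prop) (k : ℕ) :
    ∀ P : Set (α × α), (∀ p ∈ P, p.1 = p.2) → BF R R k P := by
  induction k with
  | zero =>
    intro P hP
    refine ⟨fun p hp q hq => ?_, fun s p hp q hq r hr => ?_⟩
    · rw [hP p hp, hP q hq]
    · rw [hP p hp, hP q hq, hP r hr]
  | succ k ih =>
    intro P hP
    have key : ∀ x : α, BF R R k (insert (x, x) P) := by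
      intro x
      apply ih
      intro p hp
      rcases Set.mem_insert_iff.1 hp with h | h
      · rw [h]
      · exact hP p h
    exact ⟨fun x => ⟨x, key x⟩, fun x => ⟨x, key x⟩⟩

theorem bf_symm {ι α β : Type} (R : ι → α → α → α → Prop) (S : ι → β → β → β → Prop) (k : ℕ) :
    ∀ P : Set (α × β), BF R S k P → BF S R k {p | (p.2, p.1) ∈ P} := by
  induction k with
  | zero =>
    intro P hP
    refine ⟨fun p hp q hq => ?_, fun s p hp q hq r hr => ?_⟩
    · exact (hP.1 (p.2, p.1) hp (q.2, q.1) hq).symm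
    · exact (hP.2 s (p.2, p.1) hp (q.2, q.1) hq (r.2, r.1) hr).symm
  | succ k ih =>
    intro P hP
    have hset : ∀ (x : α) (y : β), {p : β × α | (p.2, p.1) ∈ insert (x, y) P} =
        insert (y, x) {p : β × α | (p.2, p.1) ∈ P} := by
      intro x y
      ext p
      obtain ⟨a, b⟩ := p
      constructor
      · intro h
        rcases Set.mem_insert_iff.1 h with h | h
        · have h1 : b = x := congrArg Prod.fst h
          have h2 : a = y := congrArg Prod.snd h
          rw [h1, h2]
          exact Set.mem_insert _ _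
        · exact Set.mem_insert_of_mem _ h
      · intro h
        rcases Set.mem_insert_iff.1 h with h | h
        · have h1 : a = y := congrArg Prod.fst h
          have h2 : b = x := congrArg Prod.snd h
          rw [h1, h2]
          exact Set.mem_insert _ _
        · exact Set.mem_insert_of_mem _ h
    refine ⟨fun y => ?_, fun x => ?_⟩
    · obtain ⟨x, hx⟩ := hP.2 y
      refine ⟨x, ?_⟩
      rw [← hset]
      exact ih _ hx
    · obtain ⟨y, hy⟩ := hP.1 x
      refine ⟨y, ?_⟩
      rw [← hset]
      exact ih _ hy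

theorem bf_mono {ι α β : Type} [Nonempty α] [Nonempty β] (R : ι → α → α → α → Prop)
    (S : ι → β → β → β → Prop) (k : ℕ) :
    ∀ (l : ℕ) (P Q : Set (α × β)), l ≤ k → Q ⊆ P → BF R S k P → BF R S l Q := by
  induction k with
  | zero =>
    intro l P Q hl hQ hP
    obtain rfl : l = 0 := Nat.le_zero.1 hl
    exact ⟨fun p hp q hq => hP.1 p (hQ hp) q (hQ hq),
      fun s p hp q hq r hr => hP.2 s p (hQ hp) q (hQ hq) r (hQ hr)⟩
  | succ k ih =>
    intro l P Q hl hQ hP
    cases l with
    | zero =>
      obtain ⟨y, hy⟩ := hP.1 (Classical.arbitrary α)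
      exact ih 0 _ Q (Nat.zero_le _) (hQ.trans (Set.subset_insert _ _)) hy
    | succ l =>
      refine ⟨fun x => ?_, fun y => ?_⟩
      · obtain ⟨y, hy⟩ := hP.1 x
        exact ⟨y, ih l _ _ (Nat.le_of_succ_le_succ hl) (Set.insert_subset_insert hQ) hy⟩
      · obtain ⟨x, hx⟩ := hP.2 y
        exact ⟨x, ih l _ _ (Nat.le_of_succ_le_succ hl) (Set.insert_subset_insert hQ) hx⟩

theorem holds : Pool.Agent.H646.EC.S_bf :=
  ⟨fun _ _ R k P hP => bf_diag R k P hP, fun _ _ _ R S k P hP => bf_symm R S k P hP,
    fun _ _ _ _ _ R S k l P Q hl hQ hP => bf_mono R S k l P Q hl hQ hP⟩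

end Pool.Agent.H703.ECbf
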