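import Pool.Agent.H646.EC.Defs

set_option autoImplicit false

/-! # Statements of project EC (MP_f5330b_al, Q1)

GOAL: two finitely generated elementarily equivalent groups, one condensed, the other not.

THE GROUPS. `O` = Eisenstein integers, `sg` a unit of order six with `sg^2 = sg - 1`. For a
commutative ring `K` and a unit `γ`, `H(K,γ) = (ZMod 6 → K) ⋊ O`, where `x : O` multiplies the
`l`-th coordinate by `γ ^ re (sg^l x)`. `D = ZMod 6 × ZMod 2` acts: `(s, e)` multiplies `x` by `sg^s`,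
shifts the coordinates of `f` by `s` and multiplies `f` by `(-1)^e`. `U = H(K,γ₁) × H(K,γ₂)` (two
slots). Block: `(ZMod n → U) ⋊ Q₀`, where `Q₀ = ((ZMod 6)[T,1/T] × D) ⋊ ℤ`; `q = (h,e,d)` acts at the
coordinate `x` by the element `dv n q x = e + (sum of the h k, k = x mod n; 0)` of `D`, after the
shift by `d`. Seven elements: `x₁, x₂, w` (at the coordinate `0`: `(0,1)` in slot 1, `(0,1)` in slot
2, `(δ₀,0)` in both slots) and `β, z, y, t` in `Q₀` (`β = (T⁰,0,0)`, `z = (0,(1,0),0)`,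
`y = (0,(0,1),0)`, `t = (0,0,1)`). `G = F₇ / ⋂ ker(F₇ → i-th block)`.

`K_i = ∏ ZMod r_a`, `6` has prime order `p_a` modulo `r_a`; `γ_c` = `6` or `36` at each `a`
according to `c`. IDEA: `H(γ_c)` and `H(γ_c')` are elementarily equivalent (twist of the lattice `O`
by an integer which is `1`, `2` or `1/2` modulo the `p_a`), non-isomorphic, and by pigeonhole there are
`c ≠ c'` for which the marked groups `(H(γ_c), x, w)` and `(H(γ_c'), x, w)` are equivalent up to
quantifier rank `k`. `G_B`: blocks with `(γ_c, γ_c')`; `G_C`: blocks with `(γ_c, γ_c)`. Interchanging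
the two slots in one block of `G_B` gives another marking of `G_B`, so `G_B` is condensed; the
marking of `G_C` is determined by the finite set `Sig` of relations, so `G_C` is not condensed. -/

namespace Pool.Agent.H646.EC
noncomputable section

/-! ## First-order part -/

/-- S_ef. Ehrenfeucht-Fraisse: if the empty position is `k`-good for all `k` then the groups are
elementarily equivalent. PROOF: for a term `s` let `|s|` be its size. (1) If `BF (k+1) P`, `(a,b)` and
`(a',b')` in `P` then `BF k (insert (a*a', b*b') P)` (choose `x = a*a'`, the answer `y` satisfies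
`b*b' = y` by the clause at rank `0`, which holds by going down: `BF (k+1) P → BF k P` because the
types are nonempty and `BF` is monotone in `P`); similarly for `1` (`1*1=1`) and for inverses
(`a*a⁻¹ = 1`, after adding `1`). (2) By induction on terms: for all `m` there is a number `c(s)` such
that `BF (k + c(s)) P` and `(v i, v' i) ∈ P` imply `BF k (insert (s.realize v, s.realize v') P)`.
(3) By induction on bounded formulas `φ` there is `c(φ)` such that `BF c(φ) P` and all pairs of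
values of the variables in `P` imply that `φ` is realized on the left iff on the right. -/
def S_ef : Prop := ∀ (G H : Type) [Group G] [Group H], (∀ k, BF (RG G) (RG H) k ∅) → ElemEquiv G H

/-- S_pig. Pigeonhole for types. PROOF: define finite types `Ty k m` by recursion on `k`:
`Ty 0 m = Set (Fin m × Fin m) × Set (ι × Fin m × Fin m × Fin m)`, `Ty (k+1) m = Set (Ty k (m+1))`,
and `tp k m a : Ty k m` for `a : Fin m → α` (`tp (k+1) m a = {tp k (m+1) (Fin.snoc a x) | x}`).
If `tp k m a = tp k m a'` then `BF k {(a i, a' i)}` (induction on `k`). All `Ty k m` are finite. -/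
def S_pig : Prop := ∀ (ι : Type) [Finite ι] (k m : ℕ), ∃ C : ℕ, ∀ (J : Type) [Fintype J],
  C < Fintype.card J → ∀ (α : J → Type) (R : ∀ j, ι → α j → α j → α j → Prop)
    (a : ∀ j, Fin m → α j), ∃ j j', j ≠ j' ∧
      BF (R j) (R j') k {p | ∃ i, p = (a j i, a j' i)}

/-- S_pr. There are data with any number `m > 0` of pairs of primes. PROOF: take `m` distinct primes
`p > 13` and `r = minFac ((6^p - 1) / 5)`, or any prime divisor `r ≠ 5` of `6^p - 1`: exists since
`(6^p-1)/5 = 1 + 6 + ... + 6^(p-1)` is congruent to `p` modulo `5`, hence prime to `5`. The order of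
`6` modulo `r` divides `p` and is not `1` since `r` does not divide `5`, so it is `p`, and `p` divides
`r - 1`. Different `p` give different orders, hence different `r`. -/
def S_pr : Prop := ∀ m : ℕ, 0 < m → ∃ d : Dat, d.m = m

/-- S_ch. Choice of the data (uses S_pig with `ι = D`, three marks, and S_pr with `2 ^ m > C`,
`J = (Fin m → Bool)`). -/
def S_ch : Prop := ∀ k : ℕ, ∃ (d : Dat) (c c' : Fin d.m → Bool), c ≠ c' ∧
  BF (RH d.K (gam d c)) (RH d.K (gam d c')) k
    {(1, 1), (xg d.K (gam d c), xg d.K (gam d c')), (wg d.K (gam d c), wg d.K (gam d c'))}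

/-- S_tw. Twists exist. PROOF: `N = ∏ p_a`. Given `M`, choose by the Chinese remainder theorem and
the surjectivity of `(ZMod (N*M))ˣ → (ZMod N)ˣ` an integer `μ` prime to `N*M` with
`ex (c' a) * μ = ex (c a)` modulo `p_a` for all `a`, and `μ'` inverse to `μ` modulo `N*M`. If
`z' = μ z` modulo `N` then `ex (c' a) z' = ex (c a) z` modulo `p_a`, the order of `6` modulo `r_a`. -/
def S_tw : Prop := ∀ (d : Dat) (c c' : Fin d.m → Bool), Twist (gam d c) (gam d c')

/-- The invariant of the game on the lattice `O`. -/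
def Inv (C L : ℕ) (μ : ℤ) {m : ℕ} (x x' : Fin m → O) : Prop :=
  (∀ c : Fin m → O, (∀ j, |(c j).re| ≤ C ∧ |(c j).im| ≤ C) →
    (∑ j, c j * x j = 0 ↔ ∑ j, c j * x' j = 0)) ∧
  ∀ j, ∃ z : O, x' j = μ • x j + L • z

/-- S_lat. The lattice lemma; the proof is in the docstring of S_um (cases A and B). -/
def S_lat : Prop := ∀ C' L' : ℕ, 0 < L' → ∃ C L : ℕ, 0 < L ∧ L' ∣ L ∧ C' ≤ C ∧
  ∀ (m : ℕ) (μ : ℤ) (x x' : Fin m → O), Inv C L μ x x' → ∀ y : O, ∃ y' : O,
    Inv C' L' μ (Fin.snoc x y : Fin (m + 1) → O) (Fin.snoc x' y' : Fin (m + 1) → O)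

/-- S_um. Unmarked elementary equivalence of `H(K,γ)` and `H(K,γ')` (S_lat may be assumed).
PROOF. Lattice lemma: for
`x x' : Fin m → O` let `Inv C L μ x x'` say that (i) for all `c : Fin m → O` with all `|re (c j)|`,
`|im (c j)| ≤ C`: `∑ c j * x j = 0 ↔ ∑ c j * x' j = 0`, and (ii) `x' j = μ x j` modulo `L`. Claim: for
all `C', L'` there are `C, L` (independent of `m`, divisible by any given number) such that if
`Inv C L μ x x'` then for each `y : O` there is `y' : O` with `Inv C' L' μ (snoc x y) (snoc x' y')`.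
Case A: there are `c ≠ 0`, `c j` bounded by `C'` with `c y = ∑ c j x j`. With `n = c * cj c` (a positive
integer at most `3 C'^2`) `n y = ∑ cj c * c j * x j`; put `y'' = ∑ cj c * c j * x' j`; it is congruent to
`μ n y` modulo `L`, so if `n ∣ L` then `y' := y''/n` exists, `n y' = y''`, and `y' = μ y` modulo `L/n`.
For a bounded relation `d y + ∑ d j x j = 0` multiply by `n` and replace `n y`, get a relation between
the `x j` with coefficients bounded by a polynomial in `C'`, so it is equivalent to the same relation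
for `x'`. Case B: no such relation. Choose `y' = μ y` modulo `L'` outside the finite set of the `y'` with
`d y' + ∑ d j x' j = 0`, `d ≠ 0`, all bounded by `C'`. Then the relations with `d ≠ 0` hold on neither
side. The same with the roles interchanged (with `μ'` for `μ`).
Position of the game after some moves: pairs `((f j, x j), (f j, x' j))` with `Inv C_k L_k μ x x'`,
`N ∣ L_k` for all `k`, `C_0 = 1`; answer `(f, y)` by `(f, y')`. At rank `0`: `a = b` iff `a' = b'` by
the relation `x_a - x_b = 0`; `a * actF d b = c`: the `O`-part is the relation `x_a + us d.1 * x_b - x_c = 0`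
(coefficients bounded by `1`), the `f`-part is the same on both sides because
`γ' ^ (ph l x'_a) = γ ^ (ph l x_a)`, as `ph l x'_a = μ * ph l x_a` modulo `N` (`ph l` is additive). -/
def S_um : Prop := ∀ (K : Type) [CommRing K] (γ γ' : Kˣ), Twist γ γ' →
  ∀ k, BF (RH K γ) (RH K γ') k ∅

/-- S_blk. From `H` to the blocks. PROOF: induction on `k`. For a new `u` on the left choose
successively (`n` moves in each of the two slots) the answers to `(u x).1`, `(u x).2`, `x : ZMod n`,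
which gives `v`. At rank `0`: `u * nactF q u' = u''` iff for all `x` and both slots
`u x * actF (dv n q x) (u' (x - q.d)) = u'' x`. (Use `BF k P` monotone in `P`: a subset of a good
position is good.) -/
def S_blk : Prop := ∀ (n : ℕ) [NeZero n] (K : Type) [CommRing K] (γ₁ γ₂ γ₁' γ₂' : Kˣ) (k : ℕ)
  (P : Set (NN n K γ₁ γ₂ × NN n K γ₁' γ₂')),
  BF (RH K γ₁) (RH K γ₁') (n * k) {p | ∃ q ∈ P, ∃ x, p = ((q.1 x).1, (q.2 x).1)} →
  BF (RH K γ₂) (RH K γ₂') (n * k) {p | ∃ q ∈ P, ∃ x, p = ((q.1 x).2, (q.2 x).2)} →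
  BF (RN n K γ₁ γ₂) (RN n K γ₁' γ₂') k P

/-- The marks of two blocks. -/
def marks (n : ℕ) (K : Type) [CommRing K] (γ₁ γ₂ γ₁' γ₂' : Kˣ) :
    Set (NN n K γ₁ γ₂ × NN n K γ₁' γ₂') :=
  {p | ∃ j : Fin 7, p = ((gen n K γ₁ γ₂ j).left, (gen n K γ₁' γ₂' j).left)}

/-- S_wd. Closure under words: the normal parts of the values of finitely many words are reached in a
number of moves which does not depend on the block. PROOF: `(a * b).left = a.left * nactF a.right
b.left`, `(a⁻¹).left` is the `v` with `a⁻¹.left * nactF (a.right)⁻¹ a.left = 1`..., the right parts are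
`Phi v` on both sides (`pi_right`). One move: if `(a,b), (a',b') ∈ P` and `BF (k+1) P` then
`BF k (insert (a * nactF q a', b * nactF q b') P)`. Inverses: `v⁻¹` has the left part
`nactF (Phi v)⁻¹ (left⁻¹)`, so first add `left⁻¹` (it is the `x` with `left * nactF 1 x = 1`, where
`(1,1)` is a mark: `j = 3`), then `1 * nactF q x`. Induction on the word (`FreeGroup.induction_on` or
lists), then on the finite set. -/
def S_wd : Prop := ∀ (W : Finset F7) (k : ℕ), ∃ k0 : ℕ, ∀ (n : ℕ) (K : Type) [CommRing K]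
  (γ₁ γ₂ γ₁' γ₂' : Kˣ), BF (RN n K γ₁ γ₂) (RN n K γ₁' γ₂') k0 (marks n K γ₁ γ₂ γ₁' γ₂') →
  BF (RN n K γ₁ γ₂) (RN n K γ₁' γ₂') k
    {p | ∃ v ∈ W, p = ((pi n K γ₁ γ₂ v).left, (pi n K γ₁' γ₂' v).left)}

/-- S_fo. Elementary equivalence of the groups `G` (S_wd may be assumed). PROOF: game on
`BG B g1 g2` and `BG B g1' g2'`. Invariant `Good k P` of a finite set `P` of pairs `(g, g')`: `g`, `g'` are
classes of words `v, v'` with `Phi v = Phi v'`; for each block `i` the set `P_i` of the pairs of left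
parts of `Bpi i v`, `Bpi' i v'` satisfies `BF k P_i`; and for all large `i` and each pair in `P` there is a
word `u` (not depending on `i`) such that the left parts at `i` of `v` and `u` are equal and the left
parts at `i` of `v'` and `u` (in the second group) are equal. Step: given `Good (k+1) P` and `g` with
word `v`. By S_wd (finitely many words) and monotonicity there is `N` such that for `i ≥ N`
`BF k (insert (left (Bpi i v), left (Bpi' i v)) P_i)`: there answer with `v` itself. For `i < N` take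
the answer `u_i` of the game `BF (k+1) P_i` to `left (Bpi i v)`. By HasL for the second group there is a
word `v'` with the left part `u_i` at the blocks `i < N` and the same as `v` at the blocks `i ≥ N` and
`Phi v' = Phi v` (multiply `v` on the left by elements supported at one block). At rank `0`: an equation
`g₁ g₂ = g₃` holds iff `Phi v₁ * Phi v₂ = Phi v₃` and for all `i`:
`left₁ * nactF (Phi v₁) left₂ = left₃` (and `g₁ = g₂` iff `Phi` and all left parts are equal). -/
def S_fo : Prop := ∀ (B : Base) (g1 g2 g1' g2' : ∀ i, (B.K i)ˣ), HasL B g1 g2 → HasL B g1' g2' →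
  (∀ i k, BF (RN (B.n i) (B.K i) (g1 i) (g2 i)) (RN (B.n i) (B.K i) (g1' i) (g2' i)) k ∅) →
  (∀ i, BF (RN (B.n i) (B.K i) (g1 i) (g2 i)) (RN (B.n i) (B.K i) (g1' i) (g2' i)) i
    (marks (B.n i) (B.K i) (g1 i) (g2 i) (g1' i) (g2' i))) →
  ∀ k, BF (RG (BG B g1 g2)) (RG (BG B g1' g2')) k ∅

/-- S_bf. Elementary facts: a position inside the diagonal is good for two equal structures, and
`BF` is symmetric. -/
def S_bf : Prop := (∀ (ι α : Type) (R : ι → α → α → α → Prop) (k : ℕ) (P : Set (α × α)),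
    (∀ p ∈ P, p.1 = p.2) → BF R R k P) ∧
  (∀ (ι α β : Type) (R : ι → α → α → α → Prop) (S : ι → β → β → β → Prop) (k : ℕ)
    (P : Set (α × β)), BF R S k P → BF S R k {p | (p.2, p.1) ∈ P}) ∧
  (∀ (ι α β : Type) [Nonempty α] [Nonempty β] (R : ι → α → α → α → Prop)
    (S : ι → β → β → β → Prop) (k l : ℕ) (P Q : Set (α × β)), l ≤ k → Q ⊆ P → BF R S k P →
    BF R S l Q)

/-! ## The structure of `G` -/

/-- S_nn. The block sizes. -/
def S_nn : Prop := (∀ i, (nn i).Prime) ∧ (∀ i, 5 ≤ nn i) ∧ Function.Injective nn ∧ nn 0 = 5 ∧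
  nn 1 = 7 ∧ (∀ i, Odd (nn i))

/-- S_L. Each block of `G` contains its normal part (S_nn may be assumed). PROOF. Let `n = nn i`.
`br X1 (cnj (Tt ^ n) Bt)` is trivial in the blocks `k ≠ i` (there `n` is not `0` modulo `nn k`, so
`cnj (Tt ^ n) Bt` acts trivially at the coordinate `0`), and in the block `i` it is `(0, 1 - sg)` in slot 1
at the coordinate `0`; `1 - sg = sg ^ 5`. Conjugation with powers of `Bt` gives all `(0, sg^j)`, so all
`(0, x)`, `x : O`, slot 1, coordinate `0`; the same for slot 2 with `X2`. Commutators of these with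
`Wd`: `((γ^(ph l x) - 1) δ₀, 0)`; with `x = 1`: `γ - 1` is invertible in `K` (its coordinates are `5` or
`35`, prime to `r_a > 13`), so a power gives (separate the coordinates `a` by taking powers with
exponents divisible by the other `r_b` and prime to `r_a`; each `ZMod (r a)` is cyclic, generated
by each nonzero element) all `(δ₀ * k, 0)`, `k : K`, in slot 1, and similarly in slot 2. Conjugation with
`Bt` shifts `δ₀` to `δ_l`. Conjugation with `Tt` gives all coordinates. The set of the `u` for which a word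
exists is a subgroup. -/
def S_L : Prop := ∀ (d : ℕ → Dat) (c1 c2 : ∀ i, Fin (d i).m → Bool),
  HasL (base d) (gams d c1) (gams d c2)

/-- S_std. The relations `Sig` hold in all blocks. PROOF: computation. At each coordinate; `X1` acts
on the coordinate `l = 0` of slot 1 of `Wd` as `γ₁`, and `(γ-6)(γ-36) = 0` in `K`:
`γ^2 + 2γ + 1 - 44γ - 44 + 259 = γ^2 - 42 γ + 216`. For the last four relations: `cnj (Tt ^ 5) Bt`
acts nontrivially at the coordinate `0` only if `n ∣ 5`, i.e. `n = 5`, and then `Tt ^ 5` acts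
trivially. -/
def S_std : Prop := ∀ (d : Dat) (c1 c2 : Fin d.m → Bool) (n : ℕ), n.Prime → 5 ≤ n →
  ∀ v ∈ Sig, pi n d.K (gam d c1) (gam d c2) v = 1

/-- The result of interchanging the two units at the place `i`. -/
def sw1 {B : Base} (g1 g2 : ∀ i, (B.K i)ˣ) (i : ℕ) : ∀ k, (B.K k)ˣ := Function.update g1 i (g2 i)

/-- S_swap. Interchanging the slots in one block gives another marking of the same group.
PROOF: let `g1' = sw1 g1 g2 i`, `g2' = sw1 g2 g1 i`. For `k ≠ i` the blocks are equal. Let `θ` be the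
isomorphism from the `i`-th block for `g1', g2'` to the one for `g1, g2` interchanging the slots, and for
`j : Fin 7` let `v j` be a word with `Bpi i (v j) = θ (gen j)` and `Bpi k (v j) = gen j` for
`k ≠ i` (by HasL: `v j` = (element of the block `i`) * (generator `j`); for `j ≥ 3` take the
generator). The homomorphism `F₇ → G`, `j ↦ v j`, has the kernel `BN B g1' g2'`, and it is surjective by
HasL for `g1', g2'` (its image contains the normal part of the block `i`, and modulo it every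
generator). -/
def S_swap : Prop := ∀ (B : Base) (g1 g2 : ∀ i, (B.K i)ˣ) (i : ℕ), HasL B g1 g2 →
  HasL B (sw1 g1 g2 i) (sw1 g2 g1 i) →
  ∃ ψ : F7 →* BG B g1 g2, Function.Surjective ψ ∧ ψ.ker = BN B (sw1 g1 g2 i) (sw1 g2 g1 i)

/-- S_diff. The kernels are different (S_nn may be assumed). PROOF: let `c1 i a ≠ c2 i a`, `n = nn i`,
`A = cnj Bt (br X1 (cnj (Tt ^ n) Bt))` (in the block `i` it is `(0,1)` in slot 1, in the other blocks
it is trivial), `C = br A Wd`, `E = cnj X1 C * (C ^ 6)⁻¹`, `R` the product of the `r b`, `b ≠ a`. Then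
`E ^ R` is trivial in all blocks but `i`, and in the block `i` its slot 1 is
`R (γ-6)(γ-1) δ₀`, where `γ` is the first unit: zero iff the exponent at `a` is `1`. -/
def S_diff : Prop := ∀ (d : ℕ → Dat) (c1 c2 : ∀ i, Fin (d i).m → Bool) (i : ℕ), c1 i ≠ c2 i →
  BN (base d) (sw1 (gams d c1) (gams d c2) i) (sw1 (gams d c2) (gams d c1) i) ≠
    BN (base d) (gams d c1) (gams d c2)

/-- S_mark. A finitely generated group is condensed as soon as one marking is not isolated.
PROOF: `Pool.Agent.H67R3.CondDefs.Condensed`, use `not_isolated_of` of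
`Pool.Graph.R_seed8.H67R3.Cond3`. Given another marking `x` (a surjection `π : F_m → G`) and a finite set
`W ⊆ F_m`, write `π (of i) = ψ₀ (a i)`, `ψ₀ (of j) = π (b j)`, let `α : F_m → F_n`, `of i ↦ a i`, and
`β : F_n → F_m`, `of j ↦ b j`. Take `ψ` as in the hypothesis for the finite set
`α '' W ∪ {(of j)⁻¹ * α (β (of j))}`, and `π' = ψ ∘ α`. It is surjective, since
`ψ (of j) = ψ (α (b j)) = π' (b j)`; `w ∈ ker π'` iff `α w ∈ ker ψ` iff `α w ∈ ker ψ₀` iff
`w ∈ ker π` for `w ∈ W` (note `ψ₀ ∘ α = π`); and if `ker π' = ker π` then for all `v : F_n`: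
`v ∈ ker ψ` iff `α (β v) ∈ ker ψ` (as `ψ (α (β v)) = ψ v`) iff `β v ∈ ker π' = ker π` iff
`α (β v) ∈ ker ψ₀` iff `v ∈ ker ψ₀`. -/
def S_mark : Prop := ∀ (G : Type) [Group G] (n : ℕ) (ψ₀ : FreeGroup (Fin n) →* G),
  Function.Surjective ψ₀ →
  (∀ W : Finset (FreeGroup (Fin n)), ∃ ψ : FreeGroup (Fin n) →* G, Function.Surjective ψ ∧
    (∀ w ∈ W, (w ∈ ψ.ker ↔ w ∈ ψ₀.ker)) ∧ ψ.ker ≠ ψ₀.ker) →
  Pool.Agent.H67R3.CondDefs.Condensed G

/-! ## Rigidity -/

/-- Reduction modulo `2` and modulo `3`. -/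
def r2 : ZMod 6 →+* ZMod 2 := ZMod.castHom (by norm_num) (ZMod 2)
def r3 : ZMod 6 →+* ZMod 3 := ZMod.castHom (by norm_num) (ZMod 3)

/-- What is known about the labels of a marking, first part. -/
structure Lab0 (q : Fin 7 → Q0) : Prop where
  q0 : q 0 = 1
  q1 : q 1 = 1
  q2 : q 2 = 1
  d3 : (q 3).d = 0
  h4 : (q 4).h = 0
  d4 : (q 4).d = 0
  h5 : (q 5).h = 0
  d5 : (q 5).d = 0
  d6 : (q 6).d = 1 ∨ (q 6).d = -1
  e5 : 2 * (q 5).e.1 = 0
  e4 : r3 (q 4).e.1 ≠ 0
  det : r2 (q 4).e.1 * (q 5).e.2 - (q 4).e.2 * r2 (q 5).e.1 = 1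

/-- What is known about the labels of a marking. -/
structure Lab (q : Fin 7 → Q0) : Prop extends Lab0 q where
  mono2 : ∃ i2 : ℤ, ∀ k, r2 ((q 3).h k) = if k = i2 then 1 else 0
  mono3 : ∃ (i3 : ℤ) (l : ZMod 3), (l = 1 ∨ l = -1) ∧ ∀ k, r3 ((q 3).h k) = if k = i3 then l else 0

/-- S_lab0 (without the last part on mono2, mono3, which is S_mono). PROOF. All of `d` of `β, z, y` vanish (finite order). `x₁, x₂`: the relation
`cnj (Bt^2) X * (cnj Bt X)⁻¹ * X` gives first `d = 0`, then (elements with `d = 0` commute) `q 0 = 1`,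
`q 1 = 1`. `w`: the relation with sum of exponents `1+2+1-44-44+259 = 175` gives `175 d = 0` and then
`175 = 1` in `ZMod 6` and `ZMod 2` gives `q 2 = 1`. `d` of `t` is `1` or `-1` since `d` is onto. `[z,t] = 1`
gives `sh (±1) h = h`, so `h = 0` (finite support). `e4`, `det`: otherwise there is a nonzero
homomorphism from `Q₀` to `ZMod 3` (`ZMod 2`), a linear combination of
`(sum of h, e.1, d)` (resp. `(sum of h, e.1, e.2, d)`) vanishing at all `q j`.
`mono2`, `mono3`: for `p = 2, 3` let `f` be `(q 3).h` modulo `p`, in `R = (ZMod p)[T,1/T]`, `s = (q 6).d`.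
In `R ⋊ ℤ` the elements `(f,0)`, `(g,s)` generate everything; the set of the `(a, s k)` with
`a - γ_k ∈ (f)`, `(g,s)^k = (γ_k, s k)`, is a subgroup, so `1 ∈ (f)`, `f` is a unit, and units of `R` are
monomials. (`Finsupp` may be translated to `LaurentPolynomial`.) -/
def S_lab0 : Prop := ∀ q : Fin 7 → Q0, (∀ v ∈ Sig, FreeGroup.lift q v = 1) →
  Subgroup.closure (Set.range q) = ⊤ → Lab0 q

/-- S_mono. See the second half of the docstring of S_lab0. -/
def S_mono : Prop := ∀ q : Fin 7 → Q0, Subgroup.closure (Set.range q) = ⊤ → Lab0 q → Lab q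

/-- S_phi. `Phi` is surjective (`Q₀` is generated by `β, z, y, t`). -/
def S_phi : Prop := Function.Surjective Phi

section blk
variable {n : ℕ} {K : Type} [CommRing K] {γ₁ γ₂ : Kˣ}

/-- An element of `U` with trivial `f` and given `O`-parts, and one with given `f` and trivial
`O`-parts. -/
def um (v : O × O) : U K γ₁ γ₂ := (⟨0, v.1⟩, ⟨0, v.2⟩)
def uw (f : (ZMod 6 → K) × (ZMod 6 → K)) : U K γ₁ γ₂ := (⟨f.1, 0⟩, ⟨f.2, 0⟩)

/-- First normal form of a tuple in a block, after conjugation with `h`. -/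
structure NF1 (c : Fin 7 → Blk n K γ₁ γ₂) (h : NN n K γ₁ γ₂) (m1 m2 : ZMod n → O × O)
    (w : ZMod n → (ZMod 6 → K) × (ZMod 6 → K)) : Prop where
  c0 : c 0 = SemidirectProduct.inl h * SemidirectProduct.inl (fun x => um (m1 x)) *
    (SemidirectProduct.inl h)⁻¹
  c1 : c 1 = SemidirectProduct.inl h * SemidirectProduct.inl (fun x => um (m2 x)) *
    (SemidirectProduct.inl h)⁻¹
  c2 : c 2 = SemidirectProduct.inl h * SemidirectProduct.inl (fun x => uw (w x)) *
    (SemidirectProduct.inl h)⁻¹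
  cq : ∀ j : Fin 7, 3 ≤ j.val → c j = SemidirectProduct.inl h *
    SemidirectProduct.inr (c j).right * (SemidirectProduct.inl h)⁻¹
  e5 : (c 5).right.e = (0, 1)
  e4 : (c 4).right.e.1 = 1 ∨ (c 4).right.e.1 = -1

/-- Second normal form: everything is concentrated at the coordinate `x0`. -/
structure NF2 (c : Fin 7 → Blk n K γ₁ γ₂) (h : NN n K γ₁ γ₂) (x0 : ZMod n) (ε : ZMod 6)
    (m1 m2 : O × O) (w : (ZMod 6 → K) × (ZMod 6 → K)) : Prop where
  c0 : c 0 = SemidirectProduct.inl h * SemidirectProduct.inl (Pi.mulSingle x0 (um m1)) *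
    (SemidirectProduct.inl h)⁻¹
  c1 : c 1 = SemidirectProduct.inl h * SemidirectProduct.inl (Pi.mulSingle x0 (um m2)) *
    (SemidirectProduct.inl h)⁻¹
  c2 : c 2 = SemidirectProduct.inl h * SemidirectProduct.inl (Pi.mulSingle x0 (uw w)) *
    (SemidirectProduct.inl h)⁻¹
  cq : ∀ j : Fin 7, 3 ≤ j.val → c j = SemidirectProduct.inl h *
    SemidirectProduct.inr (c j).right * (SemidirectProduct.inl h)⁻¹
  hε : ε = 1 ∨ ε = -1
  q3 : ∀ x, dv n (c 3).right x = if x = x0 then (ε, 0) else 0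
  q4 : ∀ x, dv n (c 4).right x = (ε, 0)
  q5 : ∀ x, dv n (c 5).right x = (0, 1)
  d3 : (c 3).right.d = 0
  d4 : (c 4).right.d = 0
  d5 : (c 5).right.d = 0
  d6 : (c 6).right.d = 1 ∨ (c 6).right.d = -1

/-- The tuple generates the normal part of the block. -/
def Gen (c : Fin 7 → Blk n K γ₁ γ₂) : Prop :=
  ∀ u : NN n K γ₁ γ₂, SemidirectProduct.inl u ∈ (FreeGroup.lift c).range

/-- The tuple satisfies the relations. -/
def Rel (c : Fin 7 → Blk n K γ₁ γ₂) : Prop := ∀ v ∈ Sig, FreeGroup.lift c v = 1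

/-- `x` or its conjugate. -/
def cje (ε : ZMod 6) (x : O) : O := if ε = 1 then x else cj x

end blk

/-- S_norm. PROOF. Write `c j = (u_j, q_j)`; `q_0 = q_1 = q_2 = 1`. M-part of an element of `U` = the
pair of its `O`-coordinates, W-part = the pair of functions. (a) The M-part of `u_2` is `0`: the relation
with sum of exponents `175` gives `175 m = 0`. (b) `c 5` is central modulo the normal subgroup `WN` of the
elements `(u,1)` of Blk with trivial M-part (relations `[y,x₁] = [y,x₂] = [y,z] = [y,β] = [y,t] = 1`, and `c 2 ∈ WN`); as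
all `(u, 1)` are in the subgroup generated by the `c j`, conjugation with `c 5` acts trivially on M-parts:
`us (q_5.e.1) * x = x`, so `q_5.e.1 = 0`; by `Lab.det` `q_5.e = (0,1)` and `r2 (q_4.e.1) = 1`, with
`Lab.e4`: `q_4.e.1 = 1` or `-1` (decide). (c) `(c 5)^2 = 1` gives: M-part of `u_5` is `0` (twice it is `0`),
so `u_5` is a W-part function; conjugating by half of it, `c 5 = inr q_5`. (d) all `c j` commuting with
`c 5 = inr q_5` (`j ≠ 2`) then have trivial W-part (`-f = f`). (e) `c 4 = (u_4, q_4)` with only M-part,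
`dv n q_4 x = q_4.e`, `1 - us (±1)` is a unit of `O` (`us 5` or `us 1`), so conjugating by an element with
only M-part, `c 4 = inr q_4` (and `c 5` is unchanged). (f) `c 3, c 6` commute with `c 4`, so their M-parts
are fixed by `us (±1)`, hence `0`. -/
def S_norm : Prop := ∀ (n : ℕ) [NeZero n] (K : Type) [CommRing K] [Nontrivial K] (γ₁ γ₂ : Kˣ)
  (c : Fin 7 → Blk n K γ₁ γ₂), IsUnit (2 : K) → Lab (fun j => (c j).right) → Rel c → Gen c →
  ∃ h m1 m2 w, NF1 c h m1 m2 w

/-- S_pos. PROOF. Conjugate by `h`, so `h = 1`. Let `s = (q_6).d = ±1`, `a x = dv n q_3 x`. (a) Some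
`m1 x` or `m2 x` is nonzero (else all `c j` have trivial M-part, contradicting `Gen`). (b) If `m_j x ≠ 0`:
`[z β⁻¹, x_j] = 1` gives `us ((q_4).e.1 - (a x).1) = 1`, so `(a x).1 = (q_4).e.1 =: ε`; `[x_j, β^t] = 1`,
`[x_j, β^(t^2)] = 1` give `(a (x-s)).1 = 0`, `(a (x-2s)).1 = 0`. (`cnj Tt Bt` has the label
`q_6 q_3 q_6⁻¹` with `dv n _ x = dv n q_3 (x - s)`.) (c) `r2 (a x).1 = r2 (q_3.e.1) + [x = i2 mod n]`,
`r3 (a x).1 = r3 (q_3.e.1) + l [x = i3 mod n]` by `Lab.mono2, mono3`. As `x-s ≠ x-2s` and both values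
are `0`, `r2 (q_3.e.1) = 0` and `r3 (q_3.e.1) = 0`, so `q_3.e.1 = 0`, and then `x = i2 = i3` modulo `n` (as
`ε` is nonzero modulo `2` and modulo `3`), `l = r3 ε`. So `x0 := x` is unique and `(a x).1 = ε` if
`x = x0`, else `0`. (d) `w x = 0` for `x ≠ x0`: there `m1 x = m2 x = 0` and the relation with sum
`175` gives `175 w x = 0` (`175` is a unit of `K`). `w x0 ≠ 0`, otherwise all W-parts vanish.
(e) `[w, β^t] = 1` at `x0`: `(0, q_3.e.2)` fixes `w x0`, so `q_3.e.2 = 0` (`2` is invertible: if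
`-f = f` then `f = 0`). (f) `[z β⁻¹, w] = 1` at `x0` gives `q_4.e.2 = 0`. -/
def S_pos : Prop := ∀ (n : ℕ) [NeZero n] (K : Type) [CommRing K] [Nontrivial K] (γ₁ γ₂ : Kˣ)
  (c : Fin 7 → Blk n K γ₁ γ₂) (h : NN n K γ₁ γ₂) (m1 m2 : ZMod n → O × O)
  (w : ZMod n → (ZMod 6 → K) × (ZMod 6 → K)), 5 ≤ n → IsUnit (2 : K) → IsUnit (175 : K) →
  Lab (fun j => (c j).right) → Rel c → Gen c → NF1 c h m1 m2 w →
  ∃ x0 ε m1 m2 w, NF2 c h x0 ε m1 m2 w

/-- S_gen. Consequences of generation for the second normal form (`h` may be conjugated away).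
PROOF: (1) the elements of the block whose left part has, at all coordinates, its M-part in the
`O`-submodule generated by `m1, m2` form a subgroup containing the `c j`. (2) If the slot 1 part of `w`
vanishes at `a` for all `l`, then the elements whose left part vanishes at slot 1, `a`, for all `l` and
all coordinates form a subgroup containing the `c j`. -/
def S_gen : Prop := ∀ (d : Dat) (cc : Fin d.m → Bool) (n : ℕ) [NeZero n]
  (c : Fin 7 → Blk n d.K (gam d cc) (gam d cc)) (h : NN n d.K (gam d cc) (gam d cc)) (x0 : ZMod n)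
  (ε : ZMod 6) (m1 m2 : O × O) (w : (ZMod 6 → d.K) × (ZMod 6 → d.K)),
  Gen c → NF2 c h x0 ε m1 m2 w →
  (∀ v : O × O, ∃ a b : O, v = (a * m1.1 + b * m2.1, a * m1.2 + b * m2.2)) ∧
  (∀ a, ∃ l, w.1 l a ≠ 0) ∧ (∀ a, ∃ l, w.2 l a ≠ 0)

/-- The equations satisfied by the weights of a coordinate in the support of `w`. -/
def WtEq (d : Dat) (cc : Fin d.m → Bool) (ε : ZMod 6) (y1 y2 : O) (f : ZMod 6 → d.K) : Prop :=
  ∀ a l, f l a ≠ 0 →
    (((gam d cc ^ ph l y1 : (d.K)ˣ) : d.K) a - 1) * (((gam d cc ^ ph l y2 : (d.K)ˣ) : d.K) a - 1) = 0 ∧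
    (((gam d cc ^ ph l y1 : (d.K)ˣ) : d.K) a + ((gam d cc ^ ph l y2 : (d.K)ˣ) : d.K) a - 7) *
      (((gam d cc ^ ph l y1 : (d.K)ˣ) : d.K) a + ((gam d cc ^ ph l y2 : (d.K)ˣ) : d.K) a - 37) = 0 ∧
    ((gam d cc ^ ph (l + ε) y1 : (d.K)ˣ) : d.K) a = 1 ∧
    ((gam d cc ^ ph (l + ε) y2 : (d.K)ˣ) : d.K) a = 1

/-- S_wt. PROOF: read the relations `(X1-1)(X2-1)w = 0`, `(X1+X2-7)(X1+X2-37) w = 0`,
`[w, β x_j β⁻¹] = 1` at the coordinate `x0` (`um m` acts on the slot `ν`, coordinate `l`, by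
`γ ^ ph l m_ν`, and `β x_j β⁻¹` by `γ ^ ph (l + ε) m_ν`). -/
def S_wt : Prop := ∀ (d : Dat) (cc : Fin d.m → Bool) (n : ℕ) [NeZero n]
  (c : Fin 7 → Blk n d.K (gam d cc) (gam d cc)) (h : NN n d.K (gam d cc) (gam d cc)) (x0 : ZMod n)
  (ε : ZMod 6) (m1 m2 : O × O) (w : (ZMod 6 → d.K) × (ZMod 6 → d.K)),
  Rel c → NF2 c h x0 ε m1 m2 w → WtEq d cc ε m1.1 m2.1 w.1 ∧ WtEq d cc ε m1.2 m2.2 w.2

/-- The conclusion of the arithmetic analysis. -/
def AlgC (d : Dat) (ε : ZMod 6) (m1 m2 : O × O) (w : (ZMod 6 → d.K) × (ZMod 6 → d.K)) : Prop :=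
  ∃ (b : Fin d.m → Bool) (j1 j2 : Fin d.m → ZMod 6),
    (∀ a l, w.1 l a ≠ 0 ↔ ε * l + j1 a = 0) ∧ (∀ a l, w.2 l a ≠ 0 ↔ ε * l + j2 a = 0) ∧
    (∀ a l (v : O × O), (d.p a : ℤ) ∣ ph l (m1.1 * cje ε v.1 + m2.1 * cje ε v.2) -
      ph (ε * l + j1 a) (if b a then v.2 else v.1)) ∧
    (∀ a l (v : O × O), (d.p a : ℤ) ∣ ph l (m1.2 * cje ε v.1 + m2.2 * cje ε v.2) -
      ph (ε * l + j2 a) (if b a then v.1 else v.2))

/-- S_alg. PROOF. Fix `a`, let `p = p a`, `k = ex (cc a)` (`1` or `2`). For the slot `ν` (1 or 2) and `l`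
with `w_ν l a ≠ 0`: the equations say that `(6^(k ph l y1), 6^(k ph l y2))` modulo `r a` is one of
`(6,1), (36,1), (1,6), (1,36)`, so `(k ph l y1, k ph l y2) = (α, β)` modulo `p` with `(α,β)` one of
`(1,0), (2,0), (0,1), (0,2)`, and `k ph (l+ε) y_i = 0` modulo `p`. Let `ζ = us l * y_i = e + f sg`; `ph l y_i = e`,
`ph (l+1) y_i = -f`, `ph (l-1) y_i = e + f`. If `ε = 1` then `k ζ = α` modulo `p`; if `ε = -1` then
`k ζ = α (1 - sg) = α us 5`, so `k us (l+1) y_i = α` modulo `p`. So in both cases with `l' = l` resp.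
`l+1`: `k us l' (y1, y2) = (α, β)` modulo `p O`. Do this for both slots: the determinant
`Δ = m1.1 * m2.2 - m2.1 * m1.2` is a unit of `O` (by the first hypothesis the columns generate `O²`), and
`k² us (l'_1 + l'_2) Δ = α₁ β₂ - α₂ β₁ =: D` modulo `p`. Taking norms (`norm(e + f sg) = e² + e f + f²`,
multiplicative, `1` on units, compatible with congruences): `D² = k⁴` modulo `p`. `D ∈ {0, ±1, ±2, ±4}`,
`k⁴ ∈ {1, 16}`, the differences have only the prime divisors `2, 3, 5`, and `p > 13`, so `D² = k⁴`. Hence for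
`k = 1` `{(α₁,β₁), (α₂,β₂)} = {(1,0), (0,1)}` and for `k = 2` `= {(2,0), (0,2)}`. Put `b a = false` if
`β₁ = 0` and `true` otherwise. So `us l'_ν y_i = 1` or `0` modulo `p`. Uniqueness of `l` for given `ν`: if `l`
and `l₂` are both in the support, apply the above to both, `us (l' - l'₂) = 1` modulo `p`, and
`us k - 1` has norm `1, 3` or `4` for `k ≠ 0`. Finally
`m1.ν * cje ε v.1 + m2.ν * cje ε v.2 = us (-l') * cje ε v_π` modulo `p`, `ph l (us (-l') x) = ph (l - l') x`,
`ph l (cj x) = ph (5 - l) x`; `j = -l'` if `ε = 1`, `j = 5 + l' = l₀` if `ε = -1` (`l' = l₀ + 1`). -/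
def S_alg : Prop := ∀ (d : Dat) (cc : Fin d.m → Bool) (ε : ZMod 6) (m1 m2 : O × O)
  (w : (ZMod 6 → d.K) × (ZMod 6 → d.K)), (ε = 1 ∨ ε = -1) →
  (∀ v : O × O, ∃ a b : O, v = (a * m1.1 + b * m2.1, a * m1.2 + b * m2.2)) →
  (∀ a, ∃ l, w.1 l a ≠ 0) → (∀ a, ∃ l, w.2 l a ≠ 0) →
  WtEq d cc ε m1.1 m2.1 w.1 → WtEq d cc ε m1.2 m2.2 w.2 → AlgC d ε m1 m2 w

/-- S_lam. Construction of the automorphism `Λ` of `U`. PROOF: on M-parts
`v ↦ (m1.1 * cje ε v.1 + m2.1 * cje ε v.2, m1.2 * cje ε v.1 + m2.2 * cje ε v.2)`, which is bijective (surjective by hypothesis,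
hence injective, `O × O` being a finitely generated `ℤ`-module); on W-parts
`(f₁,f₂) ↦ (g₁,g₂)`, `g₁ l a = C₁ a * (if b a then f₂ else f₁) (ε l + j1 a) a`,
`g₂ l a = C₂ a * (if b a then f₁ else f₂) (ε l + j2 a) a`, where `C_ν a` is the value of `w_ν l a` at the
`l` with `ε l + j_ν a = 0` (nonzero). It is multiplicative by the divisibility: `gam d cc ^ z` at `a` depends
on `z` modulo `p a` only. It is compatible with `D` since `ε (l + ε s) + j = (ε l + j) + s` and
`us (ε s) * cje ε x = cje ε (us s * x)`. -/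
def S_lam : Prop := ∀ (d : Dat) (cc : Fin d.m → Bool) (ε : ZMod 6) (m1 m2 : O × O)
  (w : (ZMod 6 → d.K) × (ZMod 6 → d.K)), (ε = 1 ∨ ε = -1) →
  (∀ v : O × O, ∃ a b : O, v = (a * m1.1 + b * m2.1, a * m1.2 + b * m2.2)) →
  AlgC d ε m1 m2 w →
  ∃ Λ : U d.K (gam d cc) (gam d cc) ≃* U d.K (gam d cc) (gam d cc),
    (∀ (s : ZMod 6) (e : ZMod 2) u, Λ (uact (s, e) u) = uact (ε * s, e) (Λ u)) ∧
    Λ (xg _ _, 1) = um m1 ∧ Λ (1, xg _ _) = um m2 ∧ Λ (wg _ _, wg _ _) = uw w

/-- The holomorph of the normal part of the block. -/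
abbrev Hol (n : ℕ) (K : Type) [CommRing K] (γ₁ γ₂ : Kˣ) :=
  NN n K γ₁ γ₂ ⋊[MonoidHom.id (MulAut (NN n K γ₁ γ₂))] MulAut (NN n K γ₁ γ₂)

/-- The homomorphism from the block to the holomorph. -/
def hol (n : ℕ) (K : Type) [CommRing K] (γ₁ γ₂ : Kˣ) : Blk n K γ₁ γ₂ →* Hol n K γ₁ γ₂ :=
  SemidirectProduct.map (MonoidHom.id _) (nact n K γ₁ γ₂) (fun _ => rfl)

/-- S_tt. PROOF: conjugate `h` away. `(c 6)^n = inr (q_6^n)` with `dv n (q_6^n) x = ∑ y, dv n q_6 y =: τ`
(the shift by `±1` runs through all coordinates), and it shifts by `± n = 0`. `cnj (Tt^n) Bt` has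
`dv` equal to `dv n q_3`. So `br X1 (cnj (Tt^n) Bt)` is `um m1 * (uact (ε,0) (um m1))⁻¹` at `x0`, with the M-part
`(1 - us ε) m1 ≠ 0` (`m1 ≠ 0` as `Λ` is injective), and commuting with `(c 6)^n` gives
`us τ.1 = 1`, `τ.1 = 0`. Then `br Wd (cnj (Tt^n) Bt)` is `uw w * (uact (ε,0) (uw w))⁻¹ = Λ (W * (uact (1,0) W)⁻¹)`,
`W = (wg, wg)`, nontrivial with nonzero W-part, and commuting with `(c 6)^n` gives `τ.2 = 0`. -/
def S_tt : Prop := ∀ (d : Dat) (cc : Fin d.m → Bool) (n : ℕ) [NeZero n]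
  (c : Fin 7 → Blk n d.K (gam d cc) (gam d cc)) (h : NN n d.K (gam d cc) (gam d cc)) (x0 : ZMod n)
  (ε : ZMod 6) (m1 m2 : O × O) (w : (ZMod 6 → d.K) × (ZMod 6 → d.K))
  (Λ : U d.K (gam d cc) (gam d cc) ≃* U d.K (gam d cc) (gam d cc)),
  NF2 c h x0 ε m1 m2 w →
  (∀ (s : ZMod 6) (e : ZMod 2) u, Λ (uact (s, e) u) = uact (ε * s, e) (Λ u)) →
  Λ (xg _ _, 1) = um m1 → Λ (1, xg _ _) = um m2 → Λ (wg _ _, wg _ _) = uw w →
  FreeGroup.lift c (br (Tt ^ n) (br X1 (cnj (Tt ^ n) Bt))) = 1 →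
  FreeGroup.lift c (br (Tt ^ n) (br Wd (cnj (Tt ^ n) Bt))) = 1 →
  ∑ x, dv n (c 6).right x = 0

/-- S_coc. PROOF: `s = (c 6).right.d = ±1`. Since `∑ x, dv n q_6 x = 0` there is `κ : ZMod n → D` with
`κ x = dv n q_6 x + κ (x - s)` and `κ x0 = 0`. Let `Ψ u x = uact (κ x) (Λ (u (s * (x - x0))))`, an
automorphism of `NN`. Then `k = inl h * inr Ψ`: `Ψ (at0 u) = Pi.mulSingle x0 (Λ u)`, and
`Ψ ∘ nact (gen j).right = nact (c j).right ∘ Ψ` for `j = 3, 4, 5, 6` (`D` is commutative). -/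
def S_coc : Prop := ∀ (n : ℕ) [NeZero n] (K : Type) [CommRing K] (γ₁ γ₂ : Kˣ)
  (c : Fin 7 → Blk n K γ₁ γ₂) (h : NN n K γ₁ γ₂) (x0 : ZMod n)
  (ε : ZMod 6) (m1 m2 : O × O) (w : (ZMod 6 → K) × (ZMod 6 → K))
  (Λ : U K γ₁ γ₂ ≃* U K γ₁ γ₂),
  NF2 c h x0 ε m1 m2 w →
  (∀ (s : ZMod 6) (e : ZMod 2) u, Λ (uact (s, e) u) = uact (ε * s, e) (Λ u)) →
  Λ (xg _ _, 1) = um m1 → Λ (1, xg _ _) = um m2 → Λ (wg _ _, wg _ _) = uw w →
  ∑ x, dv n (c 6).right x = 0 →
  ∃ k : Hol n K γ₁ γ₂, ∀ j, hol n K γ₁ γ₂ (c j) = k * hol n K γ₁ γ₂ (gen n K γ₁ γ₂ j) * k⁻¹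

/-- S_odd. PROOF: `∑ x, dv n q x = (total h + n e.1, n e.2)`. From `n = 5` and `n = 7`:
`e.2 = 0`, `2 e.1 = 0`, and then the same for all odd `n`. -/
def S_odd : Prop := ∀ (q : Q0), ∑ x, dv 5 q x = 0 → ∑ x, dv 7 q x = 0 →
  ∀ (n : ℕ) [NeZero n], Odd n → ∑ x, dv n q x = 0

/-- S_faith. `Q₀` acts faithfully on the product of all blocks (S_nn may be assumed; here the slots
may be arbitrary). PROOF: with `u` concentrated at one coordinate the equation `nactF q u = u` gives
`(q.d : ZMod (nn i)) = 0` for all `i`, so `q.d = 0`; then `uact (dv (nn i) q x)` is the identity of `U`, so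
`dv (nn i) q x = 0` (`us s = 1` only for `s = 0`; `sn` of `1` is `-1 ≠ 1` in `K`). For `nn i` larger
than twice the support of `q.h`: `q.e = 0` (take a coordinate outside of the support) and `q.h k = 0`. -/
def S_faith : Prop := ∀ (d : ℕ → Dat) (c1 c2 : ∀ i, Fin (d i).m → Bool) (q : Q0),
  (∀ i, nact (nn i) (d i).K (gam (d i) (c1 i)) (gam (d i) (c2 i)) q = 1) → q = 1

/-- S_rig (assembly, done by helper646). -/
def S_rig : Prop := ∀ (d : ℕ → Dat) (c : ∀ i, Fin (d i).m → Bool)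
  (ψ : F7 →* BG (base d) (gams d c) (gams d c)), Function.Surjective ψ → (∀ v ∈ Sig, ψ v = 1) →
  ψ.ker = BN (base d) (gams d c) (gams d c)

end
end Pool.Agent.H646.EC
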