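import Mathlib
import Pool.Agent.H646.EC.Stm

/-!
# Project EC: from `H` to the blocks
-/

set_option autoImplicit false

namespace Pool.Agent.H671.EC_blk

open Pool.Agent.H646.EC

/-- Several moves on the left. -/
theorem multiL {ι α β κ : Type} [DecidableEq κ] [Nonempty β] (R : ι → α → α → α → Prop)
    (S : ι → β → β → β → Prop) (s : Finset κ) (x : κ → α) :
    ∀ (j : ℕ) (P : Set (α × β)), BF R S (s.card + j) P →
      ∃ y : κ → β, BF R S j (P ∪ {p | ∃ i ∈ s, p = (x i, y i)}) := by
  induction s using Finset.induction_on with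
  | empty =>
    intro j P h
    rw [Finset.card_empty, Nat.zero_add] at h
    refine ⟨fun _ => Classical.arbitrary β, ?_⟩
    have h1 : P ∪ {p : α × β | ∃ i ∈ (∅ : Finset κ), p = (x i, Classical.arbitrary β)} = P := by
      ext p
      simp
    rw [h1]
    exact h
  | insert a s ha ih =>
    intro j P h
    rw [Finset.card_insert_of_notMem ha, Nat.add_assoc, Nat.add_comm 1 j] at h
    obtain ⟨y, hy⟩ := ih (j + 1) P h
    obtain ⟨b, hb⟩ := hy.1 (x a)
    refine ⟨Function.update y a b, ?_⟩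
    have h1 : insert (x a, b) (P ∪ {p : α × β | ∃ i ∈ s, p = (x i, y i)}) =
        P ∪ {p : α × β | ∃ i ∈ insert a s, p = (x i, Function.update y a b i)} := by
      ext p
      simp only [Set.mem_insert_iff, Set.mem_union, Set.mem_ofPred_eq, Finset.mem_insert]
      constructor
      · rintro (h2 | h2 | ⟨i, hi, h2⟩)
        · right
          refine ⟨a, Or.inl rfl, ?_⟩
          rw [Function.update_self]
          exact h2
        · exact Or.inl h2
        · right
          refine ⟨i, Or.inr hi, ?_⟩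
          have hia : i ≠ a := fun h3 => ha (h3 ▸ hi)
          rw [Function.update_of_ne hia]
          exact h2
      · rintro (h2 | ⟨i, hi | hi, h2⟩)
        · exact Or.inr (Or.inl h2)
        · left
          rw [hi, Function.update_self] at h2
          exact h2
        · right
          right
          have hia : i ≠ a := fun h3 => ha (h3 ▸ hi)
          rw [Function.update_of_ne hia] at h2
          exact ⟨i, hi, h2⟩
    rw [← h1]
    exact hb

/-- Several moves on the right. -/
theorem multiR {ι α β κ : Type} [DecidableEq κ] [Nonempty α] (R : ι → α → α → α → Prop)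
    (S : ι → β → β → β → Prop) (s : Finset κ) (y : κ → β) :
    ∀ (j : ℕ) (P : Set (α × β)), BF R S (s.card + j) P →
      ∃ x : κ → α, BF R S j (P ∪ {p | ∃ i ∈ s, p = (x i, y i)}) := by
  induction s using Finset.induction_on with
  | empty =>
    intro j P h
    rw [Finset.card_empty, Nat.zero_add] at h
    refine ⟨fun _ => Classical.arbitrary α, ?_⟩
    have h1 : P ∪ {p : α × β | ∃ i ∈ (∅ : Finset κ), p = (Classical.arbitrary α, y i)} = P := by
      ext p
      simp
    rw [h1]
    exact h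
  | insert a s ha ih =>
    intro j P h
    rw [Finset.card_insert_of_notMem ha, Nat.add_assoc, Nat.add_comm 1 j] at h
    obtain ⟨x, hx⟩ := ih (j + 1) P h
    obtain ⟨b, hb⟩ := hx.2 (y a)
    refine ⟨Function.update x a b, ?_⟩
    have h1 : insert (b, y a) (P ∪ {p : α × β | ∃ i ∈ s, p = (x i, y i)}) =
        P ∪ {p : α × β | ∃ i ∈ insert a s, p = (Function.update x a b i, y i)} := by
      ext p
      simp only [Set.mem_insert_iff, Set.mem_union, Set.mem_ofPred_eq, Finset.mem_insert]
      constructor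
      · rintro (h2 | h2 | ⟨i, hi, h2⟩)
        · right
          refine ⟨a, Or.inl rfl, ?_⟩
          rw [Function.update_self]
          exact h2
        · exact Or.inl h2
        · right
          refine ⟨i, Or.inr hi, ?_⟩
          have hia : i ≠ a := fun h3 => ha (h3 ▸ hi)
          rw [Function.update_of_ne hia]
          exact h2
      · rintro (h2 | ⟨i, hi | hi, h2⟩)
        · exact Or.inr (Or.inl h2)
        · left
          rw [hi, Function.update_self] at h2
          exact h2
        · right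
          right
          have hia : i ≠ a := fun h3 => ha (h3 ▸ hi)
          rw [Function.update_of_ne hia] at h2
          exact ⟨i, hi, h2⟩
    rw [← h1]
    exact hb

/-- The position in one slot after a new pair. -/
theorem slot {κ A B X Y : Type} [Fintype κ] (P : Set ((κ → A) × (κ → B))) (u : κ → A)
    (v : κ → B) (a : A → X) (b : B → Y) :
    {p : X × Y | ∃ q ∈ insert (u, v) P, ∃ x, p = (a (q.1 x), b (q.2 x))} =
      {p : X × Y | ∃ q ∈ P, ∃ x, p = (a (q.1 x), b (q.2 x))} ∪
        {p : X × Y | ∃ i ∈ (Finset.univ : Finset κ), p = (a (u i), b (v i))} := by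
  ext p
  simp only [Set.mem_insert_iff, Set.mem_union, Set.mem_ofPred_eq, Finset.mem_univ, true_and]
  constructor
  · rintro ⟨q, rfl | hq, x, hx⟩
    · exact Or.inr ⟨x, hx⟩
    · exact Or.inl ⟨q, hq, x, hx⟩
  · rintro (⟨q, hq, x, hx⟩ | ⟨x, hx⟩)
    · exact ⟨q, Or.inr hq, x, hx⟩
    · exact ⟨(u, v), Or.inl rfl, x, hx⟩

theorem RN_iff {n : ℕ} {K : Type} [CommRing K] {γ₁ γ₂ : Kˣ} (q : Q0) (a b c : NN n K γ₁ γ₂) :
    RN n K γ₁ γ₂ q a b c ↔ (∀ x, RH K γ₁ (dv n q x) (a x).1 (b (x - q.d)).1 (c x).1) ∧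
      (∀ x, RH K γ₂ (dv n q x) (a x).2 (b (x - q.d)).2 (c x).2) := by
  constructor
  · intro h
    have h1 : a * nactF q b = c := h
    refine ⟨fun x => ?_, fun x => ?_⟩
    · have h2 := congrArg (fun f : NN n K γ₁ γ₂ => (f x).1) h1
      exact h2
    · have h2 := congrArg (fun f : NN n K γ₁ γ₂ => (f x).2) h1
      exact h2
  · rintro ⟨h1, h2⟩
    change a * nactF q b = c
    funext x
    exact Prod.ext (h1 x) (h2 x)

theorem holds : Pool.Agent.H646.EC.S_blk := by
  intro n _ K _ γ₁ γ₂ γ₁' γ₂' k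
  induction k with
  | zero =>
    intro P h1 h2
    have e1 : BF (RH K γ₁) (RH K γ₁') 0
        {p | ∃ q ∈ P, ∃ x, p = ((q.1 x).1, (q.2 x).1)} := h1
    have e2 : BF (RH K γ₂) (RH K γ₂') 0
        {p | ∃ q ∈ P, ∃ x, p = ((q.1 x).2, (q.2 x).2)} := h2
    obtain ⟨a1, b1⟩ := e1
    obtain ⟨a2, b2⟩ := e2
    refine ⟨?_, ?_⟩
    · intro p hp q hq
      constructor
      · intro h
        funext x
        refine Prod.ext ?_ ?_
        · exact (a1 ((p.1 x).1, (p.2 x).1) ⟨p, hp, x, rfl⟩ ((q.1 x).1, (q.2 x).1)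
            ⟨q, hq, x, rfl⟩).1 (by rw [h])
        · exact (a2 ((p.1 x).2, (p.2 x).2) ⟨p, hp, x, rfl⟩ ((q.1 x).2, (q.2 x).2)
            ⟨q, hq, x, rfl⟩).1 (by rw [h])
      · intro h
        funext x
        refine Prod.ext ?_ ?_
        · exact (a1 ((p.1 x).1, (p.2 x).1) ⟨p, hp, x, rfl⟩ ((q.1 x).1, (q.2 x).1)
            ⟨q, hq, x, rfl⟩).2 (by rw [h])
        · exact (a2 ((p.1 x).2, (p.2 x).2) ⟨p, hp, x, rfl⟩ ((q.1 x).2, (q.2 x).2)
            ⟨q, hq, x, rfl⟩).2 (by rw [h])
    · intro s p hp q hq r hr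
      rw [RN_iff, RN_iff]
      refine and_congr (forall_congr' fun x => ?_) (forall_congr' fun x => ?_)
      · exact b1 (dv n s x) ((p.1 x).1, (p.2 x).1) ⟨p, hp, x, rfl⟩
          ((q.1 (x - s.d)).1, (q.2 (x - s.d)).1) ⟨q, hq, _, rfl⟩
          ((r.1 x).1, (r.2 x).1) ⟨r, hr, x, rfl⟩
      · exact b2 (dv n s x) ((p.1 x).2, (p.2 x).2) ⟨p, hp, x, rfl⟩
          ((q.1 (x - s.d)).2, (q.2 (x - s.d)).2) ⟨q, hq, _, rfl⟩
          ((r.1 x).2, (r.2 x).2) ⟨r, hr, x, rfl⟩
  | succ k ih =>
    intro P h1 h2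
    have hn : n * (k + 1) = (Finset.univ : Finset (ZMod n)).card + n * k := by
      rw [Finset.card_univ, ZMod.card]
      ring
    rw [hn] at h1 h2
    have : Nonempty (Hgp K γ₁) := ⟨1⟩
    have : Nonempty (Hgp K γ₂) := ⟨1⟩
    have : Nonempty (Hgp K γ₁') := ⟨1⟩
    have : Nonempty (Hgp K γ₂') := ⟨1⟩
    refine ⟨?_, ?_⟩
    · intro u
      obtain ⟨f, hf⟩ := multiL (RH K γ₁) (RH K γ₁') (Finset.univ : Finset (ZMod n))
        (fun x => (u x).1) (n * k) _ h1
      obtain ⟨g, hg⟩ := multiL (RH K γ₂) (RH K γ₂') (Finset.univ : Finset (ZMod n))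
        (fun x => (u x).2) (n * k) _ h2
      refine ⟨fun x => (f x, g x), ?_⟩
      apply ih
      · rw [slot P u (fun x => (f x, g x)) Prod.fst Prod.fst]
        exact hf
      · rw [slot P u (fun x => (f x, g x)) Prod.snd Prod.snd]
        exact hg
    · intro v
      obtain ⟨f, hf⟩ := multiR (RH K γ₁) (RH K γ₁') (Finset.univ : Finset (ZMod n))
        (fun x => (v x).1) (n * k) _ h1
      obtain ⟨g, hg⟩ := multiR (RH K γ₂) (RH K γ₂') (Finset.univ : Finset (ZMod n))
        (fun x => (v x).2) (n * k) _ h2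
      refine ⟨fun x => (f x, g x), ?_⟩
      apply ih
      · rw [slot P (fun x => (f x, g x)) v Prod.fst Prod.fst]
        exact hf
      · rw [slot P (fun x => (f x, g x)) v Prod.snd Prod.snd]
        exact hg

end Pool.Agent.H671.EC_blk
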