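import Pool.Agent.H646.EC.Stm

set_option autoImplicit false

namespace Pool.Agent.H824.EC_ch

open Pool.Agent.H646.EC

/-- The three marks. -/
noncomputable def mk3 (d : Dat) (c : Fin d.m → Bool) : Fin 3 → Hgp d.K (gam d c) :=
  ![1, xg d.K (gam d c), wg d.K (gam d c)]

theorem mk3_set (d : Dat) (c c' : Fin d.m → Bool) :
    {p : Hgp d.K (gam d c) × Hgp d.K (gam d c') | ∃ i, p = (mk3 d c i, mk3 d c' i)} =
    {(1, 1), (xg d.K (gam d c), xg d.K (gam d c')), (wg d.K (gam d c), wg d.K (gam d c'))} := by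
  ext p
  simp only [Set.mem_ofPred_eq, Set.mem_insert_iff, Set.mem_singleton_iff]
  constructor
  · rintro ⟨i, hi⟩
    fin_cases i
    · exact Or.inl hi
    · exact Or.inr (Or.inl hi)
    · exact Or.inr (Or.inr hi)
  · rintro (h | h | h)
    · exact ⟨0, h⟩
    · exact ⟨1, h⟩
    · exact ⟨2, h⟩

theorem holds (h1 : S_pig) (h2 : S_pr) : S_ch := by
  intro k
  obtain ⟨C, hC⟩ := h1 D k 3
  obtain ⟨d, hd⟩ := h2 (C + 1) (by omega)
  have hcard : C < Fintype.card (Fin d.m → Bool) := by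
    rw [Fintype.card_fun, Fintype.card_bool, Fintype.card_fin, hd]
    exact (Nat.lt_succ_self C).trans Nat.lt_two_pow_self
  obtain ⟨c, c', hne, hB⟩ := hC (Fin d.m → Bool) hcard (fun c => Hgp d.K (gam d c))
    (fun c => RH d.K (gam d c)) (fun c => mk3 d c)
  refine ⟨d, c, c', hne, ?_⟩
  rw [← mk3_set]
  exact hB

end Pool.Agent.H824.EC_ch
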