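import Pool.Agent.H646.EC.Stm

/-! # EC, `S_coc` (helper539 for helper646) -/

set_option autoImplicit false

namespace Pool.Agent.H539.EC.Coc

open Pool.Agent.H646.EC

/-- solving the cocycle equation -/
theorem coc {n : ℕ} [NeZero n] {A : Type} [AddCommGroup A] (δ : ZMod n → A) (s x0 : ZMod n)
    (hs : s * s = 1) (h : ∑ x, δ x = 0) :
    ∃ κ : ZMod n → A, κ x0 = 0 ∧ ∀ x, κ x = δ x + κ (x - s) := by
  obtain ⟨F, hF⟩ : ∃ F : ℕ → A, F = fun k => ∑ i ∈ Finset.range k,
    δ (x0 + s * ((i : ZMod n) + 1)) := ⟨_, rfl⟩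
  have hF0 : F 0 = 0 := by rw [hF]; simp
  have hFs : ∀ k, F (k + 1) = F k + δ (x0 + s * ((k : ZMod n) + 1)) := by
    intro k
    rw [hF]
    exact Finset.sum_range_succ _ _
  have hFn : F n = 0 := by
    rw [← h, hF]
    refine Finset.sum_nbij' (fun i : ℕ => x0 + s * ((i : ZMod n) + 1))
      (fun y : ZMod n => (s * (y - x0) - 1).val) (fun _ _ => Finset.mem_univ _)
      (fun y _ => Finset.mem_range.2 (ZMod.val_lt _)) (fun i hi => ?_) (fun y _ => ?_)
      (fun _ _ => rfl)
    · have h1 : s * (x0 + s * ((i : ZMod n) + 1) - x0) - 1 = (i : ZMod n) := by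
        linear_combination ((i : ZMod n) + 1) * hs
      change (s * (x0 + s * ((i : ZMod n) + 1) - x0) - 1).val = i
      rw [h1, ZMod.val_natCast, Nat.mod_eq_of_lt (Finset.mem_range.1 hi)]
    · change x0 + s * (((s * (y - x0) - 1).val : ZMod n) + 1) = y
      rw [ZMod.natCast_zmod_val]
      linear_combination (y - x0) * hs
  refine ⟨fun x => F (s * (x - x0)).val, ?_, fun x => ?_⟩
  · change F (s * (x0 - x0)).val = 0
    rw [sub_self, mul_zero, ZMod.val_zero, hF0]
  · change F (s * (x - x0)).val = δ x + F (s * (x - s - x0)).val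
    obtain ⟨k, hk⟩ : ∃ k, k = (s * (x - s - x0)).val := ⟨_, rfl⟩
    have hkn : k < n := by rw [hk]; exact ZMod.val_lt _
    have hk' : (k : ZMod n) = s * (x - s - x0) := by rw [hk, ZMod.natCast_zmod_val]
    have h1 : s * (x - x0) = ((k + 1 : ℕ) : ZMod n) := by
      push_cast
      rw [hk']
      linear_combination hs
    have h2 : x0 + s * ((k : ZMod n) + 1) = x := by
      rw [hk']
      linear_combination (x - s - x0) * hs
    rw [← hk, h1, ZMod.val_natCast]
    have h3 := hFs k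
    rw [h2] at h3
    rw [add_comm (δ x), ← h3]
    rcases Nat.lt_or_ge (k + 1) n with h4 | h4
    · rw [Nat.mod_eq_of_lt h4]
    · have h5 : k + 1 = n := by omega
      rw [h5, Nat.mod_self, hF0, hFn]

theorem uact_one {K : Type} [CommRing K] {γ₁ γ₂ : Kˣ} (d : D) :
    uact d (1 : U K γ₁ γ₂) = 1 := by
  have h := uact_mul d (1 : U K γ₁ γ₂) 1
  rw [mul_one] at h
  exact (left_eq_mul.1 h)

theorem holds : S_coc := by
  intro n _ K _ γ₁ γ₂ c h x0 ε m1 m2 w Λ F hΛ e1 e2 ew hsum
  obtain ⟨s, hs⟩ : ∃ s : ZMod n, s = ((c 6).right.d : ZMod n) := ⟨_, rfl⟩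
  have hss : s * s = 1 := by
    rcases F.d6 with h1 | h1
    · rw [hs, h1]; simp
    · rw [hs, h1]; simp
  obtain ⟨κ, hκ0, hκ⟩ := coc (fun x => dv n (c 6).right x) s x0 hss hsum
  obtain ⟨Ψ, hΨ⟩ : ∃ Ψ : MulAut (NN n K γ₁ γ₂),
      ∀ u x, Ψ u x = uact (κ x) (Λ (u (s * (x - x0)))) :=
    ⟨{ toFun := fun u x => uact (κ x) (Λ (u (s * (x - x0))))
       invFun := fun v y => Λ.symm (uact (-κ (x0 + s * y)) (v (x0 + s * y)))
       left_inv := fun u => by
         funext y
         change Λ.symm (uact (-κ (x0 + s * y)) (uact (κ (x0 + s * y))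
           (Λ (u (s * (x0 + s * y - x0)))))) = u y
         rw [← uact_add, neg_add_cancel, uact_zero, MulEquiv.symm_apply_apply]
         congr 1
         linear_combination y * hss
       right_inv := fun v => by
         funext x
         change uact (κ x) (Λ (Λ.symm (uact (-κ (x0 + s * (s * (x - x0))))
           (v (x0 + s * (s * (x - x0))))))) = v x
         have h1 : x0 + s * (s * (x - x0)) = x := by linear_combination (x - x0) * hss
         rw [MulEquiv.apply_symm_apply, h1, ← uact_add, add_neg_cancel, uact_zero]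
       map_mul' := fun u v => by
         funext x
         change uact (κ x) (Λ (u (s * (x - x0)) * v (s * (x - x0)))) =
           uact (κ x) (Λ (u (s * (x - x0)))) * uact (κ x) (Λ (v (s * (x - x0))))
         rw [map_mul, uact_mul] }, fun _ _ => rfl⟩
  have hat : ∀ u, Ψ (at0 n K γ₁ γ₂ u) = Pi.mulSingle x0 (Λ u) := by
    intro u
    funext x
    rw [hΨ]
    by_cases hx : x = x0
    · subst hx
      rw [sub_self, mul_zero, hκ0, uact_zero, at0, Pi.mulSingle_eq_same, Pi.mulSingle_eq_same]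
    · rw [Pi.mulSingle_eq_of_ne hx, at0, Pi.mulSingle_eq_of_ne, map_one, uact_one]
      intro h1
      apply hx
      linear_combination s * h1 - (x - x0) * hss
  have hcomm : ∀ q' q : Q0, s * (q.d : ZMod n) = (q'.d : ZMod n) →
      (∀ x, κ x + (ε * (dv n q' (s * (x - x0))).1, (dv n q' (s * (x - x0))).2) =
        dv n q x + κ (x - q.d)) → Ψ * nact n K γ₁ γ₂ q' = nact n K γ₁ γ₂ q * Ψ := by
    intro q' q h1 h2
    ext1 u
    rw [MulAut.mul_apply, MulAut.mul_apply, nact_apply, nact_apply]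
    funext x
    rw [hΨ]
    change uact (κ x) (Λ (uact (dv n q' (s * (x - x0))) (u (s * (x - x0) - q'.d)))) =
      uact (dv n q x) (Ψ u (x - q.d))
    rw [hΨ, ← uact_add, ← h2 x]
    have h3 := hΛ (dv n q' (s * (x - x0))).1 (dv n q' (s * (x - x0))).2 (u (s * (x - x0) - q'.d))
    rw [Prod.mk.eta] at h3
    rw [h3, ← uact_add]
    congr 3
    rw [← h1]
    ring
  have hL : ∀ (j : Fin 7) (v : NN n K γ₁ γ₂), gen n K γ₁ γ₂ j = SemidirectProduct.inl v →
      c j = SemidirectProduct.inl h * SemidirectProduct.inl (Ψ v) * (SemidirectProduct.inl h)⁻¹ →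
      hol n K γ₁ γ₂ (c j) = (SemidirectProduct.inl h * SemidirectProduct.inr Ψ) *
        hol n K γ₁ γ₂ (gen n K γ₁ γ₂ j) * (SemidirectProduct.inl h * SemidirectProduct.inr Ψ)⁻¹ := by
    intro j v h1 h2
    rw [h1, h2, map_mul, map_mul, map_inv]
    unfold hol
    rw [SemidirectProduct.map_inl, SemidirectProduct.map_inl, SemidirectProduct.map_inl,
      MonoidHom.id_apply, MonoidHom.id_apply, MonoidHom.id_apply]
    have h3 := SemidirectProduct.inl_aut (φ := MonoidHom.id (MulAut (NN n K γ₁ γ₂))) Ψ v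
    rw [MonoidHom.id_apply] at h3
    rw [h3, map_inv]
    group
  have hR : ∀ (j : Fin 7) (q' : Q0), gen n K γ₁ γ₂ j = SemidirectProduct.inr q' →
      c j = SemidirectProduct.inl h * SemidirectProduct.inr (c j).right *
        (SemidirectProduct.inl h)⁻¹ →
      Ψ * nact n K γ₁ γ₂ q' = nact n K γ₁ γ₂ (c j).right * Ψ →
      hol n K γ₁ γ₂ (c j) = (SemidirectProduct.inl h * SemidirectProduct.inr Ψ) *
        hol n K γ₁ γ₂ (gen n K γ₁ γ₂ j) * (SemidirectProduct.inl h * SemidirectProduct.inr Ψ)⁻¹ := by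
    intro j q' h1 h2 h3
    have h4 : nact n K γ₁ γ₂ (c j).right = Ψ * nact n K γ₁ γ₂ q' * Ψ⁻¹ := by
      rw [h3, mul_inv_cancel_right]
    rw [h1]
    have h5 : hol n K γ₁ γ₂ (c j) = SemidirectProduct.inl h *
        SemidirectProduct.inr (nact n K γ₁ γ₂ (c j).right) * (SemidirectProduct.inl h)⁻¹ := by
      conv_lhs => rw [h2]
      rw [map_mul, map_mul, map_inv]
      unfold hol
      rw [SemidirectProduct.map_inl, SemidirectProduct.map_inr, MonoidHom.id_apply]
    rw [h5, h4, map_mul, map_mul, map_inv]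
    unfold hol
    rw [SemidirectProduct.map_inr]
    group
  refine ⟨SemidirectProduct.inl h * SemidirectProduct.inr Ψ, fun j => ?_⟩
  have key : ∀ j : Fin 7, j = 0 ∨ j = 1 ∨ j = 2 ∨ j = 3 ∨ j = 4 ∨ j = 5 ∨ j = 6 := by decide
  rcases key j with rfl | rfl | rfl | rfl | rfl | rfl | rfl
  · refine hL 0 (at0 n K γ₁ γ₂ (xg K γ₁, 1)) rfl ?_
    rw [hat, e1]
    exact F.c0
  · refine hL 1 (at0 n K γ₁ γ₂ (1, xg K γ₂)) rfl ?_
    rw [hat, e2]
    exact F.c1
  · refine hL 2 (at0 n K γ₁ γ₂ (wg K γ₁, wg K γ₂)) rfl ?_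
    rw [hat, ew]
    exact F.c2
  · refine hR 3 ⟨Finsupp.single 0 1, 0, 0⟩ rfl (F.cq 3 (by decide)) (hcomm _ _ ?_ fun x => ?_)
    · rw [F.d3]
      simp
    · rw [F.d3, F.q3 x, Int.cast_zero, sub_zero, add_comm]
      congr 1
      by_cases hx : x = x0
      · subst hx
        simp [dv, fold]
      · have h1 : (0 : ZMod n) ≠ s * (x - x0) := by
          intro h1
          apply hx
          linear_combination - s * h1 - (x - x0) * hss
        simp [dv, fold, hx, h1]
  · refine hR 4 ⟨0, (1, 0), 0⟩ rfl (F.cq 4 (by decide)) (hcomm _ _ ?_ fun x => ?_)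
    · rw [F.d4]
      simp
    · rw [F.d4, F.q4 x, Int.cast_zero, sub_zero, add_comm]
      simp [dv, fold_zero]
  · refine hR 5 ⟨0, (0, 1), 0⟩ rfl (F.cq 5 (by decide)) (hcomm _ _ ?_ fun x => ?_)
    · rw [F.d5]
      simp
    · rw [F.d5, F.q5 x, Int.cast_zero, sub_zero, add_comm]
      simp [dv, fold_zero]
  · refine hR 6 ⟨0, 0, 1⟩ rfl (F.cq 6 (by decide)) (hcomm _ _ ?_ fun x => ?_)
    · rw [← hs, hss]
      simp
    · rw [← hs, ← hκ x]
      simp [dv, fold_zero]

end Pool.Agent.H539.EC.Coc
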