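import Pool.Agent.H646.EC.Stm

set_option autoImplicit false

namespace Pool.Agent.H726.EC_diff

open Pool.Agent.H646.EC

noncomputable section

/-! ### the group `H` -/

section H
variable {K : Type} [CommRing K] {γ : Kˣ}

/-- `(k δ₀, 0)` -/
def el (k : K) : Hgp K γ := ⟨Pi.single 0 k, 0⟩

theorem el_add (a b : K) : (el (a + b) : Hgp K γ) = el a * el b := by
  refine Hgp.ext (funext fun l => ?_) ?_
  · simp only [el, Hgp.mul_f, ph_zero, zpow_zero, Units.val_one, one_mul, Pi.single_add, Pi.add_apply]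
  · simp [el]

theorem el_zero : (el 0 : Hgp K γ) = 1 := by
  refine Hgp.ext (funext fun l => ?_) ?_
  · simp [el]
  · rfl

theorem el_neg (a : K) : (el (-a) : Hgp K γ) = (el a)⁻¹ := by
  rw [eq_inv_iff_mul_eq_one, ← el_add, neg_add_cancel, el_zero]

theorem el_pow (a : K) (m : ℕ) : (el a : Hgp K γ) ^ m = el ((m : K) * a) := by
  induction m with
  | zero => rw [pow_zero, Nat.cast_zero, zero_mul, el_zero]
  | succ m ih =>
    rw [pow_succ, ih, ← el_add]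
    congr 1
    push_cast
    ring

theorem el_eq_one {a : K} (h : (el a : Hgp K γ) = 1) : a = 0 := by
  have h1 := congrArg (fun u : Hgp K γ => u.f 0) h
  simpa [el] using h1

theorem ph_0_1 : ph 0 1 = 1 := by decide

theorem conj_x (k : K) : xg K γ * el k * (xg K γ)⁻¹ = el ((γ : K) * k) := by
  refine Hgp.ext (funext fun l => ?_) ?_
  · simp only [el, xg, Hgp.mul_f, Hgp.inv_f, Hgp.mul_x, Pi.zero_apply, mul_zero, neg_zero, add_zero,
      zero_add]
    by_cases hl : l = 0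
    · subst hl
      rw [Pi.single_eq_same, Pi.single_eq_same, ph_0_1, zpow_one]
    · rw [Pi.single_eq_of_ne hl, Pi.single_eq_of_ne hl, mul_zero]
  · simp [el, xg]

theorem wg_eq : wg K γ = el 1 := rfl

theorem comm_x : xg K γ * wg K γ * (xg K γ)⁻¹ * (wg K γ)⁻¹ = el ((γ : K) - 1) := by
  rw [wg_eq, conj_x, ← el_neg, ← el_add]
  congr 1
  ring

theorem e_x : xg K γ * el ((γ : K) - 1) * (xg K γ)⁻¹ * ((el ((γ : K) - 1)) ^ 6)⁻¹ =
    el (((γ : K) - 6) * ((γ : K) - 1)) := by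
  rw [conj_x, el_pow, ← el_neg, ← el_add]
  congr 1
  push_cast
  ring

theorem act_x : actF (1, 0) (xg K γ * actF (1, 0) (xg K γ)⁻¹) = xg K γ := by
  refine Hgp.ext (funext fun l => ?_) ?_
  · simp [xg]
  · have h : us 1 * (1 + us 1 * (-1)) = (1 : O) := by decide
    simpa [xg] using h

theorem act_one (d : D) : actF d (1 : Hgp K γ) = 1 := by
  refine Hgp.ext (funext fun l => ?_) ?_ <;> simp

end H

/-! ### the block -/

section blk
variable {n : ℕ} {K : Type} [CommRing K] {γ₁ γ₂ : Kˣ}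

theorem uact_one (d : D) : uact d (1 : U K γ₁ γ₂) = 1 := by
  unfold uact
  rw [Prod.fst_one, Prod.snd_one, act_one, act_one]
  rfl

/-- The element of the block group with the value `a` at the coordinate `0`. -/
def io (n : ℕ) (a : U K γ₁ γ₂) : Blk n K γ₁ γ₂ := SemidirectProduct.inl (at0 n K γ₁ γ₂ a)

theorem io_mul (a b : U K γ₁ γ₂) : io n (a * b) = io n a * io n b := by
  unfold io at0
  rw [Pi.mulSingle_mul, map_mul]

theorem io_one : io n (1 : U K γ₁ γ₂) = 1 := by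
  unfold io at0
  rw [Pi.mulSingle_one, map_one]

theorem io_inv (a : U K γ₁ γ₂) : io n a⁻¹ = (io n a)⁻¹ := by
  rw [eq_inv_iff_mul_eq_one, ← io_mul, inv_mul_cancel, io_one]

theorem io_pow (a : U K γ₁ γ₂) (m : ℕ) : io n (a ^ m) = (io n a) ^ m := by
  induction m with
  | zero => rw [pow_zero, pow_zero, io_one]
  | succ m ih => rw [pow_succ, pow_succ, io_mul, ih]

theorem io_eq_one {a : U K γ₁ γ₂} (h : io n a = 1) : a = 1 := by
  unfold io at h
  have h1 : at0 n K γ₁ γ₂ a = 1 := by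
    apply SemidirectProduct.inl_injective (φ := nact n K γ₁ γ₂)
    rw [h, map_one]
  have h2 := congrFun h1 0
  unfold at0 at h2
  rwa [Pi.mulSingle_eq_same] at h2

theorem conj_io (q : Q0) (hd : q.d = 0) (a : U K γ₁ γ₂) :
    (SemidirectProduct.inr q : Blk n K γ₁ γ₂) * io n a * (SemidirectProduct.inr q)⁻¹ =
      io n (uact (dv n q 0) a) := by
  unfold io
  rw [← map_inv, ← SemidirectProduct.inl_aut]
  congr 1
  funext x
  rw [nact_apply]
  unfold nactF at0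
  rw [hd, Int.cast_zero, sub_zero]
  by_cases hx : x = 0
  · subst hx
    rw [Pi.mulSingle_eq_same, Pi.mulSingle_eq_same]
  · rw [Pi.mulSingle_eq_of_ne hx, Pi.mulSingle_eq_of_ne hx, uact_one]

end blk

theorem T_pow (m : ℕ) : (⟨0, 0, 1⟩ : Q0) ^ m = ⟨0, 0, m⟩ := by
  induction m with
  | zero => rfl
  | succ m ih =>
    rw [pow_succ, ih]
    refine Q0.ext ?_ ?_ ?_
    · simp [sh]
    · simp
    · simp

theorem T_conj (m : ℕ) : (⟨0, 0, 1⟩ : Q0) ^ m * ⟨Finsupp.single 0 1, 0, 0⟩ * ((⟨0, 0, 1⟩ : Q0) ^ m)⁻¹ =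
    ⟨Finsupp.single (m : ℤ) 1, 0, 0⟩ := by
  rw [T_pow]
  refine Q0.ext ?_ ?_ ?_
  · simp only [Q0.mul_h, Q0.inv_h, Q0.mul_d]
    unfold sh
    simp
  · simp
  · simp

theorem dv_single (n : ℕ) (m : ℤ) : dv n ⟨Finsupp.single m 1, 0, 0⟩ 0 =
    (if (m : ZMod n) = 0 then 1 else 0, 0) := by
  unfold dv fold
  rw [Finsupp.sum_single_index]
  · simp
  · simp

/-- the word `A` -/
def wA (n : ℕ) : F7 := cnj Bt (br X1 (cnj (Tt ^ n) Bt))
/-- the word `C` -/
def wC (n : ℕ) : F7 := br (wA n) Wd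
/-- the word `E` -/
def wE (n : ℕ) : F7 := cnj X1 (wC n) * (wC n ^ 6)⁻¹

section blk2
variable (n : ℕ) (K : Type) [CommRing K] (γ₁ γ₂ : Kˣ)

theorem pi_X1 : pi n K γ₁ γ₂ X1 = io n (xg K γ₁, 1) := by
  unfold pi X1
  rw [FreeGroup.lift_apply_of]
  rfl

theorem pi_Wd : pi n K γ₁ γ₂ Wd = io n (wg K γ₁, wg K γ₂) := by
  unfold pi Wd
  rw [FreeGroup.lift_apply_of]
  rfl

theorem pi_Bt : pi n K γ₁ γ₂ Bt = SemidirectProduct.inr ⟨Finsupp.single 0 1, 0, 0⟩ := by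
  unfold pi Bt
  rw [FreeGroup.lift_apply_of]
  rfl

theorem pi_Tt : pi n K γ₁ γ₂ Tt = SemidirectProduct.inr ⟨0, 0, 1⟩ := by
  unfold pi Tt
  rw [FreeGroup.lift_apply_of]
  rfl

theorem pi_A (m : ℕ) : pi n K γ₁ γ₂ (wA m) = io n (uact (1, 0) ((xg K γ₁, 1) *
    uact (if ((m : ℤ) : ZMod n) = 0 then 1 else 0, 0) (xg K γ₁, 1)⁻¹)) := by
  unfold wA cnj br
  simp only [map_mul, map_inv, map_pow, pi_X1, pi_Bt, pi_Tt]
  rw [← map_pow, ← map_mul, ← map_inv (SemidirectProduct.inr (φ := nact n K γ₁ γ₂)) (_ ^ m),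
    ← map_mul, T_conj]
  have h1 := conj_io (n := n) (K := K) (γ₁ := γ₁) (γ₂ := γ₂) ⟨Finsupp.single (m : ℤ) 1, 0, 0⟩ rfl
    (xg K γ₁, 1)⁻¹
  rw [io_inv, dv_single] at h1
  have h2 : ∀ (g : Blk n K γ₁ γ₂), io n (xg K γ₁, 1) * g * (io n (xg K γ₁, 1))⁻¹ * g⁻¹ =
    io n (xg K γ₁, 1) * (g * (io n (xg K γ₁, 1))⁻¹ * g⁻¹) := by
    intro g
    group
  rw [h2, h1, ← io_mul]
  have h3 := conj_io (n := n) (K := K) (γ₁ := γ₁) (γ₂ := γ₂) ⟨Finsupp.single 0 1, 0, 0⟩ rfl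
    ((xg K γ₁, 1) * uact (if ((m : ℤ) : ZMod n) = 0 then 1 else 0, 0) (xg K γ₁, 1)⁻¹)
  rw [h3, dv_single, Int.cast_zero, if_pos rfl]

theorem pi_A0 (m : ℕ) (h : ((m : ℤ) : ZMod n) ≠ 0) : pi n K γ₁ γ₂ (wA m) = 1 := by
  rw [pi_A, if_neg h]
  have h1 : ((0 : ZMod 6), (0 : ZMod 2)) = (0 : D) := rfl
  rw [h1, uact_zero, mul_inv_cancel, uact_one, io_one]

theorem pi_A1 (m : ℕ) (h : ((m : ℤ) : ZMod n) = 0) : pi n K γ₁ γ₂ (wA m) = io n (xg K γ₁, 1) := by
  rw [pi_A, if_pos h]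
  congr 1
  unfold uact
  refine Prod.ext ?_ ?_
  · exact act_x
  · show actF (1, 0) ((1 : Hgp K γ₂) * actF (1, 0) (1 : Hgp K γ₂)⁻¹) = 1
    rw [inv_one, act_one, mul_one, act_one]

theorem pi_E0 (m : ℕ) (h : ((m : ℤ) : ZMod n) ≠ 0) : pi n K γ₁ γ₂ (wE m) = 1 := by
  have hC : pi n K γ₁ γ₂ (wC m) = 1 := by
    unfold wC br
    simp only [map_mul, map_inv, pi_A0 n K γ₁ γ₂ m h]
    group
  unfold wE cnj
  simp only [map_mul, map_inv, map_pow, hC]
  group

theorem pi_E1 (m : ℕ) (h : ((m : ℤ) : ZMod n) = 0) :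
    pi n K γ₁ γ₂ (wE m) = io n (el (((γ₁ : K) - 6) * ((γ₁ : K) - 1)), 1) := by
  have hC : pi n K γ₁ γ₂ (wC m) = io n (el ((γ₁ : K) - 1), 1) := by
    unfold wC br
    simp only [map_mul, map_inv, pi_A1 n K γ₁ γ₂ m h, pi_Wd]
    rw [← io_inv, ← io_inv, ← io_mul, ← io_mul, ← io_mul]
    congr 1
    refine Prod.ext ?_ ?_
    · exact comm_x
    · show (1 : Hgp K γ₂) * wg K γ₂ * (1 : Hgp K γ₂)⁻¹ * (wg K γ₂)⁻¹ = 1
      group
  unfold wE cnj
  simp only [map_mul, map_inv, map_pow, hC, pi_X1]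
  rw [← io_pow, ← io_inv, ← io_inv, ← io_mul, ← io_mul, ← io_mul]
  congr 1
  refine Prod.ext ?_ ?_
  · exact e_x
  · show (1 : Hgp K γ₂) * 1 * (1 : Hgp K γ₂)⁻¹ * ((1 : Hgp K γ₂) ^ 6)⁻¹ = 1
    group

theorem pi_ER (m R : ℕ) (h : ((m : ℤ) : ZMod n) = 0) :
    pi n K γ₁ γ₂ (wE m ^ R) = 1 ↔ (R : K) * (((γ₁ : K) - 6) * ((γ₁ : K) - 1)) = 0 := by
  rw [map_pow, pi_E1 n K γ₁ γ₂ m h, ← io_pow]
  have h1 : ((el (((γ₁ : K) - 6) * ((γ₁ : K) - 1)), 1) : U K γ₁ γ₂) ^ R =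
      (el ((R : K) * (((γ₁ : K) - 6) * ((γ₁ : K) - 1))), 1) := by
    refine Prod.ext ?_ ?_
    · exact el_pow _ _
    · exact one_pow _
  rw [h1]
  constructor
  · intro h2
    have h3 := io_eq_one h2
    exact el_eq_one (congrArg Prod.fst h3)
  · intro h2
    rw [h2, el_zero]
    exact io_one

end blk2

/-! ### arithmetic -/

/-- the product of the other primes -/
def RR (d : Dat) (a : Fin d.m) : ℕ := ∏ b ∈ Finset.univ.erase a, d.r b

theorem arith (d : Dat) (c : Fin d.m → Bool) (a : Fin d.m) :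
    ((RR d a : ℕ) : d.K) * (((gam d c : (d.K)ˣ) : d.K) - 6) * (((gam d c : (d.K)ˣ) : d.K) - 1) = 0 ↔
      c a = false := by
  have hval : ∀ b, ((gam d c : (d.K)ˣ) : d.K) b = 6 ^ ex (c b) := by
    intro b
    unfold gam
    simp [MulEquiv.val_piUnits_symm_apply]
  have hap : ∀ b, (((RR d a : ℕ) : d.K) * (((gam d c : (d.K)ˣ) : d.K) - 6) *
      (((gam d c : (d.K)ˣ) : d.K) - 1)) b =
      ((RR d a : ℕ) : ZMod (d.r b)) * ((6 : ZMod (d.r b)) ^ ex (c b) - 6) *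
        ((6 : ZMod (d.r b)) ^ ex (c b) - 1) := by
    intro b
    rw [Pi.mul_apply, Pi.mul_apply, Pi.sub_apply, Pi.sub_apply, hval]
    rfl
  constructor
  · intro h
    by_contra hc
    have hc' : c a = true := by
      cases hca : c a
      · exact absurd hca hc
      · rfl
    have h1 := congrFun h a
    rw [hap, hc'] at h1
    have : Fact (d.r a).Prime := ⟨d.rp a⟩
    have h13 : 13 < d.r a := (d.big a).trans (d.big' a)
    have h2 : ex true = 2 := rfl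
    rw [h2] at h1
    have h3 : ((RR d a : ℕ) : ZMod (d.r a)) * (((6 : ZMod (d.r a)) ^ 2 - 6) * ((6 : ZMod (d.r a)) ^ 2 - 1)) =
        ((RR d a * 1050 : ℕ) : ZMod (d.r a)) := by
      push_cast
      ring
    rw [mul_assoc, h3] at h1
    have h4 : ((RR d a * 1050 : ℕ) : ZMod (d.r a)) = 0 := h1
    rw [ZMod.natCast_eq_zero_iff] at h4
    rcases (d.rp a).dvd_mul.mp h4 with h5 | h5
    · unfold RR at h5
      rw [(d.rp a).prime.dvd_finset_prod_iff] at h5
      obtain ⟨b, hb, h6⟩ := h5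
      have h7 := (Nat.prime_dvd_prime_iff_eq (d.rp a) (d.rp b)).mp h6
      exact (Finset.mem_erase.mp hb).1 (d.rinj h7.symm)
    · have h6 : (1050 : ℕ) = 2 * 3 * 5 * 5 * 7 := by norm_num
      rw [h6] at h5
      have hp := d.rp a
      rw [hp.dvd_mul, hp.dvd_mul, hp.dvd_mul, hp.dvd_mul] at h5
      rcases h5 with (((h5 | h5) | h5) | h5) | h5
      all_goals
        have := Nat.le_of_dvd (by norm_num) h5
        omega
  · intro hc
    funext b
    rw [hap]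
    by_cases hb : b = a
    · subst hb
      rw [hc]
      have h2 : ex false = 1 := rfl
      rw [h2, pow_one, sub_self, mul_zero, zero_mul]
      rfl
    · have h1 : ((RR d a : ℕ) : ZMod (d.r b)) = 0 := by
        rw [ZMod.natCast_eq_zero_iff]
        exact Finset.dvd_prod_of_mem _ (Finset.mem_erase.mpr ⟨hb, Finset.mem_univ _⟩)
      rw [h1, zero_mul, zero_mul]
      rfl

theorem key (h : S_nn) (d : ℕ → Dat) (g1 g2 : ∀ i, ((base d).K i)ˣ) (i R : ℕ) :
    wE (nn i) ^ R ∈ BN (base d) g1 g2 ↔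
      (R : (base d).K i) * ((((g1 i : ((base d).K i)ˣ) : (base d).K i) - 6) *
        (((g1 i : ((base d).K i)ˣ) : (base d).K i) - 1)) = 0 := by
  rw [mem_BN]
  have h0 : ((nn i : ℤ) : ZMod ((base d).n i)) = 0 := by
    show ((nn i : ℤ) : ZMod (nn i)) = 0
    rw [Int.cast_natCast]
    exact ZMod.natCast_self _
  constructor
  · intro h1
    exact (pi_ER _ _ _ _ _ _ h0).mp (h1 i)
  · intro h1 k
    by_cases hk : k = i
    · subst hk
      exact (pi_ER _ _ _ _ _ _ h0).mpr h1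
    · have h2 : ((nn i : ℤ) : ZMod ((base d).n k)) ≠ 0 := by
        show ((nn i : ℤ) : ZMod (nn k)) ≠ 0
        rw [Int.cast_natCast]
        intro h3
        rw [ZMod.natCast_eq_zero_iff] at h3
        exact hk (h.2.2.1 ((Nat.prime_dvd_prime_iff_eq (h.1 k) (h.1 i)).mp h3))
      unfold Bpi
      rw [map_pow, pi_E0 _ _ _ _ _ h2, one_pow]

theorem holds (h : S_nn) : Pool.Agent.H646.EC.S_diff := by
  intro d c1 c2 i hne heq
  obtain ⟨a, ha⟩ := Function.ne_iff.mp hne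
  have h1 := key h d (sw1 (gams d c1) (gams d c2) i) (sw1 (gams d c2) (gams d c1) i) i (RR (d i) a)
  have h2 := key h d (gams d c1) (gams d c2) i (RR (d i) a)
  rw [heq] at h1
  have h3 : sw1 (gams d c1) (gams d c2) i i = gams d c2 i := by
    unfold sw1
    exact Function.update_self _ _ _
  rw [h3] at h1
  have h4 := h1.symm.trans h2
  have h5 : (c2 i a = false) ↔ (c1 i a = false) := by
    rw [← arith (d i) (c2 i) a, ← arith (d i) (c1 i) a, mul_assoc, mul_assoc]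
    exact h4
  cases h6 : c1 i a <;> cases h7 : c2 i a
  · exact ha (h6.trans h7.symm)
  · rw [h6, h7] at h5
    simp at h5
  · rw [h6, h7] at h5
    simp at h5
  · exact ha (h6.trans h7.symm)

end

end Pool.Agent.H726.EC_diff
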