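import Pool.Agent.H646.EC.Stm

set_option autoImplicit false

/-! Back-and-forth of all ranks implies elementary equivalence of groups. -/

namespace Pool.Agent.H909.ECef

open Pool.Agent.H646.EC FirstOrder FirstOrder.Language

section gen
variable {ι α β : Type} {R : ι → α → α → α → Prop} {S : ι → β → β → β → Prop}

theorem bf_mono : ∀ (k : ℕ) {P P' : Set (α × β)}, P' ⊆ P → BF R S k P → BF R S k P'
  | 0, _, _, h, ⟨h1, h2⟩ => ⟨fun p hp q hq => h1 p (h hp) q (h hq),
      fun s p hp q hq r hr => h2 s p (h hp) q (h hq) r (h hr)⟩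
  | k + 1, _, _, h, ⟨h1, h2⟩ => ⟨fun x => by
        obtain ⟨y, hy⟩ := h1 x
        exact ⟨y, bf_mono k (Set.insert_subset_insert h) hy⟩, fun y => by
        obtain ⟨x, hx⟩ := h2 y
        exact ⟨x, bf_mono k (Set.insert_subset_insert h) hx⟩⟩

theorem bf_down [Nonempty α] {k : ℕ} {P : Set (α × β)} (h : BF R S (k + 1) P) : BF R S k P := by
  obtain ⟨x⟩ := ‹Nonempty α›
  obtain ⟨y, hy⟩ := h.1 x
  exact bf_mono k (Set.subset_insert _ _) hy

theorem bf_le [Nonempty α] {j k : ℕ} (hjk : j ≤ k) {P : Set (α × β)} (h : BF R S k P) :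
    BF R S j P := by
  induction k, hjk using Nat.le_induction with
  | base => exact h
  | succ n _ ih => exact ih (bf_down h)

theorem bf_zero [Nonempty α] {k : ℕ} {P : Set (α × β)} (h : BF R S k P) : BF R S 0 P :=
  bf_le (Nat.zero_le k) h

end gen

section grp
variable {G H : Type} [Group G] [Group H]

theorem bf_mul {k : ℕ} {P : Set (G × H)} (h : BF (RG G) (RG H) (k + 1) P) {a a' : G} {b b' : H}
    (h1 : (a, b) ∈ P) (h2 : (a', b') ∈ P) :
    BF (RG G) (RG H) k (insert (a * a', b * b') P) := by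
  obtain ⟨y, hy⟩ := h.1 (a * a')
  have h3 := (bf_zero hy).2 () (a, b) (Set.mem_insert_of_mem _ h1) (a', b')
    (Set.mem_insert_of_mem _ h2) (a * a', y) (Set.mem_insert _ _)
  have h4 : b * b' = y := h3.1 rfl
  rwa [← h4] at hy

theorem bf_one {k : ℕ} {P : Set (G × H)} (h : BF (RG G) (RG H) (k + 1) P) :
    BF (RG G) (RG H) k (insert (1, 1) P) := by
  obtain ⟨y, hy⟩ := h.1 1
  have h3 := (bf_zero hy).2 () (1, y) (Set.mem_insert _ _) (1, y) (Set.mem_insert _ _)
    (1, y) (Set.mem_insert _ _)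
  have h4 : y * y = y := h3.1 (mul_one 1)
  have h5 : y = 1 := by simpa using h4
  rwa [h5] at hy

theorem bf_inv {k : ℕ} {P : Set (G × H)} (h : BF (RG G) (RG H) (k + 2) P) {a : G} {b : H}
    (h1 : (a, b) ∈ P) : BF (RG G) (RG H) k (insert (a⁻¹, b⁻¹) P) := by
  have h2 := bf_one h
  obtain ⟨y, hy⟩ := h2.1 a⁻¹
  have h3 := (bf_zero hy).2 () (a, b)
    (Set.mem_insert_of_mem _ (Set.mem_insert_of_mem _ h1)) (a⁻¹, y) (Set.mem_insert _ _)
    (1, 1) (Set.mem_insert_of_mem _ (Set.mem_insert _ _))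
  have h4 : b * y = 1 := h3.1 (mul_inv_cancel a)
  have h5 : y = b⁻¹ := (inv_eq_of_mul_eq_one_right h4).symm
  rw [h5] at hy
  exact bf_mono k (Set.insert_subset_insert (Set.subset_insert _ _)) hy

theorem term_bf {γ : Type} (t : Lgrp.Term γ) : ∃ c : ℕ, ∀ (k : ℕ) (P : Set (G × H)) (v : γ → G)
    (v' : γ → H), (∀ i, (v i, v' i) ∈ P) → BF (RG G) (RG H) (k + c) P →
    BF (RG G) (RG H) k (insert (t.realize v, t.realize v') P) := by
  induction t with
  | var i =>
    refine ⟨0, fun k P v v' hv h => ?_⟩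
    have h1 : insert ((Term.var i : Lgrp.Term γ).realize v,
        (Term.var i : Lgrp.Term γ).realize v') P = P := Set.insert_eq_of_mem (hv i)
    rw [h1]
    exact h
  | func f ts ih =>
    cases f with
    | one =>
      refine ⟨1, fun k P v v' hv h => ?_⟩
      exact bf_one h
    | inv =>
      obtain ⟨c, hc⟩ := ih 0
      refine ⟨c + 2, fun k P v v' hv h => ?_⟩
      have h1 := hc (k + 2) P v v' hv (by
        have e : k + 2 + c = k + (c + 2) := by omega
        rw [e]
        exact h)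
      have h2 := bf_inv h1 (Set.mem_insert _ _)
      exact bf_mono k (Set.insert_subset_insert (Set.subset_insert _ _)) h2
    | mul =>
      obtain ⟨c, hc⟩ := ih 0
      obtain ⟨c', hc'⟩ := ih 1
      refine ⟨c + c' + 1, fun k P v v' hv h => ?_⟩
      have h1 := hc (k + 1 + c') P v v' hv (by
        have e : k + 1 + c' + c = k + (c + c' + 1) := by omega
        rw [e]
        exact h)
      have h2 := hc' (k + 1) _ v v' (fun i => Set.mem_insert_of_mem _ (hv i)) h1
      have h3 := bf_mul h2 (Set.mem_insert_of_mem _ (Set.mem_insert _ _)) (Set.mem_insert _ _)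
      refine bf_mono k (Set.insert_subset_insert ?_) h3
      exact (Set.subset_insert _ _).trans (Set.subset_insert _ _)

theorem form_bf {γ : Type} {n : ℕ} (φ : Lgrp.BoundedFormula γ n) : ∃ c : ℕ, ∀ (P : Set (G × H))
    (v : γ → G) (v' : γ → H) (xs : Fin n → G) (xs' : Fin n → H), (∀ i, (v i, v' i) ∈ P) →
    (∀ i, (xs i, xs' i) ∈ P) → BF (RG G) (RG H) c P → (φ.Realize v xs ↔ φ.Realize v' xs') := by
  induction φ with
  | falsum => exact ⟨0, fun _ _ _ _ _ _ _ _ => Iff.rfl⟩
  | equal t1 t2 =>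
    obtain ⟨c1, hc1⟩ := term_bf (G := G) (H := H) t1
    obtain ⟨c2, hc2⟩ := term_bf (G := G) (H := H) t2
    refine ⟨0 + c2 + c1, fun P v v' xs xs' hv hx h => ?_⟩
    have hs : ∀ i, (Sum.elim v xs i, Sum.elim v' xs' i) ∈ P := by
      rintro (i | i)
      · exact hv i
      · exact hx i
    have h1 := hc1 (0 + c2) P _ _ hs h
    have h2 := hc2 0 _ _ _ (fun i => Set.mem_insert_of_mem _ (hs i)) h1
    exact h2.1 _ (Set.mem_insert_of_mem _ (Set.mem_insert _ _)) _ (Set.mem_insert _ _)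
  | rel R ts => exact R.elim
  | imp f1 f2 ih1 ih2 =>
    obtain ⟨c1, hc1⟩ := ih1
    obtain ⟨c2, hc2⟩ := ih2
    refine ⟨c1 + c2, fun P v v' xs xs' hv hx h => ?_⟩
    rw [BoundedFormula.realize_imp, BoundedFormula.realize_imp,
      hc1 P v v' xs xs' hv hx (bf_le (Nat.le_add_right _ _) h),
      hc2 P v v' xs xs' hv hx (bf_le (Nat.le_add_left _ _) h)]
  | all f ih =>
    obtain ⟨c, hc⟩ := ih
    refine ⟨c + 1, fun P v v' xs xs' hv hx h => ?_⟩
    have key : ∀ (x : G) (y : H), BF (RG G) (RG H) c (insert (x, y) P) →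
        (f.Realize v (Fin.snoc xs x) ↔ f.Realize v' (Fin.snoc xs' y)) := by
      intro x y hxy
      refine hc _ v v' _ _ (fun i => Set.mem_insert_of_mem _ (hv i)) (fun i => ?_) hxy
      refine Fin.lastCases ?_ (fun j => ?_) i
      · rw [Fin.snoc_last, Fin.snoc_last]
        exact Set.mem_insert _ _
      · rw [Fin.snoc_castSucc, Fin.snoc_castSucc]
        exact Set.mem_insert_of_mem _ (hx j)
    rw [BoundedFormula.realize_all, BoundedFormula.realize_all]
    constructor
    · intro h1 y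
      obtain ⟨x, hxy⟩ := h.2 y
      exact (key x y hxy).1 (h1 x)
    · intro h1 x
      obtain ⟨y, hxy⟩ := h.1 x
      exact (key x y hxy).2 (h1 y)

end grp

theorem holds : Pool.Agent.H646.EC.S_ef := by
  intro G H _ _ h
  refine (elementarilyEquivalent_iff).2 fun φ => ?_
  obtain ⟨c, hc⟩ := form_bf (G := G) (H := H) φ
  exact hc ∅ default default default default (fun i => i.elim) (fun i => i.elim0) (h c)

end Pool.Agent.H909.ECef
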