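import Pool.Agent.H646.EC.Stm

/-!
# Project EC: `Q₀` acts faithfully on the product of all blocks
-/

set_option autoImplicit false

namespace Pool.Agent.H903.ECfaith

open Pool.Agent.H646.EC

theorem us_ne (s : ZMod 6) : us s ≠ 0 := by
  revert s; decide

theorem us_one (s : ZMod 6) (h : us s = 1) : s = 0 := by
  revert s; decide

/-- the ring of a datum has no element of order two -/
theorem two_ne (d : Dat) : (2 : d.K) ≠ 0 := by
  intro h
  have h1 := congrFun h ⟨0, d.mpos⟩
  have h2 : ((2 : ℕ) : ZMod (d.r ⟨0, d.mpos⟩)) = 0 := by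
    exact_mod_cast h1
  rw [ZMod.natCast_eq_zero_iff] at h2
  have h3 := Nat.le_of_dvd (by norm_num) h2
  have h4 := d.big ⟨0, d.mpos⟩
  have h5 := d.big' ⟨0, d.mpos⟩
  omega

theorem uact_one {K : Type} [CommRing K] {γ₁ γ₂ : Kˣ} (d : D) (h2 : (2 : K) ≠ 0)
    (h : ∀ v : U K γ₁ γ₂, uact d v = v) : d = 0 := by
  have h1 : d.1 = 0 := by
    have e := congrArg Hgp.x (congrArg Prod.fst (h (xg K γ₁, 1)))
    have e2 : us d.1 * 1 = 1 := e
    rw [mul_one] at e2
    exact us_one _ e2
  have h3 : d.2 = 0 := by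
    have e := congrFun (congrArg Hgp.f (congrArg Prod.fst (h (wg K γ₁, 1)))) 0
    have e2 : (sn K d.2 : K) * (Pi.single (0 : ZMod 6) (1 : K) : ZMod 6 → K) (0 + d.1) =
        (Pi.single (0 : ZMod 6) (1 : K) : ZMod 6 → K) 0 := e
    rw [h1, add_zero, Pi.single_eq_same, mul_one] at e2
    by_contra hne
    have h4 : d.2 = 1 := by
      have : ∀ z : ZMod 2, z ≠ 0 → z = 1 := by decide
      exact this _ hne
    have h5 : (sn K 1 : K) = -1 := by
      have h6 : (1 : ZMod 2).val = 1 := by decide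
      simp [sn, h6]
    rw [h4, h5] at e2
    apply h2
    linear_combination -e2
  exact Prod.ext h1 h3

theorem fold_eq {n : ℕ} (h : ℤ →₀ ZMod 6) (k : ℤ)
    (hk : ∀ j ∈ h.support, (j : ZMod n) = (k : ZMod n) → j = k) : fold n h (k : ZMod n) = h k := by
  classical
  unfold fold Finsupp.sum
  have h1 : ∀ j ∈ h.support, (if (j : ZMod n) = (k : ZMod n) then h j else 0) =
      if k = j then h j else 0 := by
    intro j hj
    by_cases e : (j : ZMod n) = (k : ZMod n)
    · rw [if_pos e, if_pos (hk j hj e).symm]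
    · rw [if_neg e, if_neg]
      rintro rfl
      exact e rfl
  rw [Finset.sum_congr rfl h1, Finset.sum_ite_eq]
  split_ifs with h2
  · rfl
  · exact (Finsupp.notMem_support_iff.1 h2).symm

theorem cast_inj {n : ℕ} {a b : ℤ} (h : (a : ZMod n) = (b : ZMod n)) (hab : |b - a| < n) :
    a = b := by
  rw [ZMod.intCast_eq_intCast_iff_dvd_sub] at h
  have := Int.eq_zero_of_abs_lt_dvd h hab
  omega

theorem holds (hnn : Pool.Agent.H646.EC.S_nn) : Pool.Agent.H646.EC.S_faith := by
  classical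
  intro d c1 c2 q hq
  obtain ⟨hp, -, hinj, -, -, -⟩ := hnn
  have hlarge : ∀ M : ℕ, ∃ i, M < nn i := by
    intro M
    obtain ⟨b, ⟨i, rfl⟩, hb⟩ := (Set.infinite_range_of_injective hinj).exists_gt M
    exact ⟨i, hb⟩
  have hact : ∀ i (u : NN (nn i) (d i).K (gam (d i) (c1 i)) (gam (d i) (c2 i))),
      nactF q u = u := by
    intro i u
    have := DFunLike.congr_fun (hq i) u
    exact this
  -- the shift
  have hd : ∀ i, ((q.d : ℤ) : ZMod (nn i)) = 0 := by
    intro i
    by_contra hne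
    have h1 := congrFun (hact i (at0 (nn i) (d i).K (gam (d i) (c1 i)) (gam (d i) (c2 i))
      (xg _ _, 1))) (q.d : ZMod (nn i))
    unfold nactF at0 at h1
    rw [sub_self, Pi.mulSingle_eq_same, Pi.mulSingle_eq_of_ne hne] at h1
    have h2 := congrArg Hgp.x (congrArg Prod.fst h1)
    have h3 : us (dv (nn i) q (q.d : ZMod (nn i))).1 * 1 = 0 := h2
    rw [mul_one] at h3
    exact us_ne _ h3
  have hd0 : q.d = 0 := by
    obtain ⟨i, hi⟩ := hlarge q.d.natAbs
    have h1 := hd i
    rw [ZMod.intCast_zmod_eq_zero_iff_dvd] at h1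
    refine Int.eq_zero_of_abs_lt_dvd h1 ?_
    rw [Int.abs_eq_natAbs]
    exact_mod_cast hi
  -- the values of `dv`
  have hdv : ∀ i (x : ZMod (nn i)), dv (nn i) q x = 0 := by
    intro i x
    refine uact_one (K := (d i).K) (γ₁ := gam (d i) (c1 i)) (γ₂ := gam (d i) (c2 i)) _
      (two_ne (d i)) fun v => ?_
    have h1 := congrFun (hact i (fun _ => v)) x
    exact h1
  obtain ⟨B, hB⟩ : ∃ B : ℕ, ∀ k ∈ q.h.support, k.natAbs ≤ B :=
    ⟨q.h.support.sup Int.natAbs, fun k hk => Finset.le_sup (f := Int.natAbs) hk⟩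
  obtain ⟨i, hi⟩ := hlarge (2 * B + 1)
  have hfold : ∀ k : ℤ, k.natAbs ≤ B + 1 → fold (nn i) q.h (k : ZMod (nn i)) = q.h k := by
    intro k hk
    refine fold_eq q.h k fun j hj hjk => cast_inj hjk ?_
    have := hB j hj
    rw [abs_lt]
    omega
  have he2 : q.e.2 = 0 := by
    have h1 := congrArg Prod.snd (hdv i 0)
    have h2 : q.e.2 + 0 = 0 := h1
    rwa [add_zero] at h2
  have he1 : ∀ k : ℤ, k.natAbs ≤ B + 1 → q.e.1 + q.h k = 0 := by
    intro k hk
    have h1 := congrArg Prod.fst (hdv i (k : ZMod (nn i)))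
    have h2 : q.e.1 + fold (nn i) q.h (k : ZMod (nn i)) = 0 := h1
    rwa [hfold k hk] at h2
  have hout : q.h ((B : ℤ) + 1) = 0 := by
    rw [← Finsupp.notMem_support_iff]
    intro hmem
    have := hB _ hmem
    omega
  have he0 : q.e.1 = 0 := by
    have h1 := he1 ((B : ℤ) + 1) (by omega)
    rwa [hout, add_zero] at h1
  refine Q0.ext ?_ (Prod.ext he0 he2) hd0
  ext k
  by_cases hk : k ∈ q.h.support
  · have h1 := he1 k ((hB k hk).trans (Nat.le_succ _))
    rw [he0, zero_add] at h1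
    rw [h1]
    rfl
  · rw [Finsupp.notMem_support_iff.1 hk]
    rfl

end Pool.Agent.H903.ECfaith
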