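import Pool.Agent.H646.EC.Stm

/-!
# Back-and-forth for the groups `G`
-/

set_option autoImplicit false

namespace Pool.Agent.H828.EC_fo

open Pool.Agent.H646.EC

section bf

variable {ι α β : Type} {R : ι → α → α → α → Prop} {S : ι → β → β → β → Prop}

theorem bf_sub : ∀ (k : ℕ) {P Q : Set (α × β)}, Q ⊆ P → BF R S k P → BF R S k Q := by
  intro k
  induction k with
  | zero =>
    intro P Q h hP
    exact ⟨fun p hp q hq => hP.1 p (h hp) q (h hq),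
      fun s p hp q hq r hr => hP.2 s p (h hp) q (h hq) r (h hr)⟩
  | succ k ih =>
    intro P Q h hP
    refine ⟨fun x => ?_, fun y => ?_⟩
    · obtain ⟨y, hy⟩ := hP.1 x
      exact ⟨y, ih (Set.insert_subset_insert h) hy⟩
    · obtain ⟨x, hx⟩ := hP.2 y
      exact ⟨x, ih (Set.insert_subset_insert h) hx⟩

theorem bf_pred [Nonempty α] : ∀ (k : ℕ) {P : Set (α × β)}, BF R S (k + 1) P → BF R S k P := by
  intro k
  induction k with
  | zero =>
    intro P hP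
    obtain ⟨x⟩ := ‹Nonempty α›
    obtain ⟨y, hy⟩ := hP.1 x
    exact bf_sub 0 (Set.subset_insert _ _) hy
  | succ k ih =>
    intro P hP
    refine ⟨fun x => ?_, fun y => ?_⟩
    · obtain ⟨y, hy⟩ := hP.1 x
      exact ⟨y, ih hy⟩
    · obtain ⟨x, hx⟩ := hP.2 y
      exact ⟨x, ih hx⟩

theorem bf_le [Nonempty α] {k l : ℕ} (h : l ≤ k) {P : Set (α × β)} (hP : BF R S k P) :
    BF R S l P := by
  induction k, h using Nat.le_induction with
  | base => exact hP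
  | succ k _ ih => exact ih (bf_pred k hP)

end bf

section words

variable (B : Base) (g1 g2 : ∀ i, (B.K i)ˣ)

/-- left part -/
noncomputable def Lf (i : ℕ) (v : F7) : NN (B.n i) (B.K i) (g1 i) (g2 i) := (Bpi B g1 g2 i v).left

theorem mk_eq (v w : F7) : ((v : BG B g1 g2) = (w : BG B g1 g2)) ↔
    Phi v = Phi w ∧ ∀ i, Lf B g1 g2 i v = Lf B g1 g2 i w := by
  rw [QuotientGroup.eq, mem_BN]
  have h : ∀ i, Bpi B g1 g2 i (v⁻¹ * w) = 1 ↔
      Lf B g1 g2 i v = Lf B g1 g2 i w ∧ Phi v = Phi w := by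
    intro i
    rw [map_mul, map_inv, inv_mul_eq_one, SemidirectProduct.ext_iff]
    rw [show (Bpi B g1 g2 i v).right = Phi v from pi_right _ _ _ _ v,
      show (Bpi B g1 g2 i w).right = Phi w from pi_right _ _ _ _ w]
    rfl
  simp only [h]
  constructor
  · intro h'
    exact ⟨(h' 0).2, fun i => (h' i).1⟩
  · rintro ⟨h1, h2⟩ i
    exact ⟨h2 i, h1⟩

theorem Lf_mul (i : ℕ) (v w : F7) :
    Lf B g1 g2 i (v * w) = Lf B g1 g2 i v * nactF (Phi v) (Lf B g1 g2 i w) := by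
  unfold Lf
  rw [map_mul, SemidirectProduct.mul_left]
  have h : (Bpi B g1 g2 i v).right = Phi v := pi_right _ _ _ _ v
  rw [h]
  rfl

theorem sur (hL : HasL B g1 g2) (v : F7) (y : ∀ i, NN (B.n i) (B.K i) (g1 i) (g2 i)) (N : ℕ) :
    ∃ v' : F7, Phi v' = Phi v ∧ (∀ i < N, Lf B g1 g2 i v' = y i) ∧
      ∀ i, N ≤ i → Lf B g1 g2 i v' = Lf B g1 g2 i v := by
  induction N with
  | zero => exact ⟨v, rfl, fun i hi => absurd hi (Nat.not_lt_zero i), fun _ _ => rfl⟩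
  | succ N ih =>
    obtain ⟨v', h1, h2, h3⟩ := ih
    obtain ⟨a, ha, ha'⟩ := hL N (y N * (Lf B g1 g2 N v')⁻¹)
    have hPhi : Phi a = 1 := by
      have h : (Bpi B g1 g2 N a).right = Phi a := pi_right _ _ _ _ a
      rw [← h, ha]
      rfl
    have hk : ∀ k, k ≠ N → Lf B g1 g2 k (a * v') = Lf B g1 g2 k v' := by
      intro k hk
      unfold Lf
      rw [map_mul, ha' k hk, one_mul]
    refine ⟨a * v', ?_, ?_, ?_⟩
    · rw [map_mul, hPhi, one_mul, h1]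
    · intro i hi
      by_cases hiN : i = N
      · subst hiN
        rw [Lf_mul, hPhi, nactF_one]
        have h4 : Lf B g1 g2 i a = y i * (Lf B g1 g2 i v')⁻¹ := by
          unfold Lf
          rw [ha]
          rfl
        rw [h4, inv_mul_cancel_right]
      · rw [hk i hiN]
        exact h2 i (by omega)
    · intro i hi
      rw [hk i (by omega)]
      exact h3 i (by omega)

end words

section game

variable (B : Base) (g1 g2 g1' g2' : ∀ i, (B.K i)ˣ)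

/-- the position in the block `i` -/
def Pos (i : ℕ) (W : Set (F7 × F7)) :
    Set (NN (B.n i) (B.K i) (g1 i) (g2 i) × NN (B.n i) (B.K i) (g1' i) (g2' i)) :=
  {p | ∃ w ∈ W, p = (Lf B g1 g2 i w.1, Lf B g1' g2' i w.2)}

/-- good positions -/
structure Good (k : ℕ) (W : Set (F7 × F7)) : Prop where
  ph : ∀ w ∈ W, Phi w.1 = Phi w.2
  bf : ∀ i, BF (RN (B.n i) (B.K i) (g1 i) (g2 i)) (RN (B.n i) (B.K i) (g1' i) (g2' i)) k
    (Pos B g1 g2 g1' g2' i W)
  co : ∃ (N : ℕ) (U : Finset F7), ∀ w ∈ W, ∃ u ∈ U, ∀ i, N ≤ i →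
    Lf B g1 g2 i w.1 = Lf B g1 g2 i u ∧ Lf B g1' g2' i w.2 = Lf B g1' g2' i u

variable {B g1 g2 g1' g2'}

theorem Pos_insert (i : ℕ) (W : Set (F7 × F7)) (w : F7 × F7) :
    Pos B g1 g2 g1' g2' i (insert w W) =
      insert (Lf B g1 g2 i w.1, Lf B g1' g2' i w.2) (Pos B g1 g2 g1' g2' i W) := by
  ext p
  simp [Pos]

/-- words are good answers in almost all blocks -/
theorem wd' (hwd : S_wd)
    (hm : ∀ i, BF (RN (B.n i) (B.K i) (g1 i) (g2 i)) (RN (B.n i) (B.K i) (g1' i) (g2' i)) i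
      (marks (B.n i) (B.K i) (g1 i) (g2 i) (g1' i) (g2' i))) (U : Finset F7) (k : ℕ) :
    ∃ N, ∀ i, N ≤ i →
      BF (RN (B.n i) (B.K i) (g1 i) (g2 i)) (RN (B.n i) (B.K i) (g1' i) (g2' i)) k
        {p | ∃ u ∈ U, p = (Lf B g1 g2 i u, Lf B g1' g2' i u)} := by
  obtain ⟨k0, hk0⟩ := hwd U k
  exact ⟨k0, fun i hi => hk0 _ _ _ _ _ _ (bf_le hi (hm i))⟩

/-- the common part of the two steps -/
theorem step (hwd : S_wd)
    (hm : ∀ i, BF (RN (B.n i) (B.K i) (g1 i) (g2 i)) (RN (B.n i) (B.K i) (g1' i) (g2' i)) i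
      (marks (B.n i) (B.K i) (g1 i) (g2 i) (g1' i) (g2' i))) {k : ℕ} {W : Set (F7 × F7)}
    (hW : Good B g1 g2 g1' g2' (k + 1) W) (v : F7) :
    ∃ N, ∀ w : F7 × F7, Phi w.1 = Phi w.2 →
      (∀ i, i < N → BF (RN (B.n i) (B.K i) (g1 i) (g2 i)) (RN (B.n i) (B.K i) (g1' i) (g2' i)) k
        (insert (Lf B g1 g2 i w.1, Lf B g1' g2' i w.2) (Pos B g1 g2 g1' g2' i W))) →
      (∀ i, N ≤ i → Lf B g1 g2 i w.1 = Lf B g1 g2 i v ∧ Lf B g1' g2' i w.2 = Lf B g1' g2' i v) →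
      Good B g1 g2 g1' g2' k (insert w W) := by
  classical
  obtain ⟨N1, U, hU⟩ := hW.co
  obtain ⟨N2, hN2⟩ := wd' hwd hm (insert v U) k
  refine ⟨max N1 N2, fun w hw h1 h2 => ⟨?_, ?_, ?_⟩⟩
  · intro x hx
    rcases Set.mem_insert_iff.1 hx with rfl | hx
    · exact hw
    · exact hW.ph x hx
  · intro i
    rw [Pos_insert]
    by_cases hi : i < max N1 N2
    · exact h1 i hi
    · have hi' : max N1 N2 ≤ i := not_lt.1 hi
      refine bf_sub k ?_ (hN2 i (le_trans (le_max_right _ _) hi'))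
      rw [Set.insert_subset_iff]
      constructor
      · refine ⟨v, Finset.mem_insert_self _ _, ?_⟩
        rw [(h2 i hi').1, (h2 i hi').2]
      · rintro p ⟨x, hx, rfl⟩
        obtain ⟨u, hu, hu'⟩ := hU x hx
        obtain ⟨e1, e2⟩ := hu' i (le_trans (le_max_left _ _) hi')
        refine ⟨u, Finset.mem_insert_of_mem hu, ?_⟩
        rw [e1, e2]
  · refine ⟨max N1 N2, insert v U, ?_⟩
    intro x hx
    rcases Set.mem_insert_iff.1 hx with rfl | hx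
    · exact ⟨v, Finset.mem_insert_self _ _, h2⟩
    · obtain ⟨u, hu, hu'⟩ := hU x hx
      exact ⟨u, Finset.mem_insert_of_mem hu, fun i hi => hu' i (le_trans (le_max_left _ _) hi)⟩

theorem forth (hwd : S_wd) (hL' : HasL B g1' g2')
    (hm : ∀ i, BF (RN (B.n i) (B.K i) (g1 i) (g2 i)) (RN (B.n i) (B.K i) (g1' i) (g2' i)) i
      (marks (B.n i) (B.K i) (g1 i) (g2 i) (g1' i) (g2' i))) {k : ℕ} {W : Set (F7 × F7)}
    (hW : Good B g1 g2 g1' g2' (k + 1) W) (v : F7) :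
    ∃ v', Good B g1 g2 g1' g2' k (insert (v, v') W) := by
  obtain ⟨N, hN⟩ := step hwd hm hW v
  have hy : ∀ i, ∃ y, BF (RN (B.n i) (B.K i) (g1 i) (g2 i)) (RN (B.n i) (B.K i) (g1' i) (g2' i)) k
      (insert (Lf B g1 g2 i v, y) (Pos B g1 g2 g1' g2' i W)) := fun i => (hW.bf i).1 _
  choose y hy using hy
  obtain ⟨v', h1, h2, h3⟩ := sur B g1' g2' hL' v y N
  refine ⟨v', hN (v, v') h1.symm ?_ ?_⟩
  · intro i hi
    change BF _ _ k (insert (Lf B g1 g2 i v, Lf B g1' g2' i v') _)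
    rw [h2 i hi]
    exact hy i
  · intro i hi
    exact ⟨rfl, h3 i hi⟩

theorem back (hwd : S_wd) (hL : HasL B g1 g2)
    (hm : ∀ i, BF (RN (B.n i) (B.K i) (g1 i) (g2 i)) (RN (B.n i) (B.K i) (g1' i) (g2' i)) i
      (marks (B.n i) (B.K i) (g1 i) (g2 i) (g1' i) (g2' i))) {k : ℕ} {W : Set (F7 × F7)}
    (hW : Good B g1 g2 g1' g2' (k + 1) W) (v' : F7) :
    ∃ v, Good B g1 g2 g1' g2' k (insert (v, v') W) := by
  obtain ⟨N, hN⟩ := step hwd hm hW v'
  have hx : ∀ i, ∃ x, BF (RN (B.n i) (B.K i) (g1 i) (g2 i)) (RN (B.n i) (B.K i) (g1' i) (g2' i)) k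
      (insert (x, Lf B g1' g2' i v') (Pos B g1 g2 g1' g2' i W)) := fun i => (hW.bf i).2 _
  choose x hx using hx
  obtain ⟨v, h1, h2, h3⟩ := sur B g1 g2 hL v' x N
  refine ⟨v, hN (v, v') h1 ?_ ?_⟩
  · intro i hi
    change BF _ _ k (insert (Lf B g1 g2 i v, Lf B g1' g2' i v') _)
    rw [h2 i hi]
    exact hx i
  · intro i hi
    exact ⟨h3 i hi, rfl⟩

/-- the position in the groups -/
def Img (B : Base) (g1 g2 g1' g2' : ∀ i, (B.K i)ˣ) (W : Set (F7 × F7)) :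
    Set (BG B g1 g2 × BG B g1' g2') :=
  {p | ∃ w ∈ W, p = ((w.1 : BG B g1 g2), (w.2 : BG B g1' g2'))}

theorem Img_insert (W : Set (F7 × F7)) (w : F7 × F7) :
    Img B g1 g2 g1' g2' (insert w W) =
      insert ((w.1 : BG B g1 g2), (w.2 : BG B g1' g2')) (Img B g1 g2 g1' g2' W) := by
  ext p
  simp [Img]

theorem rank0 {W : Set (F7 × F7)} (hW : Good B g1 g2 g1' g2' 0 W) :
    BF (RG (BG B g1 g2)) (RG (BG B g1' g2')) 0 (Img B g1 g2 g1' g2' W) := by
  constructor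
  · rintro p ⟨a, ha, rfl⟩ q ⟨b, hb, rfl⟩
    change ((a.1 : BG B g1 g2) = (b.1 : BG B g1 g2)) ↔ ((a.2 : BG B g1' g2') = (b.2 : BG B g1' g2'))
    rw [mk_eq, mk_eq, hW.ph a ha, hW.ph b hb]
    refine and_congr_right fun _ => forall_congr' fun i => ?_
    exact (hW.bf i).1 (Lf B g1 g2 i a.1, Lf B g1' g2' i a.2) ⟨a, ha, rfl⟩
      (Lf B g1 g2 i b.1, Lf B g1' g2' i b.2) ⟨b, hb, rfl⟩
  · rintro _ p ⟨a, ha, rfl⟩ q ⟨b, hb, rfl⟩ r ⟨c, hc, rfl⟩
    change ((a.1 : BG B g1 g2) * (b.1 : BG B g1 g2) = (c.1 : BG B g1 g2)) ↔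
      ((a.2 : BG B g1' g2') * (b.2 : BG B g1' g2') = (c.2 : BG B g1' g2'))
    rw [← QuotientGroup.mk_mul, ← QuotientGroup.mk_mul, mk_eq, mk_eq, map_mul, map_mul,
      hW.ph a ha, hW.ph b hb, hW.ph c hc]
    refine and_congr_right fun _ => forall_congr' fun i => ?_
    rw [Lf_mul, Lf_mul, hW.ph a ha]
    exact (hW.bf i).2 (Phi a.2) (Lf B g1 g2 i a.1, Lf B g1' g2' i a.2) ⟨a, ha, rfl⟩
      (Lf B g1 g2 i b.1, Lf B g1' g2' i b.2) ⟨b, hb, rfl⟩
      (Lf B g1 g2 i c.1, Lf B g1' g2' i c.2) ⟨c, hc, rfl⟩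

theorem main (hwd : S_wd) (hL : HasL B g1 g2) (hL' : HasL B g1' g2')
    (hm : ∀ i, BF (RN (B.n i) (B.K i) (g1 i) (g2 i)) (RN (B.n i) (B.K i) (g1' i) (g2' i)) i
      (marks (B.n i) (B.K i) (g1 i) (g2 i) (g1' i) (g2' i))) (k : ℕ) :
    ∀ W : Set (F7 × F7), Good B g1 g2 g1' g2' k W →
      BF (RG (BG B g1 g2)) (RG (BG B g1' g2')) k (Img B g1 g2 g1' g2' W) := by
  induction k with
  | zero => exact fun W hW => rank0 hW
  | succ k ih =>
    intro W hW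
    refine ⟨fun x => ?_, fun y => ?_⟩
    · obtain ⟨v, rfl⟩ := QuotientGroup.mk_surjective x
      obtain ⟨v', hv'⟩ := forth hwd hL' hm hW v
      refine ⟨(v' : BG B g1' g2'), ?_⟩
      have h := ih _ hv'
      rw [Img_insert] at h
      exact h
    · obtain ⟨v', rfl⟩ := QuotientGroup.mk_surjective y
      obtain ⟨v, hv⟩ := back hwd hL hm hW v'
      refine ⟨(v : BG B g1 g2), ?_⟩
      have h := ih _ hv
      rw [Img_insert] at h
      exact h

end game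

theorem holds (h : S_wd) : S_fo := by
  intro B g1 g2 g1' g2' hL hL' hbf hm k
  have h0 : Good B g1 g2 g1' g2' k ∅ := by
    refine ⟨fun w hw => absurd hw (Set.notMem_empty w), fun i => ?_, 0, ∅,
      fun w hw => absurd hw (Set.notMem_empty w)⟩
    refine bf_sub k ?_ (hbf i k)
    rintro p ⟨w, hw, _⟩
    exact absurd hw (Set.notMem_empty w)
  refine bf_sub k (Set.empty_subset _) (main h hL hL' hm k ∅ h0)

end Pool.Agent.H828.EC_fo
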