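import Pool.Agent.H646.EC.Stm

/-!
# Consequences of generation for the second normal form (project EC of helper646)
-/

set_option autoImplicit false

namespace Pool.Agent.H127.ECgen

open Pool.Agent.H646.EC

section blk

variable {n : ℕ} {K : Type} [CommRing K] {γ₁ γ₂ : Kˣ}

/-- The elements whose left part has the property at all coordinates. -/
def HP (P : U K γ₁ γ₂ → Prop) (h1 : P 1) (hmul : ∀ u v, P u → P v → P (u * v))
    (hinv : ∀ u, P u → P u⁻¹) (hact : ∀ (d : D) u, P u → P (uact d u)) :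
    Subgroup (Blk n K γ₁ γ₂) where
  carrier := {g | ∀ x, P (g.left x)}
  one_mem' := fun _ => h1
  mul_mem' := by
    intro g g' hg hg' x
    exact hmul _ _ (hg x) (hact _ _ (hg' _))
  inv_mem' := by
    intro g hg x
    rw [SemidirectProduct.inv_left]
    exact hact _ _ (hinv _ (hg _))

theorem conj_sub {c : Fin 7 → Blk n K γ₁ γ₂} {h : NN n K γ₁ γ₂} (hG : Gen c)
    (H : Subgroup (Blk n K γ₁ γ₂))
    (hc : ∀ j, (SemidirectProduct.inl h)⁻¹ * c j * SemidirectProduct.inl h ∈ H)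
    (u : NN n K γ₁ γ₂) : (SemidirectProduct.inl u : Blk n K γ₁ γ₂) ∈ H := by
  have h1 : (FreeGroup.lift c).range ≤
      H.comap (MulAut.conj (SemidirectProduct.inl h : Blk n K γ₁ γ₂)⁻¹).toMonoidHom := by
    rw [FreeGroup.range_lift_eq_closure, Subgroup.closure_le]
    rintro _ ⟨j, rfl⟩
    show _ * _ * _ ∈ H
    have := hc j
    rwa [inv_inv]
  have h2 := h1 (hG (h * u * h⁻¹))
  have h3 : (SemidirectProduct.inl h : Blk n K γ₁ γ₂)⁻¹ * SemidirectProduct.inl (h * u * h⁻¹) *
      (SemidirectProduct.inl h : Blk n K γ₁ γ₂)⁻¹⁻¹ ∈ H := h2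
  have h4 : (SemidirectProduct.inl h : Blk n K γ₁ γ₂)⁻¹ * SemidirectProduct.inl (h * u * h⁻¹) *
      (SemidirectProduct.inl h : Blk n K γ₁ γ₂)⁻¹⁻¹ = SemidirectProduct.inl u := by
    rw [map_mul, map_mul, map_inv]
    group
  rwa [h4] at h3

theorem key {c : Fin 7 → Blk n K γ₁ γ₂} {h : NN n K γ₁ γ₂} {x0 : ZMod n} {ε : ZMod 6}
    {m1 m2 : O × O} {w : (ZMod 6 → K) × (ZMod 6 → K)} (hG : Gen c)
    (hN : NF2 c h x0 ε m1 m2 w) (P : U K γ₁ γ₂ → Prop) (h1 : P 1)
    (hmul : ∀ u v, P u → P v → P (u * v)) (hinv : ∀ u, P u → P u⁻¹)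
    (hact : ∀ (d : D) u, P u → P (uact d u)) (p1 : P (um m1)) (p2 : P (um m2)) (p3 : P (uw w))
    (u : U K γ₁ γ₂) : P u := by
  have hs : ∀ v : U K γ₁ γ₂, P v → ∀ x, P ((Pi.mulSingle x0 v : NN n K γ₁ γ₂) x) := by
    intro v hv x
    by_cases hx : x = x0
    · subst hx
      rw [Pi.mulSingle_eq_same]
      exact hv
    · rw [Pi.mulSingle_eq_of_ne hx]
      exact h1
  have hcan : ∀ g : Blk n K γ₁ γ₂, (SemidirectProduct.inl h : Blk n K γ₁ γ₂)⁻¹ *
      (SemidirectProduct.inl h * g * (SemidirectProduct.inl h)⁻¹) * SemidirectProduct.inl h =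
      g := by
    intro g
    group
  have hc : ∀ j, (SemidirectProduct.inl h : Blk n K γ₁ γ₂)⁻¹ * c j * SemidirectProduct.inl h ∈
      HP (n := n) P h1 hmul hinv hact := by
    intro j
    by_cases hj : 3 ≤ j.val
    · rw [hN.cq j hj, hcan]
      intro x
      rw [SemidirectProduct.left_inr]
      exact h1
    · have h3 : j = 0 ∨ j = 1 ∨ j = 2 := by
        revert j
        decide
      rcases h3 with rfl | rfl | rfl
      · rw [hN.c0, hcan]
        intro x
        rw [SemidirectProduct.left_inl]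
        exact hs _ p1 x
      · rw [hN.c1, hcan]
        intro x
        rw [SemidirectProduct.left_inl]
        exact hs _ p2 x
      · rw [hN.c2, hcan]
        intro x
        rw [SemidirectProduct.left_inl]
        exact hs _ p3 x
  have h4 := conj_sub hG _ hc (fun _ => u)
  have h5 : P ((SemidirectProduct.inl (fun _ => u) : Blk n K γ₁ γ₂).left x0) := h4 x0
  rw [SemidirectProduct.left_inl] at h5
  exact h5

end blk

theorem holds : Pool.Agent.H646.EC.S_gen := by
  intro d cc n _ c h x0 ε m1 m2 w hG hN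
  refine ⟨?_, ?_, ?_⟩
  · intro v
    have := key hG hN (fun u => ∃ a b : O,
      (u.1.x, u.2.x) = (a * m1.1 + b * m2.1, a * m1.2 + b * m2.2)) ⟨0, 0, by simp⟩ ?_ ?_ ?_
      ⟨1, 0, by simp [um]⟩ ⟨0, 1, by simp [um]⟩ ⟨0, 0, by simp [uw]⟩ (um v)
    · exact this
    · rintro u v ⟨a, b, h1⟩ ⟨a', b', h2⟩
      rw [Prod.mk.injEq] at h1 h2
      refine ⟨a + a', b + b', ?_⟩
      rw [Prod.mk.injEq]
      refine ⟨?_, ?_⟩
      · show u.1.x + v.1.x = _
        rw [h1.1, h2.1]
        ring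
      · show u.2.x + v.2.x = _
        rw [h1.2, h2.2]
        ring
    · rintro u ⟨a, b, h1⟩
      rw [Prod.mk.injEq] at h1
      refine ⟨-a, -b, ?_⟩
      rw [Prod.mk.injEq]
      refine ⟨?_, ?_⟩
      · show -u.1.x = _
        rw [h1.1]
        ring
      · show -u.2.x = _
        rw [h1.2]
        ring
    · rintro e u ⟨a, b, h1⟩
      rw [Prod.mk.injEq] at h1
      refine ⟨us e.1 * a, us e.1 * b, ?_⟩
      rw [Prod.mk.injEq]
      refine ⟨?_, ?_⟩
      · show us e.1 * u.1.x = _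
        rw [h1.1]
        ring
      · show us e.1 * u.2.x = _
        rw [h1.2]
        ring
  · intro a
    by_contra hc
    push Not at hc
    have h0 := key hG hN (fun u => ∀ l, u.1.f l a = 0) (fun _ => rfl) ?_ ?_ ?_
      (fun _ => rfl) (fun _ => rfl) hc (uw (fun _ => 1, fun _ => 1)) 0
    · have h1 : (1 : ZMod (d.r a)) = 0 := h0
      have := Fact.mk (d.rp a)
      exact one_ne_zero h1
    · intro u v hu hv l
      show (u.1.f l + ((gam d cc ^ (ph l u.1.x) : (d.K)ˣ) : d.K) * v.1.f l) a = 0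
      rw [Pi.add_apply, Pi.mul_apply, hu, hv]
      simp
    · intro u hu l
      show (-(((gam d cc ^ (-ph l u.1.x) : (d.K)ˣ) : d.K) * u.1.f l)) a = 0
      rw [Pi.neg_apply, Pi.mul_apply, hu]
      simp
    · intro e u hu l
      show ((sn d.K e.2 : d.K) * u.1.f (l + e.1)) a = 0
      rw [Pi.mul_apply, hu]
      simp
  · intro a
    by_contra hc
    push Not at hc
    have h0 := key hG hN (fun u => ∀ l, u.2.f l a = 0) (fun _ => rfl) ?_ ?_ ?_
      (fun _ => rfl) (fun _ => rfl) hc (uw (fun _ => 1, fun _ => 1)) 0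
    · have h1 : (1 : ZMod (d.r a)) = 0 := h0
      have := Fact.mk (d.rp a)
      exact one_ne_zero h1
    · intro u v hu hv l
      show (u.2.f l + ((gam d cc ^ (ph l u.2.x) : (d.K)ˣ) : d.K) * v.2.f l) a = 0
      rw [Pi.add_apply, Pi.mul_apply, hu, hv]
      simp
    · intro u hu l
      show (-(((gam d cc ^ (-ph l u.2.x) : (d.K)ˣ) : d.K) * u.2.f l)) a = 0
      rw [Pi.neg_apply, Pi.mul_apply, hu]
      simp
    · intro e u hu l
      show ((sn d.K e.2 : d.K) * u.2.f (l + e.1)) a = 0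
      rw [Pi.mul_apply, hu]
      simp

end Pool.Agent.H127.ECgen
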