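import Pool.Agent.H646.EC.Stm

set_option autoImplicit false

/-!
# S_lab0: labels of a marking in `Q₀`
-/

namespace Pool.Agent.H772.EClab0

open Pool.Agent.H646.EC

theorem d_pow (a : Q0) (n : ℕ) : (a ^ n).d = n * a.d := by
  induction n with
  | zero => simp
  | succ n ih =>
    rw [pow_succ, Q0.mul_d, ih]
    push_cast
    ring

theorem e_pow (a : Q0) (n : ℕ) : (a ^ n).e = n • a.e := by
  induction n with
  | zero => simp
  | succ n ih => rw [pow_succ, Q0.mul_e, ih, succ_nsmul]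

theorem h_pow (a : Q0) (ha : a.d = 0) (n : ℕ) : (a ^ n).h = n • a.h := by
  induction n with
  | zero => simp
  | succ n ih => rw [pow_succ, Q0.mul_h, ih, succ_nsmul, d_pow, ha, mul_zero, sh_zero]

theorem comm_d0 (a b : Q0) (ha : a.d = 0) (hb : b.d = 0) : a * b = b * a := by
  refine Q0.ext ?_ (add_comm _ _) (add_comm _ _)
  rw [Q0.mul_h, Q0.mul_h, ha, hb, sh_zero, sh_zero, add_comm]

/-- an element commuting with an element of degree `±1` and having degree `0` has `h = 0` -/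
theorem h_zero (a t : Q0) (ha : a.d = 0) (ht : t.d = 1 ∨ t.d = -1) (hc : a * t = t * a) :
    a.h = 0 := by
  have h1 := congrArg Q0.h hc
  rw [Q0.mul_h, Q0.mul_h, ha, sh_zero, add_comm] at h1
  have h2 : a.h = sh t.d a.h := add_left_cancel h1
  have h3 : ∀ k, a.h k = a.h (k - t.d) := by
    intro k
    rw [← sh_apply, ← h2]
  have h4 : ∀ k, a.h k = a.h (k + 1) := by
    intro k
    rcases ht with ht | ht
    · have := h3 (k + 1)
      rw [ht, add_sub_cancel_right] at this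
      exact this.symm
    · have := h3 k
      rw [ht, sub_neg_eq_add] at this
      exact this
  have h5 : ∀ k, a.h k = a.h 0 := by
    intro k
    induction k using Int.induction_on with
    | zero => rfl
    | succ n ih => rw [← h4, ih]
    | pred n ih =>
      rw [← ih, h4 (-(n : ℤ) - 1), sub_add_cancel]
  obtain ⟨k, hk⟩ := Infinite.exists_notMem_finset a.h.support
  rw [Finsupp.notMem_support_iff] at hk
  ext j
  rw [h5 j, ← h5 k, hk, Finsupp.zero_apply]

/-- the linear combination of the homomorphisms from `Q₀` -/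
noncomputable def F {p : ℕ} (r : ZMod 6 →+* ZMod p) (s : ZMod 2 →+ ZMod p) (α β δ γ : ZMod p)
    (x : Q0) : ZMod p :=
  α * r (fold 1 x.h 0) + β * r x.e.1 + δ * s x.e.2 + γ * (x.d : ZMod p)

theorem F_one {p : ℕ} (r : ZMod 6 →+* ZMod p) (s : ZMod 2 →+ ZMod p) (α β δ γ : ZMod p) :
    F r s α β δ γ 1 = 0 := by
  simp [F, fold_zero]

theorem F_mul {p : ℕ} (r : ZMod 6 →+* ZMod p) (s : ZMod 2 →+ ZMod p) (α β δ γ : ZMod p)
    (x y : Q0) : F r s α β δ γ (x * y) = F r s α β δ γ x + F r s α β δ γ y := by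
  have h1 : fold 1 (sh x.d y.h) 0 = fold 1 y.h 0 := by
    rw [fold_sh, show (0 - (x.d : ZMod 1)) = 0 from Subsingleton.elim _ _]
  simp only [F, Q0.mul_h, Q0.mul_e, Q0.mul_d, fold_add, h1, map_add, Prod.fst_add, Prod.snd_add,
    Int.cast_add]
  ring

theorem F_vanish {p : ℕ} (r : ZMod 6 →+* ZMod p) (s : ZMod 2 →+ ZMod p) (α β δ γ : ZMod p)
    (q : Fin 7 → Q0) (hq : Subgroup.closure (Set.range q) = ⊤)
    (h : ∀ j, F r s α β δ γ (q j) = 0) (x : Q0) : F r s α β δ γ x = 0 := by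
  have hx : x ∈ Subgroup.closure (Set.range q) := by
    rw [hq]
    exact Subgroup.mem_top x
  induction hx using Subgroup.closure_induction with
  | mem y hy =>
    obtain ⟨j, rfl⟩ := hy
    exact h j
  | one => exact F_one r s α β δ γ
  | mul y z _ _ hy hz => rw [F_mul, hy, hz, add_zero]
  | inv y _ hy =>
    have h1 := F_mul r s α β δ γ y y⁻¹
    rw [mul_inv_cancel, F_one, hy, zero_add] at h1
    exact h1.symm

theorem d_dvd (q : Fin 7 → Q0) (hq : Subgroup.closure (Set.range q) = ⊤) (n : ℤ)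
    (h : ∀ j, n ∣ (q j).d) (x : Q0) : n ∣ x.d := by
  have hx : x ∈ Subgroup.closure (Set.range q) := by
    rw [hq]
    exact Subgroup.mem_top x
  induction hx using Subgroup.closure_induction with
  | mem y hy =>
    obtain ⟨j, rfl⟩ := hy
    exact h j
  | one => exact dvd_zero n
  | mul y z _ _ hy hz => exact dvd_add hy hz
  | inv y _ hy => exact (dvd_neg (a := n)).2 hy

theorem forall_fin7 {P : Fin 7 → Prop} (h0 : P 0) (h1 : P 1) (h2 : P 2) (h3 : P 3) (h4 : P 4)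
    (h5 : P 5) (h6 : P 6) : ∀ j, P j := by
  intro j
  fin_cases j
  · exact h0
  · exact h1
  · exact h2
  · exact h3
  · exact h4
  · exact h5
  · exact h6

theorem lin3 : ∀ a b : ZMod 3, ∃ α β : ZMod 3, (α ≠ 0 ∨ β ≠ 0) ∧ α * a + β * b = 0 := by decide

theorem lin2a : ∀ u4 v4 u5 v5 : ZMod 2, u4 * v5 - v4 * u5 = 1 ∨
    ∃ β δ : ZMod 2, (β ≠ 0 ∨ δ ≠ 0) ∧ β * u4 + δ * v4 = 0 ∧ β * u5 + δ * v5 = 0 := by decide

theorem lin2b : ∀ a b : ZMod 2, ∃ α β : ZMod 2, (α ≠ 0 ∨ β ≠ 0) ∧ α * a + β * b = 0 := by decide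

theorem lin2 (u4 v4 u5 v5 : ZMod 2) (h : u4 * v5 - v4 * u5 ≠ 1) (a b c : ZMod 2) :
    ∃ α β δ : ZMod 2, (α ≠ 0 ∨ β ≠ 0 ∨ δ ≠ 0) ∧ β * u4 + δ * v4 = 0 ∧ β * u5 + δ * v5 = 0 ∧
      α * a + β * b + δ * c = 0 := by
  obtain ⟨β, δ, h1, h2, h3⟩ := (lin2a u4 v4 u5 v5).resolve_left h
  obtain ⟨α, l, h4, h5⟩ := lin2b a (β * b + δ * c)
  refine ⟨α, l * β, l * δ, ?_, ?_, ?_, ?_⟩
  · rcases h4 with h4 | h4
    · exact Or.inl h4
    · rcases h1 with h1 | h1
      · exact Or.inr (Or.inl (mul_ne_zero h4 h1))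
      · exact Or.inr (Or.inr (mul_ne_zero h4 h1))
  · rw [mul_assoc, mul_assoc, ← mul_add, h2, mul_zero]
  · rw [mul_assoc, mul_assoc, ← mul_add, h3, mul_zero]
  · rw [← h5]
    ring

theorem fold_single : fold 1 (Finsupp.single 0 1) 0 = 1 := by
  rw [fold, Finsupp.sum_single_index]
  · simp
  · simp

theorem rel_of_mem {q : Fin 7 → Q0} (hS : ∀ v ∈ Sig, FreeGroup.lift q v = 1) :
    q 4 ^ 6 = 1 ∧ q 5 ^ 2 = 1 ∧ q 3 ^ 6 = 1 ∧ q 4 * q 6 * (q 4)⁻¹ * (q 6)⁻¹ = 1 ∧
    q 5 * q 6 * (q 5)⁻¹ * (q 6)⁻¹ = 1 ∧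
    (q 3 ^ 2 * q 0 * (q 3 ^ 2)⁻¹) * (q 3 * q 0 * (q 3)⁻¹)⁻¹ * q 0 = 1 ∧
    (q 3 ^ 2 * q 1 * (q 3 ^ 2)⁻¹) * (q 3 * q 1 * (q 3)⁻¹)⁻¹ * q 1 = 1 ∧
    (q 0 ^ 2 * q 2 * (q 0 ^ 2)⁻¹) * (q 0 * q 1 * q 2 * (q 0 * q 1)⁻¹) ^ 2 *
      (q 1 ^ 2 * q 2 * (q 1 ^ 2)⁻¹) * ((q 0 * q 2 * (q 0)⁻¹) ^ 44)⁻¹ *
      ((q 1 * q 2 * (q 1)⁻¹) ^ 44)⁻¹ * q 2 ^ 259 = 1 := by
  have h1 := hS (Zt ^ 6) (by simp only [Sig, Set.mem_insert_iff, true_or])
  have h2 := hS (Yt ^ 2) (by simp only [Sig, Set.mem_insert_iff, true_or, or_true])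
  have h3 := hS (Bt ^ 6) (by simp only [Sig, Set.mem_insert_iff, true_or, or_true])
  have h4 := hS (br Zt Tt) (by simp only [Sig, Set.mem_insert_iff, true_or, or_true])
  have h5 := hS (br Yt Tt) (by simp only [Sig, Set.mem_insert_iff, true_or, or_true])
  have h6 := hS (cnj (Bt ^ 2) X1 * (cnj Bt X1)⁻¹ * X1)
    (by simp only [Sig, Set.mem_insert_iff, true_or, or_true])
  have h7 := hS (cnj (Bt ^ 2) X2 * (cnj Bt X2)⁻¹ * X2)
    (by simp only [Sig, Set.mem_insert_iff, true_or, or_true])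
  have h8 := hS (cnj (X1 ^ 2) Wd * cnj (X1 * X2) Wd ^ 2 * cnj (X2 ^ 2) Wd *
    (cnj X1 Wd ^ 44)⁻¹ * (cnj X2 Wd ^ 44)⁻¹ * Wd ^ 259)
    (by simp only [Sig, Set.mem_insert_iff, true_or, or_true])
  simp only [Zt, Yt, Bt, Tt, X1, X2, Wd, br, cnj, map_mul, map_pow, map_inv,
    FreeGroup.lift_apply_of] at h1 h2 h3 h4 h5 h6 h7 h8
  refine ⟨h1, h2, h3, h4, h5, h6, h7, ?_⟩
  rw [← h8]

theorem holds : Pool.Agent.H646.EC.S_lab0 := by
  intro q hS hq
  obtain ⟨h1, h2, h3, h4, h5, h6, h7, h8⟩ := rel_of_mem hS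
  have hd0 : ∀ (a : Q0) (n : ℕ), 0 < n → a ^ n = 1 → a.d = 0 := by
    intro a n hn ha
    have := d_pow a n
    rw [ha, Q0.one_d, eq_comm, mul_eq_zero] at this
    rcases this with h | h
    · exfalso
      have : n = 0 := by exact_mod_cast h
      omega
    · exact h
  have d4 : (q 4).d = 0 := hd0 _ 6 (by norm_num) h1
  have d5 : (q 5).d = 0 := hd0 _ 2 (by norm_num) h2
  have d3 : (q 3).d = 0 := hd0 _ 6 (by norm_num) h3
  have hX : ∀ x : Q0, (q 3 ^ 2 * x * (q 3 ^ 2)⁻¹) * (q 3 * x * (q 3)⁻¹)⁻¹ * x = 1 → x = 1 := by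
    intro x hx
    have hd := congrArg Q0.d hx
    simp only [Q0.mul_d, Q0.inv_d, d_pow, d3, Q0.one_d] at hd
    have hxd : x.d = 0 := by
      push_cast at hd
      linarith
    have hc : q 3 * x = x * q 3 := comm_d0 _ _ d3 hxd
    have e1 : q 3 * x * (q 3)⁻¹ = x := by rw [hc, mul_inv_cancel_right]
    have e2 : q 3 ^ 2 * x * (q 3 ^ 2)⁻¹ = x := by
      have hc2 : q 3 ^ 2 * x = x * q 3 ^ 2 := comm_d0 _ _ (by rw [d_pow, d3, mul_zero]) hxd
      rw [hc2, mul_inv_cancel_right]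
    rw [e1, e2, mul_inv_cancel, one_mul] at hx
    exact hx
  have q0 : q 0 = 1 := hX _ h6
  have q1 : q 1 = 1 := hX _ h7
  have q2 : q 2 = 1 := by
    rw [q0, q1] at h8
    simp only [one_pow, one_mul, inv_one, mul_one] at h8
    have h9 : q 2 ^ 175 = 1 := by
      have : q 2 * q 2 ^ 2 * q 2 * (q 2 ^ 44)⁻¹ * (q 2 ^ 44)⁻¹ * q 2 ^ 259 = q 2 ^ 175 := by
        group
      rw [← this]
      exact h8
    have hd : (q 2).d = 0 := hd0 _ 175 (by norm_num) h9
    have hh := h_pow (q 2) hd 175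
    rw [h9, Q0.one_h] at hh
    have he := e_pow (q 2) 175
    rw [h9, Q0.one_e] at he
    refine Q0.ext ?_ ?_ hd
    · ext k
      have hk := DFunLike.congr_fun hh k
      rw [Finsupp.zero_apply, Finsupp.smul_apply] at hk
      rw [Q0.one_h, Finsupp.zero_apply]
      rw [nsmul_eq_mul, show ((175 : ℕ) : ZMod 6) = 1 from rfl, one_mul] at hk
      exact hk.symm
    · refine Prod.ext ?_ ?_
      · have hk := congrArg Prod.fst he
        rw [Prod.smul_fst, nsmul_eq_mul, show ((175 : ℕ) : ZMod 6) = 1 from rfl, one_mul] at hk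
        exact hk.symm
      · have hk := congrArg Prod.snd he
        rw [Prod.smul_snd, nsmul_eq_mul, show ((175 : ℕ) : ZMod 2) = 1 from rfl, one_mul] at hk
        exact hk.symm
  have d6 : (q 6).d = 1 ∨ (q 6).d = -1 := by
    have h := d_dvd q hq (q 6).d (forall_fin7 (by rw [q0]; exact dvd_zero _)
      (by rw [q1]; exact dvd_zero _) (by rw [q2]; exact dvd_zero _) (by rw [d3]; exact dvd_zero _)
      (by rw [d4]; exact dvd_zero _) (by rw [d5]; exact dvd_zero _) dvd_rfl)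
      ⟨0, 0, 1⟩
    exact Int.isUnit_iff.1 (isUnit_of_dvd_one h)
  have hz : (q 4).h = 0 := by
    apply h_zero _ (q 6) d4 d6
    have := mul_eq_one_iff_eq_inv.1 h4
    rw [inv_inv] at this
    exact mul_inv_eq_iff_eq_mul.1 this
  have hy : (q 5).h = 0 := by
    apply h_zero _ (q 6) d5 d6
    have := mul_eq_one_iff_eq_inv.1 h5
    rw [inv_inv] at this
    exact mul_inv_eq_iff_eq_mul.1 this
  have e5 : 2 * (q 5).e.1 = 0 := by
    have he := e_pow (q 5) 2
    rw [h2, Q0.one_e] at he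
    have := congrArg Prod.fst he
    rw [Prod.fst_zero, Prod.smul_fst, two_nsmul] at this
    rw [two_mul]
    exact this.symm
  refine
    { q0 := q0
      q1 := q1
      q2 := q2
      d3 := d3
      h4 := hz
      d4 := d4
      h5 := hy
      d5 := d5
      d6 := d6
      e5 := e5
      e4 := ?_
      det := ?_ }
  · intro he4
    obtain ⟨α, β, hαβ, hlin⟩ := lin3 (r3 (fold 1 (q 3).h 0)) (r3 (q 3).e.1)
    have he5 : r3 (q 5).e.1 = 0 := by
      have h := congrArg r3 e5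
      rw [map_mul, map_zero] at h
      have h' : ∀ x : ZMod 3, r3 2 * x = 0 → x = 0 := by
        have : r3 2 = 2 := map_ofNat r3 2
        rw [this]
        decide
      exact h' _ h
    have hF : ∀ j, F r3 0 α β 0 (-((q 6).d : ZMod 3) * (α * r3 (fold 1 (q 6).h 0) +
        β * r3 (q 6).e.1)) (q j) = 0 := by
      apply forall_fin7
      · rw [q0, F_one]
      · rw [q1, F_one]
      · rw [q2, F_one]
      · simp only [F, d3, Int.cast_zero, mul_zero, add_zero, zero_mul]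
        exact hlin
      · simp [F, d4, hz, he4, fold_zero]
      · simp [F, d5, hy, he5, fold_zero]
      · simp only [F, zero_mul, add_zero]
        rcases d6 with h | h <;> rw [h] <;> push_cast <;> ring
    have hV := F_vanish r3 0 α β 0 _ q hq hF
    rcases hαβ with h | h
    · apply h
      have := hV ⟨Finsupp.single 0 1, 0, 0⟩
      simpa [F, fold_single] using this
    · apply h
      have := hV ⟨0, (1, 0), 0⟩
      simpa [F, fold_zero] using this
  · by_contra hdet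
    obtain ⟨α, β, δ, hne, hl4, hl5, hl3⟩ := lin2 _ _ _ _ hdet (r2 (fold 1 (q 3).h 0))
      (r2 (q 3).e.1) (q 3).e.2
    have hF : ∀ j, F r2 (AddMonoidHom.id _) α β δ (-((q 6).d : ZMod 2) *
        (α * r2 (fold 1 (q 6).h 0) + β * r2 (q 6).e.1 + δ * (q 6).e.2)) (q j) = 0 := by
      apply forall_fin7
      · rw [q0, F_one]
      · rw [q1, F_one]
      · rw [q2, F_one]
      · simp only [F, d3, Int.cast_zero, mul_zero, add_zero, AddMonoidHom.id_apply]
        exact hl3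
      · simp only [F, d4, hz, fold_zero, map_zero, Int.cast_zero, mul_zero, add_zero, zero_add,
          AddMonoidHom.id_apply]
        exact hl4
      · simp only [F, d5, hy, fold_zero, map_zero, Int.cast_zero, mul_zero, add_zero, zero_add,
          AddMonoidHom.id_apply]
        exact hl5
      · simp only [F, AddMonoidHom.id_apply]
        rcases d6 with h | h <;> rw [h] <;> push_cast <;> ring
    have hV := F_vanish r2 (AddMonoidHom.id _) α β δ _ q hq hF
    rcases hne with h | h | h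
    · apply h
      have := hV ⟨Finsupp.single 0 1, 0, 0⟩
      simpa [F, fold_single] using this
    · apply h
      have := hV ⟨0, (1, 0), 0⟩
      simpa [F, fold_zero] using this
    · apply h
      have := hV ⟨0, (0, 1), 0⟩
      simpa [F, fold_zero] using this

end Pool.Agent.H772.EClab0
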