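import Pool.Agent.H646.EC.Stm

/-!
# Project EC, S_lam: construction of an automorphism of `U`
-/

set_option autoImplicit false

namespace Pool.Agent.H120.EClam

open Pool.Agent.H646.EC

theorem cj_add (x y : O) : cj (x + y) = cj x + cj y := by
  apply QuadraticAlgebra.ext
  · simp only [cj, QuadraticAlgebra.re_add, QuadraticAlgebra.im_add]
    ring
  · simp only [cj, QuadraticAlgebra.re_add, QuadraticAlgebra.im_add]
    ring

theorem cj_mul (x y : O) : cj (x * y) = cj x * cj y := by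
  apply QuadraticAlgebra.ext
  · simp only [cj, QuadraticAlgebra.re_mul, QuadraticAlgebra.im_mul]
    ring
  · simp only [cj, QuadraticAlgebra.re_mul, QuadraticAlgebra.im_mul]
    ring

theorem cj_cj (x : O) : cj (cj x) = x := by
  apply QuadraticAlgebra.ext
  · simp only [cj]
    ring
  · simp only [cj]
    ring

theorem cj_us (s : ZMod 6) : cj (us s) = us (-1 * s) := by
  revert s; decide

theorem cj_one : cj 1 = 1 := by decide

theorem cj_zero : cj 0 = 0 := by decide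

theorem cje_add (ε : ZMod 6) (x y : O) : cje ε (x + y) = cje ε x + cje ε y := by
  unfold cje
  split_ifs
  · rfl
  · exact cj_add x y

theorem cje_cje (ε : ZMod 6) (x : O) : cje ε (cje ε x) = x := by
  unfold cje
  split_ifs
  · rfl
  · exact cj_cj x

theorem cje_one (ε : ZMod 6) : cje ε 1 = 1 := by
  unfold cje
  split_ifs
  · rfl
  · exact cj_one

theorem cje_zero (ε : ZMod 6) : cje ε 0 = 0 := by
  unfold cje
  split_ifs
  · rfl
  · exact cj_zero

theorem cje_us {ε : ZMod 6} (hε : ε = 1 ∨ ε = -1) (s : ZMod 6) (x : O) :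
    cje ε (us s * x) = us (ε * s) * cje ε x := by
  rcases hε with h | h
  · subst h
    unfold cje
    rw [if_pos rfl, if_pos rfl, one_mul]
  · subst h
    unfold cje
    rw [if_neg (by decide), if_neg (by decide), cj_mul, cj_us]

theorem ee {ε : ZMod 6} (hε : ε = 1 ∨ ε = -1) : ε * ε = 1 := by
  rcases hε with h | h
  · subst h; decide
  · subst h; decide

theorem gam_pow {d : Dat} {cc : Fin d.m → Bool} {a : Fin d.m} {z z' : ℤ}
    (h : (d.p a : ℤ) ∣ z - z') :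
    ((gam d cc ^ z : (d.K)ˣ) : d.K) a = ((gam d cc ^ z' : (d.K)ˣ) : d.K) a := by
  obtain ⟨g, hg⟩ : ∃ g, g = Units.map (Pi.evalMonoidHom (fun a : Fin d.m => ZMod (d.r a)) a)
    (gam d cc) := ⟨_, rfl⟩
  have hz : ∀ z : ℤ, ((gam d cc ^ z : (d.K)ˣ) : d.K) a =
      ((g ^ z : (ZMod (d.r a))ˣ) : ZMod (d.r a)) := by
    intro z
    rw [hg, ← map_zpow]
    rfl
  have hg1 : g = ZMod.unitOfCoprime 6 (d.co a) ^ ex (cc a) := by
    rw [hg]
    apply Units.ext
    rfl
  have hp : g ^ (d.p a : ℤ) = 1 := by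
    rw [zpow_natCast, hg1, ← pow_mul, mul_comm, pow_mul, ← d.ord a, pow_orderOf_eq_one, one_pow]
  obtain ⟨k, hk⟩ := h
  have h2 : z = z' + d.p a * k := by linarith
  rw [hz, hz, h2, zpow_add, zpow_mul, hp, one_zpow, mul_one]

/-- the map -/
def lam (d : Dat) (cc : Fin d.m → Bool) (ε : ZMod 6) (m1 m2 : O × O) (b : Fin d.m → Bool)
    (j1 j2 : Fin d.m → ZMod 6) (C1 C2 : d.K) (u : U d.K (gam d cc) (gam d cc)) :
    U d.K (gam d cc) (gam d cc) :=
  (⟨fun l a => C1 a * (if b a then u.2.f (ε * l + j1 a) a else u.1.f (ε * l + j1 a) a),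
      m1.1 * cje ε u.1.x + m2.1 * cje ε u.2.x⟩,
    ⟨fun l a => C2 a * (if b a then u.1.f (ε * l + j2 a) a else u.2.f (ε * l + j2 a) a),
      m1.2 * cje ε u.1.x + m2.2 * cje ε u.2.x⟩)

variable {d : Dat} {cc : Fin d.m → Bool} {ε : ZMod 6} {m1 m2 : O × O} {b : Fin d.m → Bool}
  {j1 j2 : Fin d.m → ZMod 6} {C1 C2 : d.K}

theorem lam_mul
    (h1 : ∀ a l (v : O × O), (d.p a : ℤ) ∣ ph l (m1.1 * cje ε v.1 + m2.1 * cje ε v.2) -
      ph (ε * l + j1 a) (if b a then v.2 else v.1))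
    (h2 : ∀ a l (v : O × O), (d.p a : ℤ) ∣ ph l (m1.2 * cje ε v.1 + m2.2 * cje ε v.2) -
      ph (ε * l + j2 a) (if b a then v.1 else v.2)) (u v : U d.K (gam d cc) (gam d cc)) :
    lam d cc ε m1 m2 b j1 j2 C1 C2 (u * v) =
      lam d cc ε m1 m2 b j1 j2 C1 C2 u * lam d cc ε m1 m2 b j1 j2 C1 C2 v := by
  refine Prod.ext (Hgp.ext (funext fun l => funext fun a => ?_) ?_)
    (Hgp.ext (funext fun l => funext fun a => ?_) ?_)
  · have key := gam_pow (cc := cc) (h1 a l (u.1.x, u.2.x))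
    show C1 a * (if b a then (u.2.f (ε * l + j1 a) a +
        ((gam d cc ^ ph (ε * l + j1 a) u.2.x : (d.K)ˣ) : d.K) a * v.2.f (ε * l + j1 a) a)
        else (u.1.f (ε * l + j1 a) a +
        ((gam d cc ^ ph (ε * l + j1 a) u.1.x : (d.K)ˣ) : d.K) a * v.1.f (ε * l + j1 a) a)) =
      C1 a * (if b a then u.2.f (ε * l + j1 a) a else u.1.f (ε * l + j1 a) a) +
      ((gam d cc ^ ph l (m1.1 * cje ε u.1.x + m2.1 * cje ε u.2.x) : (d.K)ˣ) : d.K) a *
      (C1 a * (if b a then v.2.f (ε * l + j1 a) a else v.1.f (ε * l + j1 a) a))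
    rw [key]
    cases b a
    · simp only [Bool.false_eq_true, if_false]
      ring
    · simp only [if_true]
      ring
  · show m1.1 * cje ε (u.1.x + v.1.x) + m2.1 * cje ε (u.2.x + v.2.x) =
      (m1.1 * cje ε u.1.x + m2.1 * cje ε u.2.x) + (m1.1 * cje ε v.1.x + m2.1 * cje ε v.2.x)
    rw [cje_add, cje_add]
    ring
  · have key := gam_pow (cc := cc) (h2 a l (u.1.x, u.2.x))
    show C2 a * (if b a then (u.1.f (ε * l + j2 a) a +
        ((gam d cc ^ ph (ε * l + j2 a) u.1.x : (d.K)ˣ) : d.K) a * v.1.f (ε * l + j2 a) a)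
        else (u.2.f (ε * l + j2 a) a +
        ((gam d cc ^ ph (ε * l + j2 a) u.2.x : (d.K)ˣ) : d.K) a * v.2.f (ε * l + j2 a) a)) =
      C2 a * (if b a then u.1.f (ε * l + j2 a) a else u.2.f (ε * l + j2 a) a) +
      ((gam d cc ^ ph l (m1.2 * cje ε u.1.x + m2.2 * cje ε u.2.x) : (d.K)ˣ) : d.K) a *
      (C2 a * (if b a then v.1.f (ε * l + j2 a) a else v.2.f (ε * l + j2 a) a))
    rw [key]
    cases b a
    · simp only [Bool.false_eq_true, if_false]
      ring
    · simp only [if_true]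
      ring
  · show m1.2 * cje ε (u.1.x + v.1.x) + m2.2 * cje ε (u.2.x + v.2.x) =
      (m1.2 * cje ε u.1.x + m2.2 * cje ε u.2.x) + (m1.2 * cje ε v.1.x + m2.2 * cje ε v.2.x)
    rw [cje_add, cje_add]
    ring

theorem lam_act (hε : ε = 1 ∨ ε = -1) (s : ZMod 6) (e : ZMod 2)
    (u : U d.K (gam d cc) (gam d cc)) :
    lam d cc ε m1 m2 b j1 j2 C1 C2 (uact (s, e) u) =
      uact (ε * s, e) (lam d cc ε m1 m2 b j1 j2 C1 C2 u) := by
  have hl : ∀ l j : ZMod 6, ε * (l + ε * s) + j = ε * l + j + s := by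
    intro l j
    linear_combination s * ee hε
  refine Prod.ext (Hgp.ext (funext fun l => funext fun a => ?_) ?_)
    (Hgp.ext (funext fun l => funext fun a => ?_) ?_)
  · show C1 a * (if b a then (sn d.K e : d.K) a * u.2.f (ε * l + j1 a + s) a
        else (sn d.K e : d.K) a * u.1.f (ε * l + j1 a + s) a) =
      (sn d.K e : d.K) a * (C1 a * (if b a then u.2.f (ε * (l + ε * s) + j1 a) a
        else u.1.f (ε * (l + ε * s) + j1 a) a))
    rw [hl]
    split_ifs <;> ring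
  · show m1.1 * cje ε (us s * u.1.x) + m2.1 * cje ε (us s * u.2.x) =
      us (ε * s) * (m1.1 * cje ε u.1.x + m2.1 * cje ε u.2.x)
    rw [cje_us hε, cje_us hε]
    ring
  · show C2 a * (if b a then (sn d.K e : d.K) a * u.1.f (ε * l + j2 a + s) a
        else (sn d.K e : d.K) a * u.2.f (ε * l + j2 a + s) a) =
      (sn d.K e : d.K) a * (C2 a * (if b a then u.1.f (ε * (l + ε * s) + j2 a) a
        else u.2.f (ε * (l + ε * s) + j2 a) a))
    rw [hl]
    split_ifs <;> ring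
  · show m1.2 * cje ε (us s * u.1.x) + m2.2 * cje ε (us s * u.2.x) =
      us (ε * s) * (m1.2 * cje ε u.1.x + m2.2 * cje ε u.2.x)
    rw [cje_us hε, cje_us hε]
    ring

/-- injectivity on the `O`-parts -/
theorem inj_O (hm : ∀ v : O × O, ∃ a b : O, v = (a * m1.1 + b * m2.1, a * m1.2 + b * m2.2))
    {x1 x2 y1 y2 : O} (h1 : m1.1 * x1 + m2.1 * x2 = m1.1 * y1 + m2.1 * y2)
    (h2 : m1.2 * x1 + m2.2 * x2 = m1.2 * y1 + m2.2 * y2) : x1 = y1 ∧ x2 = y2 := by
  obtain ⟨a1, b1, e1⟩ := hm (1, 0)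
  obtain ⟨a2, b2, e2⟩ := hm (0, 1)
  have e11 : (1 : O) = a1 * m1.1 + b1 * m2.1 := congrArg Prod.fst e1
  have e12 : (0 : O) = a1 * m1.2 + b1 * m2.2 := congrArg Prod.snd e1
  have e21 : (0 : O) = a2 * m1.1 + b2 * m2.1 := congrArg Prod.fst e2
  have e22 : (1 : O) = a2 * m1.2 + b2 * m2.2 := congrArg Prod.snd e2
  have hΔ : (a1 * b2 - a2 * b1) * (m1.1 * m2.2 - m1.2 * m2.1) = 1 := by
    have h3 : (a1 * b2 - a2 * b1) * (m1.1 * m2.2 - m1.2 * m2.1) =
        (a1 * m1.1 + b1 * m2.1) * (a2 * m1.2 + b2 * m2.2) -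
        (a1 * m1.2 + b1 * m2.2) * (a2 * m1.1 + b2 * m2.1) := by ring
    rw [h3, ← e11, ← e12, ← e21, ← e22]
    ring
  have k1 : (x1 - y1) * (m1.1 * m2.2 - m1.2 * m2.1) = 0 := by
    linear_combination m2.2 * h1 - m2.1 * h2
  have k2 : (x2 - y2) * (m1.1 * m2.2 - m1.2 * m2.1) = 0 := by
    linear_combination m1.1 * h2 - m1.2 * h1
  constructor
  · linear_combination (a1 * b2 - a2 * b1) * k1 - (x1 - y1) * hΔ
  · linear_combination (a1 * b2 - a2 * b1) * k2 - (x2 - y2) * hΔ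

theorem lam_inj (hε : ε = 1 ∨ ε = -1)
    (hm : ∀ v : O × O, ∃ a b : O, v = (a * m1.1 + b * m2.1, a * m1.2 + b * m2.2))
    (hC1 : ∀ a, C1 a ≠ 0) (hC2 : ∀ a, C2 a ≠ 0) :
    Function.Injective (lam d cc ε m1 m2 b j1 j2 C1 C2) := by
  haveI : ∀ a, Fact (d.r a).Prime := fun a => ⟨d.rp a⟩
  intro u v h
  have h1 : (lam d cc ε m1 m2 b j1 j2 C1 C2 u).1 = (lam d cc ε m1 m2 b j1 j2 C1 C2 v).1 :=
    congrArg Prod.fst h
  have h2 : (lam d cc ε m1 m2 b j1 j2 C1 C2 u).2 = (lam d cc ε m1 m2 b j1 j2 C1 C2 v).2 :=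
    congrArg Prod.snd h
  have hx1 : m1.1 * cje ε u.1.x + m2.1 * cje ε u.2.x = m1.1 * cje ε v.1.x + m2.1 * cje ε v.2.x :=
    congrArg Hgp.x h1
  have hx2 : m1.2 * cje ε u.1.x + m2.2 * cje ε u.2.x = m1.2 * cje ε v.1.x + m2.2 * cje ε v.2.x :=
    congrArg Hgp.x h2
  obtain ⟨k1, k2⟩ := inj_O hm hx1 hx2
  have hl : ∀ l j : ZMod 6, ε * (ε * (l - j)) + j = l := by
    intro l j
    linear_combination (l - j) * ee hε
  have f1 : ∀ l a, (if b a then u.2.f l a else u.1.f l a) = if b a then v.2.f l a else v.1.f l a := by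
    intro l a
    have h3 : C1 a * (if b a then u.2.f (ε * (ε * (l - j1 a)) + j1 a) a
        else u.1.f (ε * (ε * (l - j1 a)) + j1 a) a) =
        C1 a * (if b a then v.2.f (ε * (ε * (l - j1 a)) + j1 a) a
        else v.1.f (ε * (ε * (l - j1 a)) + j1 a) a) :=
      congrFun (congrFun (congrArg Hgp.f h1) (ε * (l - j1 a))) a
    rw [hl] at h3
    exact mul_left_cancel₀ (hC1 a) h3
  have f2 : ∀ l a, (if b a then u.1.f l a else u.2.f l a) = if b a then v.1.f l a else v.2.f l a := by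
    intro l a
    have h3 : C2 a * (if b a then u.1.f (ε * (ε * (l - j2 a)) + j2 a) a
        else u.2.f (ε * (ε * (l - j2 a)) + j2 a) a) =
        C2 a * (if b a then v.1.f (ε * (ε * (l - j2 a)) + j2 a) a
        else v.2.f (ε * (ε * (l - j2 a)) + j2 a) a) :=
      congrFun (congrFun (congrArg Hgp.f h2) (ε * (l - j2 a))) a
    rw [hl] at h3
    exact mul_left_cancel₀ (hC2 a) h3
  refine Prod.ext (Hgp.ext (funext fun l => funext fun a => ?_) ?_)
    (Hgp.ext (funext fun l => funext fun a => ?_) ?_)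
  · by_cases hb : b a = true
    · have h3 := f2 l a
      rw [if_pos hb, if_pos hb] at h3
      exact h3
    · have h3 := f1 l a
      rw [if_neg hb, if_neg hb] at h3
      exact h3
  · rw [← cje_cje ε u.1.x, k1, cje_cje]
  · by_cases hb : b a = true
    · have h3 := f1 l a
      rw [if_pos hb, if_pos hb] at h3
      exact h3
    · have h3 := f2 l a
      rw [if_neg hb, if_neg hb] at h3
      exact h3
  · rw [← cje_cje ε u.2.x, k2, cje_cje]

theorem lam_surj (hε : ε = 1 ∨ ε = -1)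
    (hm : ∀ v : O × O, ∃ a b : O, v = (a * m1.1 + b * m2.1, a * m1.2 + b * m2.2))
    (hC1 : ∀ a, C1 a ≠ 0) (hC2 : ∀ a, C2 a ≠ 0) :
    Function.Surjective (lam d cc ε m1 m2 b j1 j2 C1 C2) := by
  haveI : ∀ a, Fact (d.r a).Prime := fun a => ⟨d.rp a⟩
  intro v
  obtain ⟨p, q, hpq⟩ := hm (v.1.x, v.2.x)
  have hp1 : v.1.x = p * m1.1 + q * m2.1 := congrArg Prod.fst hpq
  have hp2 : v.2.x = p * m1.2 + q * m2.2 := congrArg Prod.snd hpq
  have hl : ∀ l j : ZMod 6, ε * (ε * l + j - j) = l := by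
    intro l j
    linear_combination l * ee hε
  refine ⟨(⟨fun l a => if b a then (C2 a)⁻¹ * v.2.f (ε * (l - j2 a)) a
      else (C1 a)⁻¹ * v.1.f (ε * (l - j1 a)) a, cje ε p⟩,
    ⟨fun l a => if b a then (C1 a)⁻¹ * v.1.f (ε * (l - j1 a)) a
      else (C2 a)⁻¹ * v.2.f (ε * (l - j2 a)) a, cje ε q⟩), ?_⟩
  refine Prod.ext (Hgp.ext (funext fun l => funext fun a => ?_) ?_)
    (Hgp.ext (funext fun l => funext fun a => ?_) ?_)
  · show C1 a * (if b a then (if b a then (C1 a)⁻¹ * v.1.f (ε * (ε * l + j1 a - j1 a)) a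
        else (C2 a)⁻¹ * v.2.f (ε * (ε * l + j1 a - j2 a)) a)
      else (if b a then (C2 a)⁻¹ * v.2.f (ε * (ε * l + j1 a - j2 a)) a
        else (C1 a)⁻¹ * v.1.f (ε * (ε * l + j1 a - j1 a)) a)) = v.1.f l a
    by_cases hb : b a = true
    · rw [if_pos hb, if_pos hb, hl, mul_inv_cancel_left₀ (hC1 a)]
    · rw [if_neg hb, if_neg hb, hl, mul_inv_cancel_left₀ (hC1 a)]
  · show m1.1 * cje ε (cje ε p) + m2.1 * cje ε (cje ε q) = v.1.x
    rw [cje_cje, cje_cje, hp1]
    ring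
  · show C2 a * (if b a then (if b a then (C2 a)⁻¹ * v.2.f (ε * (ε * l + j2 a - j2 a)) a
        else (C1 a)⁻¹ * v.1.f (ε * (ε * l + j2 a - j1 a)) a)
      else (if b a then (C1 a)⁻¹ * v.1.f (ε * (ε * l + j2 a - j1 a)) a
        else (C2 a)⁻¹ * v.2.f (ε * (ε * l + j2 a - j2 a)) a)) = v.2.f l a
    by_cases hb : b a = true
    · rw [if_pos hb, if_pos hb, hl, mul_inv_cancel_left₀ (hC2 a)]
    · rw [if_neg hb, if_neg hb, hl, mul_inv_cancel_left₀ (hC2 a)]
  · show m1.2 * cje ε (cje ε p) + m2.2 * cje ε (cje ε q) = v.2.x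
    rw [cje_cje, cje_cje, hp2]
    ring

theorem sol {ε : ZMod 6} (hε : ε = 1 ∨ ε = -1) (l j : ZMod 6) :
    ε * l + j = 0 ↔ l = -(ε * j) := by
  constructor
  · intro h
    linear_combination ε * h - l * ee hε
  · intro h
    rw [h]
    linear_combination (-j) * ee hε

theorem holds : S_lam := by
  intro d cc ε m1 m2 w hε hm hA
  obtain ⟨b, j1, j2, hw1, hw2, hd1, hd2⟩ := hA
  obtain ⟨C1, hC1⟩ : ∃ C1 : d.K, ∀ a, C1 a = w.1 (-(ε * j1 a)) a := ⟨_, fun _ => rfl⟩
  obtain ⟨C2, hC2⟩ : ∃ C2 : d.K, ∀ a, C2 a = w.2 (-(ε * j2 a)) a := ⟨_, fun _ => rfl⟩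
  have n1 : ∀ a, C1 a ≠ 0 := by
    intro a
    rw [hC1]
    exact (hw1 a _).2 ((sol hε _ _).2 rfl)
  have n2 : ∀ a, C2 a ≠ 0 := by
    intro a
    rw [hC2]
    exact (hw2 a _).2 ((sol hε _ _).2 rfl)
  refine ⟨MulEquiv.ofBijective (MonoidHom.mk' (lam d cc ε m1 m2 b j1 j2 C1 C2)
    (lam_mul hd1 hd2)) ⟨lam_inj hε hm n1 n2, lam_surj hε hm n1 n2⟩, ?_, ?_, ?_, ?_⟩
  · intro s e u
    exact lam_act hε s e u
  · show lam d cc ε m1 m2 b j1 j2 C1 C2 (xg _ _, 1) = um m1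
    refine Prod.ext (Hgp.ext (funext fun l => funext fun a => ?_) ?_)
      (Hgp.ext (funext fun l => funext fun a => ?_) ?_)
    · show C1 a * (if b a then (0 : ZMod (d.r a)) else 0) = 0
      rw [ite_self, mul_zero]
    · show m1.1 * cje ε 1 + m2.1 * cje ε 0 = m1.1
      rw [cje_one, cje_zero]
      ring
    · show C2 a * (if b a then (0 : ZMod (d.r a)) else 0) = 0
      rw [ite_self, mul_zero]
    · show m1.2 * cje ε 1 + m2.2 * cje ε 0 = m1.2
      rw [cje_one, cje_zero]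
      ring
  · show lam d cc ε m1 m2 b j1 j2 C1 C2 (1, xg _ _) = um m2
    refine Prod.ext (Hgp.ext (funext fun l => funext fun a => ?_) ?_)
      (Hgp.ext (funext fun l => funext fun a => ?_) ?_)
    · show C1 a * (if b a then (0 : ZMod (d.r a)) else 0) = 0
      rw [ite_self, mul_zero]
    · show m1.1 * cje ε 0 + m2.1 * cje ε 1 = m2.1
      rw [cje_one, cje_zero]
      ring
    · show C2 a * (if b a then (0 : ZMod (d.r a)) else 0) = 0
      rw [ite_self, mul_zero]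
    · show m1.2 * cje ε 0 + m2.2 * cje ε 1 = m2.2
      rw [cje_one, cje_zero]
      ring
  · show lam d cc ε m1 m2 b j1 j2 C1 C2 (wg _ _, wg _ _) = uw w
    have hs : ∀ (k : ZMod 6) (a : Fin d.m),
        (Pi.single 0 1 : ZMod 6 → d.K) k a = if k = 0 then 1 else 0 := by
      intro k a
      rw [Pi.single_apply]
      split_ifs <;> rfl
    refine Prod.ext (Hgp.ext (funext fun l => funext fun a => ?_) ?_)
      (Hgp.ext (funext fun l => funext fun a => ?_) ?_)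
    · show C1 a * (if b a then (Pi.single 0 1 : ZMod 6 → d.K) (ε * l + j1 a) a
        else (Pi.single 0 1 : ZMod 6 → d.K) (ε * l + j1 a) a) = w.1 l a
      rw [ite_self, hs]
      by_cases h : ε * l + j1 a = 0
      · rw [if_pos h, mul_one, hC1, (sol hε _ _).1 h]
      · rw [if_neg h, mul_zero]
        by_contra hcon
        exact h ((hw1 a l).1 (Ne.symm hcon))
    · show m1.1 * cje ε 0 + m2.1 * cje ε 0 = 0
      rw [cje_zero]
      ring
    · show C2 a * (if b a then (Pi.single 0 1 : ZMod 6 → d.K) (ε * l + j2 a) a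
        else (Pi.single 0 1 : ZMod 6 → d.K) (ε * l + j2 a) a) = w.2 l a
      rw [ite_self, hs]
      by_cases h : ε * l + j2 a = 0
      · rw [if_pos h, mul_one, hC2, (sol hε _ _).1 h]
      · rw [if_neg h, mul_zero]
        by_contra hcon
        exact h ((hw2 a l).1 (Ne.symm hcon))
    · show m1.2 * cje ε 0 + m2.2 * cje ε 0 = 0
      rw [cje_zero]
      ring

end Pool.Agent.H120.EClam
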