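import Pool.Agent.H646.EC.Stm

/-!
# The lattice lemma `S_lat` over the Eisenstein integers
-/

set_option autoImplicit false

namespace Pool.Agent.H94.EClat

open Pool.Agent.H646.EC

/-- the norm -/
def nm (c : O) : ℤ := c.re ^ 2 + c.re * c.im + c.im ^ 2

theorem cj_mul (c y : O) : cj c * (c * y) = (nm c : O) * y := by
  ext
  · simp only [cj, nm, QuadraticAlgebra.re_mul, QuadraticAlgebra.im_mul,
      QuadraticAlgebra.re_intCast, QuadraticAlgebra.im_intCast]
    simp
    ring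
  · simp only [cj, nm, QuadraticAlgebra.re_mul, QuadraticAlgebra.im_mul,
      QuadraticAlgebra.re_intCast, QuadraticAlgebra.im_intCast]
    simp
    ring

theorem nm_pos {c : O} (h : c ≠ 0) : 0 < nm c := by
  by_contra hcon
  push Not at hcon
  apply h
  unfold nm at hcon
  have h1 : c.im = 0 := by
    by_contra h1
    have : 0 < c.im ^ 2 := by positivity
    nlinarith [sq_nonneg (2 * c.re + c.im)]
  have h2 : c.re = 0 := by
    rw [h1] at hcon
    by_contra h2
    have : 0 < c.re ^ 2 := by positivity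
    nlinarith
  ext
  · exact h2
  · exact h1

/-- coordinates bounded by `C` -/
def bd (C : ℤ) (c : O) : Prop := |c.re| ≤ C ∧ |c.im| ≤ C

theorem bd_nonneg {C : ℤ} {c : O} (h : bd C c) : 0 ≤ C := le_trans (abs_nonneg _) h.1

theorem bd_mono {C D : ℤ} (h : C ≤ D) {c : O} (hc : bd C c) : bd D c :=
  ⟨hc.1.trans h, hc.2.trans h⟩

theorem bd_neg {C : ℤ} {c : O} (hc : bd C c) : bd C (-c) := by
  unfold bd
  rw [QuadraticAlgebra.re_neg, QuadraticAlgebra.im_neg, abs_neg, abs_neg]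
  exact hc

theorem bd_add {A B : ℤ} {a b : O} (ha : bd A a) (hb : bd B b) : bd (A + B) (a + b) := by
  unfold bd
  rw [QuadraticAlgebra.re_add, QuadraticAlgebra.im_add]
  exact ⟨(abs_add_le _ _).trans (add_le_add ha.1 hb.1),
    (abs_add_le _ _).trans (add_le_add ha.2 hb.2)⟩

theorem bd_cj {A : ℤ} {a : O} (ha : bd A a) : bd (2 * A) (cj a) := by
  have h0 := bd_nonneg ha
  refine ⟨?_, ?_⟩
  · show |a.re + a.im| ≤ 2 * A
    have := abs_add_le a.re a.im
    linarith [ha.1, ha.2]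
  · show |-a.im| ≤ 2 * A
    rw [abs_neg]
    linarith [ha.2]

theorem abs_mul_bd {A B x y : ℤ} (hx : |x| ≤ A) (hy : |y| ≤ B) : |x * y| ≤ A * B := by
  rw [abs_mul]
  exact mul_le_mul hx hy (abs_nonneg _) ((abs_nonneg _).trans hx)

theorem bd_mul {A B : ℤ} {a b : O} (ha : bd A a) (hb : bd B b) : bd (3 * (A * B)) (a * b) := by
  have h1 := abs_le.1 (abs_mul_bd ha.1 hb.1)
  have h2 := abs_le.1 (abs_mul_bd ha.2 hb.2)
  have h3 := abs_le.1 (abs_mul_bd ha.1 hb.2)
  have h4 := abs_le.1 (abs_mul_bd ha.2 hb.1)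
  have h0 : 0 ≤ A * B := mul_nonneg (bd_nonneg ha) (bd_nonneg hb)
  unfold bd
  rw [QuadraticAlgebra.re_mul, QuadraticAlgebra.im_mul, abs_le, abs_le]
  refine ⟨⟨?_, ?_⟩, ?_, ?_⟩ <;> linarith [h1.1, h1.2, h2.1, h2.2, h3.1, h3.2, h4.1, h4.2]

theorem bd_nat {A N : ℤ} {a : O} (ha : bd A a) {n : ℤ} (h0 : 0 ≤ n) (hn : n ≤ N) :
    bd (N * A) ((n : O) * a) := by
  have e : (n : O) * a = ⟨n * a.re, n * a.im⟩ := by
    ext <;> simp
  have h1 : |n| ≤ N := by
    rw [abs_of_nonneg h0]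
    exact hn
  rw [e]
  exact ⟨abs_mul_bd h1 ha.1, abs_mul_bd h1 ha.2⟩

theorem nm_le {C : ℤ} {c : O} (hc : bd C c) : nm c ≤ 3 * C ^ 2 := by
  have h1 := abs_le.1 (abs_mul_bd hc.1 hc.1)
  have h2 := abs_le.1 (abs_mul_bd hc.1 hc.2)
  have h3 := abs_le.1 (abs_mul_bd hc.2 hc.2)
  unfold nm
  nlinarith [h1.2, h2.2, h3.2]

theorem int_mul_eq_zero {n : ℤ} (hn : n ≠ 0) {a : O} (h : (n : O) * a = 0) : a = 0 := by
  have h1 := congrArg QuadraticAlgebra.re h
  have h2 := congrArg QuadraticAlgebra.im h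
  simp at h1 h2
  ext
  · exact h1.resolve_left hn
  · exact h2.resolve_left hn

theorem int_mul_iff {n : ℤ} (hn : n ≠ 0) {a b : O} (h : (n : O) * a = b) : a = 0 ↔ b = 0 := by
  constructor
  · rintro rfl
    rw [← h, mul_zero]
  · rintro rfl
    exact int_mul_eq_zero hn h

theorem mul_cancel {e a b : O} (he : e ≠ 0) (h : e * a = e * b) : a = b := by
  have h1 : (nm e : O) * a = (nm e : O) * b := by
    rw [← cj_mul, ← cj_mul, h]
  have h2 : (nm e : O) * (a - b) = 0 := by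
    rw [mul_sub, h1, sub_self]
  exact sub_eq_zero.1 (int_mul_eq_zero (nm_pos he).ne' h2)

/-- the congruence in the invariant -/
theorem cong_iff {L : ℕ} {μ : ℤ} {a b : O} :
    (∃ z : O, b = μ • a + L • z) ↔ ∃ z : O, b = (μ : O) * a + (L : O) * z := by
  simp only [zsmul_eq_mul, nsmul_eq_mul]

/-- Case A: the new point is dependent on the old ones. -/
theorem caseA {C' L' : ℕ} {m : ℕ} {μ : ℤ} {x x' : Fin m → O} {c : O} {cs : Fin m → O}
    (hc : c ≠ 0) (hcb : bd C' c) (hcs : ∀ j, bd C' (cs j)) {y : O}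
    (hy : c * y = ∑ j, cs j * x j)
    (h : Inv (21 * C' ^ 3 + C') (L' * (3 * C' ^ 2).factorial) μ x x') :
    ∃ y' : O, Inv C' L' μ (Fin.snoc x y : Fin (m + 1) → O) (Fin.snoc x' y' : Fin (m + 1) → O) := by
  obtain ⟨hrel, hcong⟩ := h
  have hn0 := nm_pos hc
  have hnle := nm_le hcb
  obtain ⟨n, hn⟩ := Int.eq_ofNat_of_zero_le hn0.le
  have hn1 : 0 < n := by
    have : (0 : ℤ) < (n : ℤ) := by rw [← hn]; exact hn0
    exact_mod_cast this
  have hn2 : n ≤ 3 * C' ^ 2 := by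
    have : (n : ℤ) ≤ 3 * (C' : ℤ) ^ 2 := by rw [← hn]; exact hnle
    exact_mod_cast this
  obtain ⟨t, ht⟩ := Nat.dvd_factorial hn1 hn2
  have hz : ∀ j, ∃ z : O, x' j = (μ : O) * x j + ((L' * (3 * C' ^ 2).factorial : ℕ) : O) * z :=
    fun j => cong_iff.1 (hcong j)
  choose z hz using hz
  have hnO : (nm c : O) = (n : O) := by rw [hn]; norm_cast
  have hny : (n : O) * y = ∑ j, (cj c * cs j) * x j := by
    rw [← hnO, ← cj_mul, hy, Finset.mul_sum]
    exact Finset.sum_congr rfl fun j _ => (mul_assoc _ _ _).symm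
  obtain ⟨w, hw⟩ : ∃ w : O, w = ∑ j, (cj c * cs j) * z j := ⟨_, rfl⟩
  have hLn : ((L' * (3 * C' ^ 2).factorial : ℕ) : O) = (n : O) * ((L' : O) * (t : O)) := by
    rw [ht]
    push_cast
    ring
  have hsum : ∑ j, (cj c * cs j) * x' j = (μ : O) * ((n : O) * y) +
      ((L' * (3 * C' ^ 2).factorial : ℕ) : O) * w := by
    rw [hny, hw, Finset.mul_sum, Finset.mul_sum, ← Finset.sum_add_distrib]
    refine Finset.sum_congr rfl fun j _ => ?_
    rw [hz j]
    ring
  have hny' : (n : O) * ((μ : O) * y + (L' : O) * ((t : O) * w)) =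
      ∑ j, (cj c * cs j) * x' j := by
    rw [hsum, hLn]
    ring
  refine ⟨(μ : O) * y + (L' : O) * ((t : O) * w), ?_, ?_⟩
  · intro e he
    rw [Fin.sum_univ_castSucc, Fin.sum_univ_castSucc]
    simp only [Fin.snoc_castSucc, Fin.snoc_last]
    have hnn : ((n : ℕ) : ℤ) ≠ 0 := by
      rw [← hn]
      exact hn0.ne'
    have key : ∀ (X : Fin m → O) (Y : O), (n : O) * Y = ∑ j, (cj c * cs j) * X j →
        (((n : ℕ) : ℤ) : O) * (∑ j : Fin m, e (Fin.castSucc j) * X j + e (Fin.last m) * Y) =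
          ∑ j, ((n : O) * e (Fin.castSucc j) + e (Fin.last m) * (cj c * cs j)) * X j := by
      intro X Y hXY
      have e1 : ∑ j, ((n : O) * e (Fin.castSucc j) + e (Fin.last m) * (cj c * cs j)) * X j =
          (n : O) * ∑ j : Fin m, e (Fin.castSucc j) * X j +
            e (Fin.last m) * ∑ j, (cj c * cs j) * X j := by
        rw [Finset.mul_sum, Finset.mul_sum, ← Finset.sum_add_distrib]
        refine Finset.sum_congr rfl fun j _ => ?_
        ring
      rw [e1, ← hXY, Int.cast_natCast]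
      ring
    rw [int_mul_iff hnn (key x y hny), int_mul_iff hnn (key x' _ hny')]
    refine hrel _ fun j => ?_
    have hb : bd ((3 * (C' : ℤ) ^ 2) * C' + 3 * (C' * (3 * ((2 * C') * C'))))
        ((n : O) * e (Fin.castSucc j) + e (Fin.last m) * (cj c * cs j)) := by
      refine bd_add ?_ ?_
      · have h1 : bd (C' : ℤ) (e (Fin.castSucc j)) := he _
        have h2 := bd_nat h1 (Int.natCast_nonneg n)
          (show (n : ℤ) ≤ 3 * (C' : ℤ) ^ 2 by exact_mod_cast hn2)
        rw [Int.cast_natCast] at h2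
        exact h2
      · exact bd_mul (he _) (bd_mul (bd_cj hcb) (hcs j))
    have h3 : (3 * (C' : ℤ) ^ 2) * C' + 3 * (C' * (3 * ((2 * C') * C'))) ≤
        ((21 * C' ^ 3 + C' : ℕ) : ℤ) := by
      push_cast
      have : (0 : ℤ) ≤ C' := Int.natCast_nonneg C'
      nlinarith
    exact bd_mono h3 hb
  · intro j
    rw [cong_iff]
    refine Fin.lastCases ?_ (fun j => ?_) j
    · simp only [Fin.snoc_last]
      exact ⟨(t : O) * w, rfl⟩
    · simp only [Fin.snoc_castSucc]
      refine ⟨((3 * C' ^ 2).factorial : O) * z j, ?_⟩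
      rw [hz j]
      push_cast
      ring

/-- Case B: the new point is independent of the old ones. -/
theorem caseB {C' L' : ℕ} (hL' : 0 < L') {m : ℕ} {μ : ℤ} {x x' : Fin m → O} {y : O}
    (hy : ∀ (c : O) (cs : Fin m → O), c ≠ 0 → bd C' c → (∀ j, bd C' (cs j)) →
      c * y ≠ ∑ j, cs j * x j) {C L : ℕ} (hC : C' ≤ C) (hL : L' ∣ L)
    (h : Inv C L μ x x') :
    ∃ y' : O, Inv C' L' μ (Fin.snoc x y : Fin (m + 1) → O) (Fin.snoc x' y' : Fin (m + 1) → O) := by
  obtain ⟨hrel, hcong⟩ := h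
  have hfin0 : {c : O | bd C' c}.Finite := by
    have h1 : ((Set.Icc (-(C' : ℤ)) C') ×ˢ (Set.Icc (-(C' : ℤ)) C')).Finite :=
      (Set.finite_Icc _ _).prod (Set.finite_Icc _ _)
    refine (h1.image fun p : ℤ × ℤ => (⟨p.1, p.2⟩ : O)).subset ?_
    intro c hc
    exact ⟨(c.re, c.im), ⟨abs_le.1 hc.1, abs_le.1 hc.2⟩, rfl⟩
  have hfin1 : {e : Fin (m + 1) → O | ∀ j, bd C' (e j)}.Finite :=
    Set.Finite.pi' fun _ => hfin0
  have hfin2 : (⋃ e ∈ {e : Fin (m + 1) → O | ∀ j, bd C' (e j)},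
      {y' : O | e (Fin.last m) ≠ 0 ∧
        ∑ j : Fin m, e (Fin.castSucc j) * x' j + e (Fin.last m) * y' = 0}).Finite := by
    refine hfin1.biUnion fun e _ => Set.Subsingleton.finite ?_
    rintro a ⟨h1, h2⟩ b ⟨-, h3⟩
    refine mul_cancel h1 ?_
    exact add_left_cancel (h2.trans h3.symm)
  have hinf : (Set.range fun k : ℤ => (μ : O) * y + (L' : O) * (k : O)).Infinite := by
    refine Set.infinite_range_of_injective ?_
    intro a b hab
    have h1 : (L' : O) * (a : O) = (L' : O) * (b : O) := add_left_cancel hab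
    have h2 := congrArg QuadraticAlgebra.re h1
    simp at h2
    rcases h2 with h2 | h2
    · exact h2
    · omega
  obtain ⟨y', ⟨k, hk⟩, hy'⟩ := hinf.exists_notMem_finite hfin2
  refine ⟨y', ?_, ?_⟩
  · intro e he
    rw [Fin.sum_univ_castSucc, Fin.sum_univ_castSucc]
    simp only [Fin.snoc_castSucc, Fin.snoc_last]
    by_cases h0 : e (Fin.last m) = 0
    · rw [h0, zero_mul, zero_mul, add_zero, add_zero]
      refine hrel (fun j => e (Fin.castSucc j)) fun j => ?_
      have hC2 : (C' : ℤ) ≤ C := by exact_mod_cast hC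
      exact bd_mono hC2 (he _)
    · refine iff_of_false ?_ ?_
      · intro h1
        refine hy (e (Fin.last m)) (fun j => -e (Fin.castSucc j)) h0 (he _)
          (fun j => bd_neg (he _)) ?_
        have h2 : ∑ j : Fin m, -e (Fin.castSucc j) * x j =
            -∑ j : Fin m, e (Fin.castSucc j) * x j := by
          rw [← Finset.sum_neg_distrib]
          exact Finset.sum_congr rfl fun j _ => neg_mul _ _
        rw [h2]
        linear_combination h1
      · intro h1
        exact hy' (Set.mem_biUnion (show e ∈ {e : Fin (m + 1) → O | ∀ j, bd C' (e j)} from he)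
          ⟨h0, h1⟩)
  · intro j
    rw [cong_iff]
    refine Fin.lastCases ?_ (fun j => ?_) j
    · simp only [Fin.snoc_last]
      exact ⟨(k : O), hk.symm⟩
    · simp only [Fin.snoc_castSucc]
      obtain ⟨z, hz⟩ := cong_iff.1 (hcong j)
      obtain ⟨r, rfl⟩ := hL
      refine ⟨(r : O) * z, ?_⟩
      rw [hz]
      push_cast
      ring

theorem holds : S_lat := by
  intro C' L' hL'
  refine ⟨21 * C' ^ 3 + C', L' * (3 * C' ^ 2).factorial,
    Nat.mul_pos hL' (Nat.factorial_pos _), Dvd.intro _ rfl, Nat.le_add_left _ _, ?_⟩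
  intro m μ x x' h y
  by_cases hA : ∃ (c : O) (cs : Fin m → O), c ≠ 0 ∧ bd C' c ∧ (∀ j, bd C' (cs j)) ∧
      c * y = ∑ j, cs j * x j
  · obtain ⟨c, cs, h1, h2, h3, h4⟩ := hA
    exact caseA h1 h2 h3 h4 h
  · exact caseB hL' (fun c cs h1 h2 h3 h4 => hA ⟨c, cs, h1, h2, h3, h4⟩)
      (Nat.le_add_left _ _) (Dvd.intro _ rfl) h

end Pool.Agent.H94.EClat
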