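import Pool.Agent.H646.EC.Stm

set_option autoImplicit false

namespace Pool.Agent.H997.ECmono

open Pool.Agent.H646.EC LaurentPolynomial

section

variable {F : Type} [Field F] (ρ : ZMod 6 →+* F)

/-- the Laurent polynomial of the reduced coefficients -/
noncomputable def red (h : ℤ →₀ ZMod 6) : F[T;T⁻¹] :=
  AddMonoidAlgebra.ofCoeff (h.mapRange ρ (map_zero ρ))

theorem red_coeff (h : ℤ →₀ ZMod 6) (k : ℤ) : (red ρ h).coeff k = ρ (h k) := by
  simp [red]

theorem red_add (h h' : ℤ →₀ ZMod 6) : red ρ (h + h') = red ρ h + red ρ h' := by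
  ext k
  simp [red_coeff]

theorem red_neg (h : ℤ →₀ ZMod 6) : red ρ (-h) = -red ρ h := by
  ext k
  simp [red_coeff]

theorem red_zero : red ρ 0 = 0 := by
  ext k
  simp [red_coeff]

theorem red_sh (d : ℤ) (h : ℤ →₀ ZMod 6) : red ρ (sh d h) = T d * red ρ h := by
  ext k
  rw [red_coeff, sh_apply, T, AddMonoidAlgebra.coeff_single_mul_eq_mul_coeff (k - d), one_mul,
    red_coeff]
  intro m _
  constructor <;> intro h <;> omega

theorem red_one : red ρ (Finsupp.single 0 1) = 1 := by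
  ext k
  rw [red_coeff, ← T_zero, T_apply, Finsupp.single_apply]
  split_ifs <;> simp

/-- the `d`-part -/
def dH : Q0 →* Multiplicative ℤ where
  toFun x := Multiplicative.ofAdd x.d
  map_one' := rfl
  map_mul' _ _ := rfl

theorem zpow_d (x : Q0) (k : ℤ) : (x ^ k).d = k * x.d := by
  have h := map_zpow dH x k
  have h2 : (dH (x ^ k)).toAdd = k * x.d := by
    rw [h, toAdd_zpow]
    rfl
  exact h2

theorem key (q : Fin 7 → Q0) (hgen : Subgroup.closure (Set.range q) = ⊤) (h : Lab0 q) :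
    IsUnit (red ρ (q 3).h) := by
  obtain ⟨I, hI⟩ : ∃ I, I = Ideal.span {red ρ (q 3).h} := ⟨_, rfl⟩
  let S : Subgroup Q0 :=
    { carrier := {x | ∃ k : ℤ, x.d = ((q 6) ^ k).d ∧ red ρ x.h - red ρ ((q 6) ^ k).h ∈ I}
      one_mem' := ⟨0, by simp, by simp⟩
      mul_mem' := by
        rintro x y ⟨k, hk, hk'⟩ ⟨l, hl, hl'⟩
        refine ⟨k + l, ?_, ?_⟩
        · rw [zpow_add, Q0.mul_d, Q0.mul_d, hk, hl]
        · rw [zpow_add, Q0.mul_h, Q0.mul_h, red_add, red_add, red_sh, red_sh, hk]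
          have e : red ρ x.h + T ((q 6 ^ k).d) * red ρ y.h -
              (red ρ (q 6 ^ k).h + T ((q 6 ^ k).d) * red ρ (q 6 ^ l).h) =
              (red ρ x.h - red ρ (q 6 ^ k).h) +
                T ((q 6 ^ k).d) * (red ρ y.h - red ρ (q 6 ^ l).h) := by ring
          rw [e]
          exact I.add_mem hk' (I.mul_mem_left _ hl')
      inv_mem' := by
        rintro x ⟨k, hk, hk'⟩
        refine ⟨-k, ?_, ?_⟩
        · rw [zpow_neg, Q0.inv_d, Q0.inv_d, hk]
        · rw [zpow_neg, Q0.inv_h, Q0.inv_h, red_neg, red_neg, red_sh, red_sh, hk]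
          have e : -(T (-(q 6 ^ k).d) * red ρ x.h) - -(T (-(q 6 ^ k).d) * red ρ (q 6 ^ k).h) =
              (-T (-(q 6 ^ k).d)) * (red ρ x.h - red ρ (q 6 ^ k).h) := by ring
          rw [e]
          exact I.mul_mem_left _ hk' }
  have hS : ∀ x, x ∈ S ↔ ∃ k : ℤ, x.d = ((q 6) ^ k).d ∧ red ρ x.h - red ρ ((q 6) ^ k).h ∈ I :=
    fun x => Iff.rfl
  have hle : Subgroup.closure (Set.range q) ≤ S := by
    rw [Subgroup.closure_le]
    rintro _ ⟨i, rfl⟩
    rw [SetLike.mem_coe, hS]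
    have h0 : ∀ i, (q i).h = 0 → (q i).d = 0 →
        ∃ k : ℤ, (q i).d = ((q 6) ^ k).d ∧ red ρ (q i).h - red ρ ((q 6) ^ k).h ∈ I := by
      intro i h1 h2
      refine ⟨0, ?_, ?_⟩
      · rw [h2, zpow_zero, Q0.one_d]
      · rw [h1, zpow_zero, Q0.one_h, sub_self]
        exact I.zero_mem
    fin_cases i
    · exact h0 0 (by rw [h.q0]; rfl) (by rw [h.q0]; rfl)
    · exact h0 1 (by rw [h.q1]; rfl) (by rw [h.q1]; rfl)
    · exact h0 2 (by rw [h.q2]; rfl) (by rw [h.q2]; rfl)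
    · refine ⟨0, ?_, ?_⟩
      · rw [zpow_zero, Q0.one_d]
        exact h.d3
      · rw [zpow_zero, Q0.one_h, red_zero, sub_zero, hI]
        exact Ideal.mem_span_singleton_self _
    · exact h0 4 h.h4 h.d4
    · exact h0 5 h.h5 h.d5
    · refine ⟨1, ?_, ?_⟩
      · rw [zpow_one]
        rfl
      · rw [zpow_one]
        show red ρ (q 6).h - red ρ (q 6).h ∈ I
        rw [sub_self]
        exact I.zero_mem
  have hmem : (⟨Finsupp.single 0 1, 0, 0⟩ : Q0) ∈ S := hle (by rw [hgen]; exact Subgroup.mem_top _)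
  obtain ⟨k, hk, hk'⟩ := (hS _).1 hmem
  have hk0 : k = 0 := by
    rw [zpow_d] at hk
    have hk1 : k * (q 6).d = 0 := hk.symm
    rcases h.d6 with h6 | h6
    · rw [h6] at hk1
      omega
    · rw [h6] at hk1
      omega
  rw [hk0, zpow_zero, Q0.one_h, red_zero, sub_zero] at hk'
  have h1 : red ρ (Finsupp.single 0 1) ∈ I := hk'
  rw [red_one, hI, Ideal.mem_span_singleton] at h1
  exact isUnit_of_dvd_one h1

theorem unit_mono {f : F[T;T⁻¹]} (hf : IsUnit f) :
    ∃ (i : ℤ) (c : F), c ≠ 0 ∧ ∀ k, f.coeff k = if k = i then c else 0 := by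
  obtain ⟨g, hg⟩ := hf.exists_right_inv
  obtain ⟨n, f', hf'⟩ := exists_T_pow f
  obtain ⟨m, g', hg'⟩ := exists_T_pow g
  have h1 : f' * g' = Polynomial.X ^ (n + m) := by
    apply Polynomial.toLaurent_injective
    rw [map_mul, hf', hg', Polynomial.toLaurent_X_pow]
    calc f * T n * (g * T m) = (f * g) * (T n * T m) := by ring
      _ = T ((n + m : ℕ) : ℤ) := by
        rw [hg, one_mul, ← T_add]
        push_cast
        rfl
  obtain ⟨i, hi, hass⟩ := (dvd_prime_pow Polynomial.prime_X (n + m)).1 ⟨g', h1.symm⟩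
  obtain ⟨u, hu⟩ := hass.symm
  obtain ⟨c, hc, hcu⟩ := Polynomial.isUnit_iff.1 u.isUnit
  have h3 : f = C c * T ((i : ℤ) - n) := by
    have h4 : f = f * T n * T (-n) := by
      rw [mul_assoc, ← T_add, add_neg_cancel, T_zero, mul_one]
    rw [h4, ← hf', ← hu, ← hcu, map_mul, Polynomial.toLaurent_X_pow, Polynomial.toLaurent_C,
      T_sub]
    ring
  refine ⟨(i : ℤ) - n, c, hc.ne_zero, fun k => ?_⟩
  rw [h3, ← single_eq_C_mul_T]
  simp only [AddMonoidAlgebra.coeff_single, Finsupp.single_apply]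
  by_cases hk : k = (i : ℤ) - n
  · rw [if_pos hk, if_pos hk.symm]
  · rw [if_neg hk, if_neg (fun h => hk h.symm)]

theorem mono (q : Fin 7 → Q0) (hgen : Subgroup.closure (Set.range q) = ⊤) (h : Lab0 q) :
    ∃ (i : ℤ) (c : F), c ≠ 0 ∧ ∀ k, ρ ((q 3).h k) = if k = i then c else 0 := by
  obtain ⟨i, c, hc, hk⟩ := unit_mono (key ρ q hgen h)
  exact ⟨i, c, hc, fun k => by rw [← hk k, red_coeff]⟩

end

theorem z2 : ∀ c : ZMod 2, c ≠ 0 → c = 1 := by decide

theorem z3 : ∀ c : ZMod 3, c ≠ 0 → c = 1 ∨ c = -1 := by decide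

theorem holds : Pool.Agent.H646.EC.S_mono := by
  intro q hgen h
  have p2 : Fact (Nat.Prime 2) := ⟨Nat.prime_two⟩
  have p3 : Fact (Nat.Prime 3) := ⟨Nat.prime_three⟩
  refine ⟨h, ?_, ?_⟩
  · obtain ⟨i, c, hc, hk⟩ := mono (F := ZMod 2) r2 q hgen h
    exact ⟨i, fun k => by rw [hk k, z2 c hc]⟩
  · obtain ⟨i, c, hc, hk⟩ := mono (F := ZMod 3) r3 q hgen h
    exact ⟨i, c, z3 c hc, hk⟩

end Pool.Agent.H997.ECmono
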