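import Pool.Agent.H646.EC.Stm

/-!
# The block sizes; `Phi` is surjective
-/

set_option autoImplicit false

namespace Pool.Agent.H746.ECnn

open Pool.Agent.H646.EC

lemma nn_zero : nn 0 = 5 := by
  have h : Nat.count Nat.Prime 5 = 2 := by decide
  have h2 := Nat.nth_count (p := Nat.Prime) (by norm_num : Nat.Prime 5)
  rw [h] at h2
  exact h2

lemma nn_one : nn 1 = 7 := by
  have h : Nat.count Nat.Prime 7 = 3 := by decide
  have h2 := Nat.nth_count (p := Nat.Prime) (by norm_num : Nat.Prime 7)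
  rw [h] at h2
  exact h2

theorem holds : S_nn := by
  have h1 : ∀ i, (nn i).Prime := fun i => Nat.prime_nth_prime _
  have h2 : StrictMono nn := by
    intro a b hab
    exact Nat.nth_strictMono Nat.infinite_setOfPred_prime (by omega)
  have h3 : ∀ i, 5 ≤ nn i := by
    intro i
    rw [← nn_zero]
    exact h2.monotone (Nat.zero_le i)
  refine ⟨h1, h3, h2.injective, nn_zero, nn_one, fun i => (h1 i).odd_of_ne_two ?_⟩
  have := h3 i
  omega

lemma mem_gen (i : Fin 7) : (![1, 1, 1, ⟨Finsupp.single 0 1, 0, 0⟩, ⟨0, (1, 0), 0⟩,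
    ⟨0, (0, 1), 0⟩, ⟨0, 0, 1⟩] : Fin 7 → Q0) i ∈ Phi.range :=
  ⟨FreeGroup.of i, by rw [Phi, FreeGroup.lift_apply_of]⟩

lemma mul_hh (h h' : ℤ →₀ ZMod 6) : (⟨h + h', 0, 0⟩ : Q0) = ⟨h, 0, 0⟩ * ⟨h', 0, 0⟩ := by
  refine Q0.ext ?_ ?_ ?_ <;> simp [sh_zero]

lemma mul_ee (e e' : D) : (⟨0, e + e', 0⟩ : Q0) = ⟨0, e, 0⟩ * ⟨0, e', 0⟩ := by
  refine Q0.ext ?_ ?_ ?_ <;> simp [sh_zero]

lemma mul_dd (d d' : ℤ) : (⟨0, 0, d + d'⟩ : Q0) = ⟨0, 0, d⟩ * ⟨0, 0, d'⟩ := by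
  refine Q0.ext ?_ ?_ ?_
  · rw [Q0.mul_h, zero_add, sh, Finsupp.mapDomain_zero]
  · simp
  · simp

lemma mul_all (h : ℤ →₀ ZMod 6) (e : D) (d : ℤ) :
    (⟨h, e, d⟩ : Q0) = ⟨h, 0, 0⟩ * ⟨0, e, 0⟩ * ⟨0, 0, d⟩ := by
  refine Q0.ext ?_ ?_ ?_
  · simp only [Q0.mul_h, Q0.mul_d, sh, Finsupp.mapDomain_zero, add_zero]
  · simp
  · simp

lemma one_eq : (1 : Q0) = ⟨0, 0, 0⟩ := rfl

lemma mem_d (d : ℤ) : (⟨0, 0, d⟩ : Q0) ∈ Phi.range := by
  have h1 : (⟨0, 0, 1⟩ : Q0) ∈ Phi.range := mem_gen 6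
  have h0 : (⟨0, 0, 0⟩ : Q0) ∈ Phi.range := by
    rw [← one_eq]
    exact one_mem _
  have hm : (⟨0, 0, -1⟩ : Q0) ∈ Phi.range := by
    have h2 := inv_mem h1
    have h3 : (⟨0, 0, 1⟩ : Q0)⁻¹ = ⟨0, 0, -1⟩ := by
      refine Q0.ext ?_ ?_ ?_
      · rw [Q0.inv_h, sh, Finsupp.mapDomain_zero, neg_zero]
      · simp
      · simp
    rwa [h3] at h2
  induction d using Int.induction_on with
  | zero => exact h0
  | succ n ih =>
    rw [mul_dd]
    exact mul_mem ih h1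
  | pred n ih =>
    rw [sub_eq_add_neg, mul_dd]
    exact mul_mem ih hm

lemma mem_e (e : D) : (⟨0, e, 0⟩ : Q0) ∈ Phi.range := by
  have h1 : (⟨0, (1, 0), 0⟩ : Q0) ∈ Phi.range := mem_gen 4
  have h2 : (⟨0, (0, 1), 0⟩ : Q0) ∈ Phi.range := mem_gen 5
  have h3 : ∀ (f : D), (⟨0, f, 0⟩ : Q0) ∈ Phi.range → ∀ n : ℕ, (⟨0, n • f, 0⟩ : Q0) ∈ Phi.range := by
    intro f hf n
    induction n with
    | zero =>
      rw [zero_smul, ← one_eq]
      exact one_mem _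
    | succ n ih =>
      rw [succ_nsmul, mul_ee]
      exact mul_mem ih hf
  have h4 : e = e.1.val • ((1, 0) : D) + e.2.val • ((0, 1) : D) := by
    revert e
    decide
  rw [h4, mul_ee]
  exact mul_mem (h3 _ h1 _) (h3 _ h2 _)

lemma mem_h (h : ℤ →₀ ZMod 6) : (⟨h, 0, 0⟩ : Q0) ∈ Phi.range := by
  have h1 : (⟨Finsupp.single 0 1, 0, 0⟩ : Q0) ∈ Phi.range := mem_gen 3
  have h2 : ∀ n : ℕ, (⟨n • Finsupp.single 0 1, 0, 0⟩ : Q0) ∈ Phi.range := by
    intro n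
    induction n with
    | zero =>
      rw [zero_smul, ← one_eq]
      exact one_mem _
    | succ n ih =>
      rw [succ_nsmul, mul_hh]
      exact mul_mem ih h1
  induction h using Finsupp.induction_linear with
  | zero =>
    rw [← one_eq]
    exact one_mem _
  | add f g hf hg =>
    rw [mul_hh]
    exact mul_mem hf hg
  | single k c =>
    have h3 : (⟨Finsupp.single k c, 0, 0⟩ : Q0) =
        ⟨0, 0, k⟩ * ⟨c.val • Finsupp.single 0 1, 0, 0⟩ * ⟨0, 0, -k⟩ := by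
      refine Q0.ext ?_ ?_ ?_
      · have h4 : c.val • (Finsupp.single 0 1 : ℤ →₀ ZMod 6) = Finsupp.single 0 c := by
          rw [Finsupp.smul_single, nsmul_eq_mul, mul_one, ZMod.natCast_val, ZMod.cast_id',
            id_eq]
        rw [Q0.mul_h, Q0.mul_h, h4]
        simp only [sh, Finsupp.mapDomain_zero, add_zero, zero_add, Finsupp.mapDomain_single]
      · simp
      · simp
    rw [h3]
    exact mul_mem (mul_mem (mem_d k) (h2 _)) (mem_d _)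

theorem holds_phi : S_phi := by
  intro q
  have h : q ∈ Phi.range := by
    obtain ⟨h, e, d⟩ := q
    rw [mul_all]
    exact mul_mem (mul_mem (mem_h h) (mem_e e)) (mem_d d)
  exact h

end Pool.Agent.H746.ECnn
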