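import Pool.Agent.H646.EC.Stm

set_option autoImplicit false

namespace Pool.Agent.H364.ECNorm
open Pool.Agent.H646.EC

noncomputable section

variable {n : ℕ} {K : Type} [CommRing K] {γ₁ γ₂ : Kˣ}

/-- the O-part -/
def Mp (u : NN n K γ₁ γ₂) : ZMod n → O × O := fun x => ((u x).1.x, (u x).2.x)

theorem Mp_mul (u v : NN n K γ₁ γ₂) : Mp (u * v) = Mp u + Mp v := rfl
theorem Mp_one : Mp (1 : NN n K γ₁ γ₂) = 0 := rfl
theorem Mp_inv (u : NN n K γ₁ γ₂) : Mp (u⁻¹) = -Mp u := rfl

def MpH : NN n K γ₁ γ₂ →* Multiplicative (ZMod n → O × O) where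
  toFun u := Multiplicative.ofAdd (Mp u)
  map_one' := rfl
  map_mul' _ _ := rfl

/-- the action on O-parts -/
def qa (n : ℕ) (q : Q0) (m : ZMod n → O × O) : ZMod n → O × O :=
  fun x => (us (dv n q x).1 * (m (x - q.d)).1, us (dv n q x).1 * (m (x - q.d)).2)

theorem Mp_nactF (q : Q0) (u : NN n K γ₁ γ₂) : Mp (nactF q u) = qa n q (Mp u) := rfl

theorem qa_mul (a b : Q0) (m : ZMod n → O × O) : qa n (a * b) m = qa n a (qa n b m) := by
  funext x
  simp only [qa, dv_mul, Prod.fst_add, us_add, Q0.mul_d]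
  have h : x - ((a.d + b.d : ℤ) : ZMod n) = x - a.d - b.d := by push_cast; ring
  rw [h]
  ext1 <;> simp only [mul_assoc]

theorem qa_one (m : ZMod n → O × O) : qa n 1 m = m := by
  funext x
  simp [qa, dv_one, us_zero]

theorem qa_add (q : Q0) (m m' : ZMod n → O × O) : qa n q (m + m') = qa n q m + qa n q m' := by
  funext x
  simp only [qa, Pi.add_apply, Prod.fst_add, Prod.snd_add, mul_add]
  rfl

theorem qa_zero (q : Q0) : qa n q 0 = 0 := by
  funext x
  simp [qa]

theorem qa_neg (q : Q0) (m : ZMod n → O × O) : qa n q (-m) = -qa n q m := by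
  funext x
  simp only [qa, Pi.neg_apply, Prod.fst_neg, Prod.snd_neg, mul_neg]
  rfl

/-- the cocycle -/
def ta (g : Blk n K γ₁ γ₂) : ZMod n → O × O := Mp g.left

theorem ta_mul (g h : Blk n K γ₁ γ₂) : ta (g * h) = ta g + qa n g.right (ta h) := rfl
theorem ta_one : ta (1 : Blk n K γ₁ γ₂) = 0 := rfl

/-- the elements commuting with `g0` modulo the elements with trivial O-part -/
def cen (g0 : Blk n K γ₁ γ₂) : Subgroup (Blk n K γ₁ γ₂) where
  carrier := {g | ta (g0 * g) = ta (g * g0) ∧ g0.right * g.right = g.right * g0.right}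
  mul_mem' := by
    rintro g h ⟨hg1, hg2⟩ ⟨hh1, hh2⟩
    refine ⟨?_, ?_⟩
    · rw [← mul_assoc, ta_mul, hg1, SemidirectProduct.mul_right, hg2, mul_assoc, ta_mul g (h * g0),
        ← hh1, ta_mul, ta_mul, qa_add, qa_mul, add_assoc]
    · rw [SemidirectProduct.mul_right, ← mul_assoc, hg2, mul_assoc, hh2, mul_assoc]
  one_mem' := ⟨by rw [mul_one, one_mul], by rw [SemidirectProduct.one_right, mul_one, one_mul]⟩
  inv_mem' := by
    rintro g ⟨hg1, hg2⟩
    have e1 : g0 * g⁻¹ = g⁻¹ * (g * g0) * g⁻¹ := by group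
    have e2 : g⁻¹ * g0 = g⁻¹ * (g0 * g) * g⁻¹ := by group
    have e3 : (g⁻¹ * (g * g0)).right = (g⁻¹ * (g0 * g)).right := by
      rw [SemidirectProduct.mul_right, SemidirectProduct.mul_right, SemidirectProduct.mul_right,
        SemidirectProduct.mul_right, hg2]
    refine ⟨?_, ?_⟩
    · rw [e1, e2, ta_mul (g⁻¹ * (g * g0)), ta_mul (g⁻¹ * (g0 * g)), e3, ta_mul g⁻¹ (g * g0),
        ta_mul g⁻¹ (g0 * g), hg1]
    · have e4 : (g0 * g⁻¹).right = (g⁻¹ * g0).right := by
        rw [e1, e2, SemidirectProduct.mul_right, e3, ← SemidirectProduct.mul_right]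
      rwa [SemidirectProduct.mul_right, SemidirectProduct.mul_right] at e4

theorem cen_of_commute {g0 g : Blk n K γ₁ γ₂} (h : g0 * g = g * g0) : g ∈ cen g0 :=
  ⟨by rw [h], by rw [← SemidirectProduct.mul_right, h, SemidirectProduct.mul_right]⟩

theorem cen_of_W {g0 g : Blk n K γ₁ γ₂} (h : g.right = 1) (h' : ta g = 0) : g ∈ cen g0 := by
  refine ⟨?_, by rw [h, mul_one, one_mul]⟩
  rw [ta_mul, ta_mul, h', h, qa_one, qa_zero, add_zero, zero_add]

/-- um and uw on functions -/
def umf (m : ZMod n → O × O) : NN n K γ₁ γ₂ := fun x => um (m x)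
def uwf (w : ZMod n → (ZMod 6 → K) × (ZMod 6 → K)) : NN n K γ₁ γ₂ := fun x => uw (w x)

theorem U_ext {a b : U K γ₁ γ₂} (h1 : ∀ l, a.1.f l = b.1.f l) (h2 : a.1.x = b.1.x)
    (h3 : ∀ l, a.2.f l = b.2.f l) (h4 : a.2.x = b.2.x) : a = b :=
  Prod.ext (Hgp.ext (funext h1) h2) (Hgp.ext (funext h3) h4)

theorem umf_mul (m m' : ZMod n → O × O) :
    (umf m * umf m' : NN n K γ₁ γ₂) = umf (m + m') := by
  funext x
  apply U_ext <;> simp [umf, um]

theorem umf_zero : (umf 0 : NN n K γ₁ γ₂) = 1 := by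
  funext x
  apply U_ext <;> simp [umf, um]

theorem umf_inv (m : ZMod n → O × O) : ((umf m)⁻¹ : NN n K γ₁ γ₂) = umf (-m) := by
  rw [inv_eq_iff_mul_eq_one, umf_mul, add_neg_cancel, umf_zero]

theorem nactF_umf (q : Q0) (m : ZMod n → O × O) :
    (nactF q (umf m) : NN n K γ₁ γ₂) = umf (qa n q m) := by
  funext x
  apply U_ext <;> simp [umf, um, nactF, uact, qa]

theorem umf_inj {m m' : ZMod n → O × O} (h : (umf m : NN n K γ₁ γ₂) = umf m') : m = m' := by
  have := congrArg Mp h
  exact this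

theorem uwf_mul (m m' : ZMod n → (ZMod 6 → K) × (ZMod 6 → K)) :
    (uwf m * uwf m' : NN n K γ₁ γ₂) = uwf (m + m') := by
  funext x
  apply U_ext <;> simp [uwf, uw, ph_zero]

theorem uwf_zero : (uwf 0 : NN n K γ₁ γ₂) = 1 := by
  funext x
  apply U_ext <;> simp [uwf, uw]

theorem uwf_inv (m : ZMod n → (ZMod 6 → K) × (ZMod 6 → K)) :
    ((uwf m)⁻¹ : NN n K γ₁ γ₂) = uwf (-m) := by
  rw [inv_eq_iff_mul_eq_one, uwf_mul, add_neg_cancel, uwf_zero]

theorem eq_uwf (u : NN n K γ₁ γ₂) (h : Mp u = 0) :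
    u = uwf (fun x => ((u x).1.f, (u x).2.f)) := by
  funext x
  have h1 := congrFun h x
  have h2 : (u x).1.x = 0 := congrArg Prod.fst h1
  have h3 : (u x).2.x = 0 := congrArg Prod.snd h1
  apply U_ext <;> simp [uwf, uw, h2, h3]

theorem sn_one : (sn K (1 : ZMod 2) : K) = -1 := by
  have h1 : (1 : ZMod 2).val = 1 := by decide
  simp [sn, h1]

theorem dv_const {q : Q0} (hh : q.h = 0) (x : ZMod n) : dv n q x = q.e := by
  rw [dv, hh, fold_zero]
  simp

theorem eq_zero_of_neg (hK : IsUnit (2 : K)) {a : K} (h : -a = a) : a = 0 := by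
  have h2 : 2 * a = 0 := by
    have : a + a = 0 := by
      nth_rewrite 1 [← h]
      exact neg_add_cancel a
    rw [two_mul]
    exact this
  exact (hK.mul_right_eq_zero).1 h2

/-- elements commuting with `inr q5` have no W-part -/
theorem eq_umf (hK : IsUnit (2 : K)) {q : Q0} (hh : q.h = 0) (he : q.e = (0, 1)) (hd : q.d = 0)
    (u : NN n K γ₁ γ₂) (h : nactF q u = u) : u = umf (Mp u) := by
  funext x
  have h1 := congrFun h x
  have h2 : uact (0, 1) (u x) = u x := by
    have h3 : nactF q u x = uact (0, 1) (u x) := by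
      simp only [nactF, dv_const hh, he, hd, Int.cast_zero, sub_zero]
    rw [← h3]
    exact h1
  have h4 : ∀ l, (u x).1.f l = 0 := by
    intro l
    have h5 := congrArg (fun v : U K γ₁ γ₂ => v.1.f l) h2
    simp only [uact, actF_f, sn_one, add_zero, neg_mul, one_mul] at h5
    exact eq_zero_of_neg hK h5
  have h4' : ∀ l, (u x).2.f l = 0 := by
    intro l
    have h5 := congrArg (fun v : U K γ₁ γ₂ => v.2.f l) h2
    simp only [uact, actF_f, sn_one, add_zero, neg_mul, one_mul] at h5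
    exact eq_zero_of_neg hK h5
  apply U_ext
  · intro l; simp [umf, um, h4]
  · rfl
  · intro l; simp [umf, um, h4']
  · rfl

theorem nactF_uwf_neg {q : Q0} (hh : q.h = 0) (he : q.e = (0, 1)) (hd : q.d = 0)
    (w : ZMod n → (ZMod 6 → K) × (ZMod 6 → K)) :
    (nactF q (uwf w) : NN n K γ₁ γ₂) = uwf (-w) := by
  funext x
  simp only [nactF, dv_const hh, he, hd, Int.cast_zero, sub_zero]
  apply U_ext <;> simp [uwf, uw, uact, sn_one]

theorem inr_mul_inl (q : Q0) (u : NN n K γ₁ γ₂) :
    (SemidirectProduct.inr q * SemidirectProduct.inl u : Blk n K γ₁ γ₂) =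
      SemidirectProduct.inl (nactF q u) * SemidirectProduct.inr q := by
  apply SemidirectProduct.ext
  · simp
  · simp

theorem eq_inl_inr (g : Blk n K γ₁ γ₂) :
    g = SemidirectProduct.inl g.left * SemidirectProduct.inr g.right :=
  (SemidirectProduct.inl_left_mul_inr_right g).symm

theorem nactF_map_one (q : Q0) : (nactF q 1 : NN n K γ₁ γ₂) = 1 :=
  map_one (nact n K γ₁ γ₂ q)

/-- an element that commutes with `inr q` has a fixed left part, if its label commutes -/
theorem nactF_of_comm {g : Blk n K γ₁ γ₂} {q : Q0}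
    (h : SemidirectProduct.inr q * g = g * SemidirectProduct.inr q) : nactF q g.left = g.left := by
  have h1 := congrArg SemidirectProduct.left h
  simpa [nactF_map_one] using h1

theorem O_two {a : O} (h : a + a = 0) : a = 0 := by
  have h1 := congrArg QuadraticAlgebra.re h
  have h2 := congrArg QuadraticAlgebra.im h
  simp only [QuadraticAlgebra.re_add, QuadraticAlgebra.im_add, QuadraticAlgebra.re_zero,
    QuadraticAlgebra.im_zero] at h1 h2
  ext
  · simp; omega
  · simp; omega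

theorem O_smul (k : ℤ) (hk : k ≠ 0) {a : O} (h : k • a = 0) : a = 0 := by
  have h1 := congrArg QuadraticAlgebra.re h
  have h2 := congrArg QuadraticAlgebra.im h
  simp only [QuadraticAlgebra.re_smul, QuadraticAlgebra.im_smul, QuadraticAlgebra.re_zero,
    QuadraticAlgebra.im_zero, smul_eq_mul] at h1 h2
  ext
  · simp only [QuadraticAlgebra.re_zero]
    rcases mul_eq_zero.1 h1 with h3 | h3
    · exact absurd h3 hk
    · exact h3
  · simp only [QuadraticAlgebra.im_zero]
    rcases mul_eq_zero.1 h2 with h3 | h3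
    · exact absurd h3 hk
    · exact h3

theorem us_eq_one {s : ZMod 6} (h : us s = 1) : s = 0 := by
  revert s; decide

theorem us_inv {s : ZMod 6} (h : s = 1 ∨ s = -1) : (1 - us s) * us s = 1 := by
  rcases h with rfl | rfl <;> decide

theorem us_fix {s : ZMod 6} (h : s = 1 ∨ s = -1) {a : O} (h' : us s * a = a) : a = 0 := by
  have h1 : (1 - us s) * a = 0 := by rw [sub_mul, one_mul, h', sub_self]
  calc a = ((1 - us s) * us s) * a := by rw [us_inv h, one_mul]
    _ = us s * ((1 - us s) * a) := by ring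
    _ = 0 := by rw [h1, mul_zero]

/-- the label of `z` -/
theorem zmod6_pm {s : ZMod 6} (h2 : r2 s = 1) (h3 : r3 s ≠ 0) : s = 1 ∨ s = -1 := by
  revert s
  decide

/-- relations -/
theorem rel_br {c : Fin 7 → Blk n K γ₁ γ₂} (a b : F7) (h : FreeGroup.lift c (br a b) = 1) :
    FreeGroup.lift c a * FreeGroup.lift c b = FreeGroup.lift c b * FreeGroup.lift c a := by
  rw [br, map_mul, map_mul, map_mul, map_inv, map_inv] at h
  have h1 := mul_inv_eq_one.1 h
  have h2 := mul_inv_eq_iff_eq_mul.1 h1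
  exact h2

theorem lift_X {c : Fin 7 → Blk n K γ₁ γ₂} (i : Fin 7) :
    FreeGroup.lift c (FreeGroup.of i) = c i := FreeGroup.lift_apply_of

def w175 : F7 := cnj (X1 ^ 2) Wd * cnj (X1 * X2) Wd ^ 2 * cnj (X2 ^ 2) Wd *
    (cnj X1 Wd ^ 44)⁻¹ * (cnj X2 Wd ^ 44)⁻¹ * Wd ^ 259

theorem mem175 : w175 ∈ Sig := by
  unfold Sig w175
  iterate 25 apply Set.mem_insert_of_mem
  exact Set.mem_insert _ _

theorem mem_zt : br Zt Tt ∈ Sig := by
  unfold Sig
  iterate 1 apply Set.mem_insert_of_mem
  exact Set.mem_insert _ _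
theorem mem_zy : br Zt Yt ∈ Sig := by
  unfold Sig
  iterate 2 apply Set.mem_insert_of_mem
  exact Set.mem_insert _ _
theorem mem_zb : br Zt Bt ∈ Sig := by
  unfold Sig
  iterate 3 apply Set.mem_insert_of_mem
  exact Set.mem_insert _ _
theorem mem_y2 : Yt ^ 2 ∈ Sig := by
  unfold Sig
  iterate 4 apply Set.mem_insert_of_mem
  exact Set.mem_insert _ _
theorem mem_yt : br Yt Tt ∈ Sig := by
  unfold Sig
  iterate 5 apply Set.mem_insert_of_mem
  exact Set.mem_insert _ _
theorem mem_yb : br Yt Bt ∈ Sig := by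
  unfold Sig
  iterate 6 apply Set.mem_insert_of_mem
  exact Set.mem_insert _ _
theorem mem_yx1 : br Yt X1 ∈ Sig := by
  unfold Sig
  iterate 7 apply Set.mem_insert_of_mem
  exact Set.mem_insert _ _
theorem mem_yx2 : br Yt X2 ∈ Sig := by
  unfold Sig
  iterate 8 apply Set.mem_insert_of_mem
  exact Set.mem_insert _ _

theorem word175 {N G A : Type} [Group N] [Group G] [AddCommGroup A] (i : N →* G)
    (hi : Function.Injective i) (M : N →* Multiplicative A) (c : Fin 7 → G) (u0 u1 u2 : N)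
    (e0 : c 0 = i u0) (e1 : c 1 = i u1) (e2 : c 2 = i u2)
    (h : FreeGroup.lift c w175 = 1) :
    (175 : ℤ) • Multiplicative.toAdd (M u2) = 0 := by
  simp only [w175, map_mul, map_inv, map_pow, cnj, X1, X2, Wd, FreeGroup.lift_apply_of, e0, e1, e2] at h
  simp only [← map_mul, ← map_inv, ← map_pow] at h
  have h1 := hi (h.trans (map_one _).symm)
  have h2 := congrArg (fun u : N => Multiplicative.toAdd (M u)) h1
  simp only [map_mul, map_inv, map_pow, toAdd_mul, toAdd_inv, toAdd_pow, map_one, toAdd_one] at h2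
  rw [← h2]
  module

/-- Step (a): the O-part of `u_2` vanishes. -/
theorem step_a (c : Fin 7 → Blk n K γ₁ γ₂) (hL : Lab (fun j => (c j).right)) (hR : Rel c) :
    ta (c 2) = 0 := by
  have q0 : (c 0).right = 1 := hL.q0
  have q1 : (c 1).right = 1 := hL.q1
  have q2 : (c 2).right = 1 := hL.q2
  have h := hR _ mem175
  have e0 : c 0 = SemidirectProduct.inl (c 0).left := by
    conv_lhs => rw [eq_inl_inr (c 0), q0, map_one, mul_one]
  have e1 : c 1 = SemidirectProduct.inl (c 1).left := by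
    conv_lhs => rw [eq_inl_inr (c 1), q1, map_one, mul_one]
  have e2 : c 2 = SemidirectProduct.inl (c 2).left := by
    conv_lhs => rw [eq_inl_inr (c 2), q2, map_one, mul_one]
  have h3 := word175 (G := Blk n K γ₁ γ₂) (N := NN n K γ₁ γ₂) SemidirectProduct.inl
    SemidirectProduct.inl_injective MpH c (c 0).left (c 1).left (c 2).left e0 e1 e2
  have h4 := h3 h
  funext x
  have h5 := congrFun h4 x
  apply Prod.ext
  · exact O_smul 175 (by norm_num) (congrArg Prod.fst h5)
  · exact O_smul 175 (by norm_num) (congrArg Prod.snd h5)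

/-- Step (b): the label of `c 5` and of `c 4`. -/
theorem step_b [NeZero n] (c : Fin 7 → Blk n K γ₁ γ₂) (hL : Lab (fun j => (c j).right))
    (hR : Rel c) (hG : Gen c) :
    (c 5).right.e = (0, 1) ∧ ((c 4).right.e.1 = 1 ∨ (c 4).right.e.1 = -1) := by
  have h50 : c 5 * c 0 = c 0 * c 5 := by
    have := rel_br _ _ (hR _ mem_yx1); simpa only [Yt, X1, lift_X] using this
  have h51 : c 5 * c 1 = c 1 * c 5 := by
    have := rel_br _ _ (hR _ mem_yx2); simpa only [Yt, X2, lift_X] using this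
  have h53 : c 5 * c 3 = c 3 * c 5 := by
    have := rel_br _ _ (hR _ mem_yb); simpa only [Yt, Bt, lift_X] using this
  have h54 : c 5 * c 4 = c 4 * c 5 := by
    have := rel_br _ _ (hR _ mem_zy); simpa only [Yt, Zt, lift_X] using this.symm
  have h56 : c 5 * c 6 = c 6 * c 5 := by
    have := rel_br _ _ (hR _ mem_yt); simpa only [Yt, Tt, lift_X] using this
  have hall : ∀ j, c j ∈ cen (c 5) := by
    intro j
    fin_cases j
    · exact cen_of_commute h50
    · exact cen_of_commute h51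
    · exact cen_of_W hL.q2 (step_a c hL hR)
    · exact cen_of_commute h53
    · exact cen_of_commute h54
    · exact cen_of_commute rfl
    · exact cen_of_commute h56
  have hrange : (FreeGroup.lift c).range ≤ cen (c 5) := by
    rw [MonoidHom.range_eq_map, ← FreeGroup.closure_range_of, MonoidHom.map_closure,
      Subgroup.closure_le]
    rintro _ ⟨_, ⟨j, rfl⟩, rfl⟩
    rw [lift_X]
    exact hall j
  have h5h : (c 5).right.h = 0 := hL.h5
  have h5d : (c 5).right.d = 0 := hL.d5
  have hu := hrange (hG (fun _ => (⟨0, 1⟩, ⟨0, 1⟩)))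
  have h1 : ta (c 5 * SemidirectProduct.inl (fun _ => (⟨0, 1⟩, ⟨0, 1⟩))) =
    ta (SemidirectProduct.inl (fun _ => (⟨0, 1⟩, ⟨0, 1⟩)) * c 5) := hu.1
  rw [ta_mul, ta_mul, SemidirectProduct.right_inl, qa_one, add_comm] at h1
  have h2 := add_right_cancel h1
  have h3 := congrArg Prod.fst (congrFun h2 0)
  have h4 : us (c 5).right.e.1 * 1 = 1 := by
    have h5 : (qa n (c 5).right (ta (SemidirectProduct.inl (fun _ => (⟨0, 1⟩, ⟨0, 1⟩)) :
        Blk n K γ₁ γ₂)) 0).1 = us (c 5).right.e.1 * 1 := by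
      simp only [qa, dv_const h5h]
      rfl
    rw [← h5]
    exact h3
  rw [mul_one] at h4
  have h6 := us_eq_one h4
  have hdet : r2 (c 4).right.e.1 * (c 5).right.e.2 - (c 4).right.e.2 * r2 (c 5).right.e.1 = 1 :=
    hL.det
  have he4 : r3 (c 4).right.e.1 ≠ 0 := hL.e4
  rw [h6, map_zero, mul_zero, sub_zero] at hdet
  have h7 : ∀ a b : ZMod 2, a * b = 1 → a = 1 ∧ b = 1 := by decide
  obtain ⟨h8, h9⟩ := h7 _ _ hdet
  refine ⟨Prod.ext h6 h9, zmod6_pm h8 he4⟩

/-- conjugate by an element of the normal part -/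
def cc (h : NN n K γ₁ γ₂) (g : Blk n K γ₁ γ₂) : Blk n K γ₁ γ₂ :=
  (SemidirectProduct.inl h)⁻¹ * g * SemidirectProduct.inl h

theorem cc_right (h : NN n K γ₁ γ₂) (g : Blk n K γ₁ γ₂) : (cc h g).right = g.right := by
  simp [cc]

theorem cc_comm (h : NN n K γ₁ γ₂) {a b : Blk n K γ₁ γ₂} (hab : a * b = b * a) :
    cc h a * cc h b = cc h b * cc h a := by
  have e1 : cc h a * cc h b = cc h (a * b) := by unfold cc; group
  have e2 : cc h b * cc h a = cc h (b * a) := by unfold cc; group
  rw [e1, e2, hab]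

theorem cc_cc (h k : NN n K γ₁ γ₂) (g : Blk n K γ₁ γ₂) : cc k (cc h g) = cc (h * k) g := by
  unfold cc
  rw [map_mul]
  group

theorem eq_cc (h : NN n K γ₁ γ₂) (g : Blk n K γ₁ γ₂) :
    g = SemidirectProduct.inl h * cc h g * (SemidirectProduct.inl h)⁻¹ := by
  unfold cc
  group

/-- `inl v * inr q` conjugated by `k` -/
theorem cc_eq_inr {k v : NN n K γ₁ γ₂} {q : Q0} (h : v = k * nactF q k⁻¹) :
    cc k (SemidirectProduct.inl v * SemidirectProduct.inr q) = SemidirectProduct.inr q := by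
  subst h
  have h1 : (SemidirectProduct.inr q * SemidirectProduct.inl k⁻¹ : Blk n K γ₁ γ₂) =
      SemidirectProduct.inl (nactF q k⁻¹) * SemidirectProduct.inr q := inr_mul_inl q k⁻¹
  unfold cc
  rw [map_mul, mul_assoc (SemidirectProduct.inl k), ← h1, map_inv]
  group

theorem stage1 (hK : IsUnit (2 : K)) (g : Blk n K γ₁ γ₂) (hh : g.right.h = 0)
    (he : g.right.e = (0, 1)) (hd : g.right.d = 0) (hg : g * g = 1) :
    ∃ v : NN n K γ₁ γ₂, cc v g = SemidirectProduct.inr g.right := by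
  have hta : ta g = 0 := by
    have h1 := congrArg ta hg
    rw [ta_mul, ta_one] at h1
    have h2 : qa n g.right (ta g) = ta g := by
      funext x
      simp only [qa, dv_const hh, he, hd, us_zero, Int.cast_zero, sub_zero, one_mul]
    rw [h2] at h1
    funext x
    have h3 := congrFun h1 x
    exact Prod.ext (O_two (congrArg Prod.fst h3)) (O_two (congrArg Prod.snd h3))
  obtain ⟨b, hb⟩ := hK.exists_right_inv
  have h4 := eq_uwf g.left hta
  set w5 : ZMod n → (ZMod 6 → K) × (ZMod 6 → K) := fun x => ((g.left x).1.f, (g.left x).2.f)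
    with hw5
  let hw : ZMod n → (ZMod 6 → K) × (ZMod 6 → K) := fun x =>
    (fun l => b * (w5 x).1 l, fun l => b * (w5 x).2 l)
  have hb' : ∀ a : K, b * a + b * a = a := by
    intro a
    calc b * a + b * a = (2 * b) * a := by ring
      _ = a := by rw [hb, one_mul]
  have h5 : hw + hw = w5 := by
    funext x
    apply Prod.ext
    · funext l; exact hb' _
    · funext l; exact hb' _
  refine ⟨uwf hw, ?_⟩
  conv_lhs => rw [eq_inl_inr g]
  apply cc_eq_inr
  rw [uwf_inv, nactF_uwf_neg hh he hd, neg_neg, uwf_mul, h5]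
  exact h4

theorem stage2 (hK : IsUnit (2 : K)) (g5 g4 : Blk n K γ₁ γ₂) (hh : g5.right.h = 0)
    (he : g5.right.e = (0, 1)) (hd : g5.right.d = 0) (hg : g5 * g5 = 1)
    (hh4 : g4.right.h = 0) (he4 : g4.right.e.1 = 1 ∨ g4.right.e.1 = -1) (hd4 : g4.right.d = 0)
    (hcomm : g5 * g4 = g4 * g5) :
    ∃ h : NN n K γ₁ γ₂, cc h g5 = SemidirectProduct.inr g5.right ∧
      cc h g4 = SemidirectProduct.inr g4.right := by
  obtain ⟨v, hv⟩ := stage1 hK g5 hh he hd hg
  have h1 := cc_comm v hcomm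
  rw [hv] at h1
  have h2 := nactF_of_comm h1
  have h3 := eq_umf hK hh he hd _ h2
  set m4 : ZMod n → O × O := Mp (cc v g4).left with hm4
  let kk : ZMod n → O × O := fun x =>
    (us g4.right.e.1 * (m4 x).1, us g4.right.e.1 * (m4 x).2)
  have h4 : ∀ a : O, us g4.right.e.1 * a + us g4.right.e.1 * -(us g4.right.e.1 * a) = a := by
    intro a
    calc us g4.right.e.1 * a + us g4.right.e.1 * -(us g4.right.e.1 * a)
        = ((1 - us g4.right.e.1) * us g4.right.e.1) * a := by ring
      _ = a := by rw [us_inv he4, one_mul]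
  have h5 : kk + qa n g4.right (-kk) = m4 := by
    funext x
    have h6 : qa n g4.right (-kk) x = (us g4.right.e.1 * -(us g4.right.e.1 * (m4 x).1),
        us g4.right.e.1 * -(us g4.right.e.1 * (m4 x).2)) := by
      simp only [qa, dv_const hh4, hd4, Int.cast_zero, sub_zero]
      rfl
    rw [Pi.add_apply, h6]
    exact Prod.ext (h4 _) (h4 _)
  refine ⟨v * umf kk, ?_, ?_⟩
  · rw [← cc_cc, hv]
    have h7 : (umf kk * nactF g5.right (umf kk)⁻¹ : NN n K γ₁ γ₂) = 1 := by
      rw [umf_inv, nactF_umf, umf_mul]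
      have h8 : qa n g5.right (-kk) = -kk := by
        funext x
        simp only [qa, dv_const hh, he, hd, us_zero, Int.cast_zero, sub_zero, one_mul]
      rw [h8, add_neg_cancel, umf_zero]
    have h9 := cc_eq_inr h7.symm
    rwa [map_one, one_mul] at h9
  · rw [← cc_cc]
    have h7 : (umf m4 : NN n K γ₁ γ₂) = umf kk * nactF g4.right (umf kk)⁻¹ := by
      rw [umf_inv, nactF_umf, umf_mul, h5]
    have h8 := cc_eq_inr h7
    rw [eq_inl_inr (cc v g4), h3, cc_right]
    exact h8

theorem stage3 (hK : IsUnit (2 : K)) (q5 q4 : Q0) (hh : q5.h = 0)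
    (he : q5.e = (0, 1)) (hd : q5.d = 0)
    (hh4 : q4.h = 0) (he4 : q4.e.1 = 1 ∨ q4.e.1 = -1) (hd4 : q4.d = 0) (g : Blk n K γ₁ γ₂)
    (h5 : SemidirectProduct.inr q5 * g = g * SemidirectProduct.inr q5)
    (h4 : SemidirectProduct.inr q4 * g = g * SemidirectProduct.inr q4) :
    g = SemidirectProduct.inr g.right := by
  have h1 := eq_umf hK hh he hd _ (nactF_of_comm h5)
  have h2 := congrArg Mp (nactF_of_comm h4)
  rw [Mp_nactF] at h2
  have h3 : Mp g.left = 0 := by
    funext x
    have h6 := congrFun h2 x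
    simp only [qa, dv_const hh4, hd4, Int.cast_zero, sub_zero] at h6
    exact Prod.ext (us_fix he4 (congrArg Prod.fst h6)) (us_fix he4 (congrArg Prod.snd h6))
  rw [h3, umf_zero] at h1
  conv_lhs => rw [eq_inl_inr g, h1, map_one, one_mul]

theorem holds : S_norm := by
  intro n _ K _ _ γ₁ γ₂ c hK hL hR hG
  obtain ⟨he5, he4⟩ := step_b c hL hR hG
  have ta2 := step_a c hL hR
  have h5h : (c 5).right.h = 0 := hL.h5
  have h5d : (c 5).right.d = 0 := hL.d5
  have h4h : (c 4).right.h = 0 := hL.h4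
  have h4d : (c 4).right.d = 0 := hL.d4
  have q0 : (c 0).right = 1 := hL.q0
  have q1 : (c 1).right = 1 := hL.q1
  have q2 : (c 2).right = 1 := hL.q2
  have h50 : c 5 * c 0 = c 0 * c 5 := by
    have := rel_br _ _ (hR _ mem_yx1); simpa only [Yt, X1, lift_X] using this
  have h51 : c 5 * c 1 = c 1 * c 5 := by
    have := rel_br _ _ (hR _ mem_yx2); simpa only [Yt, X2, lift_X] using this
  have h53 : c 5 * c 3 = c 3 * c 5 := by
    have := rel_br _ _ (hR _ mem_yb); simpa only [Yt, Bt, lift_X] using this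
  have h54 : c 5 * c 4 = c 4 * c 5 := by
    have := rel_br _ _ (hR _ mem_zy); simpa only [Yt, Zt, lift_X] using this.symm
  have h56 : c 5 * c 6 = c 6 * c 5 := by
    have := rel_br _ _ (hR _ mem_yt); simpa only [Yt, Tt, lift_X] using this
  have h43 : c 4 * c 3 = c 3 * c 4 := by
    have := rel_br _ _ (hR _ mem_zb); simpa only [Zt, Bt, lift_X] using this
  have h46 : c 4 * c 6 = c 6 * c 4 := by
    have := rel_br _ _ (hR _ mem_zt); simpa only [Zt, Tt, lift_X] using this
  have h55 : c 5 * c 5 = 1 := by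
    have := hR _ mem_y2
    rw [map_pow, pow_two] at this
    simpa only [Yt, lift_X] using this
  obtain ⟨h, hc5, hc4⟩ := stage2 hK (c 5) (c 4) h5h he5 h5d h55 h4h he4 h4d h54
  have hq : ∀ g, c 5 * g = g * c 5 → c 4 * g = g * c 4 →
      cc h g = SemidirectProduct.inr g.right := by
    intro g hg5 hg4
    have h1 := cc_comm h hg5
    have h2 := cc_comm h hg4
    rw [hc5] at h1
    rw [hc4] at h2
    have h3 := stage3 hK _ _ h5h he5 h5d h4h he4 h4d (cc h g) h1 h2
    rwa [cc_right] at h3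
  have hm : ∀ g, c 5 * g = g * c 5 → g.right = 1 →
      cc h g = SemidirectProduct.inl (fun x => um (Mp (cc h g).left x)) := by
    intro g hg5 hg
    have h1 := cc_comm h hg5
    rw [hc5] at h1
    have h2 := eq_umf hK h5h he5 h5d _ (nactF_of_comm h1)
    conv_lhs => rw [eq_inl_inr (cc h g), cc_right, hg, map_one, mul_one, h2]
    rfl
  have hw : cc h (c 2) = SemidirectProduct.inl
      (fun x => uw (((cc h (c 2)).left x).1.f, ((cc h (c 2)).left x).2.f)) := by
    have h1 : Mp (cc h (c 2)).left = 0 := by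
      have h2 : ta (cc h (c 2)) = 0 := by
        unfold cc
        rw [ta_mul, ta_mul, ta2, ← map_inv, SemidirectProduct.right_inl, SemidirectProduct.mul_right,
          q2, SemidirectProduct.right_inl, mul_one, qa_one, qa_one, add_zero]
        change Mp h⁻¹ + Mp h = 0
        rw [Mp_inv, neg_add_cancel]
      exact h2
    have h3 := eq_uwf _ h1
    conv_lhs => rw [eq_inl_inr (cc h (c 2)), cc_right, q2, map_one, mul_one, h3]
    rfl
  refine ⟨h, fun x => Mp (cc h (c 0)).left x, fun x => Mp (cc h (c 1)).left x,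
    fun x => (((cc h (c 2)).left x).1.f, ((cc h (c 2)).left x).2.f),
    ⟨?_, ?_, ?_, ?_, he5, he4⟩⟩
  · rw [← hm (c 0) h50 q0]
    exact eq_cc h (c 0)
  · rw [← hm (c 1) h51 q1]
    exact eq_cc h (c 1)
  · rw [← hw]
    exact eq_cc h (c 2)
  · intro j hj
    have h1 : cc h (c j) = SemidirectProduct.inr (c j).right := by
      fin_cases j
      · simp at hj
      · simp at hj
      · simp at hj
      · exact hq (c 3) h53 h43
      · exact hc4
      · exact hc5
      · exact hq (c 6) h56 h46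
    rw [← h1]
    exact eq_cc h (c j)

end
end Pool.Agent.H364.ECNorm
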