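import Pool.Agent.H646.EC.Stm

/-!
# EC: the sum of the block values of an element of `Q₀`
-/

set_option autoImplicit false

namespace Pool.Agent.H935.EC_odd

open Pool.Agent.H646.EC

theorem sum_fold (n : ℕ) [NeZero n] (h : ℤ →₀ ZMod 6) :
    ∑ x : ZMod n, fold n h x = h.sum fun _ c => c := by
  unfold fold Finsupp.sum
  rw [Finset.sum_comm]
  refine Finset.sum_congr rfl fun k _ => ?_
  rw [Finset.sum_ite_eq Finset.univ (k : ZMod n) (fun _ => h k), if_pos (Finset.mem_univ _)]

theorem sum_fst (n : ℕ) [NeZero n] (q : Q0) :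
    (∑ x : ZMod n, dv n q x).1 = (n : ZMod 6) * q.e.1 + q.h.sum fun _ c => c := by
  rw [Prod.fst_sum]
  have h1 : ∀ x : ZMod n, (dv n q x).1 = q.e.1 + fold n q.h x := fun x => rfl
  rw [Finset.sum_congr rfl fun x _ => h1 x, Finset.sum_add_distrib, sum_fold, Finset.sum_const,
    Finset.card_univ, ZMod.card, nsmul_eq_mul]

theorem sum_snd (n : ℕ) [NeZero n] (q : Q0) :
    (∑ x : ZMod n, dv n q x).2 = (n : ZMod 2) * q.e.2 := by
  rw [Prod.snd_sum]
  have h1 : ∀ x : ZMod n, (dv n q x).2 = q.e.2 := fun x => add_zero _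
  rw [Finset.sum_congr rfl fun x _ => h1 x, Finset.sum_const,
    Finset.card_univ, ZMod.card, nsmul_eq_mul]

theorem holds : S_odd := by
  intro q h5 h7 n _ hn
  obtain ⟨k, rfl⟩ := hn
  have a5 := congrArg Prod.fst h5
  have a7 := congrArg Prod.fst h7
  have b5 := congrArg Prod.snd h5
  rw [sum_fst] at a5 a7
  rw [sum_snd] at b5
  refine Prod.ext ?_ ?_
  · rw [sum_fst]
    generalize (q.h.sum fun _ c => c) = t at *
    generalize q.e.1 = e at *
    have h2 : 2 * e = 0 := by
      have h3 : ((7 : ℕ) : ZMod 6) * e + t - (((5 : ℕ) : ZMod 6) * e + t) = 0 := by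
        rw [a5, a7]; rfl
      rw [← h3]; push_cast; ring
    have h4 : ((2 * k + 1 : ℕ) : ZMod 6) * e + t =
        (((5 : ℕ) : ZMod 6) * e + t) + ((k : ZMod 6) - 2) * (2 * e) := by
      push_cast; ring
    rw [h4, a5, h2, mul_zero]
    rfl
  · rw [sum_snd]
    generalize q.e.2 = e at *
    have h2 : e = 0 := by
      have h3 : ((5 : ℕ) : ZMod 2) = 1 := by decide
      rw [h3, one_mul] at b5
      exact b5
    rw [h2, mul_zero]
    rfl

end Pool.Agent.H935.EC_odd
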