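import Pool.Agent.H646.EC.Stm

set_option autoImplicit false

/-! # Pigeonhole for types of finite rank -/

namespace Pool.Agent.H357.ECpig
noncomputable section

open Pool.Agent.H646.EC

/-- The types of rank `k` in `m` variables. -/
def Ty (ι : Type) : ℕ → ℕ → Type
  | 0, m => Set (Fin m × Fin m) × Set (ι × Fin m × Fin m × Fin m)
  | k + 1, m => Set (Ty ι k (m + 1))

theorem finite_Ty (ι : Type) [Finite ι] : ∀ k m : ℕ, Finite (Ty ι k m)
  | 0, m => by
    show Finite (Set (Fin m × Fin m) × Set (ι × Fin m × Fin m × Fin m))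
    infer_instance
  | k + 1, m => by
    have := finite_Ty ι k (m + 1)
    show Finite (Set (Ty ι k (m + 1)))
    infer_instance

/-- The type of a tuple. -/
def tp {ι α : Type} (R : ι → α → α → α → Prop) : ∀ (k m : ℕ), (Fin m → α) → Ty ι k m
  | 0, _, a => ({p | a p.1 = a p.2}, {q | R q.1 (a q.2.1) (a q.2.2.1) (a q.2.2.2)})
  | k + 1, m, a => {t | ∃ x, t = tp R k (m + 1) (Fin.snoc a x)}

theorem snoc_set {α β : Type} {m : ℕ} (a : Fin m → α) (b : Fin m → β) (x : α) (y : β) :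
    {p : α × β | ∃ i : Fin (m + 1), p = ((Fin.snoc a x : Fin (m + 1) → α) i,
      (Fin.snoc b y : Fin (m + 1) → β) i)} = insert (x, y) {p | ∃ i, p = (a i, b i)} := by
  ext p
  constructor
  · rintro ⟨i, rfl⟩
    refine Fin.lastCases ?_ (fun j => ?_) i
    · rw [Fin.snoc_last, Fin.snoc_last]
      exact Set.mem_insert _ _
    · rw [Fin.snoc_castSucc, Fin.snoc_castSucc]
      exact Set.mem_insert_of_mem _ ⟨j, rfl⟩
  · intro hp
    rcases Set.mem_insert_iff.1 hp with rfl | ⟨i, rfl⟩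
    · exact ⟨Fin.last m, by rw [Fin.snoc_last, Fin.snoc_last]⟩
    · exact ⟨i.castSucc, by rw [Fin.snoc_castSucc, Fin.snoc_castSucc]⟩

theorem bf_of_tp {ι α β : Type} (R : ι → α → α → α → Prop) (S : ι → β → β → β → Prop) :
    ∀ (k m : ℕ) (a : Fin m → α) (b : Fin m → β), tp R k m a = tp S k m b →
      BF R S k {p | ∃ i, p = (a i, b i)}
  | 0, m, a, b, h => by
    have h1 : {p : Fin m × Fin m | a p.1 = a p.2} = {p : Fin m × Fin m | b p.1 = b p.2} :=
      congrArg Prod.fst h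
    have h2 : {q : ι × Fin m × Fin m × Fin m | R q.1 (a q.2.1) (a q.2.2.1) (a q.2.2.2)} =
        {q : ι × Fin m × Fin m × Fin m | S q.1 (b q.2.1) (b q.2.2.1) (b q.2.2.2)} :=
      congrArg Prod.snd h
    refine ⟨?_, ?_⟩
    · rintro _ ⟨i, rfl⟩ _ ⟨j, rfl⟩
      exact Set.ext_iff.1 h1 (i, j)
    · rintro s _ ⟨i, rfl⟩ _ ⟨j, rfl⟩ _ ⟨l, rfl⟩
      exact Set.ext_iff.1 h2 (s, i, j, l)
  | k + 1, m, a, b, h => by
    have h1 : {t : Ty ι k (m + 1) | ∃ x, t = tp R k (m + 1) (Fin.snoc a x)} =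
        {t : Ty ι k (m + 1) | ∃ x, t = tp S k (m + 1) (Fin.snoc b x)} := h
    refine ⟨fun x => ?_, fun y => ?_⟩
    · obtain ⟨y, hy⟩ := (Set.ext_iff.1 h1 (tp R k (m + 1) (Fin.snoc a x))).1 ⟨x, rfl⟩
      refine ⟨y, ?_⟩
      rw [← snoc_set]
      exact bf_of_tp R S k (m + 1) _ _ hy
    · obtain ⟨x, hx⟩ := (Set.ext_iff.1 h1 (tp S k (m + 1) (Fin.snoc b y))).2 ⟨y, rfl⟩
      refine ⟨x, ?_⟩
      rw [← snoc_set]
      exact bf_of_tp R S k (m + 1) _ _ hx.symm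

theorem holds : Pool.Agent.H646.EC.S_pig := by
  intro ι _ k m
  have hf := finite_Ty ι k m
  let _ : Fintype (Ty ι k m) := Fintype.ofFinite _
  refine ⟨Fintype.card (Ty ι k m), fun J _ hJ α R a => ?_⟩
  obtain ⟨j, j', hne, hj⟩ := Fintype.exists_ne_map_eq_of_card_lt
    (fun j : J => tp (R j) k m (a j)) hJ
  exact ⟨j, j', hne, bf_of_tp (R j) (R j') k m (a j) (a j') hj⟩

end
end Pool.Agent.H357.ECpig
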