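import Pool.Agent.H646.EC.Stm

set_option autoImplicit false

namespace Pool.Agent.H405.ECpos

open Pool.Agent.H646.EC

noncomputable section

theorem us1 : us 1 = ⟨0, 1⟩ := by decide
theorem us2 : us 2 = ⟨-1, 1⟩ := by decide
theorem us3 : us 3 = ⟨-1, 0⟩ := by decide
theorem us4 : us 4 = ⟨0, -1⟩ := by decide
theorem us5 : us 5 = ⟨1, -1⟩ := by decide

theorem cases6 : ∀ s : ZMod 6, s ≠ 0 → s = 1 ∨ s = 2 ∨ s = 3 ∨ s = 4 ∨ s = 5 := by decide

theorem us_fix {s : ZMod 6} {y : O} (hy : y ≠ 0) (h : us s * y = y) : s = 0 := by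
  by_contra hs
  apply hy
  have h1 := congrArg QuadraticAlgebra.re h
  have h2 := congrArg QuadraticAlgebra.im h
  rcases cases6 s hs with rfl | rfl | rfl | rfl | rfl
  · rw [us1] at h1 h2
    simp at h1 h2
    refine QuadraticAlgebra.ext ?_ ?_ <;> simp <;> omega
  · rw [us2] at h1 h2
    simp at h1 h2
    refine QuadraticAlgebra.ext ?_ ?_ <;> simp <;> omega
  · rw [us3] at h1 h2
    simp at h1 h2
    refine QuadraticAlgebra.ext ?_ ?_ <;> simp <;> omega
  · rw [us4] at h1 h2
    simp at h1 h2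
    refine QuadraticAlgebra.ext ?_ ?_ <;> simp <;> omega
  · rw [us5] at h1 h2
    simp at h1 h2
    refine QuadraticAlgebra.ext ?_ ?_ <;> simp <;> omega

section blk
variable {n : ℕ} {K : Type} [CommRing K] {γ₁ γ₂ : Kˣ}

theorem um_zero : (um 0 : U K γ₁ γ₂) = 1 := rfl

theorem uw_zero : (uw 0 : U K γ₁ γ₂) = 1 := rfl

theorem uw_mul (f g : (ZMod 6 → K) × (ZMod 6 → K)) :
    (uw f * uw g : U K γ₁ γ₂) = uw (f + g) := by
  unfold uw
  refine Prod.ext (Hgp.ext (funext fun l => ?_) ?_) (Hgp.ext (funext fun l => ?_) ?_) <;> simp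

theorem uw_inv (f : (ZMod 6 → K) × (ZMod 6 → K)) : ((uw f)⁻¹ : U K γ₁ γ₂) = uw (-f) := by
  rw [inv_eq_iff_mul_eq_one, uw_mul, add_neg_cancel, uw_zero]

theorem uw_pow (f : (ZMod 6 → K) × (ZMod 6 → K)) (k : ℕ) :
    ((uw f) ^ k : U K γ₁ γ₂) = uw (k • f) := by
  induction k with
  | zero => rw [pow_zero, zero_smul, uw_zero]
  | succ k ih => rw [pow_succ, ih, uw_mul, succ_nsmul]

theorem uw_inj {f g : (ZMod 6 → K) × (ZMod 6 → K)} (h : (uw f : U K γ₁ γ₂) = uw g) : f = g := by
  have h1 := congrArg (fun u : U K γ₁ γ₂ => u.1.f) h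
  have h2 := congrArg (fun u : U K γ₁ γ₂ => u.2.f) h
  exact Prod.ext h1 h2

theorem uact_um (d : D) (v : O × O) :
    uact d (um v : U K γ₁ γ₂) = um (us d.1 * v.1, us d.1 * v.2) := by
  unfold uact um
  refine Prod.ext (Hgp.ext (funext fun l => ?_) ?_) (Hgp.ext (funext fun l => ?_) ?_) <;> simp

theorem um_inj {v v' : O × O} (h : (um v : U K γ₁ γ₂) = um v') : v = v' := by
  have h1 := congrArg (fun u : U K γ₁ γ₂ => u.1.x) h
  have h2 := congrArg (fun u : U K γ₁ γ₂ => u.2.x) h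
  exact Prod.ext h1 h2

/-- the action on the M-part -/
theorem fix_um {d : D} {v : O × O} (hv : v ≠ 0) (h : uact d (um v : U K γ₁ γ₂) = um v) : d.1 = 0 := by
  rw [uact_um] at h
  have h1 := um_inj h
  have h2 := congrArg Prod.fst h1
  have h3 := congrArg Prod.snd h1
  by_cases h4 : v.1 = 0
  · have h5 : v.2 ≠ 0 := fun h6 => hv (Prod.ext h4 h6)
    exact us_fix h5 h3
  · exact us_fix h4 h2

/-- the action on the W-part -/
theorem fix_uw (h2 : IsUnit (2 : K)) {d : D} (hd : d.1 = 0) {f : (ZMod 6 → K) × (ZMod 6 → K)} (hf : f ≠ 0)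
    (h : uact d (uw f : U K γ₁ γ₂) = uw f) : d.2 = 0 := by
  by_contra hd2
  have h1 : d.2 = 1 := by
    revert hd2
    generalize d.2 = e
    revert e
    decide
  apply hf
  have hv : (1 : ZMod 2).val = 1 := rfl
  have h3 : ∀ l, -f.1 l = f.1 l := by
    intro l
    have := congrArg (fun u : U K γ₁ γ₂ => u.1.f l) h
    simpa [uact, uw, hd, h1, sn, hv] using this
  have h4 : ∀ l, -f.2 l = f.2 l := by
    intro l
    have := congrArg (fun u : U K γ₁ γ₂ => u.2.f l) h
    simpa [uact, uw, hd, h1, sn, hv] using this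
  have h5 : ∀ x : K, -x = x → x = 0 := by
    intro x hx
    have h6 : (2 : K) * x = 0 := by
      rw [two_mul]
      nth_rewrite 1 [← hx]
      exact neg_add_cancel x
    exact (h2.mul_right_eq_zero).1 h6
  exact Prod.ext (funext fun l => h5 _ (h3 l)) (funext fun l => h5 _ (h4 l))

/-- commuting with an element of the normal part -/
theorem comm {Q : Q0} {u : NN n K γ₁ γ₂}
    (h : (SemidirectProduct.inr Q * SemidirectProduct.inl u : Blk n K γ₁ γ₂) =
      SemidirectProduct.inl u * SemidirectProduct.inr Q) (x : ZMod n) :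
    uact (dv n Q x) (u (x - Q.d)) = u x := by
  have h1 := congrArg SemidirectProduct.left h
  have h2 : nactF Q u = u := by simpa using h1
  exact congrFun h2 x

theorem br_eq {G : Type} [Group G] {A B : G} (h : A * B * A⁻¹ * B⁻¹ = 1) : A * B = B * A := by
  rw [mul_inv_eq_one, mul_inv_eq_iff_eq_mul] at h
  exact h

theorem dv_inv (Q : Q0) (x : ZMod n) : dv n Q⁻¹ (x - Q.d) = -dv n Q x := by
  have h := dv_mul n Q Q⁻¹ x
  rw [mul_inv_cancel, dv_one] at h
  exact (neg_eq_of_add_eq_zero_right h.symm).symm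

theorem dv_conj (R Q : Q0) (hQ : Q.d = 0) (x : ZMod n) : dv n (R * Q * R⁻¹) x = dv n Q (x - R.d) := by
  rw [dv_mul, dv_mul, Q0.mul_d, hQ, add_zero, dv_inv]
  abel

theorem d_conj (R Q : Q0) (hQ : Q.d = 0) : (R * Q * R⁻¹).d = 0 := by
  simp [hQ]

theorem fold_r2 (h : ℤ →₀ ZMod 6) (i : ℤ) (hi : ∀ k, r2 (h k) = if k = i then 1 else 0) (x : ZMod n) :
    r2 (fold n h x) = if (i : ZMod n) = x then 1 else 0 := by
  unfold fold
  rw [Finsupp.sum, map_sum]
  have h1 : ∀ k ∈ h.support, r2 (if (k : ZMod n) = x then h k else 0) =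
      if k = i then (if (i : ZMod n) = x then 1 else 0) else 0 := by
    intro k _
    by_cases hk : k = i
    · subst hk
      by_cases hx : (k : ZMod n) = x
      · simp [hx, hi]
      · simp [hx]
    · by_cases hx : (k : ZMod n) = x
      · simp [hx, hi, hk]
      · simp [hx, hk]
  rw [Finset.sum_congr rfl h1, Finset.sum_ite_eq']
  have h2 : i ∈ h.support := by
    rw [Finsupp.mem_support_iff]
    intro h3
    have h4 := hi i
    rw [h3, map_zero, if_pos rfl] at h4
    exact absurd h4 (by decide)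
  rw [if_pos h2]

theorem fold_r3 (h : ℤ →₀ ZMod 6) (i : ℤ) (m : ZMod 3) (hm : m ≠ 0)
    (hi : ∀ k, r3 (h k) = if k = i then m else 0) (x : ZMod n) :
    r3 (fold n h x) = if (i : ZMod n) = x then m else 0 := by
  unfold fold
  rw [Finsupp.sum, map_sum]
  have h1 : ∀ k ∈ h.support, r3 (if (k : ZMod n) = x then h k else 0) =
      if k = i then (if (i : ZMod n) = x then m else 0) else 0 := by
    intro k _
    by_cases hk : k = i
    · subst hk
      by_cases hx : (k : ZMod n) = x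
      · simp [hx, hi]
      · simp [hx]
    · by_cases hx : (k : ZMod n) = x
      · simp [hx, hi, hk]
      · simp [hx, hk]
  rw [Finset.sum_congr rfl h1, Finset.sum_ite_eq']
  have h2 : i ∈ h.support := by
    rw [Finsupp.mem_support_iff]
    intro h3
    have h4 := hi i
    rw [h3, map_zero, if_pos rfl] at h4
    exact hm h4.symm
  rw [if_pos h2]

theorem crt : ∀ a b : ZMod 6, r2 a = r2 b → r3 a = r3 b → a = b := by
  decide

theorem nact_symm (q : Q0) (u : NN n K γ₁ γ₂) :
    (nact n K γ₁ γ₂ q).symm u = nactF q⁻¹ u := rfl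

/-- elements with trivial M-parts -/
def MT (n : ℕ) (K : Type) [CommRing K] (γ₁ γ₂ : Kˣ) : Subgroup (Blk n K γ₁ γ₂) where
  carrier := {g | ∀ x, (g.left x).1.x = 0 ∧ (g.left x).2.x = 0}
  mul_mem' := by
    intro a b ha hb x
    have h1 := ha x
    have h2 := hb (x - a.right.d)
    simp [nactF, uact, h1.1, h1.2, h2.1, h2.2]
  one_mem' := by
    intro x
    simp
  inv_mem' := by
    intro a ha x
    have h2 := ha (x - (a.right⁻¹).d)
    have h3 : (x - (a.right⁻¹).d) = x + a.right.d := by simp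
    rw [h3] at h2
    simp [nact_symm, nactF, uact, h2.1, h2.2]

/-- elements with trivial W-parts -/
def WT (n : ℕ) (K : Type) [CommRing K] (γ₁ γ₂ : Kˣ) : Subgroup (Blk n K γ₁ γ₂) where
  carrier := {g | ∀ x l, (g.left x).1.f l = 0 ∧ (g.left x).2.f l = 0}
  mul_mem' := by
    intro a b ha hb x l
    have h1 := ha x l
    have h2 := hb (x - a.right.d)
    simp [nactF, uact, h1.1, h1.2, (h2 _).1, (h2 _).2]
  one_mem' := by
    intro x l
    simp
  inv_mem' := by
    intro a ha x l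
    have h2 := ha (x - (a.right⁻¹).d)
    have h3 : (x - (a.right⁻¹).d) = x + a.right.d := by simp
    rw [h3] at h2
    simp [nact_symm, nactF, uact, (h2 _).1, (h2 _).2]

theorem gen_le {c : Fin 7 → Blk n K γ₁ γ₂} (hG : Gen c) (S : Subgroup (Blk n K γ₁ γ₂))
    (hS : ∀ j, c j ∈ S) (u : NN n K γ₁ γ₂) : SemidirectProduct.inl u ∈ S := by
  have h1 : (FreeGroup.lift c).range ≤ S := by
    rw [FreeGroup.range_lift_eq_closure, Subgroup.closure_le]
    rintro _ ⟨j, rfl⟩
    exact hS j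
  exact h1 (hG u)


/-- distinct shifts -/
theorem shifts (hn : 5 ≤ n) {s : ℤ} (hs : s = 1 ∨ s = -1) :
    ((s : ℤ) : ZMod n) ≠ 0 ∧ (((2 * s : ℤ)) : ZMod n) ≠ 0 := by
  refine ⟨fun h => ?_, fun h => ?_⟩
  · rw [ZMod.intCast_zmod_eq_zero_iff_dvd] at h
    have h1 := Int.le_of_dvd (by rcases hs with rfl | rfl <;> norm_num) ((dvd_abs _ _).2 h)
    rcases hs with rfl | rfl <;> simp at h1 <;> omega
  · rw [ZMod.intCast_zmod_eq_zero_iff_dvd] at h
    have h1 := Int.le_of_dvd (by rcases hs with rfl | rfl <;> norm_num) ((dvd_abs _ _).2 h)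
    rcases hs with rfl | rfl <;> simp at h1 <;> omega

theorem core (hn : 5 ≤ n) [Nontrivial K] (h2 : IsUnit (2 : K)) (h175 : IsUnit (175 : K))
    {c : Fin 7 → Blk n K γ₁ γ₂} {q : Fin 7 → Q0} {m1 m2 : ZMod n → O × O}
    {w : ZMod n → (ZMod 6 → K) × (ZMod 6 → K)} (hL : Lab q) (hR : Rel c) (hG : Gen c)
    (c0 : c 0 = SemidirectProduct.inl (fun x => um (m1 x)))
    (c1 : c 1 = SemidirectProduct.inl (fun x => um (m2 x)))
    (c2 : c 2 = SemidirectProduct.inl (fun x => uw (w x)))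
    (cq : ∀ j : Fin 7, 3 ≤ j.val → c j = SemidirectProduct.inr (q j))
    (e4 : (q 4).e.1 = 1 ∨ (q 4).e.1 = -1) :
    ∃ x0 : ZMod n, (∀ x, x ≠ x0 → m1 x = 0 ∧ m2 x = 0 ∧ w x = 0) ∧
      (∀ x, dv n (q 3) x = if x = x0 then ((q 4).e.1, 0) else 0) ∧ (q 4).e.2 = 0 := by
  have c3 := cq 3 (by decide)
  have c4 := cq 4 (by decide)
  have c6 := cq 6 (by decide)
  -- words
  have wzb : FreeGroup.lift c (Zt * Bt⁻¹) = SemidirectProduct.inr (q 4 * (q 3)⁻¹) := by
    simp [Zt, Bt, c3, c4]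
  have wx1 : FreeGroup.lift c X1 = SemidirectProduct.inl (fun x => um (m1 x)) := by
    simp [X1, c0]
  have wx2 : FreeGroup.lift c X2 = SemidirectProduct.inl (fun x => um (m2 x)) := by
    simp [X2, c1]
  have ww : FreeGroup.lift c Wd = SemidirectProduct.inl (fun x => uw (w x)) := by
    simp [Wd, c2]
  have wt1 : FreeGroup.lift c (cnj Tt Bt) = SemidirectProduct.inr (q 6 * q 3 * (q 6)⁻¹) := by
    simp [cnj, Tt, Bt, c3, c6]
  have wt2 : FreeGroup.lift c (cnj (Tt ^ 2) Bt) =
      SemidirectProduct.inr (q 6 ^ 2 * q 3 * (q 6 ^ 2)⁻¹) := by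
    simp [cnj, Tt, Bt, c3, c6]
  have lbr : ∀ a b : F7, br a b ∈ Sig → FreeGroup.lift c a * FreeGroup.lift c b =
      FreeGroup.lift c b * FreeGroup.lift c a := by
    intro a b hab
    have h := hR _ hab
    refine br_eq ?_
    simpa [br] using h
  have d3 := hL.d3
  have hzd : (q 4 * (q 3)⁻¹).d = 0 := by simp [d3, hL.d4]
  have ht1d : (q 6 * q 3 * (q 6)⁻¹).d = 0 := d_conj _ _ d3
  have ht2d : (q 6 ^ 2 * q 3 * (q 6 ^ 2)⁻¹).d = 0 := d_conj _ _ d3
  -- the label of z and of z times the inverse of beta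
  have hdz : ∀ x : ZMod n, dv n (q 4) x = (q 4).e := by
    intro x
    unfold dv
    rw [hL.h4, fold_zero]
    simp
  have hzb : ∀ x : ZMod n, dv n (q 4 * (q 3)⁻¹) x = (q 4).e - dv n (q 3) x := by
    intro x
    have h := dv_inv (q 3) x
    rw [d3, Int.cast_zero, sub_zero] at h
    rw [dv_mul, hL.d4, Int.cast_zero, sub_zero, h, hdz, sub_eq_add_neg]
  -- reading of the relations
  have read : ∀ (Q : Q0) (u : NN n K γ₁ γ₂), Q.d = 0 →
      (SemidirectProduct.inr Q * SemidirectProduct.inl u : Blk n K γ₁ γ₂) =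
      SemidirectProduct.inl u * SemidirectProduct.inr Q → ∀ x, uact (dv n Q x) (u x) = u x := by
    intro Q u hQ h x
    have h1 := comm h x
    rwa [hQ, Int.cast_zero, sub_zero] at h1
  have s2 : (((q 6 ^ 2).d : ℤ) : ZMod n) = ((2 * (q 6).d : ℤ) : ZMod n) := by
    rw [pow_two, Q0.mul_d, two_mul]
  have hM : ∀ x, (m1 x ≠ 0 ∨ m2 x ≠ 0) → (dv n (q 3) x).1 = (q 4).e.1 ∧
      (dv n (q 3) (x - ((q 6).d : ℤ))).1 = 0 ∧ (dv n (q 3) (x - ((2 * (q 6).d : ℤ) : ZMod n))).1 = 0 := by
    intro x hx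
    rcases hx with hx | hx
    · have r1 := lbr (Zt * Bt⁻¹) X1 (by simp [Sig])
      rw [wzb, wx1] at r1
      have r1' := fix_um hx (read _ _ hzd r1 x)
      have r2 := (lbr X1 (cnj Tt Bt) (by simp [Sig])).symm
      rw [wt1, wx1] at r2
      have r2' := fix_um hx (read _ _ ht1d r2 x)
      have r3 := (lbr X1 (cnj (Tt ^ 2) Bt) (by simp [Sig])).symm
      rw [wt2, wx1] at r3
      have r3' := fix_um hx (read _ _ ht2d r3 x)
      rw [hzb] at r1'
      rw [dv_conj _ _ d3] at r2' r3'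
      rw [s2] at r3'
      refine ⟨?_, r2', r3'⟩
      have : (q 4).e.1 - (dv n (q 3) x).1 = 0 := r1'
      exact (sub_eq_zero.1 this).symm
    · have r1 := lbr (Zt * Bt⁻¹) X2 (by simp [Sig])
      rw [wzb, wx2] at r1
      have r1' := fix_um hx (read _ _ hzd r1 x)
      have r2 := (lbr X2 (cnj Tt Bt) (by simp [Sig])).symm
      rw [wt1, wx2] at r2
      have r2' := fix_um hx (read _ _ ht1d r2 x)
      have r3 := (lbr X2 (cnj (Tt ^ 2) Bt) (by simp [Sig])).symm
      rw [wt2, wx2] at r3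
      have r3' := fix_um hx (read _ _ ht2d r3 x)
      rw [hzb] at r1'
      rw [dv_conj _ _ d3] at r2' r3'
      rw [s2] at r3'
      refine ⟨?_, r2', r3'⟩
      have : (q 4).e.1 - (dv n (q 3) x).1 = 0 := r1'
      exact (sub_eq_zero.1 this).symm
  -- some M-part is nonzero
  have hex : ∃ x, m1 x ≠ 0 ∨ m2 x ≠ 0 := by
    by_contra hcon
    push Not at hcon
    have hS : ∀ j, c j ∈ MT n K γ₁ γ₂ := by
      intro j
      by_cases hj : 3 ≤ j.val
      · rw [cq j hj]
        intro x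
        simp
      · have hj' : j = 0 ∨ j = 1 ∨ j = 2 := by
          revert j
          decide
        rcases hj' with rfl | rfl | rfl
        · rw [c0]
          intro x
          rw [SemidirectProduct.left_inl]
          simp [(hcon x).1, um]
        · rw [c1]
          intro x
          rw [SemidirectProduct.left_inl]
          simp [(hcon x).2, um]
        · rw [c2]
          intro x
          rw [SemidirectProduct.left_inl]
          simp [uw]
    have h1 := gen_le hG _ hS (fun _ => (⟨0, 1⟩, 1)) (0 : ZMod n)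
    exact one_ne_zero h1.1
  obtain ⟨i2, hi2⟩ := hL.mono2
  obtain ⟨i3, l, hl, hi3⟩ := hL.mono3
  have hl0 : l ≠ 0 := by
    rcases hl with rfl | rfl <;> decide
  have f2 : ∀ x : ZMod n, r2 (dv n (q 3) x).1 = r2 (q 3).e.1 + if (i2 : ZMod n) = x then 1 else 0 := by
    intro x
    rw [← fold_r2 _ _ hi2, ← map_add]
    rfl
  have f3 : ∀ x : ZMod n, r3 (dv n (q 3) x).1 = r3 (q 3).e.1 + if (i3 : ZMod n) = x then l else 0 := by
    intro x
    rw [← fold_r3 _ _ _ hl0 hi3, ← map_add]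
    rfl
  obtain ⟨hs1, hs2⟩ := shifts (n := n) hn hL.d6
  have key : ∀ x, (m1 x ≠ 0 ∨ m2 x ≠ 0) → (q 3).e.1 = 0 := by
    intro x hx
    obtain ⟨k1, k2, k3⟩ := hM x hx
    have hne : (x - ((q 6).d : ℤ) : ZMod n) ≠ x - ((2 * (q 6).d : ℤ) : ZMod n) := by
      intro h
      apply hs1
      have h3 : (((2 * (q 6).d : ℤ)) : ZMod n) - (((q 6).d : ℤ) : ZMod n) = 0 := by
        linear_combination h
      push_cast at h3
      linear_combination h3
    refine crt _ _ ?_ ?_
    · have a1 := f2 (x - ((q 6).d : ℤ))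
      have a2 := f2 (x - ((2 * (q 6).d : ℤ) : ZMod n))
      rw [k2, map_zero] at a1
      rw [k3, map_zero] at a2
      rw [map_zero]
      by_contra hc
      have b1 : (i2 : ZMod n) = x - ((q 6).d : ℤ) := by
        by_contra hb
        rw [if_neg hb, add_zero] at a1
        exact hc a1.symm
      have b2 : (i2 : ZMod n) = x - ((2 * (q 6).d : ℤ) : ZMod n) := by
        by_contra hb
        rw [if_neg hb, add_zero] at a2
        exact hc a2.symm
      exact hne (b1.symm.trans b2)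
    · have a1 := f3 (x - ((q 6).d : ℤ))
      have a2 := f3 (x - ((2 * (q 6).d : ℤ) : ZMod n))
      rw [k2, map_zero] at a1
      rw [k3, map_zero] at a2
      rw [map_zero]
      by_contra hc
      have b1 : (i3 : ZMod n) = x - ((q 6).d : ℤ) := by
        by_contra hb
        rw [if_neg hb, add_zero] at a1
        exact hc a1.symm
      have b2 : (i3 : ZMod n) = x - ((2 * (q 6).d : ℤ) : ZMod n) := by
        by_contra hb
        rw [if_neg hb, add_zero] at a2
        exact hc a2.symm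
      exact hne (b1.symm.trans b2)
  obtain ⟨x0, hx0⟩ := hex
  have he3 := key x0 hx0
  rw [he3] at f2 f3
  rw [map_zero] at f2 f3
  have eps2 : r2 (q 4).e.1 = 1 := by
    rcases e4 with h | h <;> rw [h] <;> decide
  have eps3 : r3 (q 4).e.1 ≠ 0 := hL.e4
  have loc : ∀ x, (m1 x ≠ 0 ∨ m2 x ≠ 0) → (i2 : ZMod n) = x ∧ (i3 : ZMod n) = x := by
    intro x hx
    obtain ⟨k1, -, -⟩ := hM x hx
    have a1 := f2 x
    have a2 := f3 x
    rw [k1] at a1 a2
    refine ⟨?_, ?_⟩
    · by_contra hb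
      rw [if_neg hb, eps2] at a1
      exact absurd a1 (by decide)
    · by_contra hb
      rw [if_neg hb, add_zero] at a2
      exact eps3 a2
  have i20 := (loc x0 hx0).1
  have i30 := (loc x0 hx0).2
  have hM0 : ∀ x, x ≠ x0 → m1 x = 0 ∧ m2 x = 0 := by
    intro x hx
    by_contra hcon
    have h1 : m1 x ≠ 0 ∨ m2 x ≠ 0 := by
      by_contra h
      push Not at h
      exact hcon h
    exact hx ((loc x h1).1.symm.trans i20)
  have hl3 : r3 (q 4).e.1 = l := by
    have a2 := f3 x0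
    rw [(hM x0 hx0).1, if_pos i30, zero_add] at a2
    exact a2
  have hfst : ∀ x, (dv n (q 3) x).1 = if x = x0 then (q 4).e.1 else 0 := by
    intro x
    by_cases hx : x = x0
    · subst hx
      rw [if_pos rfl]
      exact (hM x hx0).1
    · rw [if_neg hx]
      refine crt _ _ ?_ ?_
      · rw [f2, if_neg (fun h => hx (h.symm.trans i20)), map_zero, zero_add]
      · rw [f3, if_neg (fun h => hx (h.symm.trans i30)), map_zero, zero_add]
  -- the W-parts
  have r175 := hR (cnj (X1 ^ 2) Wd * cnj (X1 * X2) Wd ^ 2 * cnj (X2 ^ 2) Wd * (cnj X1 Wd ^ 44)⁻¹ *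
      (cnj X2 Wd ^ 44)⁻¹ * Wd ^ 259) (by simp [Sig])
  have hW0 : ∀ x, x ≠ x0 → w x = 0 := by
    intro x hx
    obtain ⟨z1, z2⟩ := hM0 x hx
    have h1 : (SemidirectProduct.inl ((fun x => um (m1 x)) ^ 2 * (fun x => uw (w x)) *
        ((fun x => um (m1 x)) ^ 2)⁻¹ *
        ((fun x => um (m1 x)) * (fun x => um (m2 x)) * (fun x => uw (w x)) *
          ((fun x => um (m1 x)) * (fun x => um (m2 x)))⁻¹) ^ 2 *
        ((fun x => um (m2 x)) ^ 2 * (fun x => uw (w x)) * ((fun x => um (m2 x)) ^ 2)⁻¹) *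
        (((fun x => um (m1 x)) * (fun x => uw (w x)) * (fun x => um (m1 x))⁻¹) ^ 44)⁻¹ *
        (((fun x => um (m2 x)) * (fun x => uw (w x)) * (fun x => um (m2 x))⁻¹) ^ 44)⁻¹ *
        (fun x => uw (w x)) ^ 259 : NN n K γ₁ γ₂) : Blk n K γ₁ γ₂) = 1 := by
      rw [← r175]
      simp only [map_mul, map_inv, map_pow, cnj, wx1, wx2, ww]
    have h2' := congrArg (fun g : Blk n K γ₁ γ₂ => g.left x) h1
    simp only [SemidirectProduct.left_inl, SemidirectProduct.one_left, Pi.mul_apply, Pi.pow_apply,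
      Pi.inv_apply, Pi.one_apply, z1, z2, um_zero, one_pow, one_mul, inv_one, mul_one, uw_pow, uw_inv,
      uw_mul] at h2'
    rw [← uw_zero] at h2'
    have h3 := uw_inj h2'
    have h4 : (175 : ℕ) • w x = 0 := by
      rw [← h3]
      module
    have h5 : ∀ y : K, (175 : ℕ) • y = 0 → y = 0 := by
      intro y hy
      rw [nsmul_eq_mul] at hy
      exact (h175.mul_right_eq_zero).1 (by exact_mod_cast hy)
    refine Prod.ext (funext fun l => h5 _ ?_) (funext fun l => h5 _ ?_)
    · exact congrArg (fun z => z.1 l) h4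
    · exact congrArg (fun z => z.2 l) h4
  have hWne : w x0 ≠ 0 := by
    intro hw0
    have hw : ∀ x, w x = 0 := by
      intro x
      by_cases hx : x = x0
      · rw [hx, hw0]
      · exact hW0 x hx
    have hS : ∀ j, c j ∈ WT n K γ₁ γ₂ := by
      intro j
      by_cases hj : 3 ≤ j.val
      · rw [cq j hj]
        intro x l
        simp
      · have hj' : j = 0 ∨ j = 1 ∨ j = 2 := by
          revert j
          decide
        rcases hj' with rfl | rfl | rfl
        · rw [c0]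
          intro x l
          rw [SemidirectProduct.left_inl]
          simp [um]
        · rw [c1]
          intro x l
          rw [SemidirectProduct.left_inl]
          simp [um]
        · rw [c2]
          intro x l
          rw [SemidirectProduct.left_inl]
          simp [uw, hw]
    have h1 := gen_le hG _ hS (fun _ => (⟨fun _ => 1, 0⟩, 1)) (0 : ZMod n) 0
    exact one_ne_zero h1.1
  -- the second components
  have he32 : (q 3).e.2 = 0 := by
    have r := (lbr Wd (cnj Tt Bt) (by simp [Sig])).symm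
    rw [wt1, ww] at r
    have r' := read _ _ ht1d r x0
    rw [dv_conj _ _ d3] at r'
    have hd : (dv n (q 3) (x0 - ((q 6).d : ℤ))).1 = 0 := by
      rw [hfst, if_neg]
      intro h
      apply hs1
      linear_combination -h
    have h := fix_uw h2 hd hWne r'
    simpa [dv] using h
  have he42 : (q 4).e.2 = 0 := by
    have r := lbr (Zt * Bt⁻¹) Wd (by simp [Sig])
    rw [wzb, ww] at r
    have r' := read _ _ hzd r x0
    rw [hzb] at r'
    have hd : ((q 4).e - dv n (q 3) x0).1 = 0 := by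
      rw [Prod.fst_sub, hfst, if_pos rfl, sub_self]
    have h := fix_uw h2 hd hWne r'
    simpa [dv, he32] using h
  refine ⟨x0, fun x hx => ⟨(hM0 x hx).1, (hM0 x hx).2, hW0 x hx⟩, fun x => ?_, he42⟩
  have hsnd : (dv n (q 3) x).2 = 0 := by
    simp [dv, he32]
  refine Prod.ext ?_ ?_
  · rw [hfst]
    split_ifs <;> rfl
  · rw [hsnd]
    split_ifs <;> rfl

theorem conj_word (c : Fin 7 → Blk n K γ₁ γ₂) (H : Blk n K γ₁ γ₂) (v : F7) :
    FreeGroup.lift (fun j => H⁻¹ * c j * H) v = H⁻¹ * FreeGroup.lift c v * H := by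
  have h : FreeGroup.lift (fun j => H⁻¹ * c j * H) =
      (MulAut.conj H⁻¹).toMonoidHom.comp (FreeGroup.lift c) := by
    refine FreeGroup.ext_hom _ _ fun j => ?_
    simp
  rw [h]
  simp

end blk

theorem holds : S_pos := by
  intro n _ K _ _ γ₁ γ₂ c h m1 m2 w hn h2 h175 hL hR hG hN
  have hR' : Rel (fun j => (SemidirectProduct.inl h : Blk n K γ₁ γ₂)⁻¹ * c j * SemidirectProduct.inl h) := by
    intro v hv
    rw [conj_word, hR v hv]
    simp
  have hG' : Gen (fun j => (SemidirectProduct.inl h : Blk n K γ₁ γ₂)⁻¹ * c j * SemidirectProduct.inl h) := by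
    intro u
    obtain ⟨v, hv⟩ := hG (h * u * h⁻¹)
    refine ⟨v, ?_⟩
    rw [conj_word, hv, map_mul, map_mul, map_inv]
    group
  obtain ⟨x0, hx, h3, h4⟩ := core (q := fun j => (c j).right) (m1 := m1) (m2 := m2) (w := w) hn h2 h175 hL
    hR' hG' (by rw [hN.c0]; group) (by rw [hN.c1]; group) (by rw [hN.c2]; group)
    (fun j hj => by
      have := hN.cq j hj
      show _⁻¹ * c j * _ = _
      rw [this]
      simp [mul_assoc]) hN.e4
  have hm1 : (fun x => um (m1 x) : NN n K γ₁ γ₂) = Pi.mulSingle x0 (um (m1 x0)) := by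
    funext x
    by_cases hxx : x = x0
    · subst hxx
      rw [Pi.mulSingle_eq_same]
    · rw [Pi.mulSingle_eq_of_ne hxx, (hx x hxx).1, um_zero]
  have hm2 : (fun x => um (m2 x) : NN n K γ₁ γ₂) = Pi.mulSingle x0 (um (m2 x0)) := by
    funext x
    by_cases hxx : x = x0
    · subst hxx
      rw [Pi.mulSingle_eq_same]
    · rw [Pi.mulSingle_eq_of_ne hxx, (hx x hxx).2.1, um_zero]
  have hw : (fun x => uw (w x) : NN n K γ₁ γ₂) = Pi.mulSingle x0 (uw (w x0)) := by
    funext x
    by_cases hxx : x = x0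
    · subst hxx
      rw [Pi.mulSingle_eq_same]
    · rw [Pi.mulSingle_eq_of_ne hxx, (hx x hxx).2.2, uw_zero]
  refine ⟨x0, (c 4).right.e.1, m1 x0, m2 x0, w x0, ?_, ?_, ?_, hN.cq, hN.e4, h3, fun x => ?_, fun x => ?_,
    hL.d3, hL.d4, hL.d5, hL.d6⟩
  · rw [← hm1]
    exact hN.c0
  · rw [← hm2]
    exact hN.c1
  · rw [← hw]
    exact hN.c2
  · have h5 : (c 4).right.h = 0 := hL.h4
    unfold dv
    rw [h5, fold_zero]
    exact Prod.ext (add_zero _) (by
      show (c 4).right.e.2 + 0 = 0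
      rw [add_zero]
      exact h4)
  · have h5 : (c 5).right.h = 0 := hL.h5
    unfold dv
    rw [h5, fold_zero, hN.e5]
    rfl

end

end Pool.Agent.H405.ECpos
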