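import Pool.Agent.H646.EC.Stm

/-!
# Project EC, S_pr: pairs of primes `p`, `r` with `6` of order `p` modulo `r`
-/

set_option autoImplicit false

namespace Pool.Agent.H549.EC_pr

open Pool.Agent.H646.EC

/-- For every prime `p > 13` there is a prime `r > p` such that `6` has order `p` modulo `r`. -/
theorem exists_r (p : ℕ) (hp : p.Prime) (h13 : 13 < p) : ∃ r : ℕ, r.Prime ∧ p < r ∧
    ∃ co : Nat.Coprime 6 r, orderOf (ZMod.unitOfCoprime 6 co) = p := by
  set N : ℕ := ∑ i ∈ Finset.range p, 6 ^ i with hN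
  have hgeom : (6 - 1) * N = 6 ^ p - 1 := by
    have h := Nat.geomSum_eq (m := 6) (by norm_num) p
    have h5 : (6 - 1) ∣ 6 ^ p - 1 := Nat.sub_one_dvd_pow_sub_one 6 p
    rw [hN, h, Nat.mul_div_cancel' h5]
  have h6 : 6 ^ p = 5 * N + 1 := by
    have h1 : 1 ≤ 6 ^ p := Nat.one_le_pow _ _ (by norm_num)
    omega
  have hmod : N % 5 = p % 5 := by
    have h1 : ∀ k : ℕ, (∑ i ∈ Finset.range k, 6 ^ i) % 5 = k % 5 := by
      intro k
      induction k with
      | zero => simp
      | succ k ih =>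
        rw [Finset.sum_range_succ]
        have h2 : (6 ^ k) % 5 = 1 := by
          rw [Nat.pow_mod]
          simp
        omega
    exact h1 p
  have hN1 : N ≠ 1 := by
    intro h1
    rw [h1] at h6
    have h2 : 6 ^ 2 ≤ 6 ^ p := Nat.pow_le_pow_right (by norm_num) (by omega)
    omega
  set r : ℕ := N.minFac with hr
  have hrp : r.Prime := Nat.minFac_prime hN1
  have hrN : r ∣ N := Nat.minFac_dvd N
  have hr5 : r ≠ 5 := by
    intro h5
    rw [h5] at hrN
    have h1 : N % 5 = 0 := Nat.mod_eq_zero_of_dvd hrN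
    have h2 : 5 ∣ p := Nat.dvd_of_mod_eq_zero (by omega)
    have h3 := (Nat.prime_dvd_prime_iff_eq (by norm_num) hp).1 h2
    omega
  have hco : Nat.Coprime 6 r := by
    rw [Nat.coprime_comm]
    rw [Nat.Prime.coprime_iff_not_dvd hrp]
    intro hd
    have h1 : r ∣ 6 ^ p := dvd_pow hd (by omega)
    rw [h6] at h1
    have h2 : r ∣ 1 := (Nat.dvd_add_right (dvd_mul_of_dvd_right hrN 5)).1 h1
    exact hrp.one_lt.ne' (Nat.dvd_one.1 h2)
  have : Fact r.Prime := ⟨hrp⟩
  have : Fact p.Prime := ⟨hp⟩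
  have hcast : ((6 : ℕ) : ZMod r) ^ p = 1 := by
    have h1 : ((6 ^ p : ℕ) : ZMod r) = ((5 * N + 1 : ℕ) : ZMod r) := by rw [h6]
    have h2 : ((N : ℕ) : ZMod r) = 0 := (ZMod.natCast_eq_zero_iff N r).2 hrN
    rw [Nat.cast_pow] at h1
    rw [h1, Nat.cast_add, Nat.cast_mul, h2, mul_zero, zero_add, Nat.cast_one]
  have hpow : (ZMod.unitOfCoprime 6 hco) ^ p = 1 := by
    apply Units.ext
    rw [Units.val_pow_eq_pow_val, ZMod.coe_unitOfCoprime, Units.val_one]
    exact hcast
  have hne : ZMod.unitOfCoprime 6 hco ≠ 1 := by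
    intro h1
    have h2 : ((6 : ℕ) : ZMod r) = 1 := by
      rw [← ZMod.coe_unitOfCoprime 6 hco, h1, Units.val_one]
    have h3 : ((5 : ℕ) : ZMod r) = 0 := by
      have h4 : ((6 : ℕ) : ZMod r) = ((5 : ℕ) : ZMod r) + 1 := by
        push_cast
        norm_num
      rw [h4] at h2
      exact left_eq_add.1 (by rw [add_comm]; exact h2.symm)
    have h5 : r ∣ 5 := (ZMod.natCast_eq_zero_iff 5 r).1 h3
    exact hr5 ((Nat.prime_dvd_prime_iff_eq hrp (by norm_num)).1 h5)
  have hord : orderOf (ZMod.unitOfCoprime 6 hco) = p := orderOf_eq_prime hpow hne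
  refine ⟨r, hrp, ?_, hco, hord⟩
  have hd : orderOf (ZMod.unitOfCoprime 6 hco) ∣ Fintype.card (ZMod r)ˣ := orderOf_dvd_card
  rw [hord, ZMod.card_units] at hd
  have h1 : 0 < r - 1 := by
    have := hrp.two_le
    omega
  have h2 := Nat.le_of_dvd h1 hd
  omega

theorem holds : Pool.Agent.H646.EC.S_pr := by
  intro m hm
  have hmono : StrictMono (Nat.nth Nat.Prime) := Nat.nth_strictMono Nat.infinite_setOfPred_prime
  let p : Fin m → ℕ := fun a => Nat.nth Nat.Prime (14 + (a : ℕ))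
  have pp : ∀ a, (p a).Prime := fun a => Nat.prime_nth_prime _
  have big : ∀ a, 13 < p a := by
    intro a
    have h1 : 14 + (a : ℕ) ≤ Nat.nth Nat.Prime (14 + (a : ℕ)) := hmono.le_apply
    have h2 : p a = Nat.nth Nat.Prime (14 + (a : ℕ)) := rfl
    omega
  have pinj : Function.Injective p := by
    intro a b hab
    have h1 : 14 + (a : ℕ) = 14 + (b : ℕ) := hmono.injective hab
    apply Fin.ext
    omega
  choose r hr hbig hco hord using fun a => exists_r (p a) (pp a) (big a)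
  refine ⟨⟨m, hm, p, r, pp, hr, big, hbig, hco, hord, pinj, ?_⟩, rfl⟩
  intro a b hab
  have key : ∀ (s t : ℕ) (_ : s = t) (c : Nat.Coprime 6 s) (c' : Nat.Coprime 6 t),
      orderOf (ZMod.unitOfCoprime 6 c) = orderOf (ZMod.unitOfCoprime 6 c') := by
    intro s t hst c c'
    subst hst
    rfl
  apply pinj
  rw [← hord a, ← hord b]
  exact key _ _ hab _ _

end Pool.Agent.H549.EC_pr
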