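import Pool.Agent.H646.EC.Stm

set_option autoImplicit false

namespace Pool.Agent.H975.ECstd

open Pool.Agent.H646.EC

noncomputable section

/-! ### The group `Q0` -/

/-- the four elements -/
def qb : Q0 := ⟨Finsupp.single 0 1, 0, 0⟩
def qz : Q0 := ⟨0, (1, 0), 0⟩
def qy : Q0 := ⟨0, (0, 1), 0⟩
def qt : Q0 := ⟨0, 0, 1⟩

theorem sh_zero' (d : ℤ) : sh d (0 : ℤ →₀ ZMod 6) = 0 := by
  simp [sh]

theorem sh_single (d k : ℤ) (c : ZMod 6) : sh d (Finsupp.single k c) = Finsupp.single (k + d) c := by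
  simp [sh]

theorem qt_pow (k : ℕ) : qt ^ k = ⟨0, 0, (k : ℤ)⟩ := by
  induction k with
  | zero => rfl
  | succ k ih =>
    rw [pow_succ, ih]
    refine Q0.ext ?_ ?_ ?_
    · simp [qt, sh_zero']
    · simp [qt]
    · simp [qt]

theorem qt_cnj (k : ℕ) : qt ^ k * qb * (qt ^ k)⁻¹ = ⟨Finsupp.single (k : ℤ) 1, 0, 0⟩ := by
  rw [qt_pow]
  refine Q0.ext ?_ ?_ ?_
  · simp [qb, sh_zero', sh_single]
  · simp [qb]
  · simp [qb]

theorem fold_single (n : ℕ) (k : ℤ) (c : ZMod 6) (x : ZMod n) :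
    fold n (Finsupp.single k c) x = if (k : ZMod n) = x then c else 0 := by
  rw [fold, Finsupp.sum_single_index]
  simp

theorem dv_qb (n : ℕ) : dv n qb 0 = (1, 0) := by
  simp [dv, qb, fold_single]

theorem dv_qz (n : ℕ) (x : ZMod n) : dv n qz x = (1, 0) := by
  simp [dv, qz, fold_zero]

theorem dv_qy (n : ℕ) (x : ZMod n) : dv n qy x = (0, 1) := by
  simp [dv, qy, fold_zero]

theorem dv_inv0 (n : ℕ) (q : Q0) (hq : q.d = 0) : dv n q⁻¹ 0 = - dv n q 0 := by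
  have h := dv_mul n q q⁻¹ 0
  rw [mul_inv_cancel, dv_one, hq] at h
  simp only [Int.cast_zero, sub_zero] at h
  exact (neg_eq_of_add_eq_zero_right h.symm).symm

theorem dv_mul0 (n : ℕ) (q r : Q0) (hq : q.d = 0) : dv n (q * r) 0 = dv n q 0 + dv n r 0 := by
  have h := dv_mul n q r 0
  rw [hq] at h
  simpa using h

theorem qz_comm (q : Q0) : qz * q * qz⁻¹ * q⁻¹ = 1 := by
  have h : qz * q = q * qz := by
    refine Q0.ext ?_ ?_ ?_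
    · simp [qz, sh_zero, sh_zero']
    · simp [qz, add_comm]
    · simp [qz]
  rw [h]
  group

theorem qy_comm (q : Q0) : qy * q * qy⁻¹ * q⁻¹ = 1 := by
  have h : qy * q = q * qy := by
    refine Q0.ext ?_ ?_ ?_
    · simp [qy, sh_zero, sh_zero']
    · simp [qy, add_comm]
    · simp [qy]
  rw [h]
  group

theorem qz_pow (k : ℕ) : qz ^ k = ⟨0, ((k : ZMod 6), 0), 0⟩ := by
  induction k with
  | zero => rfl
  | succ k ih =>
    rw [pow_succ, ih]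
    refine Q0.ext ?_ ?_ ?_
    · simp [qz, sh_zero']
    · simp [qz]
    · simp [qz]

theorem qy_pow (k : ℕ) : qy ^ k = ⟨0, (0, (k : ZMod 2)), 0⟩ := by
  induction k with
  | zero => rfl
  | succ k ih =>
    rw [pow_succ, ih]
    refine Q0.ext ?_ ?_ ?_
    · simp [qy, sh_zero']
    · simp [qy]
    · simp [qy]

theorem qb_pow (k : ℕ) : qb ^ k = ⟨Finsupp.single 0 (k : ZMod 6), 0, 0⟩ := by
  induction k with
  | zero =>
    refine Q0.ext ?_ ?_ ?_ <;> simp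
  | succ k ih =>
    rw [pow_succ, ih]
    refine Q0.ext ?_ ?_ ?_
    · simp [qb, sh_zero, Finsupp.single_add]
    · simp [qb]
    · simp [qb]

theorem qz6 : qz ^ 6 = 1 := by
  rw [qz_pow]
  refine Q0.ext rfl ?_ rfl
  show (((6 : ℕ) : ZMod 6), (0 : ZMod 2)) = 0
  decide

theorem qy2 : qy ^ 2 = 1 := by
  rw [qy_pow]
  refine Q0.ext rfl ?_ rfl
  show ((0 : ZMod 6), ((2 : ℕ) : ZMod 2)) = 0
  decide

theorem qb6 : qb ^ 6 = 1 := by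
  rw [qb_pow]
  refine Q0.ext ?_ rfl rfl
  have h : ((6 : ℕ) : ZMod 6) = 0 := by decide
  show Finsupp.single 0 ((6 : ℕ) : ZMod 6) = 0
  rw [h, Finsupp.single_zero]

/-! ### Words -/

def cm {B : Type} [Group B] (x t b : B) (k : ℕ) : B :=
  x * (t ^ k * b * (t ^ k)⁻¹) * x⁻¹ * (t ^ k * b * (t ^ k)⁻¹)⁻¹

def cm2 {B : Type} [Group B] (x t b : B) (k : ℕ) : B :=
  t ^ k * cm x t b k * (t ^ k)⁻¹ * (cm x t b k)⁻¹

def c26 {B : Type} [Group B] (a b c : B) : B :=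
  a ^ 2 * c * (a ^ 2)⁻¹ * (a * b * c * (a * b)⁻¹) ^ 2 * (b ^ 2 * c * (b ^ 2)⁻¹) *
      ((a * c * a⁻¹) ^ 44)⁻¹ * ((b * c * b⁻¹) ^ 44)⁻¹ * c ^ 259

theorem map_cm {A B : Type} [Group A] [Group B] (e : A →* B) (x t b : A) (k : ℕ) :
    e (cm x t b k) = cm (e x) (e t) (e b) k := by
  simp only [cm, map_mul, map_inv, map_pow]

theorem map_c26 {A B : Type} [Group A] [Group B] (e : A →* B) (a b c : A) :
    e (c26 a b c) = c26 (e a) (e b) (e c) := by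
  simp only [c26, map_mul, map_inv, map_pow]

/-! ### The elements supported at the coordinate `0` -/

section
variable {n : ℕ} {K : Type} [CommRing K] {γ₁ γ₂ : Kˣ}

/-- the hom from `U` to the block -/
def E (n : ℕ) (K : Type) [CommRing K] (γ₁ γ₂ : Kˣ) : U K γ₁ γ₂ →* Blk n K γ₁ γ₂ :=
  SemidirectProduct.inl.comp (MonoidHom.mulSingle (fun _ : ZMod n => U K γ₁ γ₂) 0)

theorem E_apply (u : U K γ₁ γ₂) : E n K γ₁ γ₂ u = SemidirectProduct.inl (at0 n K γ₁ γ₂ u) := rfl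

theorem uact_one (d : D) : uact d (1 : U K γ₁ γ₂) = 1 := by
  have h := uact_mul d (1 : U K γ₁ γ₂) 1
  rw [mul_one] at h
  exact (left_eq_mul.1 h)

theorem conj_inl (q : Q0) (u : NN n K γ₁ γ₂) :
    (SemidirectProduct.inr q : Blk n K γ₁ γ₂) * SemidirectProduct.inl u *
      (SemidirectProduct.inr q)⁻¹ = SemidirectProduct.inl (nactF q u) := by
  rw [← nact_apply, SemidirectProduct.inl_aut, map_inv]

theorem conj_E (q : Q0) (hq : q.d = 0) (u : U K γ₁ γ₂) :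
    (SemidirectProduct.inr q : Blk n K γ₁ γ₂) * E n K γ₁ γ₂ u * (SemidirectProduct.inr q)⁻¹ =
      E n K γ₁ γ₂ (uact (dv n q 0) u) := by
  rw [E_apply, E_apply, conj_inl]
  congr 1
  funext x
  rw [nactF, hq]
  simp only [Int.cast_zero, sub_zero, at0]
  by_cases hx : x = 0
  · subst hx
    rw [Pi.mulSingle_eq_same, Pi.mulSingle_eq_same]
  · rw [Pi.mulSingle_eq_of_ne hx, Pi.mulSingle_eq_of_ne hx, uact_one]

/-- the units -/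
def ux1 : U K γ₁ γ₂ := (xg K γ₁, 1)
def ux2 : U K γ₁ γ₂ := (1, xg K γ₂)
def uw : U K γ₁ γ₂ := (wg K γ₁, wg K γ₂)

theorem pX1 : pi n K γ₁ γ₂ X1 = E n K γ₁ γ₂ ux1 := by
  simp [pi, X1, gen, E_apply, ux1]
theorem pX2 : pi n K γ₁ γ₂ X2 = E n K γ₁ γ₂ ux2 := by
  simp [pi, X2, gen, E_apply, ux2]
theorem pW : pi n K γ₁ γ₂ Wd = E n K γ₁ γ₂ uw := by
  simp [pi, Wd, gen, E_apply, uw]
theorem pB : pi n K γ₁ γ₂ Bt = SemidirectProduct.inr qb := by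
  simp [pi, Bt, gen, qb]
theorem pZ : pi n K γ₁ γ₂ Zt = SemidirectProduct.inr qz := by
  simp [pi, Zt, gen, qz]
theorem pY : pi n K γ₁ γ₂ Yt = SemidirectProduct.inr qy := by
  simp [pi, Yt, gen, qy]
theorem pT : pi n K γ₁ γ₂ Tt = SemidirectProduct.inr qt := by
  simp [pi, Tt, gen, qt]

/-- commutator of `inr q` (`q.d = 0`) with `E u` -/
theorem brq (q : Q0) (hq : q.d = 0) (u : U K γ₁ γ₂) (h : uact (dv n q 0) u = u) :
    (SemidirectProduct.inr q : Blk n K γ₁ γ₂) * E n K γ₁ γ₂ u * (SemidirectProduct.inr q)⁻¹ *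
      (E n K γ₁ γ₂ u)⁻¹ = 1 := by
  rw [conj_E q hq, h, mul_inv_cancel]

theorem brq' (q : Q0) (hq : q.d = 0) (u : U K γ₁ γ₂) (h : uact (dv n q 0) u = u) :
    E n K γ₁ γ₂ u * (SemidirectProduct.inr q : Blk n K γ₁ γ₂) * (E n K γ₁ γ₂ u)⁻¹ *
      (SemidirectProduct.inr q)⁻¹ = 1 := by
  have h1 := brq (n := n) q hq u h
  have h2 : (SemidirectProduct.inr q : Blk n K γ₁ γ₂) * E n K γ₁ γ₂ u =
      E n K γ₁ γ₂ u * SemidirectProduct.inr q := by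
    rw [mul_assoc, mul_assoc, ← mul_assoc] at h1
    have h3 := eq_inv_of_mul_eq_one_left h1
    rw [h3, mul_inv_rev, inv_inv, inv_inv]
  rw [← h2]
  group

theorem hmul0 {γ : Kˣ} (f g : ZMod 6 → K) :
    (⟨f, 0⟩ : Hgp K γ) * ⟨g, 0⟩ = ⟨f + g, 0⟩ := by
  refine Hgp.ext (funext fun l => ?_) ?_ <;> simp

theorem hinv0 {γ : Kˣ} (f : ZMod 6 → K) : (⟨f, 0⟩ : Hgp K γ)⁻¹ = ⟨-f, 0⟩ := by
  refine Hgp.ext (funext fun l => ?_) ?_ <;> simp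

theorem hpow0 {γ : Kˣ} (f : ZMod 6 → K) (k : ℕ) : (⟨f, 0⟩ : Hgp K γ) ^ k = ⟨k • f, 0⟩ := by
  induction k with
  | zero =>
    rw [pow_zero]
    refine Hgp.ext (funext fun l => ?_) ?_ <;> simp
  | succ k ih => rw [pow_succ, ih, hmul0, succ_nsmul]

theorem hconj {γ : Kˣ} (x : O) (f : ZMod 6 → K) :
    (⟨0, x⟩ : Hgp K γ) * ⟨f, 0⟩ * (⟨0, x⟩)⁻¹ =
      ⟨fun l => ((γ ^ (ph l x) : Kˣ) : K) * f l, 0⟩ := by
  refine Hgp.ext (funext fun l => ?_) ?_ <;> simp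

theorem hxx {γ : Kˣ} : xg K γ * xg K γ = ⟨0, 1 + 1⟩ := by
  refine Hgp.ext (funext fun l => ?_) ?_ <;> simp [xg]

theorem ph01 : ph 0 1 = 1 := by decide
theorem ph02 : ph 0 (1 + 1) = 2 := by decide

theorem wg_eq {γ : Kˣ} : wg K γ = ⟨Pi.single 0 1, 0⟩ := rfl
theorem xg_eq {γ : Kˣ} : xg K γ = ⟨0, 1⟩ := rfl

/-- conjugation of `wg` -/
theorem cx {γ : Kˣ} : xg K γ * wg K γ * (xg K γ)⁻¹ = ⟨Pi.single 0 (γ : K), 0⟩ := by
  rw [xg_eq, wg_eq, hconj]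
  refine Hgp.ext (funext fun l => ?_) rfl
  by_cases hl : l = 0
  · subst hl
    simp [ph01]
  · simp [Pi.single_eq_of_ne hl]

theorem cxx {γ : Kˣ} :
    xg K γ * xg K γ * wg K γ * (xg K γ * xg K γ)⁻¹ = ⟨Pi.single 0 ((γ : K) ^ 2), 0⟩ := by
  rw [hxx, wg_eq, hconj]
  refine Hgp.ext (funext fun l => ?_) rfl
  by_cases hl : l = 0
  · subst hl
    simp only [ph02, Pi.single_eq_same, mul_one]
    norm_cast
  · simp [Pi.single_eq_of_ne hl]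

theorem c1 {γ : Kˣ} : (1 : Hgp K γ) * wg K γ * 1⁻¹ = ⟨Pi.single 0 1, 0⟩ := by
  rw [one_mul, inv_one, mul_one]
  rfl

/-- the relation 18 -/
theorem r18 : (ux1 * ux2) * uw * (ux1 * ux2)⁻¹ * (ux1 * uw * ux1⁻¹)⁻¹ * (ux2 * uw * ux2⁻¹)⁻¹ *
    (uw : U K γ₁ γ₂) = 1 := by
  refine Prod.ext ?_ ?_
  · show (xg K γ₁ * 1) * wg K γ₁ * (xg K γ₁ * 1)⁻¹ * (xg K γ₁ * wg K γ₁ * (xg K γ₁)⁻¹)⁻¹ *
      (1 * wg K γ₁ * 1⁻¹)⁻¹ * wg K γ₁ = 1
    rw [mul_one]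
    group
  · show (1 * xg K γ₂) * wg K γ₂ * (1 * xg K γ₂)⁻¹ * (1 * wg K γ₂ * 1⁻¹)⁻¹ *
      (xg K γ₂ * wg K γ₂ * (xg K γ₂)⁻¹)⁻¹ * wg K γ₂ = 1
    rw [one_mul, cx, c1, wg_eq, hinv0, hinv0, hmul0, hmul0, hmul0]
    refine Hgp.ext (funext fun l => ?_) rfl
    simp only [Pi.add_apply, Pi.neg_apply, Hgp.one_f]
    ring

/-- the relation 19 -/
theorem r19 (h1 : (γ₁ : K) ^ 2 - 42 * γ₁ + 216 = 0) (h2 : (γ₂ : K) ^ 2 - 42 * γ₂ + 216 = 0) :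
    (ux1 ^ 2) * uw * (ux1 ^ 2)⁻¹ * ((ux1 * ux2) * uw * (ux1 * ux2)⁻¹) ^ 2 *
      ((ux2 ^ 2) * uw * (ux2 ^ 2)⁻¹) * ((ux1 * uw * ux1⁻¹) ^ 44)⁻¹ *
      ((ux2 * uw * ux2⁻¹) ^ 44)⁻¹ * (uw : U K γ₁ γ₂) ^ 259 = 1 := by
  refine Prod.ext ?_ ?_
  · simp only [ux1, ux2, uw, Prod.fst_mul, Prod.fst_inv, Prod.pow_fst, Prod.fst_one]
    rw [mul_one, one_pow, sq (xg K γ₁), cx, cxx, c1, wg_eq]
    simp only [hpow0, hinv0, hmul0]
    refine Hgp.ext (funext fun l => ?_) rfl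
    by_cases hl : l = 0
    · subst hl
      simp only [Pi.add_apply, Pi.neg_apply, Pi.smul_apply, Pi.single_eq_same, Hgp.one_f]
      simp only [nsmul_eq_mul]
      push_cast
      linear_combination h1
    · simp [Pi.single_eq_of_ne hl]
  · simp only [ux1, ux2, uw, Prod.snd_mul, Prod.snd_inv, Prod.pow_snd, Prod.snd_one]
    rw [one_mul (xg K γ₂), one_pow, sq (xg K γ₂), cx, cxx, c1, wg_eq]
    simp only [hpow0, hinv0, hmul0]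
    refine Hgp.ext (funext fun l => ?_) rfl
    by_cases hl : l = 0
    · subst hl
      simp only [Pi.add_apply, Pi.neg_apply, Pi.smul_apply, Pi.single_eq_same, Hgp.one_f]
      simp only [nsmul_eq_mul]
      push_cast
      linear_combination h2
    · simp [Pi.single_eq_of_ne hl]

theorem r19E (h1 : (γ₁ : K) ^ 2 - 42 * γ₁ + 216 = 0) (h2 : (γ₂ : K) ^ 2 - 42 * γ₂ + 216 = 0) :
    c26 (E n K γ₁ γ₂ ux1) (E n K γ₁ γ₂ ux2) (E n K γ₁ γ₂ uw) = 1 := by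
  have h : c26 ux1 ux2 (uw : U K γ₁ γ₂) = 1 := r19 h1 h2
  rw [← map_c26, h, map_one]

theorem r16 : ux1 * ux2 * (ux1 : U K γ₁ γ₂)⁻¹ * ux2⁻¹ = 1 := by
  refine Prod.ext ?_ ?_
  · show xg K γ₁ * 1 * (xg K γ₁)⁻¹ * 1⁻¹ = 1
    group
  · show 1 * xg K γ₂ * 1⁻¹ * (xg K γ₂)⁻¹ = 1
    group

theorem wcomm {γ : Kˣ} (x : O) (hx : ph 0 x = 0) :
    wg K γ * ⟨0, x⟩ * (wg K γ)⁻¹ * (⟨0, x⟩)⁻¹ = 1 := by
  have h : wg K γ * ⟨0, x⟩ = ⟨0, x⟩ * wg K γ := by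
    rw [wg_eq]
    refine Hgp.ext (funext fun l => ?_) ?_
    · by_cases hl : l = 0
      · subst hl
        simp [hx]
      · simp [Pi.single_eq_of_ne hl]
    · simp
  rw [h]
  group

theorem actx {γ : Kˣ} (s : ZMod 6) (e : ZMod 2) : actF (s, e) (xg K γ) = ⟨0, us s⟩ := by
  refine Hgp.ext (funext fun l => ?_) ?_
  · simp [xg]
  · simp [xg]

theorem act1 {γ : Kˣ} (d : D) : actF d (1 : Hgp K γ) = 1 := by
  refine Hgp.ext (funext fun l => ?_) ?_ <;> simp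

theorem rel12 {γ : Kˣ} : actF (2, 0) (xg K γ) * (actF (1, 0) (xg K γ))⁻¹ * xg K γ = 1 := by
  rw [actx, actx, xg_eq]
  refine Hgp.ext (funext fun l => ?_) ?_
  · simp
  · show us 2 + -us 1 + 1 = 0
    decide

theorem rel10 {γ : Kˣ} : actF (0, 1) (wg K γ) * wg K γ = 1 := by
  have h1 : (1 : ZMod 2).val = 1 := by decide
  refine Hgp.ext (funext fun l => ?_) ?_
  · simp [wg, sn, h1]
  · simp [wg]

/-- `inr q` with `q = (k * single, ..)` fixes what it has to fix -/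
theorem qk_d (k : ℕ) : (qt ^ k * qb * (qt ^ k)⁻¹).d = 0 := by rw [qt_cnj]

theorem dv_qk (n k : ℕ) (h : ((k : ℤ) : ZMod n) ≠ 0) : dv n (qt ^ k * qb * (qt ^ k)⁻¹) 0 = 0 := by
  rw [qt_cnj]
  simp only [dv, fold_single]
  rw [if_neg h]
  rfl

theorem pk (n k : ℕ) (u : U K γ₁ γ₂) (h : ((k : ℤ) : ZMod n) ≠ 0) :
    cm (E n K γ₁ γ₂ u) (SemidirectProduct.inr qt : Blk n K γ₁ γ₂) (SemidirectProduct.inr qb) k =
      1 := by
  have h1 := brq' (n := n) (qt ^ k * qb * (qt ^ k)⁻¹) (qk_d k) u (by rw [dv_qk n k h, uact_zero])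
  rw [cm]
  simpa only [map_mul, map_inv, map_pow] using h1

/-- `Tt ^ k` commutes with the normal part if `n ∣ k` -/
theorem tk (n k : ℕ) (h : ((k : ℤ) : ZMod n) = 0) (w : NN n K γ₁ γ₂) :
    (SemidirectProduct.inr qt : Blk n K γ₁ γ₂) ^ k * SemidirectProduct.inl w *
      (SemidirectProduct.inr qt ^ k)⁻¹ * (SemidirectProduct.inl w)⁻¹ = 1 := by
  rw [← map_pow, conj_inl, qt_pow]
  have h2 : nactF (⟨0, 0, (k : ℤ)⟩ : Q0) w = w := by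
    funext x
    rw [nactF]
    simp only [h, sub_zero]
    have h3 : dv n (⟨0, 0, (k : ℤ)⟩ : Q0) x = 0 := by simp [dv, fold_zero]
    rw [h3, uact_zero]
  rw [h2, mul_inv_cancel]

/-- the last four relations -/
theorem last (n k : ℕ) (u : U K γ₁ γ₂) :
    cm2 (E n K γ₁ γ₂ u) (SemidirectProduct.inr qt : Blk n K γ₁ γ₂) (SemidirectProduct.inr qb) k =
      1 := by
  rw [cm2]
  by_cases h : ((k : ℤ) : ZMod n) = 0
  · have h1 : cm (E n K γ₁ γ₂ u) (SemidirectProduct.inr qt : Blk n K γ₁ γ₂)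
        (SemidirectProduct.inr qb) k = SemidirectProduct.inl (cm (E n K γ₁ γ₂ u)
          (SemidirectProduct.inr qt : Blk n K γ₁ γ₂) (SemidirectProduct.inr qb) k).left := by
      refine SemidirectProduct.ext ?_ ?_
      · simp
      · have h2 := map_cm (SemidirectProduct.rightHom (φ := nact n K γ₁ γ₂)) (E n K γ₁ γ₂ u)
          (SemidirectProduct.inr qt) (SemidirectProduct.inr qb) k
        rw [SemidirectProduct.right_inl]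
        refine h2.trans ?_
        have h3 : SemidirectProduct.rightHom (φ := nact n K γ₁ γ₂) (E n K γ₁ γ₂ u) = 1 := rfl
        rw [h3, cm]
        group
    rw [h1]
    exact tk n k h _
  · rw [pk n k u h]
    group

end

/-- the equation for the unit -/
theorem gam_eq (d : Dat) (c : Fin d.m → Bool) :
    ((gam d c : (d.K)ˣ) : d.K) ^ 2 - 42 * ((gam d c : (d.K)ˣ) : d.K) + 216 = 0 := by
  funext a
  have h1 : ((gam d c : (d.K)ˣ) : d.K) a = (6 : ZMod (d.r a)) ^ ex (c a) := by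
    simp [gam, ZMod.coe_unitOfCoprime]
  simp only [Pi.add_apply, Pi.sub_apply, Pi.mul_apply, Pi.pow_apply, Pi.zero_apply, h1]
  have h42 : (42 : d.K) a = 42 := rfl
  have h216 : (216 : d.K) a = 216 := rfl
  rw [h42, h216]
  cases c a
  · simp only [ex]
    norm_num
  · simp only [ex]
    norm_num

theorem ne_of {n : ℕ} (hn : 5 ≤ n) (k : ℕ) (hk : 1 ≤ k) (hk' : k < 5) :
    ((k : ℤ) : ZMod n) ≠ 0 := by
  intro h
  have h1 : ((k : ℕ) : ZMod n) = 0 := by exact_mod_cast h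
  rw [ZMod.natCast_eq_zero_iff] at h1
  have := Nat.le_of_dvd (by omega) h1
  omega

/-- the relations in an arbitrary group -/
theorem sig_gen {B : Type} [Group B] (f : F7 →* B) (x1 x2 w b z y t : B) (h1 : f X1 = x1)
    (h2 : f X2 = x2) (h3 : f Wd = w) (h4 : f Bt = b) (h5 : f Zt = z) (h6 : f Yt = y)
    (h7 : f Tt = t)
    (R1 : z ^ 6 = 1) (R2 : z * t * z⁻¹ * t⁻¹ = 1) (R3 : z * y * z⁻¹ * y⁻¹ = 1)
    (R4 : z * b * z⁻¹ * b⁻¹ = 1) (R5 : y ^ 2 = 1) (R6 : y * t * y⁻¹ * t⁻¹ = 1)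
    (R7 : y * b * y⁻¹ * b⁻¹ = 1) (R8 : y * x1 * y⁻¹ * x1⁻¹ = 1) (R9 : y * x2 * y⁻¹ * x2⁻¹ = 1)
    (R10 : y * w * y⁻¹ * w = 1) (R11 : b ^ 6 = 1)
    (R12 : b ^ 2 * x1 * (b ^ 2)⁻¹ * (b * x1 * b⁻¹)⁻¹ * x1 = 1)
    (R13 : b ^ 2 * x2 * (b ^ 2)⁻¹ * (b * x2 * b⁻¹)⁻¹ * x2 = 1)
    (R14 : z * b⁻¹ * x1 * (z * b⁻¹)⁻¹ * x1⁻¹ = 1)
    (R15 : z * b⁻¹ * x2 * (z * b⁻¹)⁻¹ * x2⁻¹ = 1)
    (R16 : z * b⁻¹ * w * (z * b⁻¹)⁻¹ * w⁻¹ = 1)
    (R17 : x1 * (t * b * t⁻¹) * x1⁻¹ * (t * b * t⁻¹)⁻¹ = 1)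
    (R18 : x2 * (t * b * t⁻¹) * x2⁻¹ * (t * b * t⁻¹)⁻¹ = 1)
    (R19 : w * (t * b * t⁻¹) * w⁻¹ * (t * b * t⁻¹)⁻¹ = 1)
    (R20 : cm x1 t b 2 = 1) (R21 : cm x2 t b 2 = 1)
    (R22 : x1 * x2 * x1⁻¹ * x2⁻¹ = 1)
    (R23 : w * (b * x1 * b⁻¹) * w⁻¹ * (b * x1 * b⁻¹)⁻¹ = 1)
    (R24 : w * (b * x2 * b⁻¹) * w⁻¹ * (b * x2 * b⁻¹)⁻¹ = 1)
    (R25 : x1 * x2 * w * (x1 * x2)⁻¹ * (x1 * w * x1⁻¹)⁻¹ * (x2 * w * x2⁻¹)⁻¹ * w = 1)
    (R26 : c26 x1 x2 w = 1) (R27 : ∀ k : ℕ, cm2 x1 t b k = 1) (R28 : ∀ k : ℕ, cm2 w t b k = 1) :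
    ∀ v ∈ Sig, f v = 1 := by
  intro v hv
  simp only [Sig, Set.mem_insert_iff, Set.mem_singleton_iff] at hv
  rcases hv with h | h | h | h | h | h | h | h | h | h | h | h | h | h |
    h | h | h | h | h | h | h | h | h | h | h | h | h | h | h | h
  all_goals rw [h]
  all_goals clear h
  all_goals simp only [br, cnj, map_mul, map_inv, map_pow, h1, h2, h3, h4, h5, h6, h7]
  · exact R1
  · exact R2
  · exact R3
  · exact R4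
  · exact R5
  · exact R6
  · exact R7
  · exact R8
  · exact R9
  · exact R10
  · exact R11
  · exact R12
  · exact R13
  · exact R14
  · exact R15
  · exact R16
  · exact R17
  · exact R18
  · exact R19
  · exact R20
  · exact R21
  · exact R22
  · exact R23
  · exact R24
  · exact R25
  · exact R26
  · exact R27 5
  · exact R28 5
  · exact R27 7
  · exact R28 7

section
variable {n : ℕ} {K : Type} [CommRing K] {γ₁ γ₂ : Kˣ}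

theorem S1z (q : Q0) : (SemidirectProduct.inr qz : Blk n K γ₁ γ₂) * SemidirectProduct.inr q *
    (SemidirectProduct.inr qz)⁻¹ * (SemidirectProduct.inr q)⁻¹ = 1 := by
  rw [← map_inv, ← map_inv, ← map_mul, ← map_mul, ← map_mul, qz_comm, map_one]

theorem S1y (q : Q0) : (SemidirectProduct.inr qy : Blk n K γ₁ γ₂) * SemidirectProduct.inr q *
    (SemidirectProduct.inr qy)⁻¹ * (SemidirectProduct.inr q)⁻¹ = 1 := by
  rw [← map_inv, ← map_inv, ← map_mul, ← map_mul, ← map_mul, qy_comm, map_one]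

theorem S8 : uact (0, 1) (ux1 : U K γ₁ γ₂) = ux1 :=
  Prod.ext (by show actF (0, 1) (xg _ _) = _; rw [actx, us_zero]; rfl) (act1 _)

theorem S9 : uact (0, 1) (ux2 : U K γ₁ γ₂) = ux2 :=
  Prod.ext (act1 _) (by show actF (0, 1) (xg _ _) = _; rw [actx, us_zero]; rfl)

theorem S10 : (SemidirectProduct.inr qy : Blk n K γ₁ γ₂) * E n K γ₁ γ₂ uw *
    (SemidirectProduct.inr qy)⁻¹ * E n K γ₁ γ₂ uw = 1 := by
  rw [conj_E qy rfl, dv_qy, ← map_mul]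
  have h : uact (0, 1) (uw : U K γ₁ γ₂) * uw = 1 := Prod.ext rel10 rel10
  rw [h, map_one]

theorem S12g (u : U K γ₁ γ₂)
    (h : uact ((1, 0) + (1, 0)) u * (uact (1, 0) u)⁻¹ * u = 1) :
    (SemidirectProduct.inr qb : Blk n K γ₁ γ₂) ^ 2 * E n K γ₁ γ₂ u *
      ((SemidirectProduct.inr qb : Blk n K γ₁ γ₂) ^ 2)⁻¹ *
      ((SemidirectProduct.inr qb : Blk n K γ₁ γ₂) * E n K γ₁ γ₂ u *
        (SemidirectProduct.inr qb)⁻¹)⁻¹ * E n K γ₁ γ₂ u = 1 := by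
  rw [← map_pow, conj_E (qb ^ 2) (by rw [qb_pow]), conj_E qb rfl, ← map_inv, ← map_mul, ← map_mul,
    sq, dv_mul0 n qb qb rfl, dv_qb, h, map_one]

theorem S14g (u : U K γ₁ γ₂) :
    (SemidirectProduct.inr qz : Blk n K γ₁ γ₂) * (SemidirectProduct.inr qb)⁻¹ * E n K γ₁ γ₂ u *
      ((SemidirectProduct.inr qz : Blk n K γ₁ γ₂) * (SemidirectProduct.inr qb)⁻¹)⁻¹ *
      (E n K γ₁ γ₂ u)⁻¹ = 1 := by
  rw [← map_inv, ← map_mul]
  refine brq (qz * qb⁻¹) rfl _ ?_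
  rw [dv_mul0 n qz _ rfl, dv_inv0 n qb rfl, dv_qz, dv_qb, add_neg_cancel, uact_zero]

theorem S17 (u : U K γ₁ γ₂) (k1 : (((1 : ℕ) : ℤ) : ZMod n) ≠ 0) :
    E n K γ₁ γ₂ u * ((SemidirectProduct.inr qt : Blk n K γ₁ γ₂) * SemidirectProduct.inr qb *
      (SemidirectProduct.inr qt)⁻¹) * (E n K γ₁ γ₂ u)⁻¹ *
      ((SemidirectProduct.inr qt : Blk n K γ₁ γ₂) * SemidirectProduct.inr qb *
      (SemidirectProduct.inr qt)⁻¹)⁻¹ = 1 := by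
  have h := pk n 1 u k1
  rw [cm, pow_one] at h
  exact h

theorem S22 : E n K γ₁ γ₂ ux1 * E n K γ₁ γ₂ ux2 * (E n K γ₁ γ₂ ux1)⁻¹ * (E n K γ₁ γ₂ ux2)⁻¹ = 1 := by
  rw [← map_inv, ← map_inv, ← map_mul, ← map_mul, ← map_mul, r16, map_one]

theorem S23g (u : U K γ₁ γ₂) (h : uw * uact (1, 0) u * (uw : U K γ₁ γ₂)⁻¹ * (uact (1, 0) u)⁻¹ = 1) :
    E n K γ₁ γ₂ uw * ((SemidirectProduct.inr qb : Blk n K γ₁ γ₂) * E n K γ₁ γ₂ u *
      (SemidirectProduct.inr qb)⁻¹) * (E n K γ₁ γ₂ uw)⁻¹ *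
      ((SemidirectProduct.inr qb : Blk n K γ₁ γ₂) * E n K γ₁ γ₂ u *
      (SemidirectProduct.inr qb)⁻¹)⁻¹ = 1 := by
  rw [conj_E qb rfl, dv_qb, ← map_inv, ← map_inv, ← map_mul, ← map_mul, ← map_mul, h, map_one]

theorem S25 : E n K γ₁ γ₂ ux1 * E n K γ₁ γ₂ ux2 * E n K γ₁ γ₂ uw *
    (E n K γ₁ γ₂ ux1 * E n K γ₁ γ₂ ux2)⁻¹ *
    (E n K γ₁ γ₂ ux1 * E n K γ₁ γ₂ uw * (E n K γ₁ γ₂ ux1)⁻¹)⁻¹ *
    (E n K γ₁ γ₂ ux2 * E n K γ₁ γ₂ uw * (E n K γ₁ γ₂ ux2)⁻¹)⁻¹ * E n K γ₁ γ₂ uw = 1 := by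
  have h := congrArg (E n K γ₁ γ₂) (r18 (K := K) (γ₁ := γ₁) (γ₂ := γ₂))
  rw [map_one] at h
  rw [← h]
  simp only [map_mul, map_inv]

theorem h12a : uact ((1, 0) + (1, 0)) (ux1 : U K γ₁ γ₂) * (uact (1, 0) ux1)⁻¹ * ux1 = 1 := by
  refine Prod.ext rel12 ?_
  show actF _ 1 * (actF _ 1)⁻¹ * 1 = 1
  rw [act1, act1]
  group

theorem h12b : uact ((1, 0) + (1, 0)) (ux2 : U K γ₁ γ₂) * (uact (1, 0) ux2)⁻¹ * ux2 = 1 := by
  refine Prod.ext ?_ rel12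
  show actF _ 1 * (actF _ 1)⁻¹ * 1 = 1
  rw [act1, act1]
  group

theorem h23a : uw * uact (1, 0) ux1 * (uw : U K γ₁ γ₂)⁻¹ * (uact (1, 0) ux1)⁻¹ = 1 := by
  refine Prod.ext ?_ ?_
  · show wg _ _ * actF (1, 0) (xg _ _) * (wg _ _)⁻¹ * (actF (1, 0) (xg _ _))⁻¹ = 1
    rw [actx]
    exact wcomm _ (by decide)
  · show wg _ _ * actF _ 1 * (wg _ _)⁻¹ * (actF _ 1)⁻¹ = 1
    rw [act1]
    group

theorem h23b : uw * uact (1, 0) ux2 * (uw : U K γ₁ γ₂)⁻¹ * (uact (1, 0) ux2)⁻¹ = 1 := by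
  refine Prod.ext ?_ ?_
  · show wg _ _ * actF _ 1 * (wg _ _)⁻¹ * (actF _ 1)⁻¹ = 1
    rw [act1]
    group
  · show wg _ _ * actF (1, 0) (xg _ _) * (wg _ _)⁻¹ * (actF (1, 0) (xg _ _))⁻¹ = 1
    rw [actx]
    exact wcomm _ (by decide)

theorem main (g1 : (γ₁ : K) ^ 2 - 42 * γ₁ + 216 = 0) (g2 : (γ₂ : K) ^ 2 - 42 * γ₂ + 216 = 0)
    (hn5 : 5 ≤ n) : ∀ v ∈ Sig, pi n K γ₁ γ₂ v = 1 := by
  have k1 : (((1 : ℕ) : ℤ) : ZMod n) ≠ 0 := ne_of hn5 1 (by norm_num) (by norm_num)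
  have k2 : (((2 : ℕ) : ℤ) : ZMod n) ≠ 0 := ne_of hn5 2 (by norm_num) (by norm_num)
  refine sig_gen (pi n K γ₁ γ₂) _ _ _ _ _ _ _ pX1 pX2 pW pB pZ pY pT ?_ (S1z _) (S1z _) (S1z _)
    ?_ (S1y _) (S1y _) (brq qy rfl _ ?_) (brq qy rfl _ ?_) S10 ?_ (S12g _ h12a) (S12g _ h12b)
    (S14g _) (S14g _) (S14g _) (S17 _ k1) (S17 _ k1) (S17 _ k1) (pk n 2 _ k2) (pk n 2 _ k2) S22
    (S23g _ h23a) (S23g _ h23b) S25 (r19E g1 g2) (fun k => last n k _) (fun k => last n k _)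
  · rw [← map_pow, qz6, map_one]
  · rw [← map_pow, qy2, map_one]
  · rw [dv_qy, S8]
  · rw [dv_qy, S9]
  · rw [← map_pow, qb6, map_one]

end

theorem holds : Pool.Agent.H646.EC.S_std := fun d c1 c2 _ _ hn5 =>
  main (gam_eq d c1) (gam_eq d c2) hn5

end

end Pool.Agent.H975.ECstd
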