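import Pool.Agent.H646.EC.Stm

set_option autoImplicit false

/-!
# Interchanging the slots in one block
-/

namespace Pool.Agent.H349.ECswap

open Pool.Agent.H646.EC

theorem pi_of (n : ℕ) (K : Type) [CommRing K] (γ₁ γ₂ : Kˣ) (j : Fin 7) :
    Pool.Agent.H646.EC.pi n K γ₁ γ₂ (FreeGroup.of j) = gen n K γ₁ γ₂ j := by
  unfold Pool.Agent.H646.EC.pi
  rw [FreeGroup.lift_apply_of]

theorem gen_right (n : ℕ) (K : Type) [CommRing K] (γ₁ γ₂ : Kˣ) (j : Fin 7) :
    (gen n K γ₁ γ₂ j).right = Phi (FreeGroup.of j) := by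
  rw [← pi_right n K γ₁ γ₂, pi_of]

/-- interchanging the slots -/
def swN (n : ℕ) (K : Type) [CommRing K] (γ₁ γ₂ : Kˣ) : NN n K γ₂ γ₁ ≃* NN n K γ₁ γ₂ where
  toFun u := fun x => ((u x).2, (u x).1)
  invFun u := fun x => ((u x).2, (u x).1)
  left_inv _ := rfl
  right_inv _ := rfl
  map_mul' _ _ := rfl

theorem iso_exists (n : ℕ) (K : Type) [CommRing K] (γ₁ γ₂ γ₁' γ₂' : Kˣ)
    (h : (γ₁' = γ₁ ∧ γ₂' = γ₂) ∨ (γ₁' = γ₂ ∧ γ₂' = γ₁)) :
    ∃ θ : Blk n K γ₁' γ₂' ≃* Blk n K γ₁ γ₂, (∀ x, (θ x).right = x.right) ∧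
      (γ₁' = γ₁ ∧ γ₂' = γ₂ → ∀ j, θ (gen n K γ₁' γ₂' j) = gen n K γ₁ γ₂ j) := by
  by_cases h1 : γ₁' = γ₁ ∧ γ₂' = γ₂
  · obtain ⟨rfl, rfl⟩ := h1
    exact ⟨MulEquiv.refl _, fun x => rfl, fun _ j => rfl⟩
  · obtain ⟨rfl, rfl⟩ := h.resolve_left h1
    refine ⟨SemidirectProduct.congr (swN n K _ _) (MulEquiv.refl _) ?_, ?_,
      fun h2 => absurd h2 h1⟩
    · intro q
      ext1 u
      rfl
    · intro x
      rfl

theorem eq_inl {N G : Type} [Group N] [Group G] {φ : G →* MulAut N} (x : N ⋊[φ] G)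
    (hx : x.right = 1) : x = SemidirectProduct.inl x.left :=
  SemidirectProduct.ext rfl hx

theorem holds : Pool.Agent.H646.EC.S_swap := by
  intro B g1 g2 i h1 h2
  have hcase : ∀ k, (sw1 g1 g2 i k = g1 k ∧ sw1 g2 g1 i k = g2 k) ∨
      (sw1 g1 g2 i k = g2 k ∧ sw1 g2 g1 i k = g1 k) := by
    intro k
    by_cases hk : k = i
    · subst hk
      right
      exact ⟨Function.update_self .., Function.update_self ..⟩
    · left
      exact ⟨Function.update_of_ne hk .., Function.update_of_ne hk ..⟩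
  choose θ hθ1 hθ2 using fun k => iso_exists (B.n k) (B.K k) (g1 k) (g2 k) (sw1 g1 g2 i k)
    (sw1 g2 g1 i k) (hcase k)
  have hne : ∀ k, k ≠ i → ∀ j, θ k (gen (B.n k) (B.K k) (sw1 g1 g2 i k) (sw1 g2 g1 i k) j) =
      gen (B.n k) (B.K k) (g1 k) (g2 k) j := by
    intro k hk j
    exact hθ2 k ⟨Function.update_of_ne hk .., Function.update_of_ne hk ..⟩ j
  -- the words
  have hv : ∀ j : Fin 7, ∃ v : FreeGroup (Fin 7), ∀ k, Bpi B g1 g2 k v =
      θ k (gen (B.n k) (B.K k) (sw1 g1 g2 i k) (sw1 g2 g1 i k) j) := by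
    intro j
    have hr : (θ i (gen (B.n i) (B.K i) (sw1 g1 g2 i i) (sw1 g2 g1 i i) j) *
        (gen (B.n i) (B.K i) (g1 i) (g2 i) j)⁻¹).right = 1 := by
      rw [SemidirectProduct.mul_right, SemidirectProduct.inv_right, hθ1, gen_right, gen_right,
        mul_inv_cancel]
    obtain ⟨v, hv1, hv2⟩ := h1 i _
    refine ⟨v * FreeGroup.of j, ?_⟩
    intro k
    by_cases hk : k = i
    · subst hk
      rw [map_mul, hv1, ← eq_inl _ hr]
      unfold Bpi
      rw [pi_of, inv_mul_cancel_right]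
    · rw [map_mul, hv2 k hk, one_mul, hne k hk]
      exact pi_of ..
  choose v hv using hv
  have hα : ∀ k w, Bpi B g1 g2 k (FreeGroup.lift v w) =
      θ k (Bpi B (sw1 g1 g2 i) (sw1 g2 g1 i) k w) := by
    intro k w
    have h3 : (Bpi B g1 g2 k).comp (FreeGroup.lift v) =
        (θ k).toMonoidHom.comp (Bpi B (sw1 g1 g2 i) (sw1 g2 g1 i) k) := by
      refine FreeGroup.ext_hom _ _ fun j => ?_
      rw [MonoidHom.comp_apply, FreeGroup.lift_apply_of, hv, MonoidHom.comp_apply]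
      unfold Bpi
      rw [pi_of]
      rfl
    exact DFunLike.congr_fun h3 w
  refine ⟨(QuotientGroup.mk' (BN B g1 g2)).comp (FreeGroup.lift v), ?_, ?_⟩
  · rw [← MonoidHom.range_eq_top, eq_top_iff]
    have h4 : (⊤ : Subgroup (BG B g1 g2)) =
        Subgroup.map (QuotientGroup.mk' (BN B g1 g2)) ⊤ := by
      rw [← MonoidHom.range_eq_map, QuotientGroup.range_mk']
    rw [h4, ← FreeGroup.closure_range_of, MonoidHom.map_closure, Subgroup.closure_le]
    rintro _ ⟨_, ⟨j, rfl⟩, rfl⟩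
    -- the generator `j`
    have hr : ((θ i).symm (gen (B.n i) (B.K i) (g1 i) (g2 i) j) *
        (gen (B.n i) (B.K i) (sw1 g1 g2 i i) (sw1 g2 g1 i i) j)⁻¹).right = 1 := by
      rw [SemidirectProduct.mul_right, SemidirectProduct.inv_right, ← hθ1 i ((θ i).symm _),
        MulEquiv.apply_symm_apply, gen_right, gen_right, mul_inv_cancel]
    obtain ⟨w, hw1, hw2⟩ := h2 i _
    refine ⟨w * FreeGroup.of j, ?_⟩
    rw [MonoidHom.comp_apply]
    refine (QuotientGroup.eq (s := BN B g1 g2)).2 ?_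
    rw [mem_BN]
    intro k
    rw [map_mul, map_inv, inv_mul_eq_one, hα]
    by_cases hk : k = i
    · subst hk
      rw [map_mul (Bpi B (sw1 g1 g2 k) (sw1 g2 g1 k) k), hw1, ← eq_inl _ hr]
      unfold Bpi
      rw [pi_of, pi_of, inv_mul_cancel_right, MulEquiv.apply_symm_apply]
    · rw [map_mul (Bpi B (sw1 g1 g2 i) (sw1 g2 g1 i) k), hw2 k hk, one_mul]
      unfold Bpi
      rw [pi_of, pi_of, hne k hk]
  · ext w
    rw [MonoidHom.mem_ker, MonoidHom.comp_apply, QuotientGroup.mk'_apply,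
      QuotientGroup.eq_one_iff, mem_BN, mem_BN]
    refine forall_congr' fun k => ?_
    rw [hα, MulEquiv.map_eq_one_iff]

end Pool.Agent.H349.ECswap
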