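import Pool.Agent.H646.EC.Stm

set_option autoImplicit false

/-!
# Project EC (helper646), `S_tt`

The relations `[t^n, [x₁, t^n β t^(-n)]] = [t^n, [w, t^n β t^(-n)]] = 1` in the second normal
form give `∑ x, dv n (c 6).right x = 0`.
-/

namespace Pool.Agent.H996.EC_tt

open Pool.Agent.H646.EC

/-- the label of a power -/
theorem dv_pow (n : ℕ) (q : Q0) (k : ℕ) (x : ZMod n) :
    dv n (q ^ k) x = ∑ i ∈ Finset.range k, dv n q (x - (i : ℕ) * q.d) := by
  induction k generalizing x with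
  | zero => rw [pow_zero, dv_one, Finset.sum_range_zero]
  | succ k ih =>
    rw [pow_succ', dv_mul, ih, Finset.sum_range_succ']
    rw [add_comm]
    congr 1
    · refine Finset.sum_congr rfl fun i _ => ?_
      congr 1
      push_cast
      ring
    · rw [Nat.cast_zero, zero_mul, sub_zero]

theorem d_pow (q : Q0) (k : ℕ) : (q ^ k).d = k * q.d := by
  induction k with
  | zero => rw [pow_zero, Q0.one_d, Nat.cast_zero, zero_mul]
  | succ k ih =>
    rw [pow_succ, Q0.mul_d, ih]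
    push_cast
    ring

/-- sum over all coordinates -/
theorem sum_all (n : ℕ) [NeZero n] (q : Q0) (hd : q.d = 1 ∨ q.d = -1) (x : ZMod n) :
    dv n (q ^ n) x = ∑ y, dv n q y := by
  rw [dv_pow]
  refine Finset.sum_bij' (fun i _ => x - (i : ℕ) * (q.d : ZMod n))
    (fun y _ => ((x - y) * (q.d : ZMod n)).val) ?_ ?_ ?_ ?_ ?_
  · intro i _
    exact Finset.mem_univ _
  · intro y _
    rw [Finset.mem_range]
    exact ZMod.val_lt _
  · intro i hi
    rw [Finset.mem_range] at hi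
    have h1 : (q.d : ZMod n) * q.d = 1 := by
      rcases hd with h | h <;> rw [h] <;> push_cast <;> ring
    have h2 : (x - (x - (i : ℕ) * (q.d : ZMod n))) * (q.d : ZMod n) = (i : ℕ) := by
      rw [sub_sub_cancel, mul_assoc, h1, mul_one]
    rw [h2]
    exact ZMod.val_cast_of_lt hi
  · intro y _
    have h1 : (q.d : ZMod n) * q.d = 1 := by
      rcases hd with h | h <;> rw [h] <;> push_cast <;> ring
    rw [ZMod.natCast_val, ZMod.cast_id', id, mul_assoc, h1, mul_one, sub_sub_cancel]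
  · intro i _
    rfl

theorem uact_one {K : Type} [CommRing K] {γ₁ γ₂ : Kˣ} (e : D) : uact e (1 : U K γ₁ γ₂) = 1 := by
  have h1 := uact_mul e (1 : U K γ₁ γ₂) 1
  rw [mul_one] at h1
  exact (mul_eq_left.1 h1.symm)

theorem uact_inv {K : Type} [CommRing K] {γ₁ γ₂ : Kˣ} (e : D) (u : U K γ₁ γ₂) :
    uact e u⁻¹ = (uact e u)⁻¹ := by
  rw [eq_inv_iff_mul_eq_one, ← uact_mul, inv_mul_cancel, uact_one]

/-- the relation in a group -/
theorem absr {G : Type} [Group G] (c : Fin 7 → G) (H T B X : G) (n : ℕ) (j : Fin 7)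
    (h3 : c 3 = H * B * H⁻¹) (h6 : c 6 = H * T * H⁻¹) (hj : c j = H * X * H⁻¹)
    (hr : FreeGroup.lift c (br (Tt ^ n) (br (FreeGroup.of j) (cnj (Tt ^ n) Bt))) = 1) :
    T ^ n * (X * (T ^ n * B * (T ^ n)⁻¹) * X⁻¹ * (T ^ n * B * (T ^ n)⁻¹)⁻¹) * (T ^ n)⁻¹ =
      X * (T ^ n * B * (T ^ n)⁻¹) * X⁻¹ * (T ^ n * B * (T ^ n)⁻¹)⁻¹ := by
  simp only [br, cnj, map_mul, map_inv, map_pow, Tt, Bt, FreeGroup.lift_apply_of] at hr
  rw [h3, h6, hj, conj_pow] at hr
  obtain ⟨P, hP⟩ : ∃ P : G, P = T ^ n := ⟨_, rfl⟩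
  rw [← hP] at hr ⊢
  rw [← mul_inv_eq_one, ← conj_eq_one_iff (a := H), ← hr]
  group

/-- the relation in a semidirect product -/
theorem semi {N G : Type} [Group N] [Group G] (φ : G →* MulAut N) (u : N) (q r : G) (n : ℕ)
    (hr : (SemidirectProduct.inr q : N ⋊[φ] G) ^ n *
      (SemidirectProduct.inl u * (SemidirectProduct.inr q ^ n * SemidirectProduct.inr r *
        (SemidirectProduct.inr q ^ n)⁻¹) * (SemidirectProduct.inl u)⁻¹ *
        (SemidirectProduct.inr q ^ n * SemidirectProduct.inr r *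
        (SemidirectProduct.inr q ^ n)⁻¹)⁻¹) * (SemidirectProduct.inr q ^ n)⁻¹ =
      SemidirectProduct.inl u * (SemidirectProduct.inr q ^ n * SemidirectProduct.inr r *
        (SemidirectProduct.inr q ^ n)⁻¹) * (SemidirectProduct.inl u)⁻¹ *
        (SemidirectProduct.inr q ^ n * SemidirectProduct.inr r *
        (SemidirectProduct.inr q ^ n)⁻¹)⁻¹) :
    φ (q ^ n) (u * (φ (q ^ n * r * (q ^ n)⁻¹) u)⁻¹) =
      u * (φ (q ^ n * r * (q ^ n)⁻¹) u)⁻¹ := by
  obtain ⟨s, hs⟩ : ∃ s, s = q ^ n * r * (q ^ n)⁻¹ := ⟨_, rfl⟩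
  have e1 : (SemidirectProduct.inr q ^ n * SemidirectProduct.inr r *
        (SemidirectProduct.inr q ^ n)⁻¹ : N ⋊[φ] G) = SemidirectProduct.inr s := by
    rw [hs, map_mul, map_mul, map_inv, map_pow]
  have e2 : (SemidirectProduct.inl u * SemidirectProduct.inr s * (SemidirectProduct.inl u)⁻¹ *
      (SemidirectProduct.inr s)⁻¹ : N ⋊[φ] G) = SemidirectProduct.inl (u * (φ s u)⁻¹) := by
    rw [map_mul, map_inv, SemidirectProduct.inl_aut, map_inv]
    group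
  rw [e1, e2, ← map_pow, ← map_inv (SemidirectProduct.inr : G →* N ⋊[φ] G),
    ← SemidirectProduct.inl_aut] at hr
  rw [← hs]
  exact SemidirectProduct.inl_injective hr

/-- the relation in a semidirect product, for a tuple -/
theorem semc {N G : Type} [Group N] [Group G] (φ : G →* MulAut N) (c : Fin 7 → N ⋊[φ] G)
    (h u : N) (n : ℕ) (j : Fin 7)
    (h3 : c 3 = SemidirectProduct.inl h * SemidirectProduct.inr (c 3).right *
      (SemidirectProduct.inl h)⁻¹)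
    (h6 : c 6 = SemidirectProduct.inl h * SemidirectProduct.inr (c 6).right *
      (SemidirectProduct.inl h)⁻¹)
    (hj : c j = SemidirectProduct.inl h * SemidirectProduct.inl u * (SemidirectProduct.inl h)⁻¹)
    (hr : FreeGroup.lift c (br (Tt ^ n) (br (FreeGroup.of j) (cnj (Tt ^ n) Bt))) = 1) :
    φ ((c 6).right ^ n) (u * (φ ((c 6).right ^ n * (c 3).right * ((c 6).right ^ n)⁻¹) u)⁻¹) =
      u * (φ ((c 6).right ^ n * (c 3).right * ((c 6).right ^ n)⁻¹) u)⁻¹ :=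
  semi φ u (c 6).right (c 3).right n (absr c (SemidirectProduct.inl h)
    (SemidirectProduct.inr (c 6).right) (SemidirectProduct.inr (c 3).right)
    (SemidirectProduct.inl u) n j h3 h6 hj hr)

/-- the common part of both relations -/
theorem core {n : ℕ} [NeZero n] {K : Type} [CommRing K] {γ₁ γ₂ : Kˣ}
    (c : Fin 7 → Blk n K γ₁ γ₂) (h : NN n K γ₁ γ₂) (x0 : ZMod n) (ε : ZMod 6)
    (h3 : c 3 = SemidirectProduct.inl h * SemidirectProduct.inr (c 3).right *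
      (SemidirectProduct.inl h)⁻¹)
    (h6 : c 6 = SemidirectProduct.inl h * SemidirectProduct.inr (c 6).right *
      (SemidirectProduct.inl h)⁻¹)
    (q3 : dv n (c 3).right x0 = (ε, 0))
    (d3 : (c 3).right.d = 0) (d6 : (c 6).right.d = 1 ∨ (c 6).right.d = -1)
    (v : U K γ₁ γ₂) (j : Fin 7)
    (hj : c j = SemidirectProduct.inl h * SemidirectProduct.inl (Pi.mulSingle x0 v) *
      (SemidirectProduct.inl h)⁻¹)
    (hr : FreeGroup.lift c (br (Tt ^ n) (br (FreeGroup.of j) (cnj (Tt ^ n) Bt))) = 1) :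
    uact (∑ x, dv n (c 6).right x) (v * (uact (ε, 0) v)⁻¹) = v * (uact (ε, 0) v)⁻¹ := by
  have e1 := semc (nact n K γ₁ γ₂) c h (Pi.mulSingle x0 v) n j h3 h6 hj hr
  obtain ⟨q, hq⟩ : ∃ q, q = (c 6).right := ⟨_, rfl⟩
  obtain ⟨r, hr3⟩ : ∃ r, r = (c 3).right := ⟨_, rfl⟩
  rw [← hq] at d6 e1 ⊢
  rw [← hr3] at q3 d3 e1
  have hqn : ((q ^ n).d : ZMod n) = 0 := by
    rw [d_pow]
    push_cast
    rw [ZMod.natCast_self, zero_mul]
  have hinv : ∀ x, dv n (q ^ n)⁻¹ x = - dv n (q ^ n) x := by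
    intro x
    have h1 := dv_mul n (q ^ n) (q ^ n)⁻¹ x
    rw [mul_inv_cancel, dv_one, hqn, sub_zero] at h1
    exact (neg_eq_of_add_eq_zero_right h1.symm).symm
  have hs : ∀ x, dv n (q ^ n * r * (q ^ n)⁻¹) x = dv n r x := by
    intro x
    rw [dv_mul, dv_mul, hinv, Q0.mul_d, d3, add_zero, hqn, sub_zero]
    abel
  have hsd : ((q ^ n * r * (q ^ n)⁻¹).d : ZMod n) = 0 := by
    rw [Q0.mul_d, Q0.mul_d, Q0.inv_d, d3]
    push_cast
    rw [hqn]
    ring
  have e2 := congrFun e1 x0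
  obtain ⟨s, hs'⟩ : ∃ s, s = q ^ n * r * (q ^ n)⁻¹ := ⟨_, rfl⟩
  rw [← hs'] at e2 hs hsd
  have e3 : (nact n K γ₁ γ₂ s (Pi.mulSingle x0 v)) x0 = uact (ε, 0) v := by
    rw [nact_apply, nactF, hs, hsd, sub_zero, Pi.mulSingle_eq_same, q3]
  rw [nact_apply, nactF, hqn, sub_zero, Pi.mul_apply, Pi.inv_apply, e3, Pi.mulSingle_eq_same,
    sum_all n q d6] at e2
  exact e2

/-- `us s` fixes `1 - sg` only for `s = 0` -/
theorem us_fix : ∀ s : ZMod 6, us s * (1 + -(us 1 * 1)) = 1 + -(us 1 * 1) → s = 0 := by decide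

theorem snone {K : Type} [CommRing K] : ((sn K 1 : Kˣ) : K) = -1 := by
  have h1 : (1 : ZMod 2).val = 1 := by decide
  rw [sn, h1, pow_one, Units.val_neg, Units.val_one]

theorem wz {K : Type} [CommRing K] (γ : Kˣ) :
    ((wg K γ, wg K γ) * (uact (1, 0) (wg K γ, wg K γ))⁻¹ : U K γ γ).1.f 0 = 1 := by
  have h1 : ((wg K γ, wg K γ) * (uact (1, 0) (wg K γ, wg K γ))⁻¹ : U K γ γ).1 =
    wg K γ * (actF (1, 0) (wg K γ))⁻¹ := rfl
  have h2 : (Pi.single 0 1 : ZMod 6 → K) (0 + 1) = 0 := by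
    rw [Pi.single_apply, if_neg (by decide)]
  rw [h1, Hgp.mul_f, Hgp.inv_f, actF_f]
  have h3 : (wg K γ).f = (Pi.single 0 1 : ZMod 6 → K) := rfl
  rw [h3, h2, mul_zero, mul_zero, neg_zero, mul_zero, add_zero, Pi.single_eq_same]

theorem holds : Pool.Agent.H646.EC.S_tt := by
  intro d cc n _ c h x0 ε m1 m2 w Λ hN hΛ hm1 _ hw hr1 hr2
  have hε := hN.hε
  have q3 : dv n (c 3).right x0 = (ε, 0) := by
    rw [hN.q3, if_pos rfl]
  have h0 := hN.c0
  rw [← hm1] at h0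
  have h2 := hN.c2
  rw [← hw] at h2
  have k1 := core c h x0 ε (hN.cq 3 (by decide)) (hN.cq 6 (by decide)) q3 hN.d3 hN.d6 _ 0 h0 hr1
  have k2 := core c h x0 ε (hN.cq 3 (by decide)) (hN.cq 6 (by decide)) q3 hN.d3 hN.d6 _ 2 h2 hr2
  obtain ⟨τ, hτ⟩ : ∃ τ : D, τ = ∑ x, dv n (c 6).right x := ⟨_, rfl⟩
  rw [← hτ] at k1 k2 ⊢
  have hεε : ε * ε = 1 := by
    rcases hε with h | h <;> rw [h] <;> decide
  -- transport through `Λ`
  have tr : ∀ g : U d.K (gam d cc) (gam d cc),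
      uact τ (Λ g * (uact (ε, 0) (Λ g))⁻¹) = Λ g * (uact (ε, 0) (Λ g))⁻¹ →
      uact (ε * τ.1, τ.2) (g * (uact (1, 0) g)⁻¹) = g * (uact (1, 0) g)⁻¹ := by
    intro g hg
    apply Λ.injective
    rw [hΛ, ← mul_assoc, hεε, one_mul, map_mul, map_inv, hΛ, mul_one]
    exact hg
  have t1 := tr _ k1
  have t2 := tr _ k2
  have r1 : τ.1 = 0 := by
    have h1 := congrArg (fun u : U d.K (gam d cc) (gam d cc) => u.1.x) t1
    have h3 : us (ε * τ.1) * (1 + -(us 1 * 1)) = 1 + -(us 1 * 1) := h1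
    have h4 := us_fix _ h3
    rw [← one_mul τ.1, ← hεε, mul_assoc, h4, mul_zero]
  rw [r1, mul_zero] at t2
  have r2 : τ.2 = 0 := by
    by_contra hne
    have h5 : τ.2 = 1 := by
      revert hne
      generalize τ.2 = e
      revert e
      decide
    rw [h5] at t2
    obtain ⟨Z, hZ⟩ : ∃ Z : U d.K (gam d cc) (gam d cc), Z =
      (wg d.K (gam d cc), wg d.K (gam d cc)) *
        (uact (1, 0) (wg d.K (gam d cc), wg d.K (gam d cc)))⁻¹ := ⟨_, rfl⟩
    rw [← hZ] at t2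
    have hZ0 : Z.1.f 0 = 1 := by
      rw [hZ]
      exact wz (gam d cc)
    have h1 : ((sn d.K 1 : d.Kˣ) : d.K) * Z.1.f (0 + 0) = Z.1.f 0 :=
      congrArg (fun u : U d.K (gam d cc) (gam d cc) => u.1.f 0) t2
    rw [add_zero, hZ0, mul_one, snone] at h1
    have h6 := congrFun h1 ⟨0, d.mpos⟩
    rw [Pi.neg_apply, Pi.one_apply] at h6
    have h7 : ((2 : ℕ) : ZMod (d.r ⟨0, d.mpos⟩)) = 0 := by
      have h8 : (2 : ZMod (d.r ⟨0, d.mpos⟩)) = 1 - (-1) := by ring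
      rw [Nat.cast_ofNat, h8, h6, sub_self]
    rw [ZMod.natCast_eq_zero_iff] at h7
    have h9 := Nat.le_of_dvd (by norm_num) h7
    have h10 := d.big ⟨0, d.mpos⟩
    have h11 := d.big' ⟨0, d.mpos⟩
    omega
  exact Prod.ext r1 r2

end Pool.Agent.H996.EC_tt
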