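import Pool.Agent.H646.EC.Stm

set_option autoImplicit false

/-! # S_um of project EC (MP_f5330b_al): unmarked elementary equivalence, S_lat assumed -/

namespace Pool.Agent.H860.ECum
open Pool.Agent.H646.EC

/-- The invariant with the roles interchanged. -/
theorem inv_flip {C L : ℕ} {μ μ' : ℤ} {m : ℕ} {x x' : Fin m → O} (h : Inv C L μ x x')
    (hL : (L : ℤ) ∣ μ * μ' - 1) : Inv C L μ' x' x := by
  refine ⟨fun c hc => (h.1 c hc).symm, fun j => ?_⟩
  obtain ⟨z, hz⟩ := h.2 j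
  obtain ⟨t, ht⟩ := hL
  refine ⟨-(t • x j) - μ' • z, ?_⟩
  have e : μ' * μ = 1 + (L : ℤ) * t := by linarith [mul_comm μ μ']
  rw [hz, smul_add, smul_smul, e, add_smul, one_smul, smul_sub, smul_neg, mul_smul,
    ← Nat.cast_smul_eq_nsmul ℤ L z, ← Nat.cast_smul_eq_nsmul ℤ L (t • x j),
    ← Nat.cast_smul_eq_nsmul ℤ L (μ' • z), smul_comm μ' (L : ℤ) z]
  abel

/-- The sequence of the bounds. -/
theorem seq (h : S_lat) (N : ℕ) (hN : 0 < N) : ∃ C L : ℕ → ℕ, 3 ≤ C 0 ∧ (∀ k, 0 < L k) ∧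
    (∀ k, N ∣ L k) ∧ (∀ k, L k ∣ L (k + 1)) ∧
    ∀ k, ∀ (m : ℕ) (μ : ℤ) (x x' : Fin m → O), Inv (C (k + 1)) (L (k + 1)) μ x x' → ∀ y : O,
      ∃ y' : O, Inv (C k) (L k) μ (Fin.snoc x y : Fin (m + 1) → O)
        (Fin.snoc x' y' : Fin (m + 1) → O) := by
  choose fC fL h1 h2 h3 h4 using h
  let g : ℕ → {p : ℕ × ℕ // 0 < p.2 ∧ N ∣ p.2} := fun k => Nat.rec
    ⟨(3, N), hN, dvd_rfl⟩
    (fun _ p => ⟨(fC p.1.1 p.1.2 p.2.1, fL p.1.1 p.1.2 p.2.1), h1 _ _ _,
      p.2.2.trans (h2 _ _ _)⟩) k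
  refine ⟨fun k => (g k).1.1, fun k => (g k).1.2, le_rfl, fun k => (g k).2.1,
    fun k => (g k).2.2, fun k => h2 _ _ _, fun k m μ x x' hx y => ?_⟩
  exact h4 (g k).1.1 (g k).1.2 (g k).2.1 m μ x x' hx y

/-- The set of pairs of a position. -/
def Pos {K : Type} [CommRing K] (γ γ' : Kˣ) {m : ℕ} (f : Fin m → ZMod 6 → K) (x x' : Fin m → O) :
    Set (Hgp K γ × Hgp K γ') :=
  {p | ∃ i, p = (⟨f i, x i⟩, ⟨f i, x' i⟩)}

theorem pos_snoc {K : Type} [CommRing K] (γ γ' : Kˣ) {m : ℕ} (f : Fin m → ZMod 6 → K)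
    (x x' : Fin m → O) (g : ZMod 6 → K) (y y' : O) :
    insert ((⟨g, y⟩, ⟨g, y'⟩) : Hgp K γ × Hgp K γ') (Pos γ γ' f x x') =
      Pos γ γ' (Fin.snoc f g : Fin (m + 1) → ZMod 6 → K) (Fin.snoc x y : Fin (m + 1) → O)
        (Fin.snoc x' y' : Fin (m + 1) → O) := by
  ext p
  simp only [Pos, Set.mem_insert_iff, Set.mem_ofPred_eq]
  constructor
  · rintro (h | ⟨i, h⟩)
    · exact ⟨Fin.last m, by simpa using h⟩
    · exact ⟨i.castSucc, by simpa using h⟩
  · rintro ⟨i, h⟩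
    induction i using Fin.lastCases with
    | last => left; simpa using h
    | cast i => right; exact ⟨i, by simpa using h⟩

theorem us_bd (s : ZMod 6) : |(us s).re| ≤ 1 ∧ |(us s).im| ≤ 1 := by
  revert s; decide

/-- A relation with three terms. -/
theorem rel3 {m : ℕ} {C L : ℕ} {μ : ℤ} {x x' : Fin m → O} (h : Inv C L μ x x') (hC : 3 ≤ C)
    (i j l : Fin m) (s : ZMod 6) : x i + us s * x j = x l ↔ x' i + us s * x' j = x' l := by
  have hs := us_bd s
  have key := h.1 (fun t => (if t = i then 1 else 0) + (if t = j then us s else 0) -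
    (if t = l then 1 else 0)) (by
    intro t
    have h1 : ∀ (P : Prop) [Decidable P], |(if P then (1 : O) else 0).re| ≤ 1 ∧
        |(if P then (1 : O) else 0).im| ≤ 1 := by
      intro P _
      split_ifs <;> decide
    have h2 : ∀ (P : Prop) [Decidable P], |(if P then us s else 0).re| ≤ 1 ∧
        |(if P then us s else 0).im| ≤ 1 := by
      intro P _
      split_ifs
      · exact hs
      · simp
    have a1 := h1 (t = i)
    have a2 := h2 (t = j)
    have a3 := h1 (t = l)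
    have hC' : (3 : ℤ) ≤ C := by exact_mod_cast hC
    simp only [QuadraticAlgebra.re_add, QuadraticAlgebra.re_sub, QuadraticAlgebra.im_add,
      QuadraticAlgebra.im_sub]
    rw [abs_le, abs_le] at a1 a2 a3
    rw [abs_le, abs_le]
    refine ⟨⟨?_, ?_⟩, ?_, ?_⟩ <;> linarith [a1.1.1, a1.1.2, a1.2.1, a1.2.2, a2.1.1, a2.1.2,
      a2.2.1, a2.2.2, a3.1.1, a3.1.2, a3.2.1, a3.2.2])
  have e : ∀ y : Fin m → O, ∑ t, ((if t = i then 1 else 0) + (if t = j then us s else 0) -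
      (if t = l then 1 else 0)) * y t = y i + us s * y j - y l := by
    intro y
    simp [add_mul, sub_mul, Finset.sum_add_distrib, Finset.sum_sub_distrib, ite_mul]
  rw [e, e, sub_eq_zero, sub_eq_zero] at key
  exact key

theorem rel2 {m : ℕ} {C L : ℕ} {μ : ℤ} {x x' : Fin m → O} (h : Inv C L μ x x') (hC : 3 ≤ C)
    (i j : Fin m) : x i = x j ↔ x' i = x' j := by
  have key := h.1 (fun t => (if t = i then 1 else 0) - (if t = j then 1 else 0)) (by
    intro t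
    have h1 : ∀ (P : Prop) [Decidable P], |(if P then (1 : O) else 0).re| ≤ 1 ∧
        |(if P then (1 : O) else 0).im| ≤ 1 := by
      intro P _
      split_ifs <;> decide
    have a1 := h1 (t = i)
    have a3 := h1 (t = j)
    have hC' : (3 : ℤ) ≤ C := by exact_mod_cast hC
    simp only [QuadraticAlgebra.re_sub, QuadraticAlgebra.im_sub]
    rw [abs_le, abs_le] at a1 a3
    rw [abs_le, abs_le]
    refine ⟨⟨?_, ?_⟩, ?_, ?_⟩ <;> linarith [a1.1.1, a1.1.2, a1.2.1, a1.2.2,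
      a3.1.1, a3.1.2, a3.2.1, a3.2.2])
  have e : ∀ y : Fin m → O, ∑ t, ((if t = i then 1 else 0) -
      (if t = j then 1 else 0)) * y t = y i - y j := by
    intro y
    simp [sub_mul, Finset.sum_sub_distrib, ite_mul]
  rw [e, e, sub_eq_zero, sub_eq_zero] at key
  exact key

theorem ph_zsmul (l : ZMod 6) (a : ℤ) (x : O) : ph l (a • x) = a * ph l x := by
  rw [ph, ph, mul_smul_comm, QuadraticAlgebra.re_smul, smul_eq_mul]

/-- Rank `0`. -/
theorem rank0 {K : Type} [CommRing K] {γ γ' : Kˣ} {N : ℕ} {μ : ℤ}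
    (hγ : ∀ z z' : ℤ, (N : ℤ) ∣ z' - μ * z → γ' ^ z' = γ ^ z) {C L : ℕ} (hC : 3 ≤ C) (hL : N ∣ L)
    {m : ℕ} (f : Fin m → ZMod 6 → K) (x x' : Fin m → O) (h : Inv C L μ x x') :
    BF (RH K γ) (RH K γ') 0 (Pos γ γ' f x x') := by
  constructor
  · rintro _ ⟨i, rfl⟩ _ ⟨j, rfl⟩
    simp only [Hgp.mk.injEq, rel2 h hC i j]
  · rintro d _ ⟨i, rfl⟩ _ ⟨j, rfl⟩ _ ⟨l, rfl⟩
    have hp : ∀ t, γ' ^ ph t (x' i) = γ ^ ph t (x i) := by
      intro t
      refine hγ _ _ ?_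
      obtain ⟨z, hz⟩ := h.2 i
      rw [hz, ph_add, ph_zsmul, ← Nat.cast_smul_eq_nsmul ℤ L z, ph_zsmul]
      rw [add_sub_cancel_left]
      exact Dvd.dvd.mul_right (Int.natCast_dvd_natCast.mpr hL) _
    simp only [RH, Hgp.ext_iff, Hgp.mul_x, actF_x, rel3 h hC i j l d.1]
    refine and_congr ?_ Iff.rfl
    rw [funext_iff, funext_iff]
    refine forall_congr' fun t => ?_
    simp only [Hgp.mul_f, actF_f, hp]

/-- S_um. -/
theorem holds (h : S_lat) : S_um := by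
  intro K _ γ γ' hT k
  obtain ⟨N, hN, hT⟩ := hT
  obtain ⟨C, L, hC, hL0, hNL, hLL, hstep⟩ := seq h N hN
  obtain ⟨M, hM⟩ := hNL k
  have hM0 : 0 < M := by
    rcases Nat.eq_zero_or_pos M with h0 | h0
    · have := hL0 k
      rw [hM, h0] at this
      simp at this
    · exact h0
  obtain ⟨μ, μ', hμ, hγ⟩ := hT M hM0
  rw [← hM] at hμ
  have hmono : ∀ i j, i ≤ j → L i ∣ L j := by
    intro i j hij
    induction j, hij using Nat.le_induction with
    | base => exact dvd_rfl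
    | succ j _ ih => exact ih.trans (hLL j)
  have main : ∀ j, j ≤ k → ∀ (m : ℕ) (f : Fin m → ZMod 6 → K) (x x' : Fin m → O),
      Inv (C j) (L j) μ x x' → BF (RH K γ) (RH K γ') j (Pos γ γ' f x x') := by
    intro j
    induction j with
    | zero =>
      intro _ m f x x' hi
      exact rank0 hγ hC (hNL 0) f x x' hi
    | succ j ih =>
      intro hj m f x x' hi
      have d1 : ∀ i ≤ k, (L i : ℤ) ∣ μ * μ' - 1 := fun i hik =>
        (Int.natCast_dvd_natCast.mpr (hmono i k hik)).trans hμ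
      have d2 : ∀ i ≤ k, (L i : ℤ) ∣ μ' * μ - 1 := fun i hik => by
        rw [mul_comm μ' μ]; exact d1 i hik
      constructor
      · rintro ⟨g, y⟩
        obtain ⟨y', hy'⟩ := hstep j m μ x x' hi y
        refine ⟨⟨g, y'⟩, ?_⟩
        rw [pos_snoc]
        exact ih (by omega) _ _ _ _ hy'
      · rintro ⟨g, y'⟩
        obtain ⟨y, hy⟩ := hstep j m μ' x' x (inv_flip hi (d1 _ hj)) y'
        refine ⟨⟨g, y⟩, ?_⟩
        rw [pos_snoc]
        exact ih (by omega) _ _ _ _ (inv_flip hy (d2 _ (by omega)))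
  have h0 := main k le_rfl 0 (fun i => i.elim0) (fun i => i.elim0) (fun i => i.elim0)
    ⟨fun c _ => by simp, fun i => i.elim0⟩
  have e : Pos γ γ' (fun i : Fin 0 => (i.elim0 : ZMod 6 → K)) (fun i : Fin 0 => (i.elim0 : O))
      (fun i : Fin 0 => (i.elim0 : O)) = ∅ := by
    ext p
    simp [Pos]
  rw [e] at h0
  exact h0

end Pool.Agent.H860.ECum
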