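import Pool.Agent.H646.EC.Stm

set_option autoImplicit false

/-! # S_wt of project EC -/

namespace Pool.Agent.H97.ECwt
open Pool.Agent.H646.EC
noncomputable section

section W
variable {G H : Type} [Group G] [Group H]

def w1 (p q r : G) : G :=
  (p * q) * r * (p * q)⁻¹ * (p * r * p⁻¹)⁻¹ * (q * r * q⁻¹)⁻¹ * r

def w2 (p q r : G) : G :=
  p ^ 2 * r * (p ^ 2)⁻¹ * ((p * q) * r * (p * q)⁻¹) ^ 2 * (q ^ 2 * r * (q ^ 2)⁻¹) *
    ((p * r * p⁻¹) ^ 44)⁻¹ * ((q * r * q⁻¹) ^ 44)⁻¹ * r ^ 259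

def w3 (p r : G) : G := r * p * r⁻¹ * p⁻¹

theorem map_w1 (φ : G →* H) (p q r : G) : φ (w1 p q r) = w1 (φ p) (φ q) (φ r) := by
  simp only [w1, map_mul, map_inv]

theorem map_w2 (φ : G →* H) (p q r : G) : φ (w2 p q r) = w2 (φ p) (φ q) (φ r) := by
  simp only [w2, map_mul, map_inv, map_pow]

theorem map_w3 (φ : G →* H) (p r : G) : φ (w3 p r) = w3 (φ p) (φ r) := by
  simp only [w3, map_mul, map_inv]

end W

theorem mem1 : w1 X1 X2 Wd ∈ Sig := by simp [Sig, w1, cnj]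
theorem mem2 : w2 X1 X2 Wd ∈ Sig := by simp [Sig, w2, cnj]
theorem mem3 : w3 (cnj Bt X1) Wd ∈ Sig := by simp [Sig, w3, br]
theorem mem4 : w3 (cnj Bt X2) Wd ∈ Sig := by simp [Sig, w3, br]

section H
variable {K : Type} [CommRing K] {γ : Kˣ}

def wf (f : ZMod 6 → K) : Hgp K γ := ⟨f, 0⟩
def xm (y : O) : Hgp K γ := ⟨0, y⟩

theorem wf_mul (f g : ZMod 6 → K) : (wf f * wf g : Hgp K γ) = wf (f + g) := by
  refine Hgp.ext (funext fun l => ?_) ?_
  · simp [wf]
  · simp [wf]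

theorem wf_inv (f : ZMod 6 → K) : (wf f : Hgp K γ)⁻¹ = wf (-f) := by
  refine Hgp.ext (funext fun l => ?_) ?_
  · simp [wf]
  · simp [wf]

theorem wf_one : (1 : Hgp K γ) = wf 0 := rfl

theorem wf_pow (f : ZMod 6 → K) (n : ℕ) : (wf f : Hgp K γ) ^ n = wf (fun l => (n : K) * f l) := by
  induction n with
  | zero =>
    rw [pow_zero, wf_one]
    congr 1
    funext l
    simp
  | succ n ih =>
    rw [pow_succ, ih, wf_mul]
    congr 1
    funext l
    simp only [Pi.add_apply]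
    push_cast
    ring

theorem xm_mul (y z : O) : (xm y * xm z : Hgp K γ) = xm (y + z) := by
  refine Hgp.ext (funext fun l => ?_) ?_
  · simp [xm]
  · simp [xm]

theorem xm_cnj (y : O) (f : ZMod 6 → K) :
    (xm y * wf f * (xm y)⁻¹ : Hgp K γ) = wf (fun l => ((γ ^ ph l y : Kˣ) : K) * f l) := by
  refine Hgp.ext (funext fun l => ?_) ?_
  · simp [xm, wf]
  · simp [xm, wf]

theorem wf_inj {f g : ZMod 6 → K} (h : (wf f : Hgp K γ) = wf g) (l : ZMod 6) : f l = g l :=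
  congrFun (congrArg Hgp.f h) l

theorem rel1 (y1 y2 : O) (f : ZMod 6 → K)
    (hr : w1 (xm y1) (xm y2) (wf f) = (1 : Hgp K γ)) (l : ZMod 6) :
    (((γ ^ ph l y1 : Kˣ) : K) - 1) * (((γ ^ ph l y2 : Kˣ) : K) - 1) * f l = 0 := by
  unfold w1 at hr
  rw [xm_mul, xm_cnj, xm_cnj, xm_cnj, wf_inv, wf_inv, wf_mul, wf_mul, wf_mul, wf_one] at hr
  have h := wf_inj hr l
  simp only [Pi.add_apply, Pi.neg_apply, Pi.zero_apply, ph_add, zpow_add, Units.val_mul] at h
  linear_combination h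

theorem rel2 (y1 y2 : O) (f : ZMod 6 → K)
    (hr : w2 (xm y1) (xm y2) (wf f) = (1 : Hgp K γ)) (l : ZMod 6) :
    (((γ ^ ph l y1 : Kˣ) : K) + ((γ ^ ph l y2 : Kˣ) : K) - 7) *
      (((γ ^ ph l y1 : Kˣ) : K) + ((γ ^ ph l y2 : Kˣ) : K) - 37) * f l = 0 := by
  unfold w2 at hr
  rw [pow_two (xm y1), pow_two (xm y2), xm_mul, xm_mul, xm_mul, xm_cnj, xm_cnj, xm_cnj, xm_cnj,
    xm_cnj, wf_pow, wf_pow, wf_pow, wf_pow, wf_inv, wf_inv, wf_mul, wf_mul, wf_mul, wf_mul, wf_mul,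
    wf_one] at hr
  have h := wf_inj hr l
  simp only [Pi.add_apply, Pi.neg_apply, Pi.zero_apply, ph_add, zpow_add, Units.val_mul] at h
  push_cast at h
  linear_combination h

theorem rel3 (y : O) (f : ZMod 6 → K)
    (hr : w3 (xm y) (wf f) = (1 : Hgp K γ)) (l : ZMod 6) :
    (((γ ^ ph l y : Kˣ) : K) - 1) * f l = 0 := by
  unfold w3 at hr
  have h1 : wf f * xm y = (xm y * wf f : Hgp K γ) := by
    have h2 := mul_inv_eq_one.mp hr
    have h3 := mul_inv_eq_iff_eq_mul.mp h2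
    exact h3
  have h4 := congrFun (congrArg Hgp.f h1) l
  simp [wf, xm] at h4
  linear_combination -h4

end H

attribute [irreducible] w1 w2 w3

/-- The equations at one slot. -/
theorem wteq (d : Dat) (cc : Fin d.m → Bool) (ε : ZMod 6) (y1 y2 : O) (f : ZMod 6 → d.K)
    (h1 : w1 (xm y1) (xm y2) (wf f) = (1 : Hgp d.K (gam d cc)))
    (h2 : w2 (xm y1) (xm y2) (wf f) = (1 : Hgp d.K (gam d cc)))
    (h3 : w3 (xm (us ε * y1)) (wf f) = (1 : Hgp d.K (gam d cc)))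
    (h4 : w3 (xm (us ε * y2)) (wf f) = (1 : Hgp d.K (gam d cc))) :
    WtEq d cc ε y1 y2 f := by
  intro a l ha
  have : Fact (d.r a).Prime := ⟨d.rp a⟩
  have e1 := congrFun (rel1 y1 y2 f h1 l) a
  have e2 := congrFun (rel2 y1 y2 f h2 l) a
  have e3 := congrFun (rel3 (us ε * y1) f h3 l) a
  have e4 := congrFun (rel3 (us ε * y2) f h4 l) a
  rw [ph_us] at e3 e4
  simp only [Pi.mul_apply, Pi.sub_apply, Pi.add_apply, Pi.ofNat_apply] at e1 e2 e3 e4
  refine ⟨?_, ?_, ?_, ?_⟩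
  · exact (mul_eq_zero.mp e1).resolve_right ha
  · exact (mul_eq_zero.mp e2).resolve_right ha
  · exact sub_eq_zero.mp ((mul_eq_zero.mp e3).resolve_right ha)
  · exact sub_eq_zero.mp ((mul_eq_zero.mp e4).resolve_right ha)

section B
variable {n : ℕ} {K : Type} [CommRing K] {γ₁ γ₂ : Kˣ}

/-- The embedding of `U` at the coordinate `x0`. -/
def io (x0 : ZMod n) : U K γ₁ γ₂ →* Blk n K γ₁ γ₂ :=
  (SemidirectProduct.inl).comp (MonoidHom.mulSingle (fun _ : ZMod n => U K γ₁ γ₂) x0)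

theorem io_apply (x0 : ZMod n) (u : U K γ₁ γ₂) :
    io x0 u = SemidirectProduct.inl (Pi.mulSingle x0 u) := rfl

theorem io_inj (x0 : ZMod n) (u : U K γ₁ γ₂) (h : io x0 u = 1) : u = 1 := by
  rw [io_apply] at h
  have h1 : (Pi.mulSingle x0 u : NN n K γ₁ γ₂) = 1 :=
    SemidirectProduct.inl_injective (by rw [h, map_one])
  have h2 := congrFun h1 x0
  rwa [Pi.mulSingle_eq_same] at h2

theorem uact_one (d : D) : uact d (1 : U K γ₁ γ₂) = 1 := by
  have h := uact_mul d (1 : U K γ₁ γ₂) 1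
  rw [one_mul] at h
  exact (left_eq_mul.mp h)

/-- Conjugation with `q` without shift. -/
theorem inr_cnj (q : Q0) (hd : q.d = 0) (x0 : ZMod n) (u : U K γ₁ γ₂) :
    (SemidirectProduct.inr q * io x0 u * (SemidirectProduct.inr q)⁻¹ : Blk n K γ₁ γ₂) =
      io x0 (uact (dv n q x0) u) := by
  rw [io_apply, io_apply, ← map_inv SemidirectProduct.inr, ← SemidirectProduct.inl_aut]
  congr 1
  rw [nact_apply]
  funext x
  simp only [nactF, hd, Int.cast_zero, sub_zero]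
  by_cases hx : x = x0
  · subst hx
    rw [Pi.mulSingle_eq_same, Pi.mulSingle_eq_same]
  · rw [Pi.mulSingle_eq_of_ne hx, Pi.mulSingle_eq_of_ne hx, uact_one]

theorem uact_um_fst (s : ZMod 6) (v : O × O) :
    (uact (s, 0) (um v : U K γ₁ γ₂)).1 = xm (us s * v.1) := by
  refine Hgp.ext (funext fun l => ?_) ?_
  · simp [xm, uact, um]
  · simp [xm, uact, um]
theorem uact_um_snd (s : ZMod 6) (v : O × O) :
    (uact (s, 0) (um v : U K γ₁ γ₂)).2 = xm (us s * v.2) := by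
  refine Hgp.ext (funext fun l => ?_) ?_
  · simp [xm, uact, um]
  · simp [xm, uact, um]

end B

theorem holds : S_wt := by
  intro d cc n _ c h x0 ε m1 m2 w hR hN
  obtain ⟨c', hc'⟩ : ∃ c' : Fin 7 → Blk n d.K (gam d cc) (gam d cc), c' = fun j =>
    (SemidirectProduct.inl h)⁻¹ * c j * SemidirectProduct.inl h := ⟨_, rfl⟩
  have hlift : ∀ v, FreeGroup.lift c' v =
      (SemidirectProduct.inl h)⁻¹ * FreeGroup.lift c v * SemidirectProduct.inl h := by
    intro v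
    have h1 : FreeGroup.lift c' =
        ((MulAut.conj ((SemidirectProduct.inl h : Blk n d.K (gam d cc) (gam d cc))⁻¹)).toMonoidHom).comp
          (FreeGroup.lift c) := by
      refine FreeGroup.ext_hom _ _ fun j => ?_
      simp [hc']
    rw [h1]
    simp
  have hR' : ∀ v ∈ Sig, FreeGroup.lift c' v = 1 := by
    intro v hv
    rw [hlift, hR v hv]
    simp
  have h31 : ∀ (a b e : Blk n d.K (gam d cc) (gam d cc)), a = b * e * b⁻¹ → b⁻¹ * a * b = e := by
    intro a b e hab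
    rw [hab]
    group
  have h0 : c' 0 = io x0 (um m1) := by
    rw [hc']
    exact h31 _ _ _ hN.c0
  have h1 : c' 1 = io x0 (um m2) := by
    rw [hc']
    exact h31 _ _ _ hN.c1
  have h2 : c' 2 = io x0 (uw w) := by
    rw [hc']
    exact h31 _ _ _ hN.c2
  have h3 : c' 3 = SemidirectProduct.inr (c 3).right := by
    rw [hc']
    exact h31 _ _ _ (hN.cq 3 (by decide))
  have hq : dv n (c 3).right x0 = (ε, 0) := by
    rw [hN.q3 x0, if_pos rfl]
  have hB : ∀ u, (c' 3 * io x0 u * (c' 3)⁻¹ : Blk n d.K (gam d cc) (gam d cc)) =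
      io x0 (uact (ε, 0) u) := by
    intro u
    rw [h3, inr_cnj _ hN.d3, hq]
  have r1 := hR' _ mem1
  have r2 := hR' _ mem2
  have r3 := hR' _ mem3
  have r4 := hR' _ mem4
  have l0 : FreeGroup.lift c' X1 = io x0 (um m1) := by rw [X1, FreeGroup.lift_apply_of, h0]
  have l1 : FreeGroup.lift c' X2 = io x0 (um m2) := by rw [X2, FreeGroup.lift_apply_of, h1]
  have l2 : FreeGroup.lift c' Wd = io x0 (uw w) := by rw [Wd, FreeGroup.lift_apply_of, h2]
  have l3 : FreeGroup.lift c' (cnj Bt X1) = io x0 (uact (ε, 0) (um m1)) := by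
    rw [cnj, map_mul, map_mul, map_inv, l0, Bt, FreeGroup.lift_apply_of, hB]
  have l4 : FreeGroup.lift c' (cnj Bt X2) = io x0 (uact (ε, 0) (um m2)) := by
    rw [cnj, map_mul, map_mul, map_inv, l1, Bt, FreeGroup.lift_apply_of, hB]
  rw [map_w1, l0, l1, l2, ← map_w1] at r1
  rw [map_w2, l0, l1, l2, ← map_w2] at r2
  rw [map_w3, l3, l2, ← map_w3] at r3
  rw [map_w3, l4, l2, ← map_w3] at r4
  have s1 := io_inj _ _ r1
  have s2 := io_inj _ _ r2
  have s3 := io_inj _ _ r3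
  have s4 := io_inj _ _ r4
  have a1 := congrArg (MonoidHom.fst _ _) s1
  have a2 := congrArg (MonoidHom.fst _ _) s2
  have a3 := congrArg (MonoidHom.fst _ _) s3
  have a4 := congrArg (MonoidHom.fst _ _) s4
  have b1 := congrArg (MonoidHom.snd _ _) s1
  have b2 := congrArg (MonoidHom.snd _ _) s2
  have b3 := congrArg (MonoidHom.snd _ _) s3
  have b4 := congrArg (MonoidHom.snd _ _) s4
  rw [map_w1, map_one] at a1 b1
  rw [map_w2, map_one] at a2 b2
  rw [map_w3, map_one, MonoidHom.coe_fst, uact_um_fst] at a3 a4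
  rw [map_w3, map_one, MonoidHom.coe_snd, uact_um_snd] at b3 b4
  exact ⟨wteq d cc ε m1.1 m2.1 w.1 a1 a2 a3 a4, wteq d cc ε m1.2 m2.2 w.2 b1 b2 b3 b4⟩

end
end Pool.Agent.H97.ECwt
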