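import Pool.Agent.H646.EC.Asm2
import Pool.Agent.H646.EC.P_L
import Pool.Agent.H646.EC.P_alg
import Pool.Agent.H646.EC.P_bf
import Pool.Agent.H646.EC.P_blk
import Pool.Agent.H646.EC.P_ch
import Pool.Agent.H646.EC.P_coc
import Pool.Agent.H646.EC.P_diff
import Pool.Agent.H646.EC.P_ef
import Pool.Agent.H646.EC.P_faith
import Pool.Agent.H646.EC.P_fo
import Pool.Agent.H646.EC.P_gen
import Pool.Agent.H646.EC.P_lab0
import Pool.Agent.H646.EC.P_lam
import Pool.Agent.H646.EC.P_lat
import Pool.Agent.H646.EC.P_mark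
import Pool.Agent.H646.EC.P_mono
import Pool.Agent.H646.EC.P_nn
import Pool.Agent.H646.EC.P_norm
import Pool.Agent.H646.EC.P_odd
import Pool.Agent.H646.EC.P_pig
import Pool.Agent.H646.EC.P_pos
import Pool.Agent.H646.EC.P_pr
import Pool.Agent.H646.EC.P_std
import Pool.Agent.H646.EC.P_swap
import Pool.Agent.H646.EC.P_tt
import Pool.Agent.H646.EC.P_tw
import Pool.Agent.H646.EC.P_um
import Pool.Agent.H646.EC.P_wd
import Pool.Agent.H646.EC.P_wt

set_option autoImplicit false

/-! # The final theorem of project EC -/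

namespace Pool.Agent.H646.EC

open Pool.Agent.H67R3.CondDefs

theorem main : ∃ (G H : Type) (_ : Group G) (_ : Group H), Group.FG G ∧ Group.FG H ∧
    ElemEquiv G H ∧ Condensed G ∧ ¬ Condensed H := by
  have hnn : S_nn := Pool.Agent.H746.ECnn.holds
  have hwd : S_wd := Pool.Agent.H187.ECwd.holds
  have hlat : S_lat := Pool.Agent.H94.EClat.holds
  exact final (hef := Pool.Agent.H909.ECef.holds)
    (hch := Pool.Agent.H824.EC_ch.holds Pool.Agent.H357.ECpig.holds Pool.Agent.H549.EC_pr.holds)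
    (htw := Pool.Agent.H59.ECtw.holds)
    (hum := Pool.Agent.H860.ECum.holds hlat)
    (hblk := Pool.Agent.H671.EC_blk.holds)
    (hbf := Pool.Agent.H703.ECbf.holds)
    (hwd := hwd)
    (hfo := Pool.Agent.H828.EC_fo.holds hwd)
    (hnn := hnn)
    (hphi := Pool.Agent.H746.ECnn.holds_phi)
    (hodd := Pool.Agent.H935.EC_odd.holds)
    (hL := Pool.Agent.H111.EC_L.holds hnn)
    (hstd := Pool.Agent.H975.ECstd.holds)
    (hswap := Pool.Agent.H349.ECswap.holds)
    (hdiff := Pool.Agent.H726.EC_diff.holds hnn)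
    (hmark := Pool.Agent.H199.EC_mark.holds)
    (hlab0 := Pool.Agent.H772.EClab0.holds)
    (hmono := Pool.Agent.H997.ECmono.holds)
    (hnorm := Pool.Agent.H364.ECNorm.holds)
    (hpos := Pool.Agent.H405.ECpos.holds)
    (hgen := Pool.Agent.H127.ECgen.holds)
    (hwt := Pool.Agent.H97.ECwt.holds)
    (halg := Pool.Agent.H389.EC_alg.holds)
    (hlam := Pool.Agent.H120.EClam.holds)
    (htt := Pool.Agent.H996.EC_tt.holds)
    (hcoc := Pool.Agent.H539.EC.Coc.holds)
    (hfaith := Pool.Agent.H903.ECfaith.holds hnn)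

end Pool.Agent.H646.EC
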