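import Pool.Agent.H646.EC.Stm

/-!
# S_mark (helper199 for helper646): condensed groups from one marking
-/

set_option autoImplicit false

namespace Pool.Agent.H199.EC_mark

open Pool.Agent.H67R3.CondDefs

theorem holds : Pool.Agent.H646.EC.S_mark := by
  intro G _ n ψ₀ hψ₀ hW
  refine ⟨Group.fg_of_surjective hψ₀, ?_⟩
  rintro ⟨⟨m, N⟩, hN⟩
  obtain ⟨π, hπ, hker⟩ := hN
  apply Pool.Agent.H67R3.Cond.not_isolated_of
  intro W
  change Finset (FreeGroup (Fin m)) at W
  change FreeGroup (Fin m) →* G at π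
  change π.ker = N.1 at hker
  classical
  obtain ⟨a, ha⟩ : ∃ a : Fin m → FreeGroup (Fin n), ∀ i, ψ₀ (a i) = π (FreeGroup.of i) :=
    ⟨fun i => (hψ₀ (π (FreeGroup.of i))).choose, fun i => (hψ₀ (π (FreeGroup.of i))).choose_spec⟩
  obtain ⟨b, hb⟩ : ∃ b : Fin n → FreeGroup (Fin m), ∀ j, π (b j) = ψ₀ (FreeGroup.of j) :=
    ⟨fun j => (hπ (ψ₀ (FreeGroup.of j))).choose, fun j => (hπ (ψ₀ (FreeGroup.of j))).choose_spec⟩
  have hα : ∀ w, ψ₀ (FreeGroup.lift a w) = π w := by
    have h : ψ₀.comp (FreeGroup.lift a) = π := by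
      refine FreeGroup.ext_hom _ _ fun i => ?_
      rw [MonoidHom.comp_apply, FreeGroup.lift_apply_of, ha]
    exact fun w => DFunLike.congr_fun h w
  have hβ : ∀ v, π (FreeGroup.lift b v) = ψ₀ v := by
    have h : π.comp (FreeGroup.lift b) = ψ₀ := by
      refine FreeGroup.ext_hom _ _ fun i => ?_
      rw [MonoidHom.comp_apply, FreeGroup.lift_apply_of, hb]
    exact fun w => DFunLike.congr_fun h w
  obtain ⟨ψ, hψ, h1, h2⟩ := hW (W.image (FreeGroup.lift a) ∪ Finset.univ.image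
    (fun j : Fin n => (FreeGroup.of j)⁻¹ * FreeGroup.lift a (FreeGroup.lift b (FreeGroup.of j))))
  have hall : ∀ v, ψ (FreeGroup.lift a (FreeGroup.lift b v)) = ψ v := by
    have h : (ψ.comp (FreeGroup.lift a)).comp (FreeGroup.lift b) = ψ := by
      refine FreeGroup.ext_hom _ _ fun j => ?_
      have hmem : (FreeGroup.of j)⁻¹ * FreeGroup.lift a (FreeGroup.lift b (FreeGroup.of j)) ∈
          W.image (FreeGroup.lift a) ∪ Finset.univ.image (fun j : Fin n =>
            (FreeGroup.of j)⁻¹ * FreeGroup.lift a (FreeGroup.lift b (FreeGroup.of j))) :=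
        Finset.mem_union_right _ (Finset.mem_image_of_mem _ (Finset.mem_univ j))
      have h3 := (h1 _ hmem).2 (by
        rw [MonoidHom.mem_ker, map_mul, map_inv, hα, hβ, inv_mul_cancel])
      rw [MonoidHom.mem_ker, map_mul, map_inv, inv_mul_eq_one] at h3
      rw [MonoidHom.comp_apply, MonoidHom.comp_apply]
      exact h3.symm
    exact fun v => DFunLike.congr_fun h v
  have hsur : Function.Surjective (ψ.comp (FreeGroup.lift a)) := by
    intro g
    obtain ⟨v, rfl⟩ := hψ g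
    exact ⟨FreeGroup.lift b v, hall v⟩
  have hmem : ∀ w : FreeGroup (Fin m), w ∈ W →
      (w ∈ (ψ.comp (FreeGroup.lift a)).ker ↔ w ∈ N.1) := by
    intro w hw
    have h3 := h1 _ (Finset.mem_union_left _ (Finset.mem_image_of_mem (FreeGroup.lift a) hw))
    have h4 : w ∈ (ψ.comp (FreeGroup.lift a)).ker ↔ w ∈ π.ker := by
      rw [MonoidHom.mem_ker, MonoidHom.comp_apply, ← MonoidHom.mem_ker, h3,
        MonoidHom.mem_ker, hα, MonoidHom.mem_ker]
    rwa [hker] at h4
  have hne : (ψ.comp (FreeGroup.lift a)).ker ≠ N.1 := by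
    intro hk
    rw [← hker] at hk
    apply h2
    ext v
    rw [MonoidHom.mem_ker, ← hall, ← MonoidHom.comp_apply, ← MonoidHom.mem_ker, hk,
      MonoidHom.mem_ker, hβ, MonoidHom.mem_ker]
  exact ⟨⟨(ψ.comp (FreeGroup.lift a)).ker, MonoidHom.normal_ker _⟩,
    ⟨ψ.comp (FreeGroup.lift a), hsur, rfl⟩, hmem, fun heq => hne (congrArg Subtype.val heq)⟩

end Pool.Agent.H199.EC_mark
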